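import Mathlib

/-! # MP_6d7bb4: systems of involutive inversions in a tree (helper94) -/

set_option autoImplicit false
set_option linter.unusedSectionVars false

namespace Pool.Agent.Work.MP_6d7bb4.helper94.Tr

section gr
variable {V : Type*} {Γ : SimpleGraph V}

theorem dist_iso_le (g : Γ ≃g Γ) (hc : Γ.Connected) (x w : V) :
    Γ.dist (g x) (g w) ≤ Γ.dist x w := by
  obtain ⟨q, hq⟩ := hc.exists_walk_length_eq_dist x w
  let f : Γ →g Γ := ⟨fun v => g v, fun {a b} hab => g.map_rel_iff.mpr hab⟩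
  have h1 := SimpleGraph.dist_le (q.map f)
  rw [SimpleGraph.Walk.length_map, hq] at h1
  exact h1

theorem inv_app (g : Γ ≃g Γ) (x : V) : g⁻¹ (g x) = x := RelIso.inv_apply_self g x

theorem app_inv (g : Γ ≃g Γ) (x : V) : g (g⁻¹ x) = x := RelIso.apply_inv_self g x

theorem mul_app (g g' : Γ ≃g Γ) (x : V) : (g * g') x = g (g' x) := rfl

theorem one_app (x : V) : (1 : Γ ≃g Γ) x = x := rfl

theorem adj_iso (g : Γ ≃g Γ) {x y : V} (h : Γ.Adj x y) : Γ.Adj (g x) (g y) :=
  g.map_rel_iff.mpr h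

theorem dist_iso (g : Γ ≃g Γ) (hc : Γ.Connected) (x w : V) :
    Γ.dist (g x) (g w) = Γ.dist x w := by
  refine le_antisymm (dist_iso_le g hc x w) ?_
  have h1 := dist_iso_le g⁻¹ hc (g x) (g w)
  rwa [inv_app, inv_app] at h1

theorem conn_ind' (hc : Γ.Connected) (S : Set V) {x : V} (hx : x ∈ S)
    (h : ∀ v ∈ S, ∀ w, Γ.Adj v w → w ∈ S) (v : V) : v ∈ S := by
  have key : ∀ {u v : V}, Γ.Walk u v → u ∈ S → v ∈ S := by
    intro u v w
    induction w with
    | nil => exact fun h => h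
    | cons hadj _ ih => exact fun hu => ih (h _ hu _ hadj)
  obtain ⟨w⟩ := hc.preconnected x v
  exact key w hx

/-- the neighbour closer to `v` is unique -/
theorem closer_unique (hT : Γ.IsTree) {o i j v : V} (hi : Γ.Adj o i) (hj : Γ.Adj o j)
    (h1 : Γ.dist i v + 1 = Γ.dist o v) (h2 : Γ.dist j v + 1 = Γ.dist o v) : i = j := by
  obtain ⟨p, hp⟩ := hT.connected.exists_walk_length_eq_dist i v
  obtain ⟨q, hq⟩ := hT.connected.exists_walk_length_eq_dist j v
  have hp' : (SimpleGraph.Walk.cons hi p).IsPath :=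
    SimpleGraph.Walk.isPath_of_length_eq_dist _ (by
      rw [SimpleGraph.Walk.length_cons, hp, h1])
  have hq' : (SimpleGraph.Walk.cons hj q).IsPath :=
    SimpleGraph.Walk.isPath_of_length_eq_dist _ (by
      rw [SimpleGraph.Walk.length_cons, hq, h2])
  have h3 : (⟨_, hp'⟩ : Γ.Path o v) = ⟨_, hq'⟩ :=
    (hT.isAcyclic.subsingleton_path o v).elim _ _
  have h4 := congrArg (fun w : Γ.Path o v => w.1.getVert 1) h3
  simpa using h4

/-- a neighbour closer to `v` -/
theorem closer_exists (hc : Γ.Connected) {o v : V} (hne : o ≠ v) :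
    ∃ i, Γ.Adj o i ∧ Γ.dist i v + 1 = Γ.dist o v := by
  obtain ⟨p, hp⟩ := hc.exists_walk_length_eq_dist o v
  cases p with
  | nil => exact absurd rfl hne
  | @cons _ i _ hi q =>
    refine ⟨i, hi, ?_⟩
    rw [SimpleGraph.Walk.length_cons] at hp
    have h1 := SimpleGraph.dist_le q
    have h2 := hc.dist_triangle (u := o) (v := i) (w := v)
    rw [SimpleGraph.dist_eq_one_iff_adj.mpr hi] at h2
    omega

theorem ball_finite (hc : Γ.Connected) (hf : ∀ v, Finite {w // Γ.Adj v w}) (o : V) (R : ℕ) :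
    {v | Γ.dist o v ≤ R}.Finite := by
  induction R with
  | zero =>
    refine (Set.finite_singleton o).subset ?_
    intro v hv
    have h1 : Γ.dist o v = 0 := Nat.le_zero.mp hv
    exact ((hc.dist_eq_zero_iff).mp h1).symm
  | succ R ih =>
    have h1 : {v | Γ.dist o v ≤ R + 1} ⊆
        {v | Γ.dist o v ≤ R} ∪ ⋃ u ∈ {v | Γ.dist o v ≤ R}, {w | Γ.Adj u w} := by
      intro v hv
      have hv' : Γ.dist o v ≤ R + 1 := hv
      by_cases h2 : Γ.dist o v ≤ R
      · exact Or.inl h2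
      · right
        have hne : v ≠ o := by
          rintro rfl
          rw [SimpleGraph.dist_self] at h2
          omega
        obtain ⟨i, hi, hd⟩ := closer_exists hc hne
        rw [SimpleGraph.dist_comm, SimpleGraph.dist_comm (u := v)] at hd
        refine Set.mem_biUnion (x := i) ?_ ?_
        · show Γ.dist o i ≤ R
          omega
        · exact hi.symm
    refine (ih.union (ih.biUnion (fun u _ => ?_))).subset h1
    exact Set.finite_coe_iff.mp (hf u)

end gr

section sys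
variable {V : Type*} {Γ : SimpleGraph V} {o : V}

/-- a system of involutive inversions of the edges at `o` -/
structure Sys (Γ : SimpleGraph V) (o : V) (T : {y // Γ.Adj o y} → (Γ ≃g Γ)) : Prop where
  ap : ∀ y, T y o = y.1
  sq : ∀ y, T y * T y = 1

theorem Sys.ap' {T : {y // Γ.Adj o y} → (Γ ≃g Γ)} (h : Sys Γ o T) (y : {y // Γ.Adj o y}) :
    T y y.1 = o := by
  have h1 := h.sq y
  have h2 : T y (T y o) = o := by
    rw [← mul_app, h1, one_app]
  rwa [h.ap] at h2

theorem Sys.inv {T : {y // Γ.Adj o y} → (Γ ≃g Γ)} (h : Sys Γ o T) (y : {y // Γ.Adj o y}) :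
    (T y)⁻¹ = T y := inv_eq_of_mul_eq_one_left (h.sq y)

/-- evaluation of a word -/
def ev (T : {y // Γ.Adj o y} → (Γ ≃g Γ)) (w : List {y // Γ.Adj o y}) : Γ ≃g Γ := (w.map T).prod

theorem ev_cons (T : {y // Γ.Adj o y} → (Γ ≃g Γ)) (i : {y // Γ.Adj o y})
    (w : List {y // Γ.Adj o y}) : ev T (i :: w) = T i * ev T w := by
  unfold ev
  rw [List.map_cons, List.prod_cons]

theorem ev_nil (T : {y // Γ.Adj o y} → (Γ ≃g Γ)) : ev T [] = 1 := rfl

theorem ev_append (T : {y // Γ.Adj o y} → (Γ ≃g Γ)) (u w : List {y // Γ.Adj o y}) :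
    ev T (u ++ w) = ev T u * ev T w := by
  unfold ev
  rw [List.map_append, List.prod_append]

theorem ev_rev {T : {y // Γ.Adj o y} → (Γ ≃g Γ)} (h : Sys Γ o T) (w : List {y // Γ.Adj o y}) :
    ev T w.reverse = (ev T w)⁻¹ := by
  induction w with
  | nil => rw [List.reverse_nil, ev_nil, inv_one]
  | cons i w ih =>
    rw [List.reverse_cons, ev_append, ev_cons, ev_cons, ev_nil, mul_one, mul_inv_rev, ih, h.inv]

theorem ev_mem {T : {y // Γ.Adj o y} → (Γ ≃g Γ)} {H : Subgroup (Γ ≃g Γ)} (h : ∀ y, T y ∈ H)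
    (w : List {y // Γ.Adj o y}) : ev T w ∈ H := by
  induction w with
  | nil => exact H.one_mem
  | cons i w ih =>
    rw [ev_cons]
    exact H.mul_mem (h i) ih

theorem ev_step {T : {y // Γ.Adj o y} → (Γ ≃g Γ)} (hc : Γ.Connected) (h : Sys Γ o T)
    (i : {y // Γ.Adj o y}) (v : V) : Γ.dist o (T i v) = Γ.dist i.1 v := by
  rw [← dist_iso (T i) hc i.1 v, h.ap']

theorem ev_step' {T : {y // Γ.Adj o y} → (Γ ≃g Γ)} (hc : Γ.Connected) (h : Sys Γ o T)
    (i : {y // Γ.Adj o y}) (v : V) : Γ.dist i.1 (T i v) = Γ.dist o v := by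
  rw [← dist_iso (T i) hc o v, h.ap]

theorem dist_tri1 (hc : Γ.Connected) (i : {y // Γ.Adj o y}) (v : V) :
    Γ.dist i.1 v ≤ Γ.dist o v + 1 := by
  have h6 := hc.dist_triangle (u := i.1) (v := o) (w := v)
  rw [SimpleGraph.dist_eq_one_iff_adj.mpr i.2.symm] at h6
  omega

theorem ev_dist_le {T : {y // Γ.Adj o y} → (Γ ≃g Γ)} (hc : Γ.Connected) (h : Sys Γ o T)
    (w : List {y // Γ.Adj o y}) : Γ.dist o (ev T w o) ≤ w.length := by
  induction w with
  | nil =>
    rw [ev_nil, one_app, SimpleGraph.dist_self]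
    exact Nat.zero_le _
  | cons k w ihw =>
    rw [ev_cons, mul_app, ev_step hc h, List.length_cons]
    have h6 := dist_tri1 hc k (ev T w o)
    omega

/-- reduced words move `o` to distance equal to their length -/
theorem ev_dist (hT : Γ.IsTree) {T : {y // Γ.Adj o y} → (Γ ≃g Γ)} (h : Sys Γ o T)
    (w : List {y // Γ.Adj o y}) (hw : List.IsChain (· ≠ ·) w) :
    Γ.dist o (ev T w o) = w.length := by
  have hc := hT.connected
  induction w with
  | nil =>
    rw [ev_nil, one_app, SimpleGraph.dist_self]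
    rfl
  | cons i w ih =>
    rw [ev_cons, mul_app, ev_step hc h, List.length_cons]
    cases w with
    | nil =>
      rw [ev_nil, one_app, SimpleGraph.dist_eq_one_iff_adj.mpr i.2.symm]
      rfl
    | cons j w =>
      rw [List.isChain_cons_cons] at hw
      have ih' := ih hw.2
      have ih2 := ih'
      rw [ev_cons, mul_app, ev_step hc h, List.length_cons] at ih2
      have h3 := ev_dist_le hc h w
      have h4 := dist_tri1 hc j (ev T w o)
      have h5 : Γ.dist j.1 (ev T (j :: w) o) + 1 = Γ.dist o (ev T (j :: w) o) := by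
        rw [ih', ev_cons, mul_app, ev_step' hc h, List.length_cons]
        omega
      rcases hT.dist_eq_dist_add_one_of_adj (ev T (j :: w) o) i.2 with h1 | h1
      · exfalso
        apply hw.1
        rw [SimpleGraph.dist_comm, SimpleGraph.dist_comm (v := i.1)] at h1
        exact Subtype.ext (closer_unique hT i.2 j.2 h1.symm h5)
      · rw [SimpleGraph.dist_comm, SimpleGraph.dist_comm (v := o)] at h1
        rw [h1, ih']

/-- simultaneous reduction -/
theorem reduce {T T' : {y // Γ.Adj o y} → (Γ ≃g Γ)} (h : Sys Γ o T) (h' : Sys Γ o T')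
    (w : List {y // Γ.Adj o y}) : ∃ u, List.IsChain (· ≠ ·) u ∧ ev T w = ev T u ∧
      ev T' w = ev T' u := by
  classical
  induction w with
  | nil => exact ⟨[], List.isChain_nil, rfl, rfl⟩
  | cons i w ih =>
    obtain ⟨u, hu, h1, h2⟩ := ih
    cases u with
    | nil =>
      refine ⟨[i], List.isChain_singleton _, ?_, ?_⟩
      · rw [ev_cons, ev_cons, h1]
      · rw [ev_cons, ev_cons, h2]
    | cons j u =>
      by_cases hij : i = j
      · refine ⟨u, hu.tail, ?_, ?_⟩
        · rw [ev_cons, h1, ev_cons, hij, ← mul_assoc, h.sq, one_mul]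
        · rw [ev_cons, h2, ev_cons, hij, ← mul_assoc, h'.sq, one_mul]
      · refine ⟨i :: j :: u, List.isChain_cons_cons.mpr ⟨hij, hu⟩, ?_, ?_⟩
        · rw [ev_cons, ev_cons T i (j :: u), h1]
        · rw [ev_cons, ev_cons T' i (j :: u), h2]

theorem ev_one (hT : Γ.IsTree) {T T' : {y // Γ.Adj o y} → (Γ ≃g Γ)} (h : Sys Γ o T)
    (h' : Sys Γ o T') {w : List {y // Γ.Adj o y}} (hw : ev T w o = o) : ev T' w = 1 := by
  obtain ⟨u, hu, h1, h2⟩ := reduce h h' w
  rw [h1] at hw
  have h3 := ev_dist hT h u hu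
  rw [hw, SimpleGraph.dist_self] at h3
  have h4 : u = [] := List.eq_nil_of_length_eq_zero h3.symm
  rw [h2, h4, ev_nil]

theorem ev_eq (hT : Γ.IsTree) {T T' : {y // Γ.Adj o y} → (Γ ≃g Γ)} (h : Sys Γ o T)
    (h' : Sys Γ o T') {u w : List {y // Γ.Adj o y}} (hw : ev T u o = ev T w o) :
    ev T' u = ev T' w := by
  have h1 : ev T (w.reverse ++ u) o = o := by
    rw [ev_append, ev_rev h, mul_app, hw, inv_app]
  have h2 := ev_one hT h h' h1
  rw [ev_append, ev_rev h', inv_mul_eq_one] at h2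
  exact h2.symm

theorem ev_adj {T : {y // Γ.Adj o y} → (Γ ≃g Γ)} (h : Sys Γ o T) (w : List {y // Γ.Adj o y})
    {v : V} (hv : Γ.Adj (ev T w o) v) : ∃ i, v = ev T (w ++ [i]) o := by
  have h1 : Γ.Adj o ((ev T w)⁻¹ v) := by
    have := adj_iso (ev T w)⁻¹ hv
    rwa [inv_app] at this
  refine ⟨⟨_, h1⟩, ?_⟩
  rw [ev_append, ev_cons, ev_nil, mul_one, mul_app, h.ap, app_inv]

theorem ev_surj (hc : Γ.Connected) {T : {y // Γ.Adj o y} → (Γ ≃g Γ)} (h : Sys Γ o T) (v : V) :
    ∃ w, ev T w o = v := by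
  refine conn_ind' hc {v | ∃ w, ev T w o = v} (x := o) ⟨[], rfl⟩ ?_ v
  rintro _ ⟨w, rfl⟩ v hv
  obtain ⟨i, hi⟩ := ev_adj h w hv
  exact ⟨_, hi.symm⟩

/-- two systems are conjugate -/
theorem sys_conj (hT : Γ.IsTree) {T T' : {y // Γ.Adj o y} → (Γ ≃g Γ)} (h : Sys Γ o T)
    (h' : Sys Γ o T') : ∃ a : Γ ≃g Γ, ∀ y, a * T y * a⁻¹ = T' y := by
  classical
  have key : ∀ {T T' : {y // Γ.Adj o y} → (Γ ≃g Γ)}, Sys Γ o T → Sys Γ o T' →
      ∃ f : V → V, ∀ w, f (ev T w o) = ev T' w o := by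
    intro T T' h h'
    choose c hc using ev_surj hT.connected h
    refine ⟨fun v => ev T' (c v) o, fun w => ?_⟩
    show ev T' (c (ev T w o)) o = ev T' w o
    rw [ev_eq hT h h' (hc (ev T w o))]
  obtain ⟨f, hf⟩ := key h h'
  obtain ⟨f', hf'⟩ := key h' h
  have h1 : ∀ v, f' (f v) = v := by
    intro v
    obtain ⟨w, rfl⟩ := ev_surj hT.connected h v
    rw [hf, hf']
  have h2 : ∀ v, f (f' v) = v := by
    intro v
    obtain ⟨w, rfl⟩ := ev_surj hT.connected h' v
    rw [hf', hf]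
  have hadj : ∀ {T T' : {y // Γ.Adj o y} → (Γ ≃g Γ)}, Sys Γ o T → Sys Γ o T' →
      ∀ f : V → V, (∀ w, f (ev T w o) = ev T' w o) → ∀ v w, Γ.Adj v w → Γ.Adj (f v) (f w) := by
    intro T T' h h' f hf v w hvw
    obtain ⟨u, rfl⟩ := ev_surj hT.connected h v
    obtain ⟨i, rfl⟩ := ev_adj h u hvw
    rw [hf, hf, ev_append, ev_cons, ev_nil, mul_one, mul_app, h'.ap]
    exact adj_iso _ i.2
  let a : Γ ≃g Γ :=
    { toFun := f
      invFun := f'
      left_inv := h1
      right_inv := h2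
      map_rel_iff' := by
        intro v w
        constructor
        · intro h3
          have h4 := hadj h' h f' hf' _ _ h3
          have h5 : f' (f v) = v := h1 v
          have h6 : f' (f w) = w := h1 w
          have h7 : Γ.Adj (f' (f v)) (f' (f w)) := h4
          rwa [h5, h6] at h7
        · intro h3
          exact hadj h h' f hf _ _ h3 }
  have ha : ∀ v, a v = f v := fun _ => rfl
  refine ⟨a, fun y => ?_⟩
  rw [mul_inv_eq_iff_eq_mul]
  ext v
  obtain ⟨w, rfl⟩ := ev_surj hT.connected h v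
  rw [mul_app, mul_app, ha, ha, ← mul_app, ← ev_cons, hf, hf, ev_cons, mul_app]

end sys

end Pool.Agent.Work.MP_6d7bb4.helper94.Tr
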