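import Pool.Agent.Work.MP_6d7bb4_helper94.PStab

/-! # MP_6d7bb4: semisimplification of modules (helper94) -/

set_option autoImplicit false
set_option linter.unusedSectionVars false

namespace Pool.Agent.Work.MP_6d7bb4.helper94.Ps

open Qd

universe u v

section semi
variable {X : Type v} [Group X]

/-- fixed points -/
def Fx {U : Type u} [AddCommGroup U] (φ : X →* AddMonoid.End U) (A : Subgroup X) :
    AddSubgroup U where
  carrier := {u | ∀ a ∈ A, φ a u = u}
  zero_mem' := fun a _ => map_zero _
  add_mem' := by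
    intro u v hu hv a ha
    rw [map_add, hu a ha, hv a ha]
  neg_mem' := by
    intro u hu a ha
    rw [map_neg, hu a ha]

theorem mem_Fx {U : Type u} [AddCommGroup U] {φ : X →* AddMonoid.End U} {A : Subgroup X} {u : U} :
    u ∈ Fx φ A ↔ ∀ a ∈ A, φ a u = u := Iff.rfl

/-- `ψ` is a semisimplification of `φ` -/
structure Ss {V U : Type u} [AddCommGroup V] [AddCommGroup U] (p : ℕ)
    (φ : X →* AddMonoid.End V) (ψ : X →* AddMonoid.End U) : Prop where
  ex : ∀ u : U, p • u = 0
  np : ∀ N : Subgroup X, (∀ x, ∀ n ∈ N, x * n * x⁻¹ ∈ N) →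
    (∀ n ∈ N, ∃ k : ℕ, ψ (n ^ p ^ k) = 1) → ∀ n ∈ N, ψ n = 1
  kp : ∀ x, ψ x = 1 → ∃ k : ℕ, φ (x ^ p ^ k) = 1
  k1 : ∀ x, φ x = 1 → ψ x = 1
  qd : ∀ a b : X, (∀ v, φ a (φ b v - v) = φ b v - v) → ∀ u, ψ a (ψ b u - u) = ψ b u - u
  cd : ∀ A : Subgroup X, Nat.card U * Nat.card (Fx φ A) ≤ Nat.card V * Nat.card (Fx ψ A)

theorem card_le_ker {A B : Type*} [AddCommGroup A] [AddCommGroup B] [Finite A] [Finite B]
    (f : A →+ B) : Nat.card A ≤ Nat.card f.ker * Nat.card B := by
  rw [AddSubgroup.card_eq_card_quotient_mul_card_addSubgroup f.ker, mul_comm]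
  refine Nat.mul_le_mul_left _ ?_
  exact Nat.card_le_card_of_injective _ (QuotientAddGroup.kerLift_injective f)

/-- an irreducible module has no nontrivial normal `p`-subgroups acting -/
theorem irr_act {p : ℕ} (hp : p.Prime) {U : Type u} [AddCommGroup U] [Finite U]
    (hpU : ∀ w : U, p • w = 0) (ψ : X →* AddMonoid.End U)
    (hirr : ∀ W : AddSubgroup U, Inv ψ W → W = ⊥ ∨ W = ⊤) (N : Subgroup X)
    (hN : ∀ x, ∀ n ∈ N, x * n * x⁻¹ ∈ N) (hNp : ∀ n ∈ N, ∃ k : ℕ, ψ (n ^ p ^ k) = 1) :
    ∀ n ∈ N, ψ n = 1 := by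
  rcases subsingleton_or_nontrivial U with hs | hne
  · intro n _
    refine AddMonoidHom.ext (fun v => ?_)
    exact Subsingleton.elim _ _
  have h1 : N.map ψ.toHomUnits = ⊥ := by
    refine irr_noP hp hpU (Y := ψ.toHomUnits.range) ?_ hne ?_ ?_ ?_
    · intro W hW
      refine hirr W (fun x w hw => ?_)
      exact hW (ψ.toHomUnits x) ⟨x, rfl⟩ w hw
    · rintro _ ⟨n, _, rfl⟩
      exact ⟨n, rfl⟩
    · rintro _ ⟨x, rfl⟩ _ ⟨n, hn, rfl⟩
      exact ⟨x * n * x⁻¹, hN x n hn, by rw [map_mul, map_mul, map_inv]⟩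
    · rintro ⟨_, n, hn, rfl⟩
      obtain ⟨k, hk⟩ := hNp n hn
      refine ⟨k, Subtype.ext (Units.ext ?_)⟩
      show ((ψ.toHomUnits n ^ p ^ k : (AddMonoid.End U)ˣ) : AddMonoid.End U) = 1
      rw [← map_pow]
      exact hk
  intro n hn
  have h2 : ψ.toHomUnits n ∈ N.map ψ.toHomUnits := ⟨n, hn, rfl⟩
  rw [h1, Subgroup.mem_bot] at h2
  exact congrArg Units.val h2

/-- if `x` acts trivially on `W` and on the quotient then `x ^ p` acts trivially -/
theorem two_step {p : ℕ} {V : Type u} [AddCommGroup V] (hpV : ∀ w : V, p • w = 0)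
    (φ : X →* AddMonoid.End V) {W : AddSubgroup V} {x : X} (h1 : ∀ w ∈ W, φ x w = w)
    (h2 : ∀ v, φ x v - v ∈ W) : φ (x ^ p) = 1 := by
  have hp0 : (p : AddMonoid.End V) = 0 := by
    ext w
    rw [AddMonoid.End.natCast_apply, hpV]
    rfl
  obtain ⟨u, hu⟩ : ∃ u, u = φ x - 1 := ⟨_, rfl⟩
  have hav : ((φ.toHomUnits x : (AddMonoid.End V)ˣ) : AddMonoid.End V) = 1 + u := by
    rw [hu]
    show φ x = 1 + (φ x - 1)
    abel
  have huu : u * u = 0 := by
    refine AddMonoidHom.ext (fun v => ?_)
    have e1 : ∀ v, u v = φ x v - v := by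
      intro v
      rw [hu]
      rfl
    show u (u v) = 0
    rw [e1, e1, h1 _ (h2 v), sub_self]
  have h3 := pow_p (Λ := AddMonoid.End V) hav huu hp0
  have h4 := congrArg Units.val h3
  rw [Units.val_pow_eq_pow_val] at h4
  rw [map_pow]
  exact h4

theorem semi {p : ℕ} (hp : p.Prime) [Finite X] : ∀ n : ℕ, ∀ (V : Type u) [AddCommGroup V]
    [Finite V] (φ : X →* AddMonoid.End V), Nat.card V ≤ n → (∀ v : V, p • v = 0) →
    ∃ (U : Type u) (_ : AddCommGroup U) (_ : Finite U) (ψ : X →* AddMonoid.End U),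
      Ss p φ ψ := by
  intro n
  induction n with
  | zero =>
    intro V _ _ φ h
    have := Nat.card_pos (α := V)
    omega
  | succ n ih =>
    intro V _ _ φ hV hpV
    rcases subsingleton_or_nontrivial V with hs | hne
    · refine ⟨V, inferInstance, inferInstance, φ, hpV, ?_, ?_, fun x h => h, fun a b h => h,
        fun A => le_refl _⟩
      · intro N _ _ n _
        refine AddMonoidHom.ext (fun v => ?_)
        exact Subsingleton.elim _ _
      · intro x _
        refine ⟨0, AddMonoidHom.ext (fun v => ?_)⟩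
        exact Subsingleton.elim _ _
    · have hfin : {W : AddSubgroup V | Inv φ W ∧ W ≠ ⊤}.Finite := Set.toFinite _
      obtain ⟨W, hW⟩ := hfin.exists_maximal ⟨⊥, inv_bot, bot_ne_top⟩
      obtain ⟨⟨hWi, hWne⟩, hmax⟩ := hW
      have hcardW : Nat.card W < Nat.card V := by
        refine lt_of_le_of_ne (AddSubgroup.card_le_card_addGroup W) ?_
        intro h
        exact hWne (AddSubgroup.eq_top_of_card_eq W h)
      have hpW : ∀ w : W, p • w = 0 := by
        intro w
        apply Subtype.ext
        rw [AddSubgroup.coe_nsmul]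
        exact hpV w.1
      have hpQ : ∀ w : V ⧸ W, p • w = 0 := by
        intro w
        obtain ⟨v, rfl⟩ := QuotientAddGroup.mk_surjective w
        rw [← QuotientAddGroup.mk_nsmul, hpV v]
        rfl
      obtain ⟨U, iU, fU, ψ, hψ⟩ := ih W (ra hWi) (by omega) hpW
      have hirr : ∀ W' : AddSubgroup (V ⧸ W), Inv (qa hWi) W' → W' = ⊥ ∨ W' = ⊤ := by
        intro W' hW'
        obtain ⟨W3, hW3⟩ : ∃ W3 : AddSubgroup V, ∀ v, v ∈ W3 ↔
            (QuotientAddGroup.mk v : V ⧸ W) ∈ W' :=
          ⟨W'.comap (QuotientAddGroup.mk' W), fun v => Iff.rfl⟩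
        have hle : W ≤ W3 := by
          intro v hv
          rw [hW3, (QuotientAddGroup.eq_zero_iff v).mpr hv]
          exact W'.zero_mem
        have hi3 : Inv φ W3 := by
          intro x v hv
          rw [hW3] at hv ⊢
          exact hW' x _ hv
        by_cases h3 : W3 = ⊤
        · right
          rw [eq_top_iff]
          intro y _
          obtain ⟨v, rfl⟩ := QuotientAddGroup.mk_surjective y
          rw [← hW3, h3]
          exact AddSubgroup.mem_top v
        · left
          have h4 := hmax ⟨hi3, h3⟩ hle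
          rw [AddSubgroup.eq_bot_iff_forall]
          intro y hy
          obtain ⟨v, rfl⟩ := QuotientAddGroup.mk_surjective y
          rw [QuotientAddGroup.eq_zero_iff]
          exact h4 ((hW3 v).mpr hy)
      obtain ⟨χ, hχ⟩ : ∃ χ : X →* AddMonoid.End (U × (V ⧸ W)),
          ∀ x u, χ x u = (ψ x u.1, qa hWi x u.2) :=
        ⟨{ toFun := fun x => (ψ x).prodMap (qa hWi x)
           map_one' := by
             rw [map_one, map_one]
             rfl
           map_mul' := by
             intro x y
             rw [map_mul, map_mul]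
             rfl }, fun x u => rfl⟩
      have hχ1 : ∀ x, χ x = 1 ↔ ψ x = 1 ∧ qa hWi x = 1 := by
        intro x
        constructor
        · intro h
          constructor
          · refine AddMonoidHom.ext (fun u => ?_)
            have h1 := hχ x (u, 0)
            rw [h] at h1
            exact (congrArg Prod.fst h1).symm
          · refine AddMonoidHom.ext (fun u => ?_)
            have h1 := hχ x (0, u)
            rw [h] at h1
            exact (congrArg Prod.snd h1).symm
        · rintro ⟨h1, h2⟩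
          refine AddMonoidHom.ext (fun u => ?_)
          show χ x u = u
          rw [hχ, h1, h2]
          rfl
      refine ⟨U × (V ⧸ W), inferInstance, inferInstance, χ, ?_, ?_, ?_, ?_, ?_, ?_⟩
      · intro u
        exact Prod.ext (hψ.ex u.1) (hpQ u.2)
      · intro N hN hNp n hn
        rw [hχ1]
        constructor
        · refine hψ.np N hN (fun n hn => ?_) n hn
          obtain ⟨k, hk⟩ := hNp n hn
          exact ⟨k, ((hχ1 _).mp hk).1⟩
        · refine irr_act hp hpQ (qa hWi) hirr N hN (fun n hn => ?_) n hn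
          obtain ⟨k, hk⟩ := hNp n hn
          exact ⟨k, ((hχ1 _).mp hk).2⟩
      · intro x hx
        obtain ⟨h1, h2⟩ := (hχ1 x).mp hx
        obtain ⟨k, hk⟩ := hψ.kp x h1
        refine ⟨k + 1, ?_⟩
        rw [pow_succ, pow_mul]
        refine two_step hpV φ (W := W) ?_ ?_
        · intro w hw
          have h3 : ra hWi (x ^ p ^ k) ⟨w, hw⟩ = ⟨w, hw⟩ := by
            rw [hk]
            rfl
          exact congrArg Subtype.val h3
        · intro v
          have h3 : qa hWi (x ^ p ^ k) (QuotientAddGroup.mk v) = QuotientAddGroup.mk v := by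
            rw [map_pow, h2, one_pow]
            rfl
          rw [qa_mk, QuotientAddGroup.eq] at h3
          have h4 : φ (x ^ p ^ k) v - v = -(-φ (x ^ p ^ k) v + v) := by abel
          rw [h4]
          exact W.neg_mem h3
      · intro x hx
        rw [hχ1]
        constructor
        · refine hψ.k1 x (AddMonoidHom.ext (fun w => Subtype.ext ?_))
          show φ x w.1 = w.1
          rw [hx]
          rfl
        · refine AddMonoidHom.ext (fun w => ?_)
          obtain ⟨v, rfl⟩ := QuotientAddGroup.mk_surjective w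
          show qa hWi x (QuotientAddGroup.mk v) = QuotientAddGroup.mk v
          rw [qa_mk, hx]
          rfl
      · intro a b hab u
        rw [hχ b, hχ a]
        refine Prod.ext ?_ ?_
        · refine hψ.qd a b (fun w => Subtype.ext ?_) u.1
          exact hab w.1
        · obtain ⟨v, hv⟩ := QuotientAddGroup.mk_surjective u.2
          show qa hWi a (qa hWi b u.2 - u.2) = qa hWi b u.2 - u.2
          rw [← hv, qa_mk, ← QuotientAddGroup.mk_sub, qa_mk, hab v]
      · intro A
        -- fixed points on `V`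
        have h1 : Nat.card (Fx φ A) ≤ Nat.card (Fx (ra hWi) A) * Nat.card (Fx (qa hWi) A) := by
          obtain ⟨f, hf⟩ : ∃ f : Fx φ A →+ Fx (qa hWi) A, ∀ v, (f v).1 = QuotientAddGroup.mk v.1 :=
            ⟨{ toFun := fun v => ⟨QuotientAddGroup.mk v.1, fun a ha => by
                 rw [qa_mk, v.2 a ha]⟩
               map_zero' := rfl
               map_add' := fun _ _ => rfl }, fun v => rfl⟩
          refine (card_le_ker f).trans (Nat.mul_le_mul_right _ ?_)
          have h2 : ∀ v : f.ker, v.1.1 ∈ W := by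
            intro v
            rw [← QuotientAddGroup.eq_zero_iff, ← hf, (AddMonoidHom.mem_ker).mp v.2]
            rfl
          refine Nat.card_le_card_of_injective (fun v : f.ker =>
            (⟨⟨v.1.1, h2 v⟩, fun a ha => Subtype.ext (v.1.2 a ha)⟩ : Fx (ra hWi) A)) ?_
          intro v v' h
          have h3 := congrArg (fun z : Fx (ra hWi) A => z.1.1) h
          exact Subtype.ext (Subtype.ext h3)
        have h2 : Nat.card (Fx ψ A) * Nat.card (Fx (qa hWi) A) ≤ Nat.card (Fx χ A) := by
          rw [← Nat.card_prod]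
          refine Nat.card_le_card_of_injective (fun z : Fx ψ A × Fx (qa hWi) A =>
            (⟨(z.1.1, z.2.1), fun a ha => by
              rw [hχ]
              exact Prod.ext (z.1.2 a ha) (z.2.2 a ha)⟩ : Fx χ A)) ?_
          intro z z' h
          have h3 := congrArg (fun z : Fx χ A => z.1) h
          exact Prod.ext (Subtype.ext (congrArg Prod.fst h3)) (Subtype.ext (congrArg Prod.snd h3))
        have h3 := hψ.cd A
        have h4 : Nat.card V = Nat.card (V ⧸ W) * Nat.card W :=
          AddSubgroup.card_eq_card_quotient_mul_card_addSubgroup W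
        rw [Nat.card_prod, h4]
        calc Nat.card U * Nat.card (V ⧸ W) * Nat.card (Fx φ A)
            ≤ Nat.card U * Nat.card (V ⧸ W) *
              (Nat.card (Fx (ra hWi) A) * Nat.card (Fx (qa hWi) A)) :=
              Nat.mul_le_mul_left _ h1
          _ = Nat.card (V ⧸ W) * Nat.card (Fx (qa hWi) A) *
              (Nat.card U * Nat.card (Fx (ra hWi) A)) := by ring
          _ ≤ Nat.card (V ⧸ W) * Nat.card (Fx (qa hWi) A) *
              (Nat.card W * Nat.card (Fx ψ A)) := Nat.mul_le_mul_left _ h3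
          _ = Nat.card (V ⧸ W) * Nat.card W *
              (Nat.card (Fx ψ A) * Nat.card (Fx (qa hWi) A)) := by ring
          _ ≤ _ := Nat.mul_le_mul_left _ h2

end semi

end Pool.Agent.Work.MP_6d7bb4.helper94.Ps
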