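import Pool.Agent.Work.MP_6d7bb4_helper94.Trans

/-! # MP_6d7bb4: the main theorem (helper94) -/

set_option autoImplicit false
set_option linter.unusedSectionVars false

namespace Pool.Agent.Work.MP_6d7bb4.helper94

open MulAction

section main
variable {V : Type*} {Γ : SimpleGraph V} {Ω : Type*}

theorem mem_conj {H : Subgroup (Γ ≃g Γ)} {a k : Γ ≃g Γ} :
    k ∈ H.map (MulAut.conj a).toMonoidHom ↔ ∃ g ∈ H, a * g * a⁻¹ = k := Iff.rfl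

/-- neighbours of `x` and of its translate -/
def nbr (a : Γ ≃g Γ) (x : V) : Γ.neighborSet x ≃ Γ.neighborSet (a⁻¹ x) where
  toFun y := ⟨a⁻¹ y.1, Tr.adj_iso a⁻¹ y.2⟩
  invFun y := ⟨a y.1, by
    have h := Tr.adj_iso a y.2
    rwa [Tr.app_inv] at h⟩
  left_inv y := Subtype.ext (Tr.app_inv a y.1)
  right_inv y := Subtype.ext (Tr.inv_app a y.1)

theorem LA_conj {H : Subgroup (Γ ≃g Γ)} {F : Subgroup (Equiv.Perm Ω)} (a : Γ ≃g Γ) (x : V)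
    {e : Γ.neighborSet (a⁻¹ x) ≃ Ω} (h : LA Γ H F (a⁻¹ x) e) :
    LA Γ (H.map (MulAut.conj a).toMonoidHom) F x ((nbr a x).trans e) := by
  intro σ
  rw [h σ]
  constructor
  · rintro ⟨g, hg, hx, hy⟩
    refine ⟨a * g * a⁻¹, mem_conj.mpr ⟨g, hg, rfl⟩, ?_, ?_⟩
    · rw [Tr.mul_app, Tr.mul_app, hx, Tr.app_inv]
    · intro y
      have h1 := hy (nbr a x y)
      show a (g (a⁻¹ y.1)) = a (e.symm (σ (e (nbr a x y)))).1
      rw [← h1]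
      rfl
  · rintro ⟨k, hk, hx, hy⟩
    obtain ⟨g, hg, rfl⟩ := mem_conj.mp hk
    refine ⟨g, hg, ?_, ?_⟩
    · rw [Tr.mul_app, Tr.mul_app] at hx
      have h1 := congrArg (a⁻¹ : Γ ≃g Γ) hx
      rwa [Tr.inv_app] at h1
    · intro y
      have h1 := hy ((nbr a x).symm y)
      have h2 : (a * g * a⁻¹) (a y.1) = a (e.symm (σ (e (nbr a x ((nbr a x).symm y))))).1 := h1
      rw [Tr.mul_app, Tr.mul_app, Tr.inv_app, Equiv.apply_symm_apply] at h2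
      have h3 := congrArg (a⁻¹ : Γ ≃g Γ) h2
      rwa [Tr.inv_app, Tr.inv_app] at h3

theorem fin_conj {H : Subgroup (Γ ≃g Γ)} (a : Γ ≃g Γ)
    (h : ∀ v : V, {g : Γ ≃g Γ | g ∈ H ∧ g v = v}.Finite) (v : V) :
    {g : Γ ≃g Γ | g ∈ H.map (MulAut.conj a).toMonoidHom ∧ g v = v}.Finite := by
  refine ((h (a⁻¹ v)).image (fun g => a * g * a⁻¹)).subset ?_
  rintro k ⟨hk, hv⟩
  obtain ⟨g, hg, rfl⟩ := mem_conj.mp hk
  refine ⟨g, ⟨hg, ?_⟩, rfl⟩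
  rw [Tr.mul_app, Tr.mul_app] at hv
  have h1 := congrArg (a⁻¹ : Γ ≃g Γ) hv
  rwa [Tr.inv_app] at h1

theorem main [Fintype Ω] {F : Subgroup (Equiv.Perm Ω)}
    (hF1 : ∀ a b : Ω, ∃ σ ∈ F, σ a = b)
    (hF2 : ∀ N : Subgroup (Equiv.Perm Ω), N ≤ F →
        (∀ f ∈ F, ∀ n ∈ N, f * n * f⁻¹ ∈ N) →
        ((∀ a b : Ω, ∃ σ ∈ N, σ a = b) ∨ (∀ σ ∈ N, ∀ a : Ω, σ a = a → σ = 1)))
    (hF3 : ∀ p : ℕ, p.Prime → CondA F p ∨ ∃ S, CondB F p S)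
    (hT : Γ.IsTree) (hreg : ∀ v : V, Nonempty (Γ.neighborSet v ≃ Ω)) :
    ∃ S : Finset (Subgroup (Γ ≃g Γ)),
        ∀ H : Subgroup (Γ ≃g Γ),
          (∀ v : V, {g : Γ ≃g Γ | g ∈ H ∧ g v = v}.Finite) →
          (∀ x : V, ∃ e : Γ.neighborSet x ≃ Ω, LA Γ H F x e) →
          (∃ g ∈ H, ∃ x y : V, Γ.Adj x y ∧ g x = y ∧ g y = x ∧ g * g = 1) →
          ∃ K ∈ S, ∃ a : Γ ≃g Γ, H = K.map (MulAut.conj a).toMonoidHom := by
  have hc := hT.connected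
  obtain ⟨o⟩ := hc.nonempty
  have hnf : ∀ v, Finite {w // Γ.Adj v w} := by
    intro v
    obtain ⟨e⟩ := hreg v
    exact Finite.of_equiv Ω e.symm
  obtain ⟨r, hr⟩ : ∃ r, r = 2 * Fintype.card Ω * (2 * Fintype.card Ω + 1) + 1 := ⟨_, rfl⟩
  have harc : ∀ H : Subgroup (Γ ≃g Γ), (∀ x : V, ∃ e : Γ.neighborSet x ≃ Ω, LA Γ H F x e) →
      ∀ g ∈ H, ∀ x y, Γ.Adj x y → g x = y → g y = x → ∀ x' y', Γ.Adj x' y' →
      ∃ g ∈ H, g x = x' ∧ g y = y' := by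
    intro H h2 g hg x y hxy e1 e2
    exact arc_of_inv hc (fun x y y' hy hy' => loc_tr hF1 h2 hy hy') hxy hg e1 e2
  suffices key : ∃ S : Finset (Subgroup (Γ ≃g Γ)), ∀ H : Subgroup (Γ ≃g Γ),
      ((∀ v : V, {g : Γ ≃g Γ | g ∈ H ∧ g v = v}.Finite) ∧
      (∀ x : V, ∃ e : Γ.neighborSet x ≃ Ω, LA Γ H F x e) ∧
      (∃ g ∈ H, ∃ x y : V, Γ.Adj x y ∧ g x = y ∧ g y = x ∧ g * g = 1)) →
      ∃ K ∈ S, ∃ a : Γ ≃g Γ, H = K.map (MulAut.conj a).toMonoidHom by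
    obtain ⟨S, hS⟩ := key
    exact ⟨S, fun H h1 h2 h3 => hS H ⟨h1, h2, h3⟩⟩
  refine Tr.classes hT hnf o (r + 1)
    (fun H => (∀ v : V, {g : Γ ≃g Γ | g ∈ H ∧ g v = v}.Finite) ∧
      (∀ x : V, ∃ e : Γ.neighborSet x ≃ Ω, LA Γ H F x e) ∧
      (∃ g ∈ H, ∃ x y : V, Γ.Adj x y ∧ g x = y ∧ g y = x ∧ g * g = 1)) ?_ ?_ ?_
  · rintro H ⟨h1, h2, g, hg, x, y, hxy, e1, e2, e3⟩ a
    refine ⟨fin_conj a h1, fun x => ?_, a * g * a⁻¹, mem_conj.mpr ⟨g, hg, rfl⟩, a x, a y,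
      Tr.adj_iso a hxy, ?_, ?_, ?_⟩
    · obtain ⟨e, he⟩ := h2 (a⁻¹ x)
      exact ⟨_, LA_conj a x he⟩
    · rw [Tr.mul_app, Tr.mul_app, Tr.inv_app, e1]
    · rw [Tr.mul_app, Tr.mul_app, Tr.inv_app, e2]
    · have h4 : a * g * a⁻¹ * (a * g * a⁻¹) = a * (g * g) * a⁻¹ := by group
      rw [h4, e3]
      group
  · rintro H ⟨h1, h2, g, hg, x, y, hxy, e1, e2, e3⟩ z hz
    obtain ⟨k, hk, e4, e5⟩ := harc H h2 g hg x y hxy e1 e2 o z hz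
    refine ⟨k * g * k⁻¹, H.mul_mem (H.mul_mem hk hg) (H.inv_mem hk), ?_, ?_⟩
    · rw [Tr.mul_app, Tr.mul_app, ← e4, Tr.inv_app, e1, e5]
    · have h4 : k * g * k⁻¹ * (k * g * k⁻¹) = k * (g * g) * k⁻¹ := by group
      rw [h4, e3]
      group
  · rintro H ⟨h1, h2, g, hg, x, y, hxy, e1, e2, e3⟩ k hk hk1
    have hL : Loc H Γ (Fintype.card Ω) := by
      refine loc_of hF2 hc h1 h2 ?_
      intro u v u' v' h4 h5
      obtain ⟨k, hk, e4, e5⟩ := harc H h2 g hg x y hxy e1 e2 u v h4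
      obtain ⟨k', hk', e6, e7⟩ := harc H h2 g hg x y hxy e1 e2 u' v' h5
      refine ⟨k' * k⁻¹, H.mul_mem hk' (H.inv_mem hk), ?_, ?_⟩
      · rw [Tr.mul_app, ← e4, Tr.inv_app, e6]
      · rw [Tr.mul_app, ← e5, Tr.inv_app, e7]
    obtain ⟨z, hz⟩ : ∃ z, Γ.Adj o z := by
      obtain ⟨ex⟩ := hreg x
      obtain ⟨eo⟩ := hreg o
      exact ⟨(eo.symm (ex ⟨y, hxy⟩)).1, (eo.symm (ex ⟨y, hxy⟩)).2⟩
    have h3 := Wr_bot hL (fun p hp => hcb_of hp hL hF2 h2 hz (hF3 p hp)) hz (r := r) (by omega) (by omega)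
    have h4 : (⟨k, hk⟩ : H) ∈ (Wr Γ r o z : Subgroup H) := by
      intro v hv
      refine hk1 v ?_
      rcases hv with hv | hv
      · omega
      · have h5 := hc.dist_triangle (u := o) (v := z) (w := v)
        rw [SimpleGraph.dist_eq_one_iff_adj.mpr hz] at h5
        omega
    rw [h3, Subgroup.mem_bot] at h4
    exact congrArg Subtype.val h4

end main

end Pool.Agent.Work.MP_6d7bb4.helper94
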