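import Pool.Agent.Work.MP_6d7bb4_helper94.FF

/-! # MP_6d7bb4: quadratic action of subgroups of `p`-soluble groups (helper94) -/

set_option autoImplicit false
set_option linter.unusedSectionVars false

namespace Pool.Agent.Work.MP_6d7bb4.helper94

open Qd Ps Ff

universe u

section act
variable {G : Type u} [Group G]

/-- `N` acts on `V` as a `p`-group -/
def PAct (p : ℕ) (N V : Subgroup G) : Prop :=
  ∀ n ∈ N, ∃ k : ℕ, ∀ v ∈ V, n ^ p ^ k * v = v * n ^ p ^ k

/-- `R` is the largest normal subgroup of `X` which acts on `V` as a `p`-group -/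
structure IsR (p : ℕ) (X V R : Subgroup G) : Prop where
  le : R ≤ X
  nm : Nm X R
  pa : PAct p R V
  mx : ∀ M, M ≤ X → Nm X M → PAct p M V → M ≤ R

/-- additive model of an abelian group acted on by conjugation -/
theorem model {X V : Subgroup G} (hn : Nm X V) (hab : ∀ u ∈ V, ∀ v ∈ V, u * v = v * u) :
    ∃ (W : Type u) (_ : AddCommGroup W) (e : V ≃ W) (φ : X →* AddMonoid.End W),
      (∀ v w, e (v * w) = e v + e w) ∧
      ∀ (x : X) (v : V), φ x (e v) = e ⟨x.1 * v.1 * x.1⁻¹, hn x.1 x.2 v.1 v.2⟩ := by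
  let : CommGroup V := { (inferInstance : Group V) with
    mul_comm := fun a b => Subtype.ext (hab a.1 a.2 b.1 b.2) }
  refine ⟨Additive V, inferInstance, Additive.ofMul,
    { toFun := fun x => MonoidHom.toAdditive (cjH hn x).toMonoidHom
      map_one' := ?_
      map_mul' := ?_ }, fun _ _ => rfl, fun _ _ => rfl⟩
  · refine AddMonoidHom.ext (fun w => ?_)
    show Additive.ofMul (cjH hn 1 w.toMul) = w
    rw [map_one]
    rfl
  · intro x y
    refine AddMonoidHom.ext (fun w => ?_)
    show Additive.ofMul (cjH hn (x * y) w.toMul) =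
      Additive.ofMul (cjH hn x (cjH hn y w.toMul))
    rw [map_mul]
    rfl

theorem conj_iter {a t c : G} (h : a * t * a⁻¹ = c * t) (hc : a * c = c * a) (n : ℕ) :
    a ^ n * t * (a ^ n)⁻¹ = c ^ n * t := by
  induction n with
  | zero => simp
  | succ n ih =>
    have h1 : a * c ^ n * a⁻¹ = c ^ n := by
      have : Commute a (c ^ n) := Commute.pow_right hc n
      rw [this.eq, mul_inv_cancel_right]
    calc a ^ (n + 1) * t * (a ^ (n + 1))⁻¹ = a * (a ^ n * t * (a ^ n)⁻¹) * a⁻¹ := by
          rw [pow_succ']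
          group
      _ = (a * c ^ n * a⁻¹) * (a * t * a⁻¹) := by
        rw [ih]
        group
      _ = c ^ (n + 1) * t := by
        rw [h1, h, pow_succ]
        group

/-- elements quadratic on an irreducible-free module in odd characteristic -/
theorem quad_one {U : Type*} [AddCommGroup U] {p : ℕ} (hp : p.Prime) (hp2 : p ≠ 2)
    (hU : ∀ u : U, p • u = 0) {Y : Subgroup (AddMonoid.End U)ˣ} (hfin : Finite Y)
    (hps : PSol p Y)
    (hN : ∀ N : Subgroup (AddMonoid.End U)ˣ, N ≤ Y → Nm Y N → IsPGroup p N → N = ⊥)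
    {a : (AddMonoid.End U)ˣ} (ha : a ∈ Y)
    (hq : ∀ u : U, (a : AddMonoid.End U) ((a : AddMonoid.End U) u - u) =
      (a : AddMonoid.End U) u - u)
    (h2 : 5 ≤ p ∨ ∀ T : Subgroup (AddMonoid.End U)ˣ, T ≤ Y → IsPGroup 2 T →
      (∀ t ∈ T, a * t * a⁻¹ ∈ T) → ∀ t ∈ T, a * t = t * a) : a = 1 := by
  have hp0 : (p : AddMonoid.End U) = 0 := by
    ext w
    rw [AddMonoid.End.natCast_apply, hU]
    rfl
  have hav : (a : AddMonoid.End U) = 1 + ((a : AddMonoid.End U) - 1) := by abel
  have huu : ((a : AddMonoid.End U) - 1) * ((a : AddMonoid.End U) - 1) = 0 := by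
    refine AddMonoidHom.ext (fun u => ?_)
    show (a : AddMonoid.End U) ((a : AddMonoid.End U) u - u) -
      ((a : AddMonoid.End U) u - u) = 0
    rw [hq, sub_self]
  refine hh hp hfin hps hN ha (pow_p (Λ := AddMonoid.End U) hav huu hp0) ?_
  intro r hr hrp S hS hSr hSn
  have hSf : Finite S := Finite.of_injective _ (Subgroup.inclusion_injective hS)
  by_cases h5 : r = 2 → 5 ≤ p
  · exact lemR (Λ := AddMonoid.End U) hav huu hp hp0 hp2 hr hrp h5 hSf hSr hSn
  · push Not at h5
    obtain ⟨rfl, h5⟩ := h5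
    rcases h2 with h2 | h2
    · omega
    · exact h2 S hS hSr hSn

/-- the main consequence for groups: quadratic subgroups act trivially modulo `O_p` -/
theorem act_triv {p : ℕ} (hp : p.Prime) {X V : Subgroup G} (hXf : Finite X) (hVf : Finite V)
    (hn : Nm X V) (hab : ∀ u ∈ V, ∀ v ∈ V, u * v = v * u) (hexp : ∀ v ∈ V, v ^ p = 1)
    (hps : PSol p X) :
    ∃ R, IsR p X V R ∧ ∀ A : Subgroup G, A ≤ X →
      (∀ a ∈ A, ∀ b ∈ A, ∀ v ∈ V, a * (b * v * b⁻¹ * v⁻¹) * a⁻¹ = b * v * b⁻¹ * v⁻¹) →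
      (5 ≤ p ∨ ∀ T0 T : Subgroup G, T0 ≤ T → T ≤ X → Nm T T0 →
        (∃ k, T0.relIndex T = (5 - p) ^ k) → ∀ a ∈ A, (∀ t ∈ T, a * t * a⁻¹ ∈ T) →
        (∀ t ∈ T0, a * t * a⁻¹ ∈ T0) → ∀ t ∈ T, ∃ z ∈ X,
          (∀ x ∈ X, ∀ v ∈ V, z * (x * v * x⁻¹) * z⁻¹ = x * (z * v * z⁻¹) * x⁻¹) ∧
          a * t * a⁻¹ * t⁻¹ * z⁻¹ ∈ T0) →
      (p = 2 → Nat.card V * Nat.card (A ⊓ Subgroup.centralizer (V : Set G) : Subgroup G) ≤
        Nat.card A * Nat.card (V ⊓ Subgroup.centralizer (A : Set G) : Subgroup G)) →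
      (p = 2 → ∀ a ∈ A, a ∈ R → ∀ v ∈ V, a * v = v * a) → A ≤ R := by
  have : Fact p.Prime := ⟨hp⟩
  obtain ⟨W, iW, e, φ, he, hφ⟩ := model hn hab
  have hWf : Finite W := Finite.of_equiv V e
  have he1 : e 1 = 0 := by
    have h1 := he 1 1
    rw [mul_one] at h1
    exact left_eq_add.mp h1
  have hep : ∀ (v : V) (n : ℕ), e (v ^ n) = n • e v := by
    intro v n
    induction n with
    | zero => rw [pow_zero, zero_smul, he1]
    | succ n ih => rw [pow_succ, he, ih, succ_nsmul]
  have hpW : ∀ w : W, p • w = 0 := by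
    intro w
    obtain ⟨v, rfl⟩ := e.surjective w
    rw [← hep]
    have : v ^ p = 1 := Subtype.ext (hexp v.1 v.2)
    rw [this, he1]
  -- trivial action
  have hφ1 : ∀ x : X, φ x = 1 ↔ ∀ v ∈ V, x.1 * v = v * x.1 := by
    intro x
    constructor
    · intro h v hv
      have h1 := hφ x ⟨v, hv⟩
      rw [h] at h1
      have h2 : e ⟨v, hv⟩ = e ⟨x.1 * v * x.1⁻¹, hn x.1 x.2 v hv⟩ := h1
      have h3 := congrArg Subtype.val (e.injective h2)
      have h4 : v = x.1 * v * x.1⁻¹ := h3
      exact (mul_inv_eq_iff_eq_mul.mp h4.symm)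
    · intro h
      refine AddMonoidHom.ext (fun w => ?_)
      obtain ⟨v, rfl⟩ := e.surjective w
      show φ x (e v) = e v
      rw [hφ]
      congr 1
      apply Subtype.ext
      show x.1 * v.1 * x.1⁻¹ = v.1
      rw [h v.1 v.2, mul_inv_cancel_right]
  obtain ⟨U, iU, fU, ψ, hψ⟩ := semi (X := X) hp (Nat.card W) W φ (le_refl _) hpW
  -- the kernel
  obtain ⟨R, hR⟩ : ∃ R : Subgroup G, R = ψ.ker.map X.subtype := ⟨_, rfl⟩
  have hRm : ∀ x : X, x.1 ∈ R ↔ ψ x = 1 := by
    intro x
    rw [hR]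
    constructor
    · rintro ⟨y, hy, hyx⟩
      have : y = x := Subtype.ext hyx
      rw [← this]
      exact hy
    · intro h
      exact ⟨x, h, rfl⟩
  have hRX : R ≤ X := by
    rw [hR]
    rintro _ ⟨y, _, rfl⟩
    exact y.2
  have hIsR : IsR p X V R := by
    refine ⟨hRX, ?_, ?_, ?_⟩
    · intro x hx g hg
      have h1 : ψ ⟨g, hRX hg⟩ = 1 := (hRm ⟨g, hRX hg⟩).mp hg
      refine (hRm (⟨x, hx⟩ * ⟨g, hRX hg⟩ * ⟨x, hx⟩⁻¹)).mpr ?_
      rw [map_mul, map_mul, h1, mul_one, ← map_mul, mul_inv_cancel, map_one]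
    · intro g hg
      have h1 : ψ ⟨g, hRX hg⟩ = 1 := (hRm ⟨g, hRX hg⟩).mp hg
      obtain ⟨k, hk⟩ := hψ.kp _ h1
      exact ⟨k, fun v hv => (hφ1 _).mp hk v hv⟩
    · intro M hM hMn hMp g hg
      refine (hRm ⟨g, hM hg⟩).mpr ?_
      refine hψ.np (M.subgroupOf X) ?_ ?_ ⟨g, hM hg⟩ (by
        rw [Subgroup.mem_subgroupOf]
        exact hg)
      · intro x n hn'
        rw [Subgroup.mem_subgroupOf] at hn' ⊢
        exact hMn x.1 x.2 n.1 hn'
      · intro n hn'
        rw [Subgroup.mem_subgroupOf] at hn'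
        obtain ⟨k, hk⟩ := hMp n.1 hn'
        exact ⟨k, hψ.k1 _ ((hφ1 _).mpr hk)⟩
  refine ⟨R, hIsR, ?_⟩
  intro A hA hq hsec hoff hAR
  -- the image
  obtain ⟨Y, hY⟩ : ∃ Y, Y = ψ.toHomUnits.range := ⟨_, rfl⟩
  have hYf : Finite Y := by
    rw [hY]
    exact Finite.of_surjective ψ.toHomUnits.rangeRestrict (MonoidHom.rangeRestrict_surjective _)
  have hpsX : PSol p (⊤ : Subgroup X) := by
    intro L _ hne
    obtain ⟨N, hN1, hN2, hN3, hN4⟩ := hps (L.map X.subtype) (by
      rintro _ ⟨y, _, rfl⟩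
      exact y.2) (by
      intro h
      exact hne ((Subgroup.map_eq_bot_iff_of_injective _ (Subgroup.subtype_injective X)).mp h))
    have hLe : L = (L.map X.subtype).subgroupOf X :=
      (Subgroup.comap_map_eq_self_of_injective (Subgroup.subtype_injective X) L).symm
    have hNX : N ≤ X := hN1.trans (by
      rintro _ ⟨y, _, rfl⟩
      exact y.2)
    refine ⟨N.subgroupOf X, ?_, ?_, ?_, ?_⟩
    · rw [hLe]
      exact Subgroup.comap_mono hN1
    · intro h
      apply hN2
      rw [← h, Subgroup.map_subgroupOf_eq_of_le hNX]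
    · intro l hl n hn'
      rw [Subgroup.mem_subgroupOf] at hn' ⊢
      exact hN3 l.1 ⟨l, hl, rfl⟩ n.1 hn'
    · have h1 : (N.subgroupOf X).relIndex L = N.relIndex (L.map X.subtype) := by
        have h2 := Subgroup.relIndex_comap (f := X.subtype) N L
        exact h2
      rw [h1]
      exact hN4
  have hYps : PSol p Y := by
    rw [hY]
    exact psol_range hp ψ.toHomUnits hpsX
  have hYN : ∀ N : Subgroup (AddMonoid.End U)ˣ, N ≤ Y → Nm Y N → IsPGroup p N → N = ⊥ := by
    intro N hNY hNn hNp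
    rw [Subgroup.eq_bot_iff_forall]
    intro n hn'
    have h0 := hNY hn'
    rw [hY] at h0
    obtain ⟨x, rfl⟩ := h0
    have h1 := hψ.np (N.comap ψ.toHomUnits) ?_ ?_ x hn'
    · exact Units.ext h1
    · intro y m hm
      rw [Subgroup.mem_comap] at hm ⊢
      rw [map_mul, map_mul, map_inv]
      refine hNn _ ?_ _ hm
      rw [hY]
      exact ⟨y, rfl⟩
    · intro m hm
      obtain ⟨k, hk⟩ := hNp ⟨_, hm⟩
      have h2 : (ψ.toHomUnits m) ^ p ^ k = 1 := congrArg Subtype.val hk
      rw [← map_pow] at h2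
      exact ⟨k, congrArg Units.val h2⟩
  have hval : ∀ x : X, ((ψ.toHomUnits x : (AddMonoid.End U)ˣ) : AddMonoid.End U) = ψ x :=
    fun _ => rfl
  have hquad : ∀ a b : X, a.1 ∈ A → b.1 ∈ A → ∀ u, ψ a (ψ b u - u) = ψ b u - u := by
    intro a b ha hb
    refine hψ.qd a b (fun w => ?_)
    obtain ⟨v, rfl⟩ := e.surjective w
    have h1 : φ b (e v) - e v =
        e ⟨b.1 * v.1 * b.1⁻¹ * v.1⁻¹, V.mul_mem (hn b.1 b.2 v.1 v.2) (V.inv_mem v.2)⟩ := by
      rw [sub_eq_iff_eq_add, ← he, hφ]
      congr 1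
      apply Subtype.ext
      show b.1 * v.1 * b.1⁻¹ = b.1 * v.1 * b.1⁻¹ * v.1⁻¹ * v.1
      group
    rw [h1, hφ]
    congr 1
    apply Subtype.ext
    exact hq a.1 ha b.1 hb v.1 v.2
  -- the section condition
  have hsecU : ∀ a : X, a.1 ∈ A → p < 5 → ∀ T : Subgroup (AddMonoid.End U)ˣ, T ≤ Y →
      IsPGroup (5 - p) T → (∀ t ∈ T, ψ.toHomUnits a * t * (ψ.toHomUnits a)⁻¹ ∈ T) →
      ∀ t ∈ T, ψ.toHomUnits a * t = t * ψ.toHomUnits a := by
    intro a ha hp5 T hTY hTr hTn t ht
    have hr : (5 - p).Prime := by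
      have := hp.two_le
      interval_cases p
      · norm_num
      · norm_num
      · exact absurd hp (by norm_num)
    have hrp : Nat.Coprime (5 - p) p := by
      have := hp.two_le
      interval_cases p
      · norm_num
      · norm_num
      · exact absurd hp (by norm_num)
    have : Fact (5 - p).Prime := ⟨hr⟩
    rcases hsec with h | hsec
    · omega
    obtain ⟨t0, rfl⟩ : ∃ t0, ψ.toHomUnits t0 = t := by
      have := hTY ht
      rw [hY] at this
      exact this
    obtain ⟨T1, hT1⟩ : ∃ T1 : Subgroup X, T1 = T.comap ψ.toHomUnits := ⟨_, rfl⟩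
    have hkT : ψ.toHomUnits.ker ≤ T1 := by
      intro x hx
      rw [hT1, Subgroup.mem_comap, (MonoidHom.mem_ker).mp hx]
      exact T.one_mem
    have hTf : Finite T := Finite.of_injective _ (Subgroup.inclusion_injective hTY)
    have hidx : ∃ k, (ψ.toHomUnits.ker.map X.subtype).relIndex (T1.map X.subtype) =
        (5 - p) ^ k := by
      have h1 : (ψ.toHomUnits.ker.map X.subtype).relIndex (T1.map X.subtype) =
          ψ.toHomUnits.ker.relIndex T1 :=
        Subgroup.relIndex_map_map_of_injective _ _ (Subgroup.subtype_injective X)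
      rw [h1]
      have h2 : ψ.toHomUnits.ker.relIndex T1 = (⊥ : Subgroup _).relIndex (T1.map ψ.toHomUnits) := by
        rw [← MonoidHom.comap_bot, Subgroup.relIndex_comap]
      rw [h2, Subgroup.relIndex_bot_left]
      have h3 : T1.map ψ.toHomUnits = T := by
        rw [hT1, Subgroup.map_comap_eq]
        refine inf_eq_right.mpr ?_
        rw [← hY]
        exact hTY
      rw [h3]
      exact IsPGroup.iff_card.mp hTr
    have hker : ∀ x : X, x.1 ∈ ψ.toHomUnits.ker.map X.subtype ↔ ψ.toHomUnits x = 1 := by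
      intro x
      constructor
      · rintro ⟨y, hy, hyx⟩
        have : y = x := Subtype.ext hyx
        rw [← this]
        exact hy
      · intro h
        exact ⟨x, h, rfl⟩
    have hT1m : ∀ x : X, x.1 ∈ T1.map X.subtype ↔ ψ.toHomUnits x ∈ T := by
      intro x
      constructor
      · rintro ⟨y, hy, hyx⟩
        have h1 : y = x := Subtype.ext hyx
        rw [← h1]
        rw [hT1] at hy
        exact hy
      · intro h
        refine ⟨x, ?_, rfl⟩
        rw [hT1]
        exact h
    have hT1X : T1.map X.subtype ≤ X := by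
      rintro _ ⟨y, _, rfl⟩
      exact y.2
    obtain ⟨z, hzX, hz1, hz2⟩ := hsec (ψ.toHomUnits.ker.map X.subtype) (T1.map X.subtype)
      (Subgroup.map_mono hkT) hT1X (by
        rintro x hx g hg
        have hgX := hT1X (Subgroup.map_mono hkT hg)
        have h1 := (hker ⟨g, hgX⟩).mp hg
        refine (hker (⟨x, hT1X hx⟩ * ⟨g, hgX⟩ * ⟨x, hT1X hx⟩⁻¹)).mpr ?_
        rw [map_mul, map_mul, h1, mul_one, ← map_mul, mul_inv_cancel, map_one]) hidx a.1 ha (by
        intro g hg
        have h1 := (hT1m ⟨g, hT1X hg⟩).mp hg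
        refine (hT1m (a * ⟨g, hT1X hg⟩ * a⁻¹)).mpr ?_
        rw [map_mul, map_mul, map_inv]
        exact hTn _ h1) (by
        intro g hg
        have hgX := hT1X (Subgroup.map_mono hkT hg)
        have h1 := (hker ⟨g, hgX⟩).mp hg
        refine (hker (a * ⟨g, hgX⟩ * a⁻¹)).mpr ?_
        rw [map_mul, map_mul, h1, mul_one, ← map_mul, mul_inv_cancel, map_one]) t0.1
      ((hT1m t0).mpr ht)
    have hz3 := (hker (a * t0 * a⁻¹ * t0⁻¹ * ⟨z, hzX⟩⁻¹)).mp hz2
    obtain ⟨c, hc⟩ : ∃ c, c = ψ.toHomUnits ⟨z, hzX⟩ := ⟨_, rfl⟩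
    have hc1 : ψ.toHomUnits a * ψ.toHomUnits t0 * (ψ.toHomUnits a)⁻¹ = c * ψ.toHomUnits t0 := by
      rw [map_mul, map_mul, map_mul, map_mul, map_inv, map_inv, map_inv, ← hc,
        mul_inv_eq_one, mul_inv_eq_iff_eq_mul] at hz3
      exact hz3
    have hc2 : ψ.toHomUnits a * c = c * ψ.toHomUnits a := by
      rw [hc, ← map_mul, ← map_mul]
      have h1 : ψ (⟨z, hzX⟩ * a * (a * ⟨z, hzX⟩)⁻¹) = 1 := by
        refine hψ.k1 _ ((hφ1 _).mpr ?_)
        intro v hv
        have hv' : (a.1 * z)⁻¹ * v * (a.1 * z) ∈ V := by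
          have h2 := hn (a * ⟨z, hzX⟩)⁻¹.1 (a * ⟨z, hzX⟩)⁻¹.2 v hv
          have h3 : (a * ⟨z, hzX⟩ : X)⁻¹.1 * v * ((a * ⟨z, hzX⟩ : X)⁻¹.1)⁻¹ =
              (a.1 * z)⁻¹ * v * (a.1 * z) := by
            show (a.1 * z)⁻¹ * v * ((a.1 * z)⁻¹)⁻¹ = _
            rw [inv_inv]
          rwa [h3] at h2
        have h4 := hz1 a.1 a.2 _ hv'
        show z * a.1 * (a.1 * z)⁻¹ * v = v * (z * a.1 * (a.1 * z)⁻¹)
        calc z * a.1 * (a.1 * z)⁻¹ * v =
            z * (a.1 * ((a.1 * z)⁻¹ * v * (a.1 * z)) * a.1⁻¹) * z⁻¹ *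
              (z * a.1 * (a.1 * z)⁻¹) := by group
          _ = a.1 * (z * ((a.1 * z)⁻¹ * v * (a.1 * z)) * z⁻¹) * a.1⁻¹ *
              (z * a.1 * (a.1 * z)⁻¹) := by rw [h4]
          _ = v * (z * a.1 * (a.1 * z)⁻¹) := by group
      have h2 : ψ.toHomUnits (⟨z, hzX⟩ * a * (a * ⟨z, hzX⟩)⁻¹) = 1 := Units.ext h1
      rw [map_mul _ (⟨z, hzX⟩ * a), map_inv, mul_inv_eq_one] at h2
      exact h2.symm
    have hcT : c ∈ T := by
      have h1 := T.mul_mem (hTn _ ht) (T.inv_mem ht)
      rw [hc1, mul_inv_cancel_right] at h1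
      exact h1
    have hap : (ψ.toHomUnits a) ^ p = 1 := by
      have h0 : (p : AddMonoid.End U) = 0 := by
        ext w
        rw [AddMonoid.End.natCast_apply, hψ.ex]
        rfl
      have hav : ((ψ.toHomUnits a : (AddMonoid.End U)ˣ) : AddMonoid.End U) =
          1 + (ψ a - 1) := by
        rw [hval]
        abel
      refine pow_p (Λ := AddMonoid.End U) hav ?_ h0
      refine AddMonoidHom.ext (fun u => ?_)
      show ψ a (ψ a u - u) - (ψ a u - u) = 0
      rw [hquad a a ha ha, sub_self]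
    have hcp : c ^ p = 1 := by
      have h1 := conj_iter hc1 hc2 p
      rw [hap, one_mul, inv_one, mul_one] at h1
      exact right_eq_mul.mp h1
    obtain ⟨k, hk⟩ := hTr ⟨c, hcT⟩
    have hk' : c ^ (5 - p) ^ k = 1 := congrArg Subtype.val hk
    have hc0 : c = 1 := one_of_coprime hcp hk' (Nat.Coprime.pow_right k hrp.symm)
    rw [hc0, one_mul] at hc1
    exact mul_inv_eq_iff_eq_mul.mp hc1
  by_cases hp2 : p = 2
  · -- characteristic two
    subst hp2
    obtain ⟨A1, hA1⟩ : ∃ A1 : Subgroup X, A1 = A.subgroupOf X := ⟨_, rfl⟩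
    have hA1m : ∀ x : X, x ∈ A1 ↔ x.1 ∈ A := by
      intro x
      rw [hA1, Subgroup.mem_subgroupOf]
    obtain ⟨A', hA'⟩ : ∃ A', A' = A1.map ψ.toHomUnits := ⟨_, rfl⟩
    have hA'Y : A' ≤ Y := by
      rw [hA', hY]
      rintro _ ⟨x, _, rfl⟩
      exact ⟨x, rfl⟩
    have hcA : Nat.card A = Nat.card A1 := by
      rw [hA1]
      exact (Nat.card_congr (Subgroup.subgroupOfEquivOfLe hA).toEquiv).symm
    have hmain : A' = ⊥ := by
      refine ff2 hψ.ex hYf hYps hYN hA'Y ?_ ?_ ?_
      · intro T hTY hT3 a ha hTn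
        rw [hA'] at ha
        obtain ⟨x, hx, rfl⟩ := ha
        exact hsecU x ((hA1m x).mp hx) (by norm_num) T hTY hT3 hTn
      · intro a ha b hb
        rw [hA'] at ha hb
        obtain ⟨x, hx, rfl⟩ := ha
        obtain ⟨y, hy, rfl⟩ := hb
        exact hquad x y ((hA1m x).mp hx) ((hA1m y).mp hy)
      · -- the offender inequality
        have h1 := hψ.cd A1
        have h2 : Nat.card (Fx ψ A1) = Nat.card (FxU A') := by
          have : Fx ψ A1 = FxU A' := by
            ext w
            rw [mem_Fx, mem_FxU, hA']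
            constructor
            · rintro h _ ⟨x, hx, rfl⟩
              exact h x hx
            · intro h x hx
              exact h _ ⟨x, hx, rfl⟩
          rw [this]
        have h3 : Nat.card (Fx φ A1) =
            Nat.card (V ⊓ Subgroup.centralizer (A : Set G) : Subgroup G) := by
          have hmem : ∀ v : V, e v ∈ Fx φ A1 ↔
              v.1 ∈ (V ⊓ Subgroup.centralizer (A : Set G) : Subgroup G) := by
            intro v
            rw [mem_Fx, Subgroup.mem_inf, Subgroup.mem_centralizer_iff]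
            constructor
            · intro h
              refine ⟨v.2, fun a ha => ?_⟩
              have h4 := h ⟨a, hA ha⟩ ((hA1m _).mpr ha)
              rw [hφ] at h4
              have h5 := congrArg Subtype.val (e.injective h4)
              exact mul_inv_eq_iff_eq_mul.mp h5
            · rintro ⟨_, h⟩ x hx
              rw [hφ]
              congr 1
              apply Subtype.ext
              show x.1 * v.1 * x.1⁻¹ = v.1
              rw [h x.1 ((hA1m x).mp hx), mul_inv_cancel_right]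
          refine Nat.card_congr
            { toFun := fun w => ⟨(e.symm w.1).1, by
                rw [← hmem, e.apply_symm_apply]
                exact w.2⟩
              invFun := fun v => ⟨e ⟨v.1, v.2.1⟩, by
                rw [hmem]
                exact v.2⟩
              left_inv := ?_
              right_inv := ?_ }
          · intro w
            apply Subtype.ext
            show e ⟨(e.symm w.1).1, _⟩ = w.1
            rw [Subtype.coe_eta, e.apply_symm_apply]
          · intro v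
            apply Subtype.ext
            show (e.symm (e ⟨v.1, _⟩)).1 = v.1
            rw [e.symm_apply_apply]
        have h4 : Nat.card A1 ≤ Nat.card A' *
            Nat.card (A ⊓ Subgroup.centralizer (V : Set G) : Subgroup G) := by
          obtain ⟨f, hf⟩ : ∃ f : A1 →* A', ∀ x : A1, (f x).1 = ψ.toHomUnits x.1 :=
            ⟨(ψ.toHomUnits.comp A1.subtype).codRestrict A' (fun x => by
              rw [hA']
              exact ⟨x.1, x.2, rfl⟩), fun _ => rfl⟩
          have hfs : Function.Surjective f := by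
            rintro ⟨y, hy⟩
            rw [hA'] at hy
            obtain ⟨x, hx, rfl⟩ := hy
            exact ⟨⟨x, hx⟩, Subtype.ext (hf _)⟩
          have h5 : Nat.card A1 = Nat.card A' * Nat.card f.ker := by
            rw [Subgroup.card_eq_card_quotient_mul_card_subgroup f.ker]
            congr 1
            exact Nat.card_congr (QuotientGroup.quotientKerEquivOfSurjective f hfs).toEquiv
          rw [h5]
          refine Nat.mul_le_mul_left _ ?_
          have hAf : Finite (A ⊓ Subgroup.centralizer (V : Set G) : Subgroup G) :=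
            Finite.of_injective _ (Subgroup.inclusion_injective (inf_le_left.trans hA))
          refine Nat.card_le_card_of_injective (fun x : f.ker =>
            (⟨x.1.1.1, (hA1m _).mp x.1.2, ?_⟩ :
              (A ⊓ Subgroup.centralizer (V : Set G) : Subgroup G))) ?_
          · show x.1.1.1 ∈ Subgroup.centralizer (V : Set G)
            rw [Subgroup.mem_centralizer_iff]
            intro v hv
            have h6 : ψ x.1.1 = 1 := by
              have h7 : (f x.1).1 = 1 := congrArg Subtype.val (MonoidHom.mem_ker.mp x.2)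
              rw [hf] at h7
              exact congrArg Units.val h7
            exact (hAR rfl x.1.1.1 ((hA1m _).mp x.1.2) ((hRm x.1.1).mpr h6) v hv).symm
          · intro x y h
            have h6 := congrArg (fun z : (A ⊓ Subgroup.centralizer (V : Set G) : Subgroup G) =>
              z.1) h
            exact Subtype.ext (Subtype.ext (Subtype.ext h6))
        have h5 := hoff rfl
        have hVW : Nat.card V = Nat.card W := Nat.card_congr e
        rw [← h2]
        have hpos1 : 0 < Nat.card (Fx φ A1) := Nat.card_pos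
        have hAf : Finite (A ⊓ Subgroup.centralizer (V : Set G) : Subgroup G) :=
          Finite.of_injective _ (Subgroup.inclusion_injective (inf_le_left.trans hA))
        have hpos2 : 0 < Nat.card (A ⊓ Subgroup.centralizer (V : Set G) : Subgroup G) :=
          Nat.card_pos
        obtain ⟨c, hc⟩ : ∃ c, c = Nat.card (A ⊓ Subgroup.centralizer (V : Set G) :
          Subgroup G) := ⟨_, rfl⟩
        obtain ⟨f1, hf1⟩ : ∃ c, c = Nat.card (Fx φ A1) := ⟨_, rfl⟩
        rw [← h3, hVW, hcA, ← hc, ← hf1] at h5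
        rw [← hc] at h4 hpos2
        rw [← hf1] at h1 hpos1
        have h6 : (f1 * c) * Nat.card U ≤ (f1 * c) * (Nat.card A' * Nat.card (Fx ψ A1)) := by
          calc (f1 * c) * Nat.card U = (Nat.card U * f1) * c := by ring
            _ ≤ (Nat.card W * Nat.card (Fx ψ A1)) * c := Nat.mul_le_mul_right _ h1
            _ = (Nat.card W * c) * Nat.card (Fx ψ A1) := by ring
            _ ≤ (Nat.card A1 * f1) * Nat.card (Fx ψ A1) := Nat.mul_le_mul_right _ h5
            _ ≤ ((Nat.card A' * c) * f1) * Nat.card (Fx ψ A1) :=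
              Nat.mul_le_mul_right _ (Nat.mul_le_mul_right _ h4)
            _ = _ := by ring
        exact Nat.le_of_mul_le_mul_left h6 (Nat.mul_pos hpos1 hpos2)
    intro a ha
    refine (hRm ⟨a, hA ha⟩).mpr ?_
    have h1 : ψ.toHomUnits ⟨a, hA ha⟩ ∈ A' := by
      rw [hA']
      exact ⟨_, (hA1m _).mpr ha, rfl⟩
    rw [hmain, Subgroup.mem_bot] at h1
    exact congrArg Units.val h1
  · -- odd characteristic
    intro a ha
    refine (hRm ⟨a, hA ha⟩).mpr ?_
    have h1 : ψ.toHomUnits ⟨a, hA ha⟩ = 1 := by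
      refine quad_one hp hp2 hψ.ex hYf hYps hYN (by
        rw [hY]
        exact ⟨_, rfl⟩) (hquad ⟨a, hA ha⟩ ⟨a, hA ha⟩ ha ha) ?_
      by_cases h5 : 5 ≤ p
      · exact Or.inl h5
      · right
        intro T hTY hT hTn
        have h3 : 5 - p = 2 := by
          have := hp.two_le
          have h4 : p ≠ 4 := by
            rintro rfl
            exact absurd hp (by norm_num)
          omega
        exact hsecU ⟨a, hA ha⟩ ha (by omega) T hTY (by rw [h3]; exact hT) hTn
    exact congrArg Units.val h1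

end act

end Pool.Agent.Work.MP_6d7bb4.helper94
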