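import Pool.Agent.Work.MP_6d7bb4_helper94.Nc
import Pool.Agent.Work.MP_6d7bb4_helper94.Act

/-! # MP_6d7bb4: case B does not occur for `p`-soluble groups (helper94) -/

set_option autoImplicit false
set_option linter.unusedSectionVars false

namespace Pool.Agent.Work.MP_6d7bb4.helper94

open MulAction
open scoped commutatorElement

section grp
variable {G : Type*} [Group G]

theorem cj_mul (g h : G) (S : Subgroup G) : cj (g * h) S = cj g (cj h S) := by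
  ext z
  rw [mem_cj, mem_cj, mem_cj]
  have e : (g * h)⁻¹ * z * (g * h) = h⁻¹ * (g⁻¹ * z * g) * h := by group
  rw [e]

theorem cj_bot (g : G) : cj g (⊥ : Subgroup G) = ⊥ := by
  ext z
  rw [mem_cj, Subgroup.mem_bot, Subgroup.mem_bot]
  constructor
  · intro h
    have e : z = g * (g⁻¹ * z * g) * g⁻¹ := by group
    rw [e, h]
    group
  · rintro rfl
    group

theorem cj_of_nm {M N : Subgroup G} (h : Nm M N) {g : G} (hg : g ∈ M) : cj g N = N := by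
  ext z
  rw [mem_cj]
  constructor
  · intro hz
    have h1 := h g hg _ hz
    have e : g * (g⁻¹ * z * g) * g⁻¹ = z := by group
    rwa [e] at h1
  · intro hz
    have h1 := h g⁻¹ (M.inv_mem hg) z hz
    rwa [inv_inv] at h1

/-- in a group which is a `p`-group modulo `D`, subgroups which do not supplement `D` lie in proper
normal subgroups -/
theorem pq {p : ℕ} (hp : p.Prime) {J D P : Subgroup G} (hfin : Finite J) (hD : D ≤ J)
    (hDn : Nm J D) (hP : P ≤ J) (hpw : ∀ j ∈ J, ∃ k : ℕ, j ^ p ^ k ∈ D)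
    (hne : ∃ j ∈ J, ∀ a ∈ P, ∀ b ∈ D, j ≠ a * b) :
    ∃ M, M ≤ J ∧ M ≠ J ∧ Nm J M ∧ P ≤ M := by
  have : Fact p.Prime := ⟨hp⟩
  obtain ⟨D', hD'⟩ : ∃ D' : Subgroup J, D' = D.subgroupOf J := ⟨_, rfl⟩
  have hn1 : D'.Normal := by
    refine ⟨fun n hn g => ?_⟩
    rw [hD', Subgroup.mem_subgroupOf] at hn ⊢
    exact hDn g.1 g.2 n.1 hn
  have hq : IsPGroup p (J ⧸ D') := by
    intro x
    obtain ⟨g, rfl⟩ := QuotientGroup.mk_surjective x
    obtain ⟨k, hk⟩ := hpw g.1 g.2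
    refine ⟨k, ?_⟩
    rw [← QuotientGroup.mk_pow, QuotientGroup.eq_one_iff, hD', Subgroup.mem_subgroupOf]
    exact hk
  have hfQ : Finite (J ⧸ D') := inferInstance
  have hnil : Group.IsNilpotent (J ⧸ D') := hq.isNilpotent
  obtain ⟨R, hR⟩ : ∃ R : Subgroup (J ⧸ D'), R = (P.subgroupOf J).map (QuotientGroup.mk' D') :=
    ⟨_, rfl⟩
  have hRne : R ≠ ⊤ := by
    intro h
    obtain ⟨j, hj, hjn⟩ := hne
    have h1 : (QuotientGroup.mk' D') ⟨j, hj⟩ ∈ R := by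
      rw [h]
      exact Subgroup.mem_top _
    rw [hR] at h1
    obtain ⟨a, ha, haj⟩ := h1
    have h2 : (QuotientGroup.mk a : J ⧸ D') = QuotientGroup.mk ⟨j, hj⟩ := haj
    rw [QuotientGroup.eq, hD', Subgroup.mem_subgroupOf] at h2
    refine hjn a.1 ha _ h2 ?_
    show j = a.1 * (a.1⁻¹ * j)
    group
  obtain ⟨M', hM', hRM⟩ := (eq_top_or_exists_le_coatom R).resolve_left hRne
  have hM'n : M'.Normal := Subgroup.NormalizerCondition.normal_of_coatom M'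
    (Group.normalizerCondition_of_isNilpotent) hM'
  refine ⟨(M'.comap (QuotientGroup.mk' D')).map J.subtype, ?_, ?_, ?_, ?_⟩
  · rintro _ ⟨y, _, rfl⟩
    exact y.2
  · intro h
    apply hM'.1
    rw [eq_top_iff]
    intro x _
    obtain ⟨g, rfl⟩ := QuotientGroup.mk_surjective x
    have h1 : g.1 ∈ (M'.comap (QuotientGroup.mk' D')).map J.subtype := by
      rw [h]
      exact g.2
    obtain ⟨y, hy, hyg⟩ := h1
    have h2 : y = g := Subtype.ext hyg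
    rw [← h2]
    exact hy
  · rintro j hj _ ⟨y, hy, rfl⟩
    refine ⟨⟨j, hj⟩ * y * ⟨j, hj⟩⁻¹, ?_, rfl⟩
    show (QuotientGroup.mk' D') (⟨j, hj⟩ * y * ⟨j, hj⟩⁻¹) ∈ M'
    rw [map_mul, map_mul, map_inv]
    exact hM'n.conj_mem _ hy _
  · intro a ha
    refine ⟨⟨a, hP ha⟩, ?_, rfl⟩
    apply hRM
    rw [hR]
    exact ⟨⟨a, hP ha⟩, ha, rfl⟩

/-- fixed points of an action as a `p`-group on a `p`-group -/
theorem fixp {p : ℕ} (hp : p.Prime) {N Z : Subgroup G} (hZf : Finite Z) (hn : Nm N Z)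
    (hpa : PAct p N Z) (hZp : IsPGroup p Z) (hne : Z ≠ ⊥) :
    ∃ z ∈ Z, z ≠ 1 ∧ ∀ n ∈ N, n * z = z * n := by
  have : Fact p.Prime := ⟨hp⟩
  obtain ⟨ρ, hρ⟩ : ∃ ρ : N →* MulAut Z, ∀ (a : N) (s : Z), (ρ a s).1 = a.1 * s.1 * a.1⁻¹ :=
    ⟨cjH hn, fun a s => rfl⟩
  have hP : IsPGroup p ρ.range := by
    rintro ⟨_, n, rfl⟩
    obtain ⟨k, hk⟩ := hpa n.1 n.2
    refine ⟨k, Subtype.ext ?_⟩
    show ρ n ^ p ^ k = 1
    rw [← map_pow]
    ext s
    rw [hρ]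
    show n.1 ^ p ^ k * s.1 * (n.1 ^ p ^ k)⁻¹ = s.1
    rw [hk s.1 s.2, mul_inv_cancel_right]
  have hd : p ∣ Nat.card Z := by
    obtain ⟨k, hk⟩ := IsPGroup.iff_card.mp hZp
    rw [hk]
    refine dvd_pow_self p ?_
    rintro rfl
    rw [pow_zero, Subgroup.card_eq_one] at hk
    exact hne hk
  have h0 : (1 : Z) ∈ MulAction.fixedPoints ρ.range Z := by
    rintro ⟨f, hf⟩
    show f 1 = 1
    exact map_one f
  obtain ⟨z, hz, hz1⟩ := hP.exists_fixed_point_of_prime_dvd_card_of_fixed_point Z hd h0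
  refine ⟨z.1, z.2, ?_, ?_⟩
  · intro h
    exact hz1 (Subtype.ext h).symm
  · intro n hn'
    have h1 := hz ⟨ρ ⟨n, hn'⟩, ⟨_, rfl⟩⟩
    have h2 : (ρ ⟨n, hn'⟩ z).1 = z.1 := congrArg Subtype.val h1
    rw [hρ] at h2
    exact mul_inv_eq_iff_eq_mul.mp h2

theorem IsR.unique {p : ℕ} {X V R R' : Subgroup G} (h : IsR p X V R) (h' : IsR p X V R') :
    R = R' :=
  le_antisymm (h'.mx R h.le h.nm h.pa) (h.mx R' h'.le h'.nm h'.pa)

theorem PAct.cj {p : ℕ} {N V : Subgroup G} (g : G) (h : PAct p N V) :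
    PAct p (cj g N) (cj g V) := by
  intro n hn
  rw [mem_cj] at hn
  obtain ⟨k, hk⟩ := h _ hn
  refine ⟨k, fun v hv => ?_⟩
  rw [mem_cj] at hv
  have h1 := hk _ hv
  have h2 : (g⁻¹ * n * g) ^ p ^ k = g⁻¹ * n ^ p ^ k * g := by
    have := conj_pow (i := p ^ k) (a := g⁻¹) (b := n)
    rw [inv_inv] at this
    exact this
  rw [h2] at h1
  calc n ^ p ^ k * v = g * (g⁻¹ * n ^ p ^ k * g * (g⁻¹ * v * g)) * g⁻¹ := by group
    _ = g * (g⁻¹ * v * g * (g⁻¹ * n ^ p ^ k * g)) * g⁻¹ := by rw [h1]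
    _ = v * n ^ p ^ k := by group

theorem IsR.cj {p : ℕ} {X V R : Subgroup G} (g : G) (h : IsR p X V R) :
    IsR p (cj g X) (cj g V) (cj g R) := by
  refine ⟨cj_mono g h.le, nm_cj g h.nm, h.pa.cj g, ?_⟩
  intro M hM hMn hMp
  have h1 : helper94.cj g⁻¹ M ≤ R := by
    refine h.mx _ ?_ ?_ ?_
    · have := cj_mono g⁻¹ hM
      rwa [cj_cj_inv] at this
    · have := nm_cj g⁻¹ hMn
      rwa [cj_cj_inv] at this
    · have := hMp.cj g⁻¹
      rwa [cj_cj_inv] at this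
  have h2 := cj_mono g h1
  rwa [cj_inv_cj] at h2

end grp

section zt
variable {V G : Type*} [Group G] [MulAction G V] {Γ : SimpleGraph V} {d p : ℕ}

/-- a system of minimal invariant subgroups of the groups `Zz` -/
structure Zt (Γ : SimpleGraph V) (p : ℕ) (ζ : V → V → Subgroup G) : Prop where
  cj : ∀ (g : G) x y, ζ (g • x) (g • y) = cj g (ζ x y)
  cm : ∀ x y, ζ x y = ζ y x
  le : ∀ x y, Γ.Adj x y → ζ x y ≤ Zz p x y
  ne : ∀ x y, Γ.Adj x y → ζ x y ≠ ⊥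
  mn : ∀ x y, Γ.Adj x y → ∀ Z : Subgroup G, Z ≤ ζ x y → Z ≠ ⊥ → Nm (B x y) Z →
    (∀ σ : G, σ • x = y → σ • y = x → ∀ z ∈ Z, σ * z * σ⁻¹ ∈ Z) → Z = ζ x y

theorem zt_exists [Fact p.Prime] (h : Loc G Γ d) (hB : CB0 G Γ p) {x0 y0 : V}
    (hxy : Γ.Adj x0 y0) : ∃ ζ : V → V → Subgroup G, Zt Γ p ζ := by
  have hZf : Finite (Zz p x0 y0 : Subgroup G) := h.fin_le ((OZ_le _ _).trans (Qe_le_st x0 y0))
  obtain ⟨σ0, hσ1, hσ2⟩ := h.inv hxy
  have hfin : {Z : Subgroup G | Z ≤ Zz p x0 y0 ∧ Z ≠ ⊥ ∧ Nm (B x0 y0) Z ∧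
      ∀ σ : G, σ • x0 = y0 → σ • y0 = x0 → ∀ z ∈ Z, σ * z * σ⁻¹ ∈ Z}.Finite :=
    (finite_Iic (Zz p x0 y0 : Subgroup G)).subset (fun Z hZ => hZ.1)
  obtain ⟨Z0, hZ0⟩ := hfin.exists_minimal ⟨Zz p x0 y0, le_refl _, Zz_ne h hB hxy,
    nm_Zz x0 y0, fun σ h1 h2 z hz => by
      have h3 := conj_mem_cj (g := σ) hz
      rwa [← Zz_cj, h1, h2, Zz_comm] at h3⟩
  obtain ⟨⟨hZle, hZne, hZn, hZσ⟩, hZm⟩ := hZ0
  have hσZ : helper94.cj σ0 Z0 = Z0 := by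
    ext z
    rw [mem_cj]
    constructor
    · intro hz
      have h1 := hZσ σ0 hσ1 hσ2 _ hz
      have e : σ0 * (σ0⁻¹ * z * σ0) * σ0⁻¹ = z := by group
      rwa [e] at h1
    · intro hz
      have h1 := hZσ σ0⁻¹ (by rw [← hσ2, inv_smul_smul]) (by rw [← hσ1, inv_smul_smul]) z hz
      rwa [inv_inv] at h1
  obtain ⟨ζ, hζ⟩ : ∃ ζ : V → V → Subgroup G, ∀ x y, ζ x y =
      ⨆ g : {g : G // g • x0 = x ∧ g • y0 = y}, helper94.cj g.1 Z0 := ⟨_, fun _ _ => rfl⟩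
  have h0 : ∀ g : G, ζ (g • x0) (g • y0) = helper94.cj g Z0 := by
    intro g
    rw [hζ]
    refine le_antisymm (iSup_le ?_) ?_
    · rintro ⟨k, hk1, hk2⟩
      have h1 : g⁻¹ * k ∈ B x0 y0 := by
        rw [mem_B, mul_smul, mul_smul, hk1, hk2, inv_smul_smul, inv_smul_smul]
        exact ⟨rfl, rfl⟩
      have h2 : k = g * (g⁻¹ * k) := by group
      show helper94.cj k Z0 ≤ helper94.cj g Z0
      rw [h2, cj_mul, cj_of_nm hZn h1]
    · exact le_iSup (fun k : {k : G // k • x0 = g • x0 ∧ k • y0 = g • y0} =>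
        helper94.cj k.1 Z0) ⟨g, rfl, rfl⟩
  have hemp : ∀ x y, (¬ ∃ g : G, g • x0 = x ∧ g • y0 = y) → ζ x y = ⊥ := by
    intro x y hcon
    rw [hζ, eq_bot_iff]
    exact iSup_le (fun g => absurd ⟨g.1, g.2⟩ hcon)
  refine ⟨ζ, ?_, ?_, ?_, ?_, ?_⟩
  · intro g x y
    by_cases hxy' : ∃ k : G, k • x0 = x ∧ k • y0 = y
    · obtain ⟨k, rfl, rfl⟩ := hxy'
      rw [← mul_smul, ← mul_smul, h0, h0, cj_mul]
    · rw [hemp x y hxy', cj_bot, hemp]
      rintro ⟨k, hk1, hk2⟩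
      apply hxy'
      exact ⟨g⁻¹ * k, by rw [mul_smul, hk1, inv_smul_smul], by rw [mul_smul, hk2, inv_smul_smul]⟩
  · intro x y
    by_cases hxy' : ∃ k : G, k • x0 = x ∧ k • y0 = y
    · obtain ⟨k, rfl, rfl⟩ := hxy'
      have h1 : ζ (k • y0) (k • x0) = helper94.cj (k * σ0) Z0 := by
        rw [← h0, mul_smul, mul_smul, hσ1, hσ2]
      rw [h0, h1, cj_mul, hσZ]
    · rw [hemp x y hxy', hemp]
      rintro ⟨k, hk1, hk2⟩
      apply hxy'
      exact ⟨k * σ0, by rw [mul_smul, hσ1, hk2], by rw [mul_smul, hσ2, hk1]⟩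
  · intro x y hadj
    obtain ⟨k, rfl, rfl⟩ := h.arc x0 y0 x y hxy hadj
    rw [h0, Zz_cj]
    exact cj_mono k hZle
  · intro x y hadj
    obtain ⟨k, rfl, rfl⟩ := h.arc x0 y0 x y hxy hadj
    rw [h0]
    intro hcon
    apply hZne
    rw [← cj_cj_inv k Z0, hcon, cj_bot]
  · intro x y hadj Z hZ hne hn hσ
    obtain ⟨k, rfl, rfl⟩ := h.arc x0 y0 x y hxy hadj
    rw [h0] at hZ ⊢
    have h1 : helper94.cj k⁻¹ Z ≤ Z0 := by
      have := cj_mono k⁻¹ hZ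
      rwa [cj_cj_inv] at this
    have h2 : Z0 ≤ helper94.cj k⁻¹ Z := by
      refine hZm ⟨h1.trans hZle, ?_, ?_, ?_⟩ h1
      · intro hcon
        apply hne
        rw [← cj_inv_cj k Z, hcon, cj_bot]
      · have := nm_cj k⁻¹ hn
        rwa [B_cj, cj_cj_inv] at this
      · intro σ h3 h4 z hz
        rw [mem_cj, inv_inv] at hz ⊢
        have h5 := hσ (k * σ * k⁻¹) (by rw [mul_smul, mul_smul, inv_smul_smul, h3])
          (by rw [mul_smul, mul_smul, inv_smul_smul, h4]) _ hz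
        have e : k * σ * k⁻¹ * (k * z * k⁻¹) * (k * σ * k⁻¹)⁻¹ = k * (σ * z * σ⁻¹) * k⁻¹ := by
          group
        rwa [e] at h5
    have h3 : helper94.cj k⁻¹ Z = Z0 := le_antisymm h1 h2
    rw [← h3, cj_inv_cj]

/-- generated by the `ζ x y` -/
def VZ (Γ : SimpleGraph V) (ζ : V → V → Subgroup G) (x : V) : Subgroup G :=
  ⨆ y : {y // Γ.Adj x y}, ζ x y.1

theorem z_le_VZ {ζ : V → V → Subgroup G} {x y : V} (hxy : Γ.Adj x y) : ζ x y ≤ VZ Γ ζ x :=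
  le_iSup (fun y : {y // Γ.Adj x y} => ζ x y.1) ⟨y, hxy⟩

theorem VZ_cj (h : Loc G Γ d) {ζ : V → V → Subgroup G} (hz : Zt Γ p ζ) (g : G) (x : V) :
    VZ Γ ζ (g • x) = cj g (VZ Γ ζ x) := by
  have key : ∀ (g : G) (x : V), VZ Γ ζ (g • x) ≤ cj g (VZ Γ ζ x) := by
    intro g x
    refine iSup_le (fun y => ?_)
    have h1 : Γ.Adj x (g⁻¹ • y.1) := by
      rw [← h.adj_iff g, smul_inv_smul]
      exact y.2
    have h2 : ζ (g • x) y.1 = cj g (ζ x (g⁻¹ • y.1)) := by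
      rw [← hz.cj, smul_inv_smul]
    rw [h2]
    exact cj_mono g (z_le_VZ h1)
  refine le_antisymm (key g x) ?_
  have h1 := cj_mono g (key g⁻¹ (g • x))
  rw [inv_smul_smul, cj_inv_cj] at h1
  exact h1

variable [Fact p.Prime]

theorem nm_VZ (h : Loc G Γ d) {ζ : V → V → Subgroup G} (hz : Zt Γ p ζ) (x : V) :
    Nm (stabilizer G x) (VZ Γ ζ x) :=
  nm_of_equiv (VZ_cj h hz) x

theorem VZ_le_OZ (h : Loc G Γ d) (hB : CB0 G Γ p) {ζ : V → V → Subgroup G} (hz : Zt Γ p ζ)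
    (x : V) : VZ Γ ζ x ≤ OZ p (Qv Γ p x) := by
  refine iSup_le (fun y => ?_)
  intro z hz'
  have h1 := hz.le x y.1 y.2 hz'
  exact ⟨hB.zq x y.1 y.2 h1, h1.2.1, fun q hq => h1.2.2 q (Qv_le_Qe h y.2 hq)⟩

theorem VZ_le_Qv (h : Loc G Γ d) (hB : CB0 G Γ p) {ζ : V → V → Subgroup G} (hz : Zt Γ p ζ)
    (x : V) : VZ Γ ζ x ≤ Qv Γ p x := (VZ_le_OZ h hB hz x).trans (OZ_le _ _)

theorem VZ_pow (h : Loc G Γ d) (hB : CB0 G Γ p) {ζ : V → V → Subgroup G} (hz : Zt Γ p ζ)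
    {x : V} {v : G} (hv : v ∈ VZ Γ ζ x) : v ^ p = 1 := (VZ_le_OZ h hB hz x hv).2.1

theorem VZ_comm (h : Loc G Γ d) (hB : CB0 G Γ p) {ζ : V → V → Subgroup G} (hz : Zt Γ p ζ)
    {x : V} {q v : G} (hq : q ∈ Qv Γ p x) (hv : v ∈ VZ Γ ζ x) : q * v = v * q :=
  (VZ_le_OZ h hB hz x hv).2.2 q hq

theorem nm_z {ζ : V → V → Subgroup G} (hz : Zt Γ p ζ) (x y : V) : Nm (B x y) (ζ x y) := by
  refine nm_of_cj (fun g hg => ?_)
  rw [← hz.cj, hg.1, hg.2]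

/-- the centraliser of `VZ x` is not transitive -/
theorem centZ_not_tr (h : Loc G Γ d) {ζ : V → V → Subgroup G} (hz : Zt Γ p ζ) {x y : V}
    (hxy : Γ.Adj x y) {C : Subgroup G} (hCs : C ≤ stabilizer G x)
    (hC : ∀ g ∈ C, ∀ v ∈ VZ Γ ζ x, g * v = v * g)
    (ht : ∀ y y', Γ.Adj x y → Γ.Adj x y' → ∃ n ∈ C, n • y = y') : False := by
  apply hz.ne x y hxy
  obtain ⟨σ, h1, h2⟩ := h.inv hxy
  refine P1 h hxy ((hz.le x y hxy).trans ((OZ_le _ _).trans (Qe_le_st x y))) ?_ h1 h2 ?_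
  · refine nm_st hCs ht h hxy ?_ (nm_z hz x y)
    exact nm_of_comm (fun n hn m hm => hC n hn m (z_le_VZ hxy hm))
  · intro n hn
    have h3 := conj_mem_cj (g := σ) hn
    rw [← hz.cj, h1, h2, hz.cm] at h3
    exact h3

/-- elements of an arc stabiliser which centralise `VZ x` are in the kernel -/
theorem centZ_K (h : Loc G Γ d) {ζ : V → V → Subgroup G} (hz : Zt Γ p ζ)
    {x y : V} (hxy : Γ.Adj x y) {g : G} (hg : g ∈ B x y)
    (hc : ∀ v ∈ VZ Γ ζ x, g * v = v * g) : g ∈ K Γ x := by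
  obtain ⟨C, hC⟩ : ∃ C : Subgroup G, ∀ g, g ∈ C ↔ g ∈ stabilizer G x ∧
      ∀ k ∈ VZ Γ ζ x, g * k = k * g :=
    ⟨stabilizer G x ⊓ Subgroup.centralizer (VZ Γ ζ x : Subgroup G), fun g => by
      rw [Subgroup.mem_inf, Subgroup.mem_centralizer_iff]
      exact and_congr_right (fun _ => forall₂_congr (fun k _ => eq_comm))⟩
  have hCs : C ≤ stabilizer G x := fun g hg => ((hC g).mp hg).1
  have hCn : Nm (stabilizer G x) C := by
    intro a ha c hc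
    rw [hC] at hc ⊢
    refine ⟨(stabilizer G x).mul_mem ((stabilizer G x).mul_mem ha hc.1)
      ((stabilizer G x).inv_mem ha), fun k hk => ?_⟩
    have h1 := nm_VZ h hz x a⁻¹ ((stabilizer G x).inv_mem ha) k hk
    rw [inv_inv] at h1
    have h2 := hc.2 _ h1
    calc a * c * a⁻¹ * k = a * (c * (a⁻¹ * k * a)) * a⁻¹ := by group
      _ = a * (a⁻¹ * k * a * c) * a⁻¹ := by rw [h2]
      _ = k * (a * c * a⁻¹) := by group
  rcases h.sp x C hCs hCn with ht | h1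
  · exfalso
    exact centZ_not_tr h hz hxy hCs (fun g hg => ((hC g).mp hg).2) ht
  · exact h1 g ((hC g).mpr ⟨hg.1, hc⟩) y hxy hg.2

/-- a normal subgroup of a vertex stabiliser which acts on `VZ x` as a `p`-group acts
semiregularly at the neighbours -/
theorem nc_lem (h : Loc G Γ d) {ζ : V → V → Subgroup G} (hz : Zt Γ p ζ)
    {x y : V} (hxy : Γ.Adj x y) {R : Subgroup G} (hR : R ≤ stabilizer G x)
    (hRn : Nm (stabilizer G x) R) (hRp : PAct p R (VZ Γ ζ x)) {a : G} (ha : a ∈ R)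
    (haB : a ∈ B x y) : a ∈ K Γ x := by
  by_contra haK
  have hfs := h.fin x
  have hfin : {J : Subgroup G | J ≤ R ∧ Nm (stabilizer G x) J ∧ ¬ J ⊓ B x y ≤ K Γ x}.Finite :=
    (finite_Iic (stabilizer G x)).subset (fun J hJ => hJ.1.trans hR)
  obtain ⟨J, hJ⟩ := hfin.exists_minimal ⟨R, le_refl R, hRn, fun hcon => haK (hcon ⟨ha, haB⟩)⟩
  obtain ⟨⟨hJR, hJn, hJK⟩, hJm⟩ := hJ
  have hJs := hJR.trans hR
  have hJf := h.fin_le hJs
  have ht : ∀ y y', Γ.Adj x y → Γ.Adj x y' → ∃ n ∈ J, n • y = y' := by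
    rcases h.sp x J hJs hJn with h1 | h1
    · exact h1
    · exfalso
      exact hJK (fun g hg => h1 g hg.1 y hxy hg.2.2)
  obtain ⟨P, hP⟩ : ∃ P, P = J ⊓ B x y := ⟨_, rfl⟩
  have hPJ : P ≤ J := by
    rw [hP]
    exact inf_le_left
  have hPB : Nm (B x y) P := by
    rw [hP]
    exact (hJn.mono (B_le x y)).inf (nm_self _)
  -- proper normal subgroups of `J` do not contain `P`
  have hno : ∀ M : Subgroup G, M ≤ J → M ≠ J → Nm J M → P ≤ M → False := by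
    intro M hMJ hMne hMn hPM
    obtain ⟨J1, hJ1⟩ : ∃ J1 : Subgroup G, J1 = ⨆ j : J, cj j.1 P := ⟨_, rfl⟩
    have hJ1M : J1 ≤ M := by
      rw [hJ1]
      refine iSup_le (fun j => ?_)
      intro g hg
      rw [mem_cj] at hg
      have h1 := hMn j.1 j.2 _ (hPM hg)
      have e : j.1 * (j.1⁻¹ * g * j.1) * j.1⁻¹ = g := by group
      rwa [e] at h1
    have hPJ1 : P ≤ J1 := by
      rw [hJ1]
      have h1 := le_iSup (fun j : J => cj j.1 P) 1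
      have h2 : cj (1 : J).1 P = P := by
        ext z
        rw [mem_cj]
        show (1 : G)⁻¹ * z * 1 ∈ P ↔ z ∈ P
        rw [inv_one, one_mul, mul_one]
      rw [h2] at h1
      exact h1
    have hJ1J : Nm J J1 := by
      rw [hJ1]
      refine Nm.iSup ?_
      intro b hb j n hn
      have h1 : b * n * b⁻¹ ∈ cj (⟨b, hb⟩ * j : J).1 P := by
        show b * n * b⁻¹ ∈ cj (b * j.1) P
        rw [cj_mul]
        exact conj_mem_cj hn
      have h3 := le_iSup (fun j : J => cj j.1 P) (⟨b, hb⟩ * j)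
      exact h3 h1
    have hJ1B : Nm (B x y) J1 := by
      rw [hJ1]
      refine Nm.iSup ?_
      intro b hb j n hn
      have hj : b * j.1 * b⁻¹ ∈ J := hJn b (B_le x y hb) j.1 j.2
      have h1 : b * n * b⁻¹ ∈ cj (b * j.1 * b⁻¹) P := by
        rw [mem_cj] at hn ⊢
        have h2 := hPB b hb _ hn
        have e : b * (j.1⁻¹ * n * j.1) * b⁻¹ =
            (b * j.1 * b⁻¹)⁻¹ * (b * n * b⁻¹) * (b * j.1 * b⁻¹) := by group
        rwa [e] at h2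
      have h3 := le_iSup (fun j : J => cj j.1 P) ⟨b * j.1 * b⁻¹, hj⟩
      exact h3 h1
    have hJ1s : Nm (stabilizer G x) J1 := nm_st hJs ht h hxy hJ1J hJ1B
    have h1 : J ≤ J1 := by
      refine hJm ⟨(hJ1M.trans hMJ).trans hJR, hJ1s, ?_⟩ (hJ1M.trans hMJ)
      intro hcon
      apply hJK
      rw [← hP]
      exact (le_inf hPJ1 (by rw [hP]; exact inf_le_right)).trans hcon
    exact hMne (le_antisymm hMJ (h1.trans hJ1M))
  -- the centraliser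
  obtain ⟨D, hD⟩ : ∃ D : Subgroup G, ∀ g, g ∈ D ↔ g ∈ J ∧
      ∀ k ∈ VZ Γ ζ x, g * k = k * g :=
    ⟨J ⊓ Subgroup.centralizer (VZ Γ ζ x : Subgroup G), fun g => by
      rw [Subgroup.mem_inf, Subgroup.mem_centralizer_iff]
      exact and_congr_right (fun _ => forall₂_congr (fun k _ => eq_comm))⟩
  have hDJ : D ≤ J := fun g hg => ((hD g).mp hg).1
  have hDn : Nm J D := by
    intro a ha c hc
    rw [hD] at hc ⊢
    refine ⟨J.mul_mem (J.mul_mem ha hc.1) (J.inv_mem ha), fun k hk => ?_⟩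
    have h1 := nm_VZ h hz x a⁻¹ ((stabilizer G x).inv_mem (hJs ha)) k hk
    rw [inv_inv] at h1
    have h2 := hc.2 _ h1
    calc a * c * a⁻¹ * k = a * (c * (a⁻¹ * k * a)) * a⁻¹ := by group
      _ = a * (a⁻¹ * k * a * c) * a⁻¹ := by rw [h2]
      _ = k * (a * c * a⁻¹) := by group
  have hfac : ∀ j ∈ J, ∃ a ∈ P, ∃ b ∈ D, j = a * b := by
    by_contra hcon
    push Not at hcon
    obtain ⟨M, hM1, hM2, hM3, hM4⟩ := pq (Fact.out : p.Prime) hJf hDJ hDn hPJ (by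
      intro j hj
      obtain ⟨k, hk⟩ := hRp j (hJR hj)
      exact ⟨k, (hD _).mpr ⟨J.pow_mem hj _, hk⟩⟩) hcon
    exact hno M hM1 hM2 hM3 hM4
  refine centZ_not_tr h hz hxy (hDJ.trans hJs) (fun g hg => ((hD g).mp hg).2) ?_
  have hfix : ∀ y', Γ.Adj x y' → ∃ n ∈ D, n • y = y' := by
    intro y' hy'
    obtain ⟨n, hn, hn'⟩ := ht y y' hxy hy'
    obtain ⟨a, ha, b, hb, hab⟩ := hfac n⁻¹ (J.inv_mem hn)
    refine ⟨b⁻¹, D.inv_mem hb, ?_⟩
    have h1 : b⁻¹ = n * a := by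
      have : n = (a * b)⁻¹ := by
        rw [← hab, inv_inv]
      rw [this]
      group
    rw [hP] at ha
    rw [h1, mul_smul, (ha.2).2, hn']
  intro y1 y2 hy1 hy2
  obtain ⟨n1, hn1, hn1'⟩ := hfix y1 hy1
  obtain ⟨n2, hn2, hn2'⟩ := hfix y2 hy2
  refine ⟨n2 * n1⁻¹, D.mul_mem hn2 (D.inv_mem hn1), ?_⟩
  rw [mul_smul, ← hn1', inv_smul_smul, hn2']

/-- commutators of the kernel and the groups `Qe` -/
theorem K_Nh (h : Loc G Γ d) {w : V} {k n : G} (hk : k ∈ (K Γ w : Subgroup G))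
    (hn : n ∈ (Nh Γ p w : Subgroup G)) : k * n * k⁻¹ * n⁻¹ ∈ (Qv Γ p w : Subgroup G) := by
  obtain ⟨M, hM⟩ : ∃ M : Subgroup G, ∀ n, n ∈ M ↔ n ∈ stabilizer G w ∧
      ∀ k ∈ (K Γ w : Subgroup G), k * n * k⁻¹ * n⁻¹ ∈ (Qv Γ p w : Subgroup G) := by
    refine ⟨{ carrier := {n | n ∈ stabilizer G w ∧
                ∀ k ∈ (K Γ w : Subgroup G), k * n * k⁻¹ * n⁻¹ ∈ (Qv Γ p w : Subgroup G)}
              one_mem' := ⟨Subgroup.one_mem _, fun k _ => by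
                have e : k * 1 * k⁻¹ * (1 : G)⁻¹ = 1 := by group
                rw [e]
                exact Subgroup.one_mem _⟩
              mul_mem' := ?_
              inv_mem' := ?_ }, fun _ => Iff.rfl⟩
    · rintro a b ⟨ha, ha'⟩ ⟨hb, hb'⟩
      refine ⟨Subgroup.mul_mem _ ha hb, fun k hk => ?_⟩
      have e : k * (a * b) * k⁻¹ * (a * b)⁻¹ =
          (k * a * k⁻¹ * a⁻¹) * (a * (k * b * k⁻¹ * b⁻¹) * a⁻¹) := by group
      rw [e]
      exact Subgroup.mul_mem _ (ha' k hk) (nm_Qv h w a ha _ (hb' k hk))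
    · rintro a ⟨ha, ha'⟩
      refine ⟨Subgroup.inv_mem _ ha, fun k hk => ?_⟩
      have e : k * a⁻¹ * k⁻¹ * a⁻¹⁻¹ = a⁻¹ * (k * a * k⁻¹ * a⁻¹)⁻¹ * a⁻¹⁻¹ := by
        group
      rw [e]
      exact nm_Qv h w _ (Subgroup.inv_mem _ ha) _ (Subgroup.inv_mem _ (ha' k hk))
  have hNM : (Nh Γ p w : Subgroup G) ≤ M := by
    refine iSup_le (fun y => ?_)
    intro q hq
    rw [hM]
    refine ⟨Qe_le_st w y.1 hq, fun k hk => ?_⟩
    rw [Qv_eq h y.2]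
    constructor
    · exact Subgroup.mul_mem _ (nm_Qe h w y.1 k (K_le_B y.2 hk) q hq) (Subgroup.inv_mem _ hq)
    · have e : k * q * k⁻¹ * q⁻¹ = k * (q * k⁻¹ * q⁻¹) := by group
      rw [e]
      exact Subgroup.mul_mem _ hk (nm_K h w q (Qe_le_st w y.1 hq) _ (Subgroup.inv_mem _ hk))
  exact ((hM n).mp (hNM hn)).2 k hk

end zt

end Pool.Agent.Work.MP_6d7bb4.helper94
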