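import Pool.Agent.Work.MP_6d7bb4_helper94.Conj

/-! # MP_6d7bb4: finitely many conjugacy classes (helper94) -/

set_option autoImplicit false
set_option linter.unusedSectionVars false

namespace Pool.Agent.Work.MP_6d7bb4.helper94.Tr

section cls
variable {V : Type*} {Γ : SimpleGraph V} {o : V}

/-- the restrictions to a ball of the stabiliser of its centre -/
def Rst (Γ : SimpleGraph V) (o : V) (N : ℕ) (H : Subgroup (Γ ≃g Γ)) :
    Set ({v // Γ.dist o v ≤ N} → {v // Γ.dist o v ≤ N}) :=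
  {f | ∃ g ∈ H, g o = o ∧ ∀ u, g u.1 = (f u).1}

theorem Rst_app (hc : Γ.Connected) {N : ℕ} {H H' : Subgroup (Γ ≃g Γ)}
    (hR : Rst Γ o N H = Rst Γ o N H') {g : Γ ≃g Γ} (hg : g ∈ H) (ho : g o = o) :
    ∃ g' ∈ H', g' o = o ∧ ∀ v, Γ.dist o v ≤ N → g' v = g v := by
  have h0 : ∀ u : {v // Γ.dist o v ≤ N}, Γ.dist o (g u.1) ≤ N := by
    intro u
    have h1 := dist_iso g hc o u.1
    rw [ho] at h1
    rw [h1]
    exact u.2
  have h1 : (fun u : {v // Γ.dist o v ≤ N} => (⟨g u.1, h0 u⟩ : {v // Γ.dist o v ≤ N})) ∈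
      Rst Γ o N H := ⟨g, hg, ho, fun _ => rfl⟩
  rw [hR] at h1
  obtain ⟨g', hg', ho', h2⟩ := h1
  exact ⟨g', hg', ho', fun v hv => h2 ⟨v, hv⟩⟩

theorem agree (hT : Γ.IsTree) {T : {y // Γ.Adj o y} → (Γ ≃g Γ)} (hS : Sys Γ o T) {R : ℕ}
    {H H' : Subgroup (Γ ≃g Γ)} (hH : ∀ y, T y ∈ H) (hH' : ∀ y, T y ∈ H')
    (hf' : ∀ g ∈ H', (∀ v, Γ.dist o v ≤ R → g v = v) → g = 1)
    (hR : ∀ g ∈ H, g o = o → ∃ g' ∈ H', g' o = o ∧ ∀ v, Γ.dist o v ≤ R + 1 → g' v = g v)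
    (n : ℕ) : ∀ g ∈ H, ∀ g' ∈ H', g o = o → g' o = o →
      (∀ v, Γ.dist o v ≤ R + 1 → g v = g' v) → ∀ v, Γ.dist o v ≤ R + 1 + n → g v = g' v := by
  have hc := hT.connected
  induction n with
  | zero =>
    intro g _ g' _ _ _ h1 v hv
    exact h1 v hv
  | succ n ih =>
    intro g hg g' hg' ho ho' h1 v hv
    by_cases hne : o = v
    · rw [← hne, ho, ho']
    obtain ⟨i, hi, hd⟩ := closer_exists hc hne
    obtain ⟨y, hy⟩ : ∃ y : {y // Γ.Adj o y}, y.1 = i := ⟨⟨i, hi⟩, rfl⟩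
    have hz0 : Γ.Adj o (g y.1) := by
      have := adj_iso g y.2
      rwa [ho] at this
    obtain ⟨z, hz⟩ : ∃ z : {y // Γ.Adj o y}, z.1 = g y.1 := ⟨⟨_, hz0⟩, rfl⟩
    have hz' : g' y.1 = z.1 := by
      rw [hz, h1 y.1]
      rw [SimpleGraph.dist_eq_one_iff_adj.mpr y.2]
      omega
    obtain ⟨k, hk⟩ : ∃ k, k = T z * g * T y := ⟨_, rfl⟩
    obtain ⟨k', hk'⟩ : ∃ k, k = T z * g' * T y := ⟨_, rfl⟩
    have hkH : k ∈ H := by
      rw [hk]
      exact H.mul_mem (H.mul_mem (hH z) hg) (hH y)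
    have hkH' : k' ∈ H' := by
      rw [hk']
      exact H'.mul_mem (H'.mul_mem (hH' z) hg') (hH' y)
    have hko : k o = o := by
      rw [hk, mul_app, mul_app, hS.ap, ← hz, hS.ap']
    have hko' : k' o = o := by
      rw [hk', mul_app, mul_app, hS.ap, hz', hS.ap']
    have hkk : ∀ u, Γ.dist o u ≤ R → k u = k' u := by
      intro u hu
      rw [hk, hk', mul_app, mul_app, mul_app, mul_app, h1]
      rw [ev_step hc hS]
      have := dist_tri1 hc y u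
      omega
    obtain ⟨k2, hk2, hko2, h2⟩ := hR k hkH hko
    have h3 : k2 = k' := by
      have h4 : k2⁻¹ * k' = 1 := by
        refine hf' _ (H'.mul_mem (H'.inv_mem hk2) hkH') ?_
        intro u hu
        rw [mul_app, ← hkk u hu, ← h2 u (by omega), inv_app]
      exact inv_mul_eq_one.mp h4
    have h5 := ih k hkH k' hkH' hko hko' (by
      intro u hu
      rw [← h2 u hu, h3]) (T y v) (by
      rw [ev_step hc hS, hy]
      omega)
    rw [hk, hk', mul_app, mul_app, mul_app, mul_app] at h5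
    have h6 : T y (T y v) = v := by
      rw [← mul_app, hS.sq, one_app]
    rw [h6] at h5
    have h7 := congrArg (T z) h5
    rwa [← mul_app (T z) (T z), hS.sq, one_app, ← mul_app (T z) (T z), hS.sq, one_app] at h7

theorem le_of_Rst (hT : Γ.IsTree) {T : {y // Γ.Adj o y} → (Γ ≃g Γ)} (hS : Sys Γ o T) {R : ℕ}
    {H H' : Subgroup (Γ ≃g Γ)} (hH : ∀ y, T y ∈ H) (hH' : ∀ y, T y ∈ H')
    (hf' : ∀ g ∈ H', (∀ v, Γ.dist o v ≤ R → g v = v) → g = 1)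
    (hR : Rst Γ o (R + 1) H = Rst Γ o (R + 1) H') : H ≤ H' := by
  have hc := hT.connected
  intro g hg
  obtain ⟨w, hw⟩ := ev_surj hc hS (g o)
  have h1 : ((ev T w)⁻¹ * g) o = o := by
    rw [mul_app, ← hw, inv_app]
  have h2 : (ev T w)⁻¹ * g ∈ H := H.mul_mem (H.inv_mem (ev_mem hH w)) hg
  obtain ⟨g', hg', ho', h3⟩ := Rst_app hc hR h2 h1
  have h4 : (ev T w)⁻¹ * g = g' := by
    ext v
    exact agree hT hS hH hH' hf' (fun g hg ho => Rst_app hc hR hg ho) (Γ.dist o v) _ h2 g' hg' h1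
      ho' (fun v hv => (h3 v hv).symm) v (by omega)
  have h5 : g = ev T w * g' := by
    rw [← h4, mul_inv_cancel_left]
  rw [h5]
  exact H'.mul_mem (ev_mem hH' w) hg'

/-- finitely many groups contain a given system -/
theorem fin_sys (hT : Γ.IsTree) (hf : ∀ v, Finite {w // Γ.Adj v w})
    {T : {y // Γ.Adj o y} → (Γ ≃g Γ)} (hS : Sys Γ o T) (R : ℕ) :
    {H : Subgroup (Γ ≃g Γ) | (∀ y, T y ∈ H) ∧
      ∀ g ∈ H, (∀ v, Γ.dist o v ≤ R → g v = v) → g = 1}.Finite := by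
  have hfin : Finite {v // Γ.dist o v ≤ R + 1} :=
    Set.finite_coe_iff.mpr (ball_finite hT.connected hf o (R + 1))
  refine Set.Finite.of_finite_image (f := Rst Γ o (R + 1)) (Set.toFinite _) ?_
  intro H hH H' hH' hR
  exact le_antisymm (le_of_Rst hT hS hH.1 hH'.1 hH'.2 hR)
    (le_of_Rst hT hS hH'.1 hH.1 hH.2 hR.symm)

/-- finitely many conjugacy classes -/
theorem classes (hT : Γ.IsTree) (hf : ∀ v, Finite {w // Γ.Adj v w}) (o : V) (R : ℕ)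
    (P : Subgroup (Γ ≃g Γ) → Prop)
    (hP : ∀ H, P H → ∀ a : Γ ≃g Γ, P (H.map (MulAut.conj a).toMonoidHom))
    (hinv : ∀ H, P H → ∀ y, Γ.Adj o y → ∃ τ ∈ H, τ o = y ∧ τ * τ = 1)
    (hfa : ∀ H, P H → ∀ g ∈ H, (∀ v, Γ.dist o v ≤ R → g v = v) → g = 1) :
    ∃ S : Finset (Subgroup (Γ ≃g Γ)), ∀ H, P H → ∃ K ∈ S, ∃ a : Γ ≃g Γ,
      H = K.map (MulAut.conj a).toMonoidHom := by
  classical
  have hsys : ∀ H, P H → ∃ T, Sys Γ o T ∧ ∀ y, T y ∈ H := by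
    intro H hH
    choose τ h1 h2 h3 using fun y : {y // Γ.Adj o y} => hinv H hH y.1 y.2
    exact ⟨τ, ⟨h2, h3⟩, h1⟩
  by_cases h0 : ∃ H, P H
  · obtain ⟨H0, hH0⟩ := h0
    obtain ⟨T0, hS0, _⟩ := hsys H0 hH0
    have hfin := fin_sys hT hf hS0 R
    refine ⟨hfin.toFinset, fun H hH => ?_⟩
    obtain ⟨T, hS, hTH⟩ := hsys H hH
    obtain ⟨a, ha⟩ := sys_conj hT hS hS0
    refine ⟨H.map (MulAut.conj a).toMonoidHom, ?_, a⁻¹, ?_⟩
    · rw [Set.Finite.mem_toFinset]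
      refine ⟨fun y => ?_, hfa _ (hP H hH a)⟩
      rw [← ha y]
      exact ⟨T y, hTH y, rfl⟩
    · rw [Subgroup.map_map]
      have h1 : (MulAut.conj a⁻¹).toMonoidHom.comp (MulAut.conj a).toMonoidHom =
          MonoidHom.id (Γ ≃g Γ) := by
        refine MonoidHom.ext (fun g => ?_)
        show a⁻¹ * (a * g * a⁻¹) * a⁻¹⁻¹ = g
        group
      rw [h1, Subgroup.map_id]
  · exact ⟨∅, fun H hH => absurd ⟨H, hH⟩ h0⟩

end cls

end Pool.Agent.Work.MP_6d7bb4.helper94.Tr
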