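import Pool.Agent.Work.MP_6d7bb4_helper94.Tx

/-! # MP_6d7bb4: the module of a transvection (helper94) -/

set_option autoImplicit false
set_option linter.unusedSectionVars false

namespace Pool.Agent.Work.MP_6d7bb4.helper94.Tv

open Qd Ff
open scoped commutatorElement

section grp
variable {G : Type*} [Group G]

/-- properties of the pair `E`, `D` for the element `t` -/
structure ED (p : ℕ) (Y Z E D : Subgroup G) (t : G) : Prop where
  EY : E ≤ Y
  DE : D ≤ E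
  nE : Nm Z E
  nD : Nm Z D
  nt : ¬ ∀ x ∈ E, t * x * t⁻¹ * x⁻¹ ∈ D
  td : ∀ g ∈ Z, ∀ d ∈ D, (g * t * g⁻¹) * d = d * (g * t * g⁻¹)
  zd : ∀ z ∈ E, (∀ y ∈ Y, y * z = z * y) → z ∈ D
  mn : ∀ M : Subgroup G, M ≤ E → Nm Z M → M = E ∨ M ≤ D
  ab : ∀ a ∈ E, ∀ b ∈ E, a * b * a⁻¹ * b⁻¹ ∈ D
  ex : ∀ a ∈ E, a ^ (5 - p) ∈ D
  cm : ∀ g ∈ Z, ∀ k ∈ Z, (g * t * g⁻¹) * (k * t * k⁻¹) * (g * t * g⁻¹)⁻¹ * (k * t * k⁻¹)⁻¹ ∈ E
  ix : ∀ C : Subgroup G, (∀ x, x ∈ C ↔ x ∈ E ∧ t * x * t⁻¹ * x⁻¹ ∈ D) → C.relIndex E ≤ p + 1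

/-- the quotient of a nontrivial `r`-group is not perfect -/
theorem not_perf {r : ℕ} (hr : r.Prime) {E D : Subgroup G} (hfin : Finite E) (hDE : D ≤ E)
    (hne : D ≠ E) (hn : Nm E D) (hp : ∀ a ∈ E, a ^ r ^ 2 ∈ D) : ⁅E, E⁆ ≠ E := by
  intro hper
  have : Fact r.Prime := ⟨hr⟩
  obtain ⟨D', hD'⟩ : ∃ D' : Subgroup E, D' = D.subgroupOf E := ⟨_, rfl⟩
  have hD'm : ∀ s : E, s ∈ D' ↔ s.1 ∈ D := by
    intro s
    rw [hD', Subgroup.mem_subgroupOf]
  have hD'n : D'.Normal := by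
    refine ⟨fun n hn' g => ?_⟩
    rw [hD'm] at hn' ⊢
    exact hn g.1 g.2 n.1 hn'
  have hq : IsPGroup r (E ⧸ D') := by
    intro x
    obtain ⟨g, rfl⟩ := QuotientGroup.mk_surjective x
    refine ⟨2, ?_⟩
    rw [← QuotientGroup.mk_pow, QuotientGroup.eq_one_iff, hD'm]
    exact hp g.1 g.2
  have hnil : Group.IsNilpotent (E ⧸ D') := hq.isNilpotent
  have hnt : Nontrivial (E ⧸ D') := by
    rw [QuotientGroup.nontrivial_iff]
    intro h
    apply hne
    refine le_antisymm hDE ?_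
    intro x hx
    have h1 : (⟨x, hx⟩ : E) ∈ D' := by
      rw [h]
      exact Subgroup.mem_top _
    exact (hD'm _).mp h1
  have h1 := Group.IsSolvable.commutator_lt_top_of_nontrivial (E ⧸ D')
  apply h1.ne
  rw [eq_top_iff]
  intro x _
  obtain ⟨g, rfl⟩ := QuotientGroup.mk_surjective x
  have h2 : g ∈ commutator E := by
    have h3 := Subgroup.map_subtype_commutator E
    rw [hper] at h3
    have h4 : g.1 ∈ (commutator E).map E.subtype := by
      rw [h3]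
      exact g.2
    obtain ⟨y, hy, hyg⟩ := h4
    have h5 : y = g := Subtype.ext hyg
    rw [← h5]
    exact hy
  have h3 : (commutator E).map (QuotientGroup.mk' D') ≤ commutator (E ⧸ D') := by
    rw [commutator_def, commutator_def, Subgroup.map_commutator]
    exact Subgroup.commutator_mono le_top le_top
  exact h3 ⟨g, h2, rfl⟩

end grp

section ee
variable {U : Type*} [AddCommGroup U] {p : ℕ} [Fact p.Prime] [Module (ZMod p) U]

theorem TV.ne1 {t : (AddMonoid.End U)ˣ} {e : U} {f : U →+ ZMod p} (h : TV t e f) : t ≠ 1 := by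
  rintro rfl
  obtain ⟨v, hv⟩ := h.f0
  have h1 := h.ap v
  have h2 : ((1 : (AddMonoid.End U)ˣ) : AddMonoid.End U) v = v := rfl
  rw [h2] at h1
  have h3 : f v • e = 0 := by
    have := congrArg (fun w => w - v) h1
    simp only [sub_self, add_sub_cancel_left] at this
    exact this.symm
  rcases smul_eq_zero.mp h3 with h4 | h4
  · exact hv h4
  · exact h.e0 h4

theorem TV.pow_p {t : (AddMonoid.End U)ˣ} {e : U} {f : U →+ ZMod p} (h : TV t e f) :
    t ^ p = 1 := by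
  have hp0 : ((p : ℕ) : AddMonoid.End U) = 0 := by
    ext w
    rw [AddMonoid.End.natCast_apply, ← Nat.cast_smul_eq_nsmul (ZMod p), ZMod.natCast_self,
      zero_smul]
    rfl
  refine Qd.pow_p (Λ := AddMonoid.End U) (u := (t : AddMonoid.End U) - 1) (by abel) ?_ hp0
  refine AddMonoidHom.ext (fun w => ?_)
  show (t : AddMonoid.End U) ((t : AddMonoid.End U) w - w) - ((t : AddMonoid.End U) w - w) = 0
  have h1 : (t : AddMonoid.End U) w - w = f w • e := by
    rw [h.ap, add_sub_cancel_left]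
  rw [h1, smul_map, h.ap, h.fe, zero_smul, add_zero, sub_self]

/-- existence of the pair -/
theorem exists_E (hp23 : p = 2 ∨ p = 3) {Y Z : Subgroup (AddMonoid.End U)ˣ} (hfin : Finite Y)
    (hYZ : Y ≤ Z) (hYn : Nm Z Y) (hps : PSol p Y)
    (hN : ∀ N : Subgroup (AddMonoid.End U)ˣ, N ≤ Y → Nm Z N → IsPGroup p N → N = ⊥)
    {t : (AddMonoid.End U)ˣ} {e : U} {f : U →+ ZMod p} (h : TV t e f) (ht : t ∈ Y) :
    ∃ E D, ED p Y Z E D t ∧ Co p E := by
  have hp : p.Prime := Fact.out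
  have htp := h.pow_p
  have hr : (5 - p).Prime := by
    rcases hp23 with rfl | rfl
    · norm_num
    · norm_num
  have hAp : IsPGroup p (Subgroup.zpowers t) := by
    rintro ⟨g, k, rfl⟩
    refine ⟨1, Subtype.ext ?_⟩
    show (t ^ k) ^ p ^ 1 = 1
    rw [pow_one, ← zpow_natCast, ← zpow_mul, mul_comm, zpow_mul, zpow_natCast, htp, one_zpow]
  obtain ⟨M0, hM1, hM2, hM3, hM4⟩ := hhC hp hfin hYZ hYn hps hN
    (A := Subgroup.zpowers t) (by
      rw [Subgroup.zpowers_le]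
      exact ht) hAp (by
      intro hcon
      exact h.ne1 (Subgroup.zpowers_eq_bot.mp hcon))
  have hM5 : ¬ ∀ m ∈ M0, t * m = m * t := by
    intro hcon
    apply hM4
    rintro _ ⟨k, rfl⟩ m hm
    have h1 : Commute t m := hcon m hm
    exact (h1.zpow_left k).eq
  have hfs : {M : Subgroup (AddMonoid.End U)ˣ | M ≤ Y ∧ Nm Z M ∧ ¬ p ∣ Nat.card M ∧
      ¬ ∀ m ∈ M, t * m = m * t}.Finite := (finite_Iic Y).subset (fun M h => h.1)
  obtain ⟨E, hE⟩ := hfs.exists_minimal ⟨M0, hM1, hM2, hM3, hM5⟩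
  obtain ⟨⟨hEY, hEn, hEp, hEt⟩, hEm⟩ := hE
  have hEf : Finite E := Finite.of_injective _ (Subgroup.inclusion_injective hEY)
  have hCo : Co p E := by
    intro x hx
    refine ⟨Nat.card E, ?_, ?_⟩
    · exact ((Nat.Prime.coprime_iff_not_dvd hp).mpr hEp).symm
    · have h1 : (⟨x, hx⟩ : E) ^ Nat.card E = 1 := pow_card_eq_one'
      exact congrArg Subtype.val h1
  have htZ := hYZ ht
  have hNE : ∀ {s : (AddMonoid.End U)ˣ}, s ∈ Z → NE s E := by
    intro s hs
    refine ⟨fun x hx => hEn s hs x hx, fun x hx => ?_⟩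
    have h1 := hEn s⁻¹ (Z.inv_mem hs) x hx
    rwa [inv_inv] at h1
  obtain ⟨D, hD⟩ : ∃ D : Subgroup (AddMonoid.End U)ˣ, ∀ x, x ∈ D ↔ x ∈ E ∧
      ∀ g ∈ Z, (g * t * g⁻¹) * x = x * (g * t * g⁻¹) := by
    refine ⟨{ carrier := {x | x ∈ E ∧ ∀ g ∈ Z, (g * t * g⁻¹) * x = x * (g * t * g⁻¹)}
              one_mem' := ⟨E.one_mem, fun g _ => by rw [mul_one, one_mul]⟩
              mul_mem' := ?_
              inv_mem' := ?_ }, fun _ => Iff.rfl⟩
    · rintro x y ⟨h1, h2⟩ ⟨h3, h4⟩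
      refine ⟨E.mul_mem h1 h3, fun g hg => ?_⟩
      have e1 : Commute (g * t * g⁻¹) x := h2 g hg
      have e2 : Commute (g * t * g⁻¹) y := h4 g hg
      exact (e1.mul_right e2).eq
    · rintro x ⟨h1, h2⟩
      refine ⟨E.inv_mem h1, fun g hg => ?_⟩
      have e1 : Commute (g * t * g⁻¹) x := h2 g hg
      exact e1.inv_right.eq
  have hDE : D ≤ E := fun x hx => ((hD x).mp hx).1
  have hDn : Nm Z D := by
    intro z hz x hx
    rw [hD] at hx ⊢
    refine ⟨hEn z hz x hx.1, fun g hg => ?_⟩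
    have h1 := hx.2 (z⁻¹ * g) (Z.mul_mem (Z.inv_mem hz) hg)
    calc g * t * g⁻¹ * (z * x * z⁻¹) = z * ((z⁻¹ * g) * t * (z⁻¹ * g)⁻¹ * x) * z⁻¹ := by group
      _ = z * (x * ((z⁻¹ * g) * t * (z⁻¹ * g)⁻¹)) * z⁻¹ := by rw [h1]
      _ = z * x * z⁻¹ * (g * t * g⁻¹) := by group
  -- transfer of centralising
  have htr : ∀ {g x : (AddMonoid.End U)ˣ}, t * (g⁻¹ * x * g) = g⁻¹ * x * g * t →
      (g * t * g⁻¹) * x = x * (g * t * g⁻¹) := by
    intro g x h1
    calc g * t * g⁻¹ * x = g * (t * (g⁻¹ * x * g)) * g⁻¹ := by group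
      _ = g * (g⁻¹ * x * g * t) * g⁻¹ := by rw [h1]
      _ = x * (g * t * g⁻¹) := by group
  have hinv : ∀ {M : Subgroup (AddMonoid.End U)ˣ}, Nm Z M → ∀ g ∈ Z, ∀ x ∈ M,
      g⁻¹ * x * g ∈ M := by
    intro M hM g hg x hx
    have h1 := hM g⁻¹ (Z.inv_mem hg) x hx
    rwa [inv_inv] at h1
  have hmn : ∀ M : Subgroup (AddMonoid.End U)ˣ, M ≤ E → Nm Z M → M = E ∨ M ≤ D := by
    intro M hM hMn
    by_cases h1 : M = E
    · exact Or.inl h1
    right
    have h2 : ∀ m ∈ M, t * m = m * t := by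
      by_contra hcon
      apply h1
      refine le_antisymm hM (hEm ⟨hM.trans hEY, hMn, ?_, hcon⟩ hM)
      intro h3
      exact hEp (h3.trans (Subgroup.card_dvd_of_le hM))
    intro m hm
    rw [hD]
    exact ⟨hM hm, fun g hg => htr (h2 _ (hinv hMn g hg m hm))⟩
  have hDne : D ≠ E := by
    intro h1
    apply hEt
    intro m hm
    rw [← h1] at hm
    have h2 := ((hD m).mp hm).2 1 Z.one_mem
    rwa [one_mul, inv_one, mul_one] at h2
  have hpw : ∀ a ∈ E, a ^ (5 - p) ^ 2 ∈ D := by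
    intro a ha
    rw [hD]
    refine ⟨E.pow_mem ha _, fun g hg => htr ?_⟩
    have h1 := pw hp23 hCo h (hNE htZ) (hinv hEn g hg a ha)
    have h2 : g⁻¹ * a ^ (5 - p) ^ 2 * g = (g⁻¹ * a * g) ^ (5 - p) ^ 2 := by
      have h3 := conj_pow (i := (5 - p) ^ 2) (a := g⁻¹) (b := a)
      rw [inv_inv] at h3
      exact h3.symm
    rw [h2]
    exact h1.symm
  have hnt : ¬ ∀ x ∈ E, t * x * t⁻¹ * x⁻¹ ∈ D := by
    intro hcon
    apply hEt
    intro x hx
    obtain ⟨c, hc⟩ : ∃ c, c = t * x * t⁻¹ * x⁻¹ := ⟨_, rfl⟩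
    have hcD : c ∈ D := by
      rw [hc]
      exact hcon x hx
    have h1 : t * x * t⁻¹ = c * x := by
      rw [hc]
      group
    have h2 : t * c = c * t := by
      have h3 := ((hD c).mp hcD).2 1 Z.one_mem
      rwa [one_mul, inv_one, mul_one] at h3
    have h3 := conj_iter h1 h2 p
    rw [htp, one_mul, inv_one, mul_one] at h3
    have h4 : c ^ p = 1 := right_eq_mul.mp h3
    obtain ⟨n, hn1, hn2⟩ := hCo c (hDE hcD)
    have h5 : c = 1 := one_of_coprime hn2 h4 hn1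
    rw [h5, one_mul] at h1
    exact mul_inv_eq_iff_eq_mul.mp h1
  have hcle : ⁅E, E⁆ ≤ D := by
    have h1 : ⁅E, E⁆ ≤ E := by
      rw [Subgroup.commutator_le]
      intro x hx y hy
      rw [commutatorElement_def]
      exact E.mul_mem (E.mul_mem (E.mul_mem hx hy) (E.inv_mem hx)) (E.inv_mem hy)
    have h2 : Nm Z ⁅E, E⁆ := by
      intro b hb s hs
      have h2 : ⁅E, E⁆ ≤ (⁅E, E⁆).comap (MulAut.conj b).toMonoidHom := by
        rw [Subgroup.commutator_le]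
        intro x hx y hy
        show b * ⁅x, y⁆ * b⁻¹ ∈ ⁅E, E⁆
        have h3 : b * ⁅x, y⁆ * b⁻¹ = ⁅b * x * b⁻¹, b * y * b⁻¹⁆ := by
          rw [commutatorElement_def, commutatorElement_def]
          group
        rw [h3]
        exact Subgroup.commutator_mem_commutator (hEn b hb x hx) (hEn b hb y hy)
      exact h2 hs
    rcases hmn _ h1 h2 with h3 | h3
    · exact absurd h3 (not_perf hr hEf hDE hDne (hDn.mono (hEY.trans hYZ)) hpw)
    · exact h3
  have hab : ∀ a ∈ E, ∀ b ∈ E, a * b * a⁻¹ * b⁻¹ ∈ D := by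
    intro a ha b hb
    have h1 := hcle (Subgroup.commutator_mem_commutator ha hb)
    rwa [commutatorElement_def] at h1
  have hED : Nm E D := hDn.mono (hEY.trans hYZ)
  have hmulp : ∀ n : ℕ, ∀ a ∈ E, ∀ b ∈ E, a ^ n ∈ D → b ^ n ∈ D → (a * b) ^ n ∈ D := by
    intro n a ha b hb h1 h2
    have key : ∀ n : ℕ, ∃ d ∈ D, (a * b) ^ n = d * (a ^ n * b ^ n) := by
      intro n
      induction n with
      | zero => exact ⟨1, D.one_mem, by simp⟩
      | succ n ih =>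
        obtain ⟨d, hd, hd'⟩ := ih
        obtain ⟨c, hc⟩ : ∃ c, c = b ^ n * a * (b ^ n)⁻¹ * a⁻¹ := ⟨_, rfl⟩
        have hcD : c ∈ D := by
          rw [hc]
          exact hab _ (E.pow_mem hb n) _ ha
        refine ⟨d * (a ^ n * c * (a ^ n)⁻¹), D.mul_mem hd (hED _ (E.pow_mem ha n) _ hcD), ?_⟩
        rw [pow_succ, hd', hc, pow_succ, pow_succ]
        group
    obtain ⟨d, hd, hd'⟩ := key n
    rw [hd']
    exact D.mul_mem hd (D.mul_mem h1 h2)
  have hex : ∀ a ∈ E, a ^ (5 - p) ∈ D := by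
    obtain ⟨T, hT⟩ : ∃ T : Subgroup (AddMonoid.End U)ˣ, ∀ x, x ∈ T ↔ x ∈ E ∧
        x ^ (5 - p) ∈ D := by
      refine ⟨{ carrier := {x | x ∈ E ∧ x ^ (5 - p) ∈ D}
                one_mem' := ⟨E.one_mem, by
                  rw [one_pow]
                  exact D.one_mem⟩
                mul_mem' := ?_
                inv_mem' := ?_ }, fun _ => Iff.rfl⟩
      · rintro x y ⟨h1, h2⟩ ⟨h3, h4⟩
        exact ⟨E.mul_mem h1 h3, hmulp _ x h1 y h3 h2 h4⟩
      · rintro x ⟨h1, h2⟩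
        refine ⟨E.inv_mem h1, ?_⟩
        rw [inv_pow]
        exact D.inv_mem h2
    have hTE : T ≤ E := fun x hx => ((hT x).mp hx).1
    have hTn : Nm Z T := by
      intro z hz x hx
      rw [hT] at hx ⊢
      refine ⟨hEn z hz x hx.1, ?_⟩
      rw [conj_pow]
      exact hDn z hz _ hx.2
    rcases hmn T hTE hTn with h1 | h1
    · intro a ha
      rw [← h1] at ha
      exact ((hT a).mp ha).2
    · exfalso
      apply hDne
      refine le_antisymm hDE ?_
      intro x hx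
      have h2 : x ^ (5 - p) ∈ T := by
        rw [hT]
        refine ⟨E.pow_mem hx _, ?_⟩
        rw [← pow_mul, ← pow_two]
        exact hpw x hx
      exact h1 ((hT x).mpr ⟨hx, h1 h2⟩)
  refine ⟨E, D, ⟨hEY, hDE, hEn, hDn, hnt, fun g hg d hd => ((hD d).mp hd).2 g hg, ?_, hmn, hab,
    hex, ?_, ?_⟩, hCo⟩
  · intro z hz h1
    rw [hD]
    exact ⟨hz, fun g hg => h1 _ (hYn g hg t ht)⟩
  · intro g hg k hk
    have hne : ∀ g ∈ Z, ¬ ∀ x ∈ E, (g * t * g⁻¹) * x = x * (g * t * g⁻¹) := by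
      intro g hg hcon
      apply hEt
      intro x hx
      have h1 := hcon _ (hEn g hg x hx)
      calc t * x = g⁻¹ * (g * t * g⁻¹ * (g * x * g⁻¹)) * g := by group
        _ = g⁻¹ * (g * x * g⁻¹ * (g * t * g⁻¹)) * g := by rw [h1]
        _ = x * t := by group
    exact tri hp23 hCo (h.conj k) (h.conj g)
      (hNE (Z.mul_mem (Z.mul_mem hk htZ) (Z.inv_mem hk)))
      (hNE (Z.mul_mem (Z.mul_mem hg htZ) (Z.inv_mem hg))) (hne k hk) (hne g hg)
  · intro C hC
    obtain ⟨s, hs⟩ := cnt hp23 hCo h (hNE htZ)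
    have h1 : ∀ q : E ⧸ C.subgroupOf E, ∃ i, q.out.1 * t * q.out.1⁻¹ = s i := fun q =>
      hs _ q.out.2
    choose c hc using h1
    have hinj : Function.Injective c := by
      intro q q' hqq
      have h2 : q.out.1 * t * q.out.1⁻¹ = q'.out.1 * t * q'.out.1⁻¹ := by
        rw [hc, hc, hqq]
      have h3 : (QuotientGroup.mk q.out : E ⧸ C.subgroupOf E) = QuotientGroup.mk q'.out := by
        rw [QuotientGroup.eq, Subgroup.mem_subgroupOf, hC]
        have h4 : (q.out⁻¹ * q'.out : E).1 = q.out.1⁻¹ * q'.out.1 := rfl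
        refine ⟨(q.out⁻¹ * q'.out).2, ?_⟩
        rw [h4]
        have h5 : t * (q.out.1⁻¹ * q'.out.1) * t⁻¹ * (q.out.1⁻¹ * q'.out.1)⁻¹ = 1 := by
          calc t * (q.out.1⁻¹ * q'.out.1) * t⁻¹ * (q.out.1⁻¹ * q'.out.1)⁻¹ =
              q.out.1⁻¹ * (q.out.1 * t * q.out.1⁻¹) * (q'.out.1 * t * q'.out.1⁻¹)⁻¹ *
                q.out.1 := by group
            _ = 1 := by
              rw [h2]
              group
        rw [h5]
        exact D.one_mem
      rw [QuotientGroup.out_eq', QuotientGroup.out_eq'] at h3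
      exact h3
    have h2 := Nat.card_le_card_of_injective c hinj
    rw [Nat.card_eq_fintype_card (α := Fin (p + 1)), Fintype.card_fin] at h2
    exact h2

end ee

end Pool.Agent.Work.MP_6d7bb4.helper94.Tv
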