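import Pool.Agent.Work.MP_6d7bb4_helper94.Semi

/-! # MP_6d7bb4: quadratic offenders in characteristic two (helper94) -/

set_option autoImplicit false
set_option linter.unusedSectionVars false

namespace Pool.Agent.Work.MP_6d7bb4.helper94.Ff

open Qd
open scoped commutatorElement

section grp
variable {G : Type*} [Group G]

theorem odd_pow {r : ℕ} {R : Subgroup G} (hR : IsPGroup r R) {z : G}
    (hz : z ∈ R) : ∃ i : ℕ, ∀ j, i ≤ j → z ^ r ^ j = 1 := by
  obtain ⟨i, hi⟩ := hR ⟨z, hz⟩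
  have h1 : z ^ r ^ i = 1 := congrArg Subtype.val hi
  refine ⟨i, fun j hj => ?_⟩
  obtain ⟨k, rfl⟩ : ∃ k, j = i + k := ⟨j - i, by omega⟩
  rw [pow_add, pow_mul, h1, one_pow]

theorem odd_sq_inj {r : ℕ} (hr : r.Prime) (hr2 : r ≠ 2) {R : Subgroup G} (hR : IsPGroup r R)
    {z w : G} (hz : z ∈ R) (hw : w ∈ R) (h : z * z = w * w) : z = w := by
  obtain ⟨i, hi⟩ := odd_pow hR hz
  obtain ⟨j, hj⟩ := odd_pow hR hw
  have h1 := hi (i + j) (by omega)
  have h2 := hj (i + j) (by omega)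
  obtain ⟨m, hm⟩ : Odd (r ^ (i + j)) := (hr.odd_of_ne_two hr2).pow
  rw [hm] at h1 h2
  have e1 : ∀ y : G, y ^ (2 * m + 1) = 1 → y = (y * y) ^ (m + 1) := by
    intro y hy
    calc y = y ^ (2 * m + 1) * y := by rw [hy, one_mul]
      _ = (y * y) ^ (m + 1) := by
        rw [← pow_succ, ← pow_two, ← pow_mul]
        congr 1
  rw [e1 z h1, e1 w h2, h]

theorem odd_sq_one {r : ℕ} (hr : r.Prime) (hr2 : r ≠ 2) {R : Subgroup G} (hR : IsPGroup r R)
    {z : G} (hz : z ∈ R) (h : z * z = 1) : z = 1 :=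
  odd_sq_inj hr hr2 hR hz R.one_mem (h.trans (one_mul 1).symm)

/-- in a minimal situation the involutions which do not centralise `R` invert it modulo the
centralised elements -/
theorem inverts {r : ℕ} (hr : r.Prime) (hr2 : r ≠ 2) {R B : Subgroup G} (hfin : Finite R)
    (hR : IsPGroup r R)
    (hab : ∀ a ∈ B, ∀ b ∈ B, a * b = b * a) (hsq : ∀ a ∈ B, a * a = 1) (hn : Nm B R)
    (hmin : ∀ D, D ≤ R → D ≠ R → Nm B D → ∀ b ∈ B, ∀ s ∈ D, b * s = s * b)
    {a : G} (ha : a ∈ B) (hna : ¬ ∀ s ∈ R, a * s = s * a) {x : G} (hx : x ∈ R) :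
    ∀ b ∈ B, b * (a * x * a⁻¹ * x) = (a * x * a⁻¹ * x) * b := by
  have hinv : ∀ a ∈ B, a⁻¹ = a := fun a ha => inv_eq_of_mul_eq_one_left (hsq a ha)
  obtain ⟨C, hC⟩ : ∃ C : Subgroup G, ∀ s, s ∈ C ↔ s ∈ R ∧ a * s = s * a :=
    ⟨R ⊓ Subgroup.centralizer {a}, fun s => by
      rw [Subgroup.mem_inf, Subgroup.mem_centralizer_singleton_iff]
      exact and_congr_right (fun _ => eq_comm)⟩
  have hCR : C ≤ R := fun s hs => ((hC s).mp hs).1
  have hCne : C ≠ R := by
    intro h
    apply hna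
    intro s hs
    rw [← h] at hs
    exact ((hC s).mp hs).2
  have hCn : Nm B C := by
    intro b hb s hs
    rw [hC] at hs ⊢
    refine ⟨hn b hb s hs.1, ?_⟩
    have h1 := hab a ha b hb
    have h2 : a * b⁻¹ = b⁻¹ * a := by
      rw [hinv b hb, h1]
    calc a * (b * s * b⁻¹) = (a * b) * s * b⁻¹ := by group
      _ = b * (a * s) * b⁻¹ := by rw [h1]; group
      _ = b * s * (a * b⁻¹) := by rw [hs.2]; group
      _ = b * s * b⁻¹ * a := by rw [h2]; group
  have hCc := hmin C hCR hCne hCn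
  have hne : R ≠ ⊥ := by
    rintro rfl
    apply hna
    intro s hs
    rw [Subgroup.mem_bot] at hs
    rw [hs, mul_one, one_mul]
  have hDn : Nm B ⁅R, R⁆ := by
    rw [nm_iff]
    intro b hb
    rw [Subgroup.mem_normalizer_iff]
    have h1 : ∀ b ∈ B, ∀ s ∈ ⁅R, R⁆, b * s * b⁻¹ ∈ ⁅R, R⁆ := by
      intro b hb s hs
      have h2 : ⁅R, R⁆ ≤ (⁅R, R⁆).comap (MulAut.conj b).toMonoidHom := by
        rw [Subgroup.commutator_le]
        intro x hx y hy
        show b * ⁅x, y⁆ * b⁻¹ ∈ ⁅R, R⁆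
        have h3 : b * ⁅x, y⁆ * b⁻¹ = ⁅b * x * b⁻¹, b * y * b⁻¹⁆ := by
          rw [commutatorElement_def, commutatorElement_def]
          group
        rw [h3]
        exact Subgroup.commutator_mem_commutator (hn b hb x hx) (hn b hb y hy)
      exact h2 hs
    intro s
    refine ⟨h1 b hb s, fun h => ?_⟩
    have h2 := h1 b⁻¹ (B.inv_mem hb) _ h
    have h3 : b⁻¹ * (b * s * b⁻¹) * b⁻¹⁻¹ = s := by group
    rwa [h3] at h2
  have hDle : ⁅R, R⁆ ≤ R := by
    rw [Subgroup.commutator_le]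
    intro x hx y hy
    rw [commutatorElement_def]
    exact R.mul_mem (R.mul_mem (R.mul_mem hx hy) (R.inv_mem hx)) (R.inv_mem hy)
  have hDc := hmin ⁅R, R⁆ hDle (comm_ne hr hfin hR hne) hDn
  obtain ⟨y, hy⟩ : ∃ y, y = a * x * a⁻¹ * x := ⟨_, rfl⟩
  have hax : a * x * a⁻¹ ∈ R := hn a ha x hx
  have hyR : y ∈ R := by
    rw [hy]
    exact R.mul_mem hax hx
  obtain ⟨e, he⟩ : ∃ e, e = x⁻¹ * (a * x * a⁻¹)⁻¹ * x * (a * x * a⁻¹) := ⟨_, rfl⟩
  have heD : e ∈ ⁅R, R⁆ := by
    have h1 : e = ⁅x⁻¹, (a * x * a⁻¹)⁻¹⁆ := by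
      rw [he, commutatorElement_def, inv_inv, inv_inv]
    rw [h1]
    exact Subgroup.commutator_mem_commutator (R.inv_mem hx) (R.inv_mem hax)
  have hea : a * e = e * a := hDc a ha e heD
  have h1 : a * y * a⁻¹ = y * e := by
    have h2 : a * a * x = x := by rw [hsq a ha, one_mul]
    calc a * y * a⁻¹ = (a * a * x) * a⁻¹ * x * a⁻¹ := by rw [hy]; group
      _ = x * a⁻¹ * x * a⁻¹ := by rw [h2]
      _ = x * (a * x * a⁻¹) := by rw [hinv a ha]; group
      _ = y * e := by rw [hy, he]; group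
  have h2 : y = y * (e * e) := by
    calc y = (a * a) * y * (a * a)⁻¹ := by rw [hsq a ha]; group
      _ = a * (a * y * a⁻¹) * a⁻¹ := by group
      _ = a * y * (e * a⁻¹) := by rw [h1]; group
      _ = a * y * (a⁻¹ * e) := by
        rw [hinv a ha, hea]
      _ = (a * y * a⁻¹) * e := by group
      _ = y * (e * e) := by rw [h1]; group
  have h3 : e * e = 1 := by
    have := mul_left_cancel (a := y) (b := e * e) (c := 1) (by rw [← h2, mul_one])
    exact this
  have h4 : e = 1 := odd_sq_one hr hr2 hR (hDle heD) h3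
  rw [h4, mul_one] at h1
  have h5 : y ∈ C := by
    rw [hC]
    exact ⟨hyR, mul_inv_eq_iff_eq_mul.mp h1⟩
  rw [← hy]
  intro b hb
  exact hCc b hb y h5

/-- the product of two involutions which do not centralise `R` centralises `R` -/
theorem mod2 {r : ℕ} (hr : r.Prime) (hr2 : r ≠ 2) {R B : Subgroup G} (hfin : Finite R)
    (hR : IsPGroup r R)
    (hab : ∀ a ∈ B, ∀ b ∈ B, a * b = b * a) (hsq : ∀ a ∈ B, a * a = 1) (hn : Nm B R)
    (hmin : ∀ D, D ≤ R → D ≠ R → Nm B D → ∀ b ∈ B, ∀ s ∈ D, b * s = s * b)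
    {a b : G} (ha : a ∈ B) (hna : ¬ ∀ s ∈ R, a * s = s * a) (hb : b ∈ B)
    (hnb : ¬ ∀ s ∈ R, b * s = s * b) : ∀ s ∈ R, (a * b) * s = s * (a * b) := by
  intro x hx
  obtain ⟨d1, hd1⟩ : ∃ d, d = a * x * a⁻¹ * x := ⟨_, rfl⟩
  obtain ⟨d2, hd2⟩ : ∃ d, d = b * x * b⁻¹ * x := ⟨_, rfl⟩
  have h1 := inverts hr hr2 hfin hR hab hsq hn hmin ha hna hx
  have h2 := inverts hr hr2 hfin hR hab hsq hn hmin hb hnb hx
  rw [← hd1] at h1
  rw [← hd2] at h2
  have hd1R : d1 ∈ R := by
    rw [hd1]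
    exact R.mul_mem (hn a ha x hx) hx
  have hd2R : d2 ∈ R := by
    rw [hd2]
    exact R.mul_mem (hn b hb x hx) hx
  obtain ⟨c, hc⟩ : ∃ c, c = a * b := ⟨_, rfl⟩
  have hcB : c ∈ B := by
    rw [hc]
    exact B.mul_mem ha hb
  have e1 : a * x * a⁻¹ = d1 * x⁻¹ := by
    rw [hd1]
    group
  have e2 : b * x * b⁻¹ = d2 * x⁻¹ := by
    rw [hd2]
    group
  have e3 : c * x * c⁻¹ = d2 * x * d1⁻¹ := by
    calc c * x * c⁻¹ = a * (b * x * b⁻¹) * a⁻¹ := by rw [hc]; group
      _ = (a * d2) * x⁻¹ * a⁻¹ := by rw [e2]; group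
      _ = (d2 * a) * x⁻¹ * a⁻¹ := by rw [h2 a ha]
      _ = d2 * (a * x * a⁻¹)⁻¹ := by group
      _ = d2 * x * d1⁻¹ := by rw [e1]; group
  have e4 : c * d2 = d2 * c := h2 c hcB
  have e5 : d1⁻¹ * c⁻¹ = c⁻¹ * d1⁻¹ := by
    have h3 := h1 c hcB
    rw [← mul_inv_rev, ← mul_inv_rev, h3]
  have e6 : x = d2 * (d2 * x * d1⁻¹) * d1⁻¹ := by
    calc x = (c * c) * x * (c * c)⁻¹ := by rw [hsq c hcB]; group
      _ = c * (c * x * c⁻¹) * c⁻¹ := by group
      _ = (c * d2) * x * (d1⁻¹ * c⁻¹) := by rw [e3]; group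
      _ = d2 * (c * x * c⁻¹) * d1⁻¹ := by rw [e4, e5]; group
      _ = d2 * (d2 * x * d1⁻¹) * d1⁻¹ := by rw [e3]
  have e7 : (x⁻¹ * d2 * x) * (x⁻¹ * d2 * x) = d1 * d1 := by
    have h3 : x * (d1 * d1) = d2 * d2 * x := by
      calc x * (d1 * d1) = d2 * (d2 * x * d1⁻¹) * d1⁻¹ * (d1 * d1) := by rw [← e6]
        _ = d2 * d2 * x := by group
    calc (x⁻¹ * d2 * x) * (x⁻¹ * d2 * x) = x⁻¹ * (d2 * d2 * x) := by group
      _ = d1 * d1 := by rw [← h3]; group
  have e8 := odd_sq_inj hr hr2 hR (R.mul_mem (R.mul_mem (R.inv_mem hx) hd2R) hx) hd1R e7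
  have e9 : d2 * x * d1⁻¹ = x := by
    rw [← e8]
    group
  rw [e9] at e3
  rw [← hc]
  exact mul_inv_eq_iff_eq_mul.mp e3

end grp

section tv
variable {Λ : Type*} [Ring Λ]

/-- two transvections in characteristic two, nilpotent case -/
theorem tv_nil {a b : Λˣ} {u v : Λ} (ha : (a : Λ) = 1 + u) (hb : (b : Λ) = 1 + v)
    (hu : u * u = 0) (hv : v * v = 0) (h2 : (2 : Λ) = 0) (h : u * v * u = 0) :
    (a * b) ^ 4 = 1 := by
  obtain ⟨n, hn⟩ : ∃ n, n = u * v + v * u + v * u * v := ⟨_, rfl⟩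
  have hc : ∀ x : Λ, x + x = 0 := by
    intro x
    rw [← two_mul, h2, zero_mul]
  have h1 : (((a * b) * (a * b) : Λˣ) : Λ) = 1 + n := by
    rw [Units.val_mul, Units.val_mul, ha, hb, hn]
    calc (1 + u) * (1 + v) * ((1 + u) * (1 + v)) =
        1 + (u * v + v * u + v * u * v) + (u + u) + (v + v) + (u * u + v * v) +
          (u * v + u * v) + u * u * v + u * (v * v) + u * v * u + u * v * u * v := by noncomm_ring
      _ = 1 + (u * v + v * u + v * u * v) := by
        rw [hc, hc, hc, hu, hv, h]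
        noncomm_ring
  have h3 : n * n = 0 := by
    rw [hn]
    calc (u * v + v * u + v * u * v) * (u * v + v * u + v * u * v) =
        (u * v * u) * v + u * (v * v) * u + u * (v * v) * (u * v) + v * (u * u) * v +
          v * (u * v * u) + (v * u * v * u) * v + (v * u * v * u) * v + v * u * (v * v) * u +
          v * u * (v * v) * (u * v) := by noncomm_ring
      _ = 0 := by
        have h4 : v * u * v * u = v * (u * v * u) := by noncomm_ring
        rw [h4, h, hu, hv]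
        noncomm_ring
  apply Units.ext
  have h5 : (a * b) ^ 4 = ((a * b) * (a * b)) * ((a * b) * (a * b)) := by
    rw [← pow_two, ← pow_two, ← pow_mul]
  rw [h5, Units.val_mul, h1, Units.val_one]
  calc (1 + n) * (1 + n) = 1 + (n + n) + n * n := by noncomm_ring
    _ = 1 := by rw [hc, h3, add_zero, add_zero]

/-- two transvections in characteristic two, general case -/
theorem tv_braid {a b : Λˣ} {u v : Λ} (ha : (a : Λ) = 1 + u) (hb : (b : Λ) = 1 + v)
    (hu : u * u = 0) (hv : v * v = 0) (h2 : (2 : Λ) = 0) (h : u * v * u = u)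
    (h' : v * u * v = v) : a * b * a = b * a * b := by
  have hc : ∀ x : Λ, x + x = 0 := by
    intro x
    rw [← two_mul, h2, zero_mul]
  apply Units.ext
  rw [Units.val_mul, Units.val_mul, Units.val_mul, Units.val_mul, ha, hb]
  calc (1 + u) * (1 + v) * (1 + u) = 1 + (u + u) + v + u * u + u * v + v * u + u * v * u := by
        noncomm_ring
    _ = 1 + (v + v) + u + v * v + u * v + v * u + v * u * v := by
      rw [hc, hc, hu, hv, h, h']
      abel
    _ = (1 + v) * (1 + u) * (1 + v) := by noncomm_ring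

/-- conjugate of a transvection -/
theorem tv_conj {x : Λˣ} {u : Λ} (h : ∀ m : Λ, u * m * u = 0 ∨ u * m * u = u) (m : Λ) :
    (x * u * ((x⁻¹ : Λˣ) : Λ)) * m * (x * u * ((x⁻¹ : Λˣ) : Λ)) = 0 ∨
      (x * u * ((x⁻¹ : Λˣ) : Λ)) * m * (x * u * ((x⁻¹ : Λˣ) : Λ)) =
        x * u * ((x⁻¹ : Λˣ) : Λ) := by
  have e : (x * u * ((x⁻¹ : Λˣ) : Λ)) * m * (x * u * ((x⁻¹ : Λˣ) : Λ)) =
      x * (u * (((x⁻¹ : Λˣ) : Λ) * m * x) * u) * ((x⁻¹ : Λˣ) : Λ) := by
    simp only [mul_assoc]
  rw [e]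
  rcases h (((x⁻¹ : Λˣ) : Λ) * m * x) with h1 | h1
  · left
    rw [h1, mul_zero, zero_mul]
  · right
    rw [h1]

end tv

section ff
variable {U : Type*} [AddCommGroup U]

/-- fixed points of a group of units -/
def FxU (A : Subgroup (AddMonoid.End U)ˣ) : AddSubgroup U where
  carrier := {u | ∀ a ∈ A, (a : AddMonoid.End U) u = u}
  zero_mem' := fun a _ => map_zero _
  add_mem' := by
    intro u v hu hv a ha
    rw [map_add, hu a ha, hv a ha]
  neg_mem' := by
    intro u hu a ha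
    rw [map_neg, hu a ha]

theorem mem_FxU {A : Subgroup (AddMonoid.End U)ˣ} {u : U} :
    u ∈ FxU A ↔ ∀ a ∈ A, (a : AddMonoid.End U) u = u := Iff.rfl

theorem FxU_anti {A B : Subgroup (AddMonoid.End U)ˣ} (h : A ≤ B) : FxU B ≤ FxU A :=
  fun _ hu a ha => hu a (h ha)

/-- rank one -/
theorem rank_one [Finite U] {u : AddMonoid.End U} (h : Nat.card U ≤ 2 * Nat.card u.ker)
    (m : AddMonoid.End U) : u * m * u = 0 ∨ u * m * u = u := by
  by_cases hu : u = 0
  · left
    rw [hu, mul_zero]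
  have h1 : Nat.card u.range ≤ 2 := by
    have h2 : Nat.card U = Nat.card u.range * Nat.card u.ker := by
      rw [AddSubgroup.card_eq_card_quotient_mul_card_addSubgroup u.ker]
      congr 1
      exact Nat.card_congr (QuotientAddGroup.quotientKerEquivRange u).toEquiv
    have h3 : 0 < Nat.card u.ker := Nat.card_pos
    rw [h2] at h
    exact Nat.le_of_mul_le_mul_right h h3
  obtain ⟨w0, hw0⟩ : ∃ w, u w ≠ 0 := by
    by_contra hcon
    push Not at hcon
    exact hu (AddMonoidHom.ext hcon)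
  obtain ⟨e, he⟩ : ∃ e, e = u w0 := ⟨_, rfl⟩
  have he0 : e ≠ 0 := by
    rw [he]
    exact hw0
  have hall : ∀ w, u w = 0 ∨ u w = e := by
    intro w
    by_contra hcon
    push Not at hcon
    obtain ⟨f, hf⟩ : ∃ f : Fin 3 → u.range, f = ![0, ⟨e, ⟨w0, he.symm⟩⟩, ⟨u w, ⟨w, rfl⟩⟩] :=
      ⟨_, rfl⟩
    have hinj : Function.Injective f := by
      intro i j hij
      rw [hf] at hij
      fin_cases i <;> fin_cases j
      · rfl
      · exact absurd (congrArg Subtype.val hij).symm he0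
      · exact absurd (congrArg Subtype.val hij).symm hcon.1
      · exact absurd (congrArg Subtype.val hij) he0
      · rfl
      · exact absurd (congrArg Subtype.val hij).symm hcon.2
      · exact absurd (congrArg Subtype.val hij) hcon.1
      · exact absurd (congrArg Subtype.val hij) hcon.2
      · rfl
    have h2 := Nat.card_le_card_of_injective f hinj
    rw [Nat.card_eq_fintype_card, Fintype.card_fin] at h2
    omega
  rcases hall (m e) with h2 | h2
  · left
    refine AddMonoidHom.ext (fun w => ?_)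
    show u (m (u w)) = 0
    rcases hall w with h3 | h3
    · rw [h3, map_zero, map_zero]
    · rw [h3, h2]
  · right
    refine AddMonoidHom.ext (fun w => ?_)
    show u (m (u w)) = u w
    rcases hall w with h3 | h3
    · rw [h3, map_zero, map_zero]
    · rw [h3, h2]

theorem pow2_card {U : Type*} [AddCommGroup U] [Finite U] (h : ∀ u : U, 2 • u = 0) :
    ∃ k, Nat.card U = 2 ^ k := by
  have : Fact (Nat.Prime 2) := ⟨Nat.prime_two⟩
  have h1 : IsPGroup 2 (Multiplicative U) := by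
    intro g
    refine ⟨1, ?_⟩
    rw [pow_one]
    exact h g.toAdd
  obtain ⟨k, hk⟩ := IsPGroup.iff_card.mp h1
  exact ⟨k, hk⟩

/-- quadratic offenders in characteristic two: without elements of order three there are none -/
theorem ff2 [Finite U] (hU : ∀ u : U, 2 • u = 0) {Y : Subgroup (AddMonoid.End U)ˣ}
    (hfin : Finite Y) (hps : PSol 2 Y)
    (hN : ∀ N : Subgroup (AddMonoid.End U)ˣ, N ≤ Y → Nm Y N → IsPGroup 2 N → N = ⊥)
    {A : Subgroup (AddMonoid.End U)ˣ} (hA : A ≤ Y)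
    (h3 : ∀ T : Subgroup (AddMonoid.End U)ˣ, T ≤ Y → IsPGroup 3 T → ∀ a ∈ A,
      (∀ t ∈ T, a * t * a⁻¹ ∈ T) → ∀ t ∈ T, a * t = t * a)
    (hq : ∀ a ∈ A, ∀ b ∈ A, ∀ u : U, (a : AddMonoid.End U) ((b : AddMonoid.End U) u - u) =
      (b : AddMonoid.End U) u - u)
    (hoff : Nat.card U ≤ Nat.card A * Nat.card (FxU A)) : A = ⊥ := by
  by_contra hA1
  have : Fact (Nat.Prime 2) := ⟨Nat.prime_two⟩
  have h20 : ((2 : ℕ) : AddMonoid.End U) = 0 := by
    ext w
    rw [AddMonoid.End.natCast_apply, hU]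
    rfl
  have h20' : (2 : AddMonoid.End U) = 0 := by
    have := h20
    rwa [Nat.cast_ofNat] at this
  have hfle : ∀ {K : Subgroup (AddMonoid.End U)ˣ}, K ≤ Y → Finite K := fun hK =>
    Finite.of_injective _ (Subgroup.inclusion_injective hK)
  have hfb : {B : Subgroup (AddMonoid.End U)ˣ | B ≤ A ∧ B ≠ ⊥ ∧
      Nat.card U ≤ Nat.card B * Nat.card (FxU B)}.Finite :=
    (finite_Iic Y).subset (fun B h => h.1.trans hA)
  obtain ⟨B, hB⟩ := hfb.exists_minimal ⟨A, le_refl A, hA1, hoff⟩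
  obtain ⟨⟨hBA, hBne, hBoff⟩, hBmin⟩ := hB
  have hBY := hBA.trans hA
  have hqB : ∀ a ∈ B, ∀ b ∈ B, ∀ u : U, (a : AddMonoid.End U) ((b : AddMonoid.End U) u - u) =
      (b : AddMonoid.End U) u - u := fun a ha b hb => hq a (hBA ha) b (hBA hb)
  -- `B` is elementary abelian
  have hdec : ∀ a : (AddMonoid.End U)ˣ, (a : AddMonoid.End U) =
      1 + ((a : AddMonoid.End U) - 1) := fun a => by abel
  have huv : ∀ a ∈ B, ∀ b ∈ B,
      ((a : AddMonoid.End U) - 1) * ((b : AddMonoid.End U) - 1) = 0 := by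
    intro a ha b hb
    refine AddMonoidHom.ext (fun u => ?_)
    show (a : AddMonoid.End U) ((b : AddMonoid.End U) u - u) -
      ((b : AddMonoid.End U) u - u) = 0
    rw [hqB a ha b hb u, sub_self]
  have hab : ∀ a ∈ B, ∀ b ∈ B, a * b = b * a := by
    intro a ha b hb
    apply Units.ext
    rw [Units.val_mul, Units.val_mul]
    have e1 := huv a ha b hb
    have e2 := huv b hb a ha
    have e3 : (a : AddMonoid.End U) * b =
      ((a : AddMonoid.End U) - 1) * ((b : AddMonoid.End U) - 1) + a + b - 1 := by noncomm_ring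
    have e4 : (b : AddMonoid.End U) * a =
      ((b : AddMonoid.End U) - 1) * ((a : AddMonoid.End U) - 1) + b + a - 1 := by noncomm_ring
    rw [e3, e4, e1, e2]
    abel
  have hsq : ∀ a ∈ B, a * a = 1 := by
    intro a ha
    have h1 := pow_p (Λ := AddMonoid.End U) (hdec a) (huv a ha a ha) h20
    rwa [pow_two] at h1
  have hB2 : IsPGroup 2 B := by
    intro a
    refine ⟨1, Subtype.ext ?_⟩
    rw [pow_one, pow_two]
    exact hsq a.1 a.2
  -- an invariant `r`-group
  obtain ⟨r, hr, hr2, S, hSY, hSr, hSn, hSc⟩ : ∃ r : ℕ, r.Prime ∧ r ≠ 2 ∧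
      ∃ S : Subgroup (AddMonoid.End U)ˣ, S ≤ Y ∧ IsPGroup r S ∧ Nm B S ∧
        ¬ ∀ a ∈ B, ∀ s ∈ S, a * s = s * a := by
    by_contra hcon
    push Not at hcon
    exact hBne (hhA Nat.prime_two hfin hps hN hBY hB2
      (fun r hr hr2 S hS hSr hSn => hcon r hr hr2 S hS hSr hSn))
  have hfr : {R : Subgroup (AddMonoid.End U)ˣ | R ≤ S ∧ Nm B R ∧
      ¬ ∀ a ∈ B, ∀ s ∈ R, a * s = s * a}.Finite :=
    (finite_Iic Y).subset (fun R h => h.1.trans hSY)
  obtain ⟨R, hR⟩ := hfr.exists_minimal ⟨S, le_refl S, hSn, hSc⟩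
  obtain ⟨⟨hRS, hRn, hRc⟩, hRmin⟩ := hR
  have hRr : IsPGroup r R := hSr.to_le hRS
  have hRf : Finite R := hfle (hRS.trans hSY)
  have hmin : ∀ D, D ≤ R → D ≠ R → Nm B D → ∀ b ∈ B, ∀ s ∈ D, b * s = s * b := by
    intro D hD hne hDn
    by_contra hcon
    exact hne (le_antisymm hD (hRmin ⟨hD.trans hRS, hDn, hcon⟩ hD))
  obtain ⟨a0, ha0, hna0⟩ : ∃ a ∈ B, ¬ ∀ s ∈ R, a * s = s * a := by
    by_contra hcon
    push Not at hcon
    exact hRc hcon
  obtain ⟨B0, hB0⟩ : ∃ B0 : Subgroup (AddMonoid.End U)ˣ, ∀ b, b ∈ B0 ↔ b ∈ B ∧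
      ∀ s ∈ R, b * s = s * b :=
    ⟨B ⊓ Subgroup.centralizer (R : Set (AddMonoid.End U)ˣ), fun b => by
      rw [Subgroup.mem_inf, Subgroup.mem_centralizer_iff]
      exact and_congr_right (fun _ => forall₂_congr (fun s _ => eq_comm))⟩
  have hB0B : B0 ≤ B := fun b hb => ((hB0 b).mp hb).1
  have ha0B0 : a0 ∉ B0 := fun h => hna0 ((hB0 a0).mp h).2
  have hor : ∀ b ∈ B, b ∈ B0 ∨ a0 * b ∈ B0 := by
    intro b hb
    by_cases h1 : ∀ s ∈ R, b * s = s * b
    · exact Or.inl ((hB0 b).mpr ⟨hb, h1⟩)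
    · right
      exact (hB0 _).mpr ⟨B.mul_mem ha0 hb,
        mod2 hr hr2 hRf hRr hab hsq hRn hmin ha0 hna0 hb h1⟩
  have hBf : Finite B := hfle hBY
  have hB0f : Finite B0 := hfle (hB0B.trans hBY)
  have hcard : Nat.card B ≤ 2 * Nat.card B0 := by
    have h1 : ∀ b : B, ∃ z : Bool × B0, b.1 = (if z.1 then a0 else 1) * z.2.1 := by
      intro b
      rcases hor b.1 b.2 with h2 | h2
      · exact ⟨(false, ⟨b.1, h2⟩), by simp⟩
      · refine ⟨(true, ⟨a0 * b.1, h2⟩), ?_⟩
        have h4 := hsq a0 ha0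
        simp only [if_true]
        rw [← mul_assoc, h4, one_mul]
    choose f hf using h1
    have h2 : Function.Injective f := by
      intro b b' h
      apply Subtype.ext
      rw [hf b, hf b', h]
    have h4 := Nat.card_le_card_of_injective f h2
    have h5 : Nat.card Bool = 2 := by
      rw [Nat.card_eq_fintype_card, Fintype.card_bool]
    rwa [Nat.card_prod, h5] at h4
  by_cases hB0ne : B0 = ⊥
  · -- a transvection
    rw [hB0ne, Subgroup.card_bot, mul_one] at hcard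
    have hB2' : ∀ b ∈ B, b = 1 ∨ b = a0 := by
      intro b hb
      rcases hor b hb with h1 | h1
      · left
        rwa [hB0ne, Subgroup.mem_bot] at h1
      · right
        rw [hB0ne, Subgroup.mem_bot] at h1
        calc b = (a0 * a0) * b := by rw [hsq a0 ha0, one_mul]
          _ = a0 * (a0 * b) := mul_assoc _ _ _
          _ = a0 := by rw [h1, mul_one]
    obtain ⟨x, hx, hxa⟩ : ∃ x ∈ R, a0 * x ≠ x * a0 := by
      by_contra hcon
      push Not at hcon
      exact hna0 hcon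
    obtain ⟨u, hu⟩ : ∃ u, u = (a0 : AddMonoid.End U) - 1 := ⟨_, rfl⟩
    have hau : (a0 : AddMonoid.End U) = 1 + u := by
      rw [hu]
      abel
    have huu : u * u = 0 := by
      rw [hu]
      exact huv a0 ha0 a0 ha0
    have hker : Nat.card (FxU B) ≤ Nat.card u.ker := by
      refine Nat.card_le_card_of_injective (fun z : FxU B => (⟨z.1, ?_⟩ : u.ker)) ?_
      · show u z.1 = 0
        rw [hu]
        show (a0 : AddMonoid.End U) z.1 - z.1 = 0
        rw [z.2 a0 ha0, sub_self]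
      · intro z z' h
        have h1 := congrArg (fun y : u.ker => y.1) h
        exact Subtype.ext h1
    have hr1 : ∀ m, u * m * u = 0 ∨ u * m * u = u := by
      refine rank_one ?_
      exact hBoff.trans (Nat.mul_le_mul hcard hker)
    obtain ⟨b, hb⟩ : ∃ b, b = x * a0 * x⁻¹ := ⟨_, rfl⟩
    obtain ⟨v, hv⟩ : ∃ v : AddMonoid.End U,
      v = x * u * ((x⁻¹ : (AddMonoid.End U)ˣ) : AddMonoid.End U) := ⟨_, rfl⟩
    have hbv : (b : AddMonoid.End U) = 1 + v := by
      rw [hb, hv]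
      exact val_conj hau
    have hvv : v * v = 0 := by
      rw [hv]
      exact sq_conj huu
    have hr2' : ∀ m, v * m * v = 0 ∨ v * m * v = v := by
      rw [hv]
      exact tv_conj hr1
    have hbb : b * b = 1 := by
      have h1 := pow_p (Λ := AddMonoid.End U) hbv hvv h20
      rwa [pow_two] at h1
    have ha0i : a0⁻¹ = a0 := inv_eq_of_mul_eq_one_left (hsq a0 ha0)
    have hbi : b⁻¹ = b := inv_eq_of_mul_eq_one_left hbb
    obtain ⟨y, hy⟩ : ∃ y, y = a0 * b := ⟨_, rfl⟩
    have hyR : y ∈ R := by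
      have h1 : y = (a0 * x * a0⁻¹) * x⁻¹ := by
        rw [hy, hb, ha0i]
        group
      rw [h1]
      exact R.mul_mem (hRn a0 ha0 x hx) (R.inv_mem hx)
    have hy1 : y ≠ 1 := by
      intro h
      apply hxa
      have h1 : b = a0 := by
        calc b = (a0 * a0) * b := by rw [hsq a0 ha0, one_mul]
          _ = a0 * (a0 * b) := mul_assoc _ _ _
          _ = a0 := by rw [← hy, h, mul_one]
      rw [hb] at h1
      exact (mul_inv_eq_iff_eq_mul.mp h1).symm
    have hfour : ∀ z ∈ R, z ^ 4 = 1 → z = 1 := by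
      intro z hz h
      have h1 : (z * z) * (z * z) = 1 := by
        have e1 : z ^ 4 = (z * z) * (z * z) := by
          simp only [pow_succ, pow_zero, one_mul, mul_assoc]
        rw [← e1, h]
      exact odd_sq_one hr hr2 hRr hz (odd_sq_one hr hr2 hRr (R.mul_mem hz hz) h1)
    rcases hr1 v with h1 | h1
    · apply hy1
      refine hfour y hyR ?_
      rw [hy]
      exact tv_nil hau hbv huu hvv h20' h1
    · rcases hr2' u with h2 | h2
      · apply hy1
        have h4 : y⁻¹ = 1 := by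
          refine hfour _ (R.inv_mem hyR) ?_
          have h5 : y⁻¹ = b * a0 := by
            rw [hy, mul_inv_rev, ha0i, hbi]
          rw [h5]
          exact tv_nil hbv hau hvv huu h20' h2
        exact inv_eq_one.mp h4
      · have h4 := tv_braid hau hbv huu hvv h20' h1 h2
        have h5 : y ^ 3 = 1 := by
          calc y ^ 3 = (a0 * b * a0) * (b * a0 * b) := by
                rw [hy]
                simp only [pow_succ, pow_zero, one_mul, mul_assoc]
            _ = (a0 * b * a0) * (a0 * b * a0) := by rw [← h4]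
            _ = a0 * b * (a0 * a0) * b * a0 := by group
            _ = 1 := by
              rw [hsq a0 ha0, mul_one, mul_assoc a0 b b, hbb, mul_one, hsq a0 ha0]
        have hya : a0 * y * a0⁻¹ = y⁻¹ := by
          rw [hy, mul_inv_rev, hbi, ← mul_assoc, hsq a0 ha0, one_mul]
        have h6 := h3 (Subgroup.zpowers y) (by
          rw [Subgroup.zpowers_le]
          exact hSY (hRS hyR)) (by
          rintro ⟨g, k, rfl⟩
          refine ⟨1, Subtype.ext ?_⟩
          show (y ^ k) ^ 3 ^ 1 = 1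
          rw [pow_one, ← zpow_natCast, ← zpow_mul, mul_comm, zpow_mul, zpow_natCast, h5,
            one_zpow]) a0 (hBA ha0) (by
          rintro _ ⟨k, rfl⟩
          refine ⟨-k, ?_⟩
          show y ^ (-k) = a0 * y ^ k * a0⁻¹
          rw [← conj_zpow, hya, zpow_neg, inv_zpow]) y (Subgroup.mem_zpowers y)
        rw [h6, mul_inv_cancel_right] at hya
        apply hy1
        refine odd_sq_one hr hr2 hRr hyR ?_
        nth_rewrite 1 [hya]
        exact inv_mul_cancel y
  · -- reduction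
    have hnoff : ¬ Nat.card U ≤ Nat.card B0 * Nat.card (FxU B0) := by
      intro h
      have h1 := hBmin ⟨hB0B.trans hBA, hB0ne, h⟩ hB0B
      exact ha0B0 (h1 ha0)
    obtain ⟨k1, hk1⟩ := pow2_card hU
    obtain ⟨k2, hk2⟩ := IsPGroup.iff_card.mp (hB2.to_le hB0B)
    obtain ⟨k3, hk3⟩ := pow2_card (U := FxU B0) (fun z => Subtype.ext (hU z.1))
    have h2 : 2 * (Nat.card B0 * Nat.card (FxU B0)) ≤ Nat.card U := by
      rw [hk1, hk2, hk3, ← pow_add] at hnoff
      rw [hk1, hk2, hk3, ← pow_add]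
      have h4 : k2 + k3 < k1 := by
        by_contra hcon
        exact hnoff (Nat.pow_le_pow_right (by norm_num) (by omega))
      calc 2 * 2 ^ (k2 + k3) = 2 ^ (k2 + k3 + 1) := by rw [pow_succ, mul_comm]
        _ ≤ 2 ^ k1 := Nat.pow_le_pow_right (by norm_num) h4
    have h4 : Nat.card (FxU B0) ≤ Nat.card (FxU B) := by
      have h5 : 0 < Nat.card B0 := Nat.card_pos
      have h6 : (2 * Nat.card B0) * Nat.card (FxU B0) ≤
          (2 * Nat.card B0) * Nat.card (FxU B) := by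
        calc (2 * Nat.card B0) * Nat.card (FxU B0) =
            2 * (Nat.card B0 * Nat.card (FxU B0)) := by ring
          _ ≤ Nat.card U := h2
          _ ≤ Nat.card B * Nat.card (FxU B) := hBoff
          _ ≤ _ := Nat.mul_le_mul_right _ hcard
      exact Nat.le_of_mul_le_mul_left h6 (by omega)
    have h5 : FxU B = FxU B0 := by
      refine AddSubgroup.eq_of_le_of_card_ge (FxU_anti hB0B) h4
    apply hna0
    intro x hx
    have hxB0 : ∀ b ∈ B0, b * x = x * b := fun b hb => ((hB0 b).mp hb).2 x hx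
    obtain ⟨y, hy⟩ : ∃ y, y = a0 * x * a0⁻¹ * x⁻¹ := ⟨_, rfl⟩
    have hyR : y ∈ R := by
      rw [hy]
      exact R.mul_mem (hRn a0 ha0 x hx) (R.inv_mem hx)
    have hxf : ∀ z : (AddMonoid.End U)ˣ, (∀ b ∈ B0, b * z = z * b) → ∀ w ∈ FxU B0,
        (z : AddMonoid.End U) w ∈ FxU B0 := by
      intro z hz w hw b hb
      have h6 : (b : AddMonoid.End U) * z = z * b := by
        rw [← Units.val_mul, hz b hb, Units.val_mul]
      calc (b : AddMonoid.End U) ((z : AddMonoid.End U) w) =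
          ((b : AddMonoid.End U) * z) w := rfl
        _ = (z : AddMonoid.End U) ((b : AddMonoid.End U) w) := by rw [h6]; rfl
        _ = (z : AddMonoid.End U) w := by rw [hw b hb]
    have hxi : ∀ b ∈ B0, b * x⁻¹ = x⁻¹ * b := by
      intro b hb
      rw [mul_inv_eq_iff_eq_mul, mul_assoc, hxB0 b hb, inv_mul_cancel_left]
    have hyf : ∀ w ∈ FxU B0, (y : AddMonoid.End U) w = w := by
      intro w hw
      have h6 := hxf x⁻¹ hxi w hw
      have h7 : ((a0⁻¹ : (AddMonoid.End U)ˣ) : AddMonoid.End U)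
          (((x⁻¹ : (AddMonoid.End U)ˣ) : AddMonoid.End U) w) =
          ((x⁻¹ : (AddMonoid.End U)ˣ) : AddMonoid.End U) w := by
        rw [← h5] at h6
        exact h6 a0⁻¹ (B.inv_mem ha0)
      have h8 : (x : AddMonoid.End U) (((x⁻¹ : (AddMonoid.End U)ˣ) : AddMonoid.End U) w) = w := by
        have : ((x : AddMonoid.End U) * ((x⁻¹ : (AddMonoid.End U)ˣ) : AddMonoid.End U)) w = w := by
          rw [Units.mul_inv]
          rfl
        exact this
      rw [hy, Units.val_mul, Units.val_mul, Units.val_mul]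
      show (a0 : AddMonoid.End U) ((x : AddMonoid.End U)
        (((a0⁻¹ : (AddMonoid.End U)ˣ) : AddMonoid.End U)
          (((x⁻¹ : (AddMonoid.End U)ˣ) : AddMonoid.End U) w))) = w
      rw [h7, h8]
      rw [← h5] at hw
      exact hw a0 ha0
    have hyB0 : ∀ b ∈ B0, b * y = y * b := by
      intro b hb
      have e1 := hab b (hB0B hb) a0 ha0
      have e2 := hab b (hB0B hb) a0⁻¹ (B.inv_mem ha0)
      have e3 := hxB0 b hb
      have e4 := hxi b hb
      calc b * y = (b * a0) * x * a0⁻¹ * x⁻¹ := by rw [hy]; group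
        _ = a0 * (b * x) * a0⁻¹ * x⁻¹ := by rw [e1]; group
        _ = a0 * x * (b * a0⁻¹) * x⁻¹ := by rw [e3]; group
        _ = a0 * x * a0⁻¹ * (b * x⁻¹) := by rw [e2]; group
        _ = y * b := by rw [e4, hy]; group
    have hyy : ((y : AddMonoid.End U) - 1) * ((y : AddMonoid.End U) - 1) = 0 := by
      refine AddMonoidHom.ext (fun w => ?_)
      show (y : AddMonoid.End U) ((y : AddMonoid.End U) w - w) -
        ((y : AddMonoid.End U) w - w) = 0
      rw [sub_eq_zero]
      refine hyf _ ?_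
      intro b hb
      have h6 : (b : AddMonoid.End U) w - w ∈ FxU B0 := fun c hc =>
        hqB c (hB0B hc) b (hB0B hb) w
      have h7 := hyf _ h6
      have h8 : (b : AddMonoid.End U) ((y : AddMonoid.End U) w) =
          (y : AddMonoid.End U) ((b : AddMonoid.End U) w) := by
        have h9 : (b : AddMonoid.End U) * y = y * b := by
          rw [← Units.val_mul, hyB0 b hb, Units.val_mul]
        have h10 : ((b : AddMonoid.End U) * y) w = ((y : AddMonoid.End U) * b) w := by rw [h9]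
        exact h10
      rw [map_sub] at h7
      rw [map_sub, h8]
      rw [sub_eq_iff_eq_add] at h7
      rw [h7]
      abel
    have h6 : y * y = 1 := by
      have h7 := pow_p (Λ := AddMonoid.End U) (hdec y) hyy h20
      rwa [pow_two] at h7
    have h7 := odd_sq_one hr hr2 hRr hyR h6
    rw [hy] at h7
    have h8 := mul_inv_eq_one.mp h7
    exact mul_inv_eq_iff_eq_mul.mp h8

end ff

end Pool.Agent.Work.MP_6d7bb4.helper94.Ff
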