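import Pool.Agent.Work.MP_6d7bb4_helper94.Path

/-! # MP_6d7bb4: local analysis, part 5 (helper94): faithful action on a ball of bounded radius -/

set_option autoImplicit false
set_option linter.unusedSectionVars false

namespace Pool.Agent.Work.MP_6d7bb4.helper94

open MulAction
open scoped commutatorElement

theorem rel_ne {G : Type*} [Group G] {H L : Subgroup G} (hf : Finite L) : H.relIndex L ≠ 0 := by
  intro h
  have h1 := Subgroup.relIndex_dvd_card H L
  rw [h, zero_dvd_iff] at h1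
  have := Nat.card_pos (α := L)
  omega

section dist
variable {V G : Type*} [Group G] [MulAction G V] {Γ : SimpleGraph V} {d : ℕ}

theorem dist_smul_le (h : Loc G Γ d) (g : G) (x w : V) :
    Γ.dist (g • x) (g • w) ≤ Γ.dist x w := by
  obtain ⟨q, hq⟩ := h.conn.exists_walk_length_eq_dist x w
  let f : Γ →g Γ := ⟨fun v => g • v, fun hab => h.adj g _ _ hab⟩
  have h1 := SimpleGraph.dist_le (q.map f)
  rw [SimpleGraph.Walk.length_map, hq] at h1
  exact h1

theorem dist_smul (h : Loc G Γ d) (g : G) (x w : V) :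
    Γ.dist (g • x) (g • w) = Γ.dist x w := by
  refine le_antisymm (dist_smul_le h g x w) ?_
  have h1 := dist_smul_le h g⁻¹ (g • x) (g • w)
  rwa [inv_smul_smul, inv_smul_smul] at h1

end dist

section fin
variable {V G : Type*} [Group G] [MulAction G V] {Γ : SimpleGraph V} {d p : ℕ}

/-- the intersection of the groups `Zz x y` -/
def Cx (Γ : SimpleGraph V) (p : ℕ) (x : V) : Subgroup G :=
  ⨅ y : {y // Γ.Adj x y}, Zz p x y.1

theorem mem_Cx {x : V} {z : G} :
    z ∈ (Cx Γ p x : Subgroup G) ↔ ∀ y, Γ.Adj x y → z ∈ (Zz p x y : Subgroup G) := by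
  unfold Cx
  rw [Subgroup.mem_iInf]
  exact ⟨fun h y hy => h ⟨y, hy⟩, fun h y => h y.1 y.2⟩

theorem Cx_cj (h : Loc G Γ d) (g : G) (x : V) : Cx Γ p (g • x) = cj g (Cx Γ p x) := by
  ext z
  rw [mem_cj, mem_Cx, mem_Cx]
  constructor
  · intro h1 y hy
    have h2 := h1 (g • y) (h.adj g x y hy)
    rwa [Zz_cj, mem_cj] at h2
  · intro h1 y hy
    have h2 : Γ.Adj x (g⁻¹ • y) := by
      rw [← h.adj_iff g, smul_inv_smul]
      exact hy
    have h3 := h1 _ h2
    rwa [← mem_cj, ← Zz_cj, smul_inv_smul] at h3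

variable [Fact p.Prime]

theorem Lk.conj (h : Loc G Γ d) {x x' w' w : V} (l : Lk Γ G p x x' w' w) (g : G) :
    Lk Γ G p (g • x) (g • x') (g • w') (g • w) where
  xx := h.adj g _ _ l.xx
  ww := h.adj g _ _ l.ww
  xw := by
    rw [Vv_cj h, Qv_cj h]
    exact cj_mono g l.xw
  wx := by
    rw [Vv_cj h, Qv_cj h]
    exact cj_mono g l.wx
  cr := by
    intro hcon
    rw [Vv_cj h, Qv_cj h] at hcon
    apply l.cr
    have := cj_mono g⁻¹ hcon
    rwa [cj_cj_inv, cj_cj_inv] at this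

/-- the index of `Zz` in `Vv` -/
theorem Zz_rel (h : Loc G Γ d) (hB : CB G Γ p) {x x' w' w : V} (l : Lk Γ G p x x' w' w) :
    (Zz p x x' : Subgroup G).relIndex (Vv Γ p x) ≤ p := by
  have hf : Finite (Vv Γ p x : Subgroup G) := h.fin_le ((Vv_le_Qv h hB x).trans (Qv_le_st x))
  have h1 : (Qv Γ p w ⊓ Vv Γ p x : Subgroup G) ≤ Zz p x x' := fun a ha =>
    l.cent h hB ha.2 (fun u hu => (Vv_comm h hB ha.1 hu).symm)
  have h2 : (Vv Γ p x : Subgroup G) ≤ Qe p w w' := l.xw.trans (Qv_le_Qe' h l.ww)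
  calc (Zz p x x' : Subgroup G).relIndex (Vv Γ p x)
      ≤ (Qv Γ p w ⊓ Vv Γ p x : Subgroup G).relIndex (Vv Γ p x) :=
        Subgroup.relIndex_le_of_le_left h1 (rel_ne hf)
    _ = (Qv Γ p w : Subgroup G).relIndex (Vv Γ p x) := Subgroup.inf_relIndex_right _ _
    _ ≤ (Qv Γ p w : Subgroup G).relIndex (Qe p w w') :=
        Subgroup.relIndex_le_of_le_right h2 (rel_ne (finQe h w w'))
    _ ≤ p := hB.rl _ _ l.ww

theorem Cx_inf (h : Loc G Γ d) (hB : CB G Γ p) {x y : V} (hxy : Γ.Adj x y) :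
    (Cx Γ p x ⊓ Cx Γ p y : Subgroup G) = ⊥ := by
  obtain ⟨σ, h1, h2⟩ := h.inv hxy
  refine P1 h hxy ?_ ?_ h1 h2 ?_
  · intro z hz
    exact Qe_le_st x y (OZ_le _ _ (mem_Cx.mp hz.1 y hxy))
  · refine nm_st (Nh_le x) (Nh_tr h hB x) h hxy ?_ ?_
    · refine Nm.iSup_left (fun y' => nm_of_comm ?_)
      intro q hq z hz
      exact Zz_comm_Qe (mem_Cx.mp hz.1 y'.1 y'.2) hq
    · refine ((nm_of_equiv (Cx_cj h) x).mono (B_le x y)).inf ?_
      rw [B_comm]
      exact (nm_of_equiv (Cx_cj h) y).mono (B_le y x)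
  · intro n hn
    have h3 := conj_mem_cj (g := σ) hn.1
    have h4 := conj_mem_cj (g := σ) hn.2
    rw [← Cx_cj h, h1] at h3
    rw [← Cx_cj h, h2] at h4
    exact ⟨h4, h3⟩

/-- the size of `Vv` -/
theorem Vv_card (h : Loc G Γ d) (hB : CB G Γ p)
    (hL : ∀ x x', Γ.Adj x x' → ∃ w' w, Lk Γ G p x x' w' w) {x y : V} (hxy : Γ.Adj x y) :
    Nat.card (Vv Γ p x : Subgroup G) ≤ p ^ (2 * d + 1) := by
  have hp : 0 < p := (Fact.out : p.Prime).pos
  have hf : ∀ x, Finite (Vv Γ p x : Subgroup G) := fun x =>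
    h.fin_le ((Vv_le_Qv h hB x).trans (Qv_le_st x))
  have h1 : ∀ x, (Cx Γ p x : Subgroup G).relIndex (Vv Γ p x) ≤ p ^ d := by
    intro x
    have hfi := h.nfin x
    have := Fintype.ofFinite {y // Γ.Adj x y}
    calc (Cx Γ p x : Subgroup G).relIndex (Vv Γ p x)
        ≤ ∏ y : {y // Γ.Adj x y}, (Zz p x y.1 : Subgroup G).relIndex (Vv Γ p x) :=
          Subgroup.relIndex_iInf_le _
      _ ≤ p ^ (Finset.univ : Finset {y // Γ.Adj x y}).card := by
          refine Finset.prod_le_pow_card _ _ _ ?_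
          intro y _
          obtain ⟨w', w, l⟩ := hL x y.1 y.2
          exact Zz_rel h hB l
      _ ≤ p ^ d := by
          refine Nat.pow_le_pow_right hp ?_
          rw [Finset.card_univ, ← Nat.card_eq_fintype_card]
          exact h.ncard x
  have hZf : Finite (Zz p x y : Subgroup G) := h.fin_le ((OZ_le _ _).trans (Qe_le_st x y))
  have h2 : (Cx Γ p x : Subgroup G).relIndex (Zz p x y) ≤ p ^ d :=
    (Subgroup.relIndex_le_of_le_right (Zz_le_Vv hxy) (rel_ne (hf x))).trans (h1 x)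
  have h3 : (Cx Γ p y : Subgroup G).relIndex (Zz p x y) ≤ p ^ d := by
    rw [Zz_comm]
    exact (Subgroup.relIndex_le_of_le_right (Zz_le_Vv hxy.symm) (rel_ne (hf y))).trans (h1 y)
  have h4 : Nat.card (Zz p x y : Subgroup G) ≤ p ^ d * p ^ d := by
    rw [← Subgroup.relIndex_bot_left, ← Cx_inf h hB hxy]
    exact Subgroup.relIndex_inf_le.trans (Nat.mul_le_mul h2 h3)
  obtain ⟨w', w, l⟩ := hL x y hxy
  have h5 := Subgroup.relIndex_mul_relIndex ⊥ (Zz p x y : Subgroup G) (Vv Γ p x) bot_le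
    (Zz_le_Vv hxy)
  rw [Subgroup.relIndex_bot_left, Subgroup.relIndex_bot_left] at h5
  rw [← h5]
  calc _ ≤ (p ^ d * p ^ d) * p := Nat.mul_le_mul h4 (Zz_rel h hB l)
    _ = p ^ (2 * d + 1) := by
      rw [pow_succ, two_mul, pow_add]

/-- links of bounded length in all directions -/
theorem links (h : Loc G Γ d) (hB : CB G Γ p) {x x' : V} (hx : Γ.Adj x x') :
    ∃ w' w, Lk Γ G p x x' w' w ∧ Γ.dist x w + 1 ≤ 2 * d * (2 * d + 1) := by
  obtain ⟨c, mn, s, P0⟩ := crit h hB hx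
  have l0 := P0.lk h mn (le_refl 0)
  have hd0 : Γ.dist (s (0 + c + 1)) (s 0) ≤ c + 1 := by
    rw [SimpleGraph.dist_comm, show 0 + c + 1 = 0 + (c + 1) by omega]
    exact dist_path h.conn P0.ad 0 (c + 1) (by omega)
  have hL : ∀ x x', Γ.Adj x x' → ∃ w' w, Lk Γ G p x x' w' w ∧ Γ.dist x w ≤ c + 1 := by
    intro x x' hx
    obtain ⟨g, hg1, hg2⟩ := h.arc _ _ x x' l0.xx hx
    refine ⟨g • s (0 + 1), g • s 0, ?_, ?_⟩
    · have l := l0.conj h g
      rwa [hg1, hg2] at l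
    · rw [← hg1, dist_smul h]
      exact hd0
  have hcard : ∀ v, Nat.card (Vv Γ p v : Subgroup G) ≤ p ^ (2 * d + 1) := by
    intro v
    by_cases hv : ∃ v', Γ.Adj v v'
    · obtain ⟨v', hv'⟩ := hv
      refine Vv_card h hB (fun x x' hx => ?_) hv'
      obtain ⟨w', w, l, _⟩ := hL x x' hx
      exact ⟨w', w, l⟩
    · have h1 : (Vv Γ p v : Subgroup G) = ⊥ := by
        rw [eq_bot_iff]
        exact iSup_le (fun y => absurd ⟨y.1, y.2⟩ hv)
      rw [h1, Subgroup.card_bot]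
      exact Nat.one_le_pow _ _ (Fact.out : p.Prime).pos
  obtain ⟨s', P'⟩ := P0.exists h hB mn (3 * c + 3)
  have h1 := P'.bound h hB mn hcard
  have hpd : p ≤ d := h.pb p Fact.out x x' hx (Qe p x x') (Qe_le x x') (Qe_isP h x x')
    (hB.ne x x' hx)
  have h2 : p ≤ 2 ^ d := hpd.trans (Nat.lt_two_pow_self).le
  have h3 : 2 ^ (c + 2) ≤ 2 ^ (2 * d * (2 * d + 1)) := by
    calc 2 ^ (c + 2) ≤ p ^ (2 * d + 1) * p ^ (2 * d + 1) := h1
      _ ≤ (2 ^ d) ^ (2 * d + 1) * (2 ^ d) ^ (2 * d + 1) :=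
        Nat.mul_le_mul (Nat.pow_le_pow_left h2 _) (Nat.pow_le_pow_left h2 _)
      _ = 2 ^ (2 * d * (2 * d + 1)) := by
        rw [← pow_mul, ← pow_add]
        congr 1
        ring
  have h4 : c + 2 ≤ 2 * d * (2 * d + 1) := (Nat.pow_le_pow_iff_right (by norm_num)).mp h3
  obtain ⟨w', w, l, hd⟩ := hL x x' hx
  exact ⟨w', w, l, by omega⟩

/-- pointwise stabiliser of two balls -/
def Wr (Γ : SimpleGraph V) (r : ℕ) (x y : V) : Subgroup G where
  carrier := {g | ∀ v, Γ.dist x v ≤ r ∨ Γ.dist y v ≤ r → g • v = v}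
  one_mem' := fun v _ => one_smul _ _
  mul_mem' := by
    intro a b ha hb v hv
    rw [mul_smul, hb v hv, ha v hv]
  inv_mem' := by
    intro a ha v hv
    rw [inv_smul_eq_iff, ha v hv]

omit [Fact p.Prime] in
theorem mem_Wr {r : ℕ} {x y : V} {g : G} :
    g ∈ (Wr Γ r x y : Subgroup G) ↔ ∀ v, Γ.dist x v ≤ r ∨ Γ.dist y v ≤ r → g • v = v := Iff.rfl

omit [Fact p.Prime] in
theorem Wr_le (r : ℕ) (x y : V) : (Wr Γ r x y : Subgroup G) ≤ B x y := by
  intro g hg
  exact ⟨hg x (Or.inl (by rw [SimpleGraph.dist_self]; omega)),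
    hg y (Or.inr (by rw [SimpleGraph.dist_self]; omega))⟩

omit [Fact p.Prime] in
theorem Wr_comm (r : ℕ) (x y : V) : (Wr Γ r x y : Subgroup G) = Wr Γ r y x := by
  ext g
  rw [mem_Wr, mem_Wr]
  exact forall_congr' (fun v => by rw [or_comm])

omit [Fact p.Prime] in
theorem Wr_K {r : ℕ} (hr : 1 ≤ r) (x y : V) :
    (Wr Γ r x y : Subgroup G) ≤ K Γ x := by
  intro g hg
  refine ⟨(Wr_le r x y hg).1, fun v hv => hg v (Or.inl ?_)⟩
  rw [SimpleGraph.dist_eq_one_iff_adj.mpr hv]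
  exact hr

omit [Fact p.Prime] in
theorem nm_Wr (h : Loc G Γ d) (r : ℕ) (x y : V) : Nm (B x y) (Wr Γ r x y : Subgroup G) := by
  intro b hb g hg v hv
  have hx : b⁻¹ • x = x := by
    rw [inv_smul_eq_iff, hb.1]
  have hy : b⁻¹ • y = y := by
    rw [inv_smul_eq_iff, hb.2]
  have h1 := hg (b⁻¹ • v) (by
    rw [← dist_smul h b⁻¹ x v, ← dist_smul h b⁻¹ y v, hx, hy] at hv
    exact hv)
  rw [mul_smul, mul_smul, h1, smul_inv_smul]

/-- no `p`-part -/
theorem no_p (h : Loc G Γ d) (hcb : CB0 G Γ p → CB G Γ p) {x y : V} (hxy : Γ.Adj x y) {r : ℕ} (hr1 : 1 ≤ r)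
    (hr : 2 * d * (2 * d + 1) ≤ r) {L : Subgroup G} (hL : L ≤ Wr Γ r x y) (hne : L ≠ ⊥)
    (hsn : Sn (B x y) L) (hp : IsPGroup p L) : False := by
  have hfB := h.finB x y
  have hfQ := finQe (p := p) h x y
  have hLQ : L ≤ Qe p x y := hsn.isP_le hp
  have hne' : (Wr Γ r x y ⊓ Qe p x y : Subgroup G) ≠ ⊥ := by
    intro h1
    apply hne
    rw [eq_bot_iff, ← h1]
    exact le_inf hL hLQ
  obtain ⟨z, hz, hz1, hzp, hzc⟩ := exists_central (Qe_isP h x y) inf_le_right hne'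
    (((nm_Wr h r x y).mono (Qe_le x y)).inf (nm_self _))
  rcases cases3 (p := p) h with h1 | h1 | hB0
  · have h2 : z ∈ (Qe p x y : Subgroup G) := hz.2
    rw [h1 x y hxy, Subgroup.mem_bot] at h2
    exact hz1 h2
  · have h2 : z ∈ (Qv Γ p x ⊓ Qv Γ p y : Subgroup G) := by
      constructor
      · rw [Qv_eq h hxy]
        exact ⟨hz.2, Wr_K hr1 x y hz.1⟩
      · rw [Qv_eq h hxy.symm]
        refine ⟨?_, ?_⟩
        · rw [Qe_comm]
          exact hz.2
        · have h3 := hz.1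
          rw [Wr_comm] at h3
          exact Wr_K hr1 y x h3
    rw [h1 x y hxy, Subgroup.mem_bot] at h2
    exact hz1 h2
  · have hB := hcb hB0
    have hzZ : z ∈ (Zz p x y : Subgroup G) := ⟨hz.2, hzp, hzc⟩
    have key : ∀ {x y : V}, Γ.Adj x y → z ∈ (Wr Γ r x y : Subgroup G) →
        z ∈ (Vv Γ p x : Subgroup G) → z ∈ (Cx Γ p x : Subgroup G) := by
      intro x y hxy hz hzV
      rw [mem_Cx]
      intro x' hx'
      obtain ⟨w', w, l, hd⟩ := links h hB hx'
      refine l.cent h hB hzV ?_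
      intro u hu
      refine (Vv_comm h hB ?_ hu).symm
      rw [Qv_eq h l.ww]
      refine ⟨Qv_le_Qe' h l.ww (l.xw hzV), ?_, ?_⟩
      · exact hz w (Or.inl (by omega))
      · intro v hv
        refine hz v (Or.inl ?_)
        have h2 := h.conn.dist_triangle (u := x) (v := w) (w := v)
        rw [SimpleGraph.dist_eq_one_iff_adj.mpr hv] at h2
        omega
    have h2 : z ∈ (Cx Γ p x ⊓ Cx Γ p y : Subgroup G) := by
      constructor
      · exact key hxy hz.1 (Zz_le_Vv hxy hzZ)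
      · refine key hxy.symm ?_ ?_
        · rw [Wr_comm]
          exact hz.1
        · rw [Zz_comm] at hzZ
          exact Zz_le_Vv hxy.symm hzZ
    rw [Cx_inf h hB hxy, Subgroup.mem_bot] at h2
    exact hz1 h2

omit [Fact p.Prime] in
/-- the perfect case -/
theorem no_perf (h : Loc G Γ d) {x y : V} (hxy : Γ.Adj x y) {r : ℕ} (hr1 : 1 ≤ r)
    {L : Subgroup G} (hL : L ≤ Wr Γ r x y) (hne : L ≠ ⊥)
    (hsn : Sn (B x y) L) (hmin : ∀ N, N ≤ L → Nm L N → N = ⊥ ∨ N = L)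
    (hper : ⁅L, L⁆ = L) : False := by
  classical
  have h1 : ∃ n, ∃ w, Γ.dist x w = n ∧ ¬ L ≤ K Γ w := by
    by_contra hcon
    push Not at hcon
    apply hne
    rw [Subgroup.eq_bot_iff_forall]
    intro z hz
    apply h.faith
    intro v
    exact (hcon _ v rfl hz).1
  obtain ⟨n, hn⟩ : ∃ n, n = Nat.find h1 := ⟨_, rfl⟩
  obtain ⟨w, hxw, hcr⟩ := Nat.find_spec h1
  rw [← hn] at hxw
  have hmn : ∀ v, Γ.dist x v < n → L ≤ K Γ v := by
    intro v hv
    by_contra h2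
    exact Nat.find_min h1 (hn ▸ hv) ⟨v, rfl, h2⟩
  have hLx : L ≤ K Γ x := hL.trans (Wr_K hr1 x y)
  have hn0 : n ≠ 0 := by
    intro h0
    rw [h0, h.conn.dist_eq_zero_iff] at hxw
    rw [← hxw] at hcr
    exact hcr hLx
  have hpre : ∀ k, ∀ v, Γ.dist x v = k + 1 → ∃ u, Γ.dist x u = k ∧ Γ.Adj u v := by
    intro k v hv
    obtain ⟨q, hq⟩ := h.conn.exists_walk_length_eq_dist x v
    have hq1 : q.length = k + 1 := hq.trans hv
    have ha : Γ.Adj (q.getVert k) (q.getVert (k + 1)) := q.adj_getVert_succ (by omega)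
    rw [← hq1, q.getVert_length] at ha
    refine ⟨q.getVert k, ?_, ha⟩
    have h2 : Γ.dist x (q.getVert k) ≤ k := by
      have h3 := dist_path h.conn (s := q.getVert) (N := q.length)
        (fun j hj => q.adj_getVert_succ hj) 0 k (by omega)
      rw [q.getVert_zero, zero_add] at h3
      exact h3
    have h3 := h.conn.dist_triangle (u := x) (v := q.getVert k) (w := v)
    rw [SimpleGraph.dist_eq_one_iff_adj.mpr ha] at h3
    omega
  have hK : ∀ k, k < n → ∀ v, Γ.dist x v = k → Sn (K Γ v) L := by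
    intro k
    induction k with
    | zero =>
      intro _ v hv
      rw [h.conn.dist_eq_zero_iff] at hv
      rw [← hv]
      exact hsn.restrict (K_le_B hxy) hLx
    | succ k ih =>
      intro hk v hv
      obtain ⟨u, hu, huv⟩ := hpre k v hv
      have h2 : Sn (B u v) L := (ih (by omega) u hu).lift (K_le_B huv)
        ((nm_K h u).mono (B_le u v))
      refine h2.restrict ?_ (hmn v (by omega))
      rw [B_comm]
      exact K_le_B huv.symm
  obtain ⟨k, rfl⟩ := Nat.exists_eq_succ_of_ne_zero hn0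
  obtain ⟨u, hu, huw⟩ := hpre k w hxw
  have h2 : Sn (B u w) L := (hK k (Nat.lt_succ_self k) u hu).lift (K_le_B huw)
    ((nm_K h u).mono (B_le u w))
  have hKw : (K Γ w : Subgroup G) ≤ B u w := by
    rw [B_comm]
    exact K_le_B huw.symm
  have hnK : Nm (B u w) (K Γ w : Subgroup G) := by
    rw [B_comm]
    exact (nm_K h w).mono (B_le w u)
  have h3 : L ⊓ K Γ w = ⊥ := by
    rcases hmin (L ⊓ K Γ w) inf_le_left ((nm_self L).inf (hnK.mono h2.le)) with h4 | h4
    · exact h4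
    · exact absurd (inf_eq_left.mp h4) hcr
  have h4 := h2.comm hper hKw hnK h3
  obtain ⟨g, hg, hgK⟩ := SetLike.not_le_iff_exists.mp hcr
  have h5 : ∀ k ∈ (K Γ w : Subgroup G), g * k = k * g := by
    intro k hk
    have h6 := Subgroup.commutator_mem_commutator hg hk
    rw [h4, Subgroup.mem_bot, commutatorElement_eq_one_iff_mul_comm] at h6
    exact h6
  have hgB : g ∈ B w u := by
    rw [B_comm]
    exact h2.le hg
  have h6 := DD_of_cent h (K_cj h) K_le huw.symm hgB hgK h5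
  have h7 : (K Γ x ⊓ K Γ y : Subgroup G) = ⊥ := by
    refine transfer_arc h (P := fun x y => (K Γ x ⊓ K Γ y : Subgroup G) = ⊥) ?_
      huw.symm h6 hxy
    intro a b c hbc
    rw [Subgroup.eq_bot_iff_forall] at hbc ⊢
    intro k hk
    have h8 := hbc (a⁻¹ * k * a) (by
      rw [K_cj h, K_cj h] at hk
      exact ⟨mem_cj.mp hk.1, mem_cj.mp hk.2⟩)
    have h9 : k = a * (a⁻¹ * k * a) * a⁻¹ := by group
    rw [h9, h8]
    group
  apply hne
  rw [eq_bot_iff, ← h7]
  refine le_inf hLx (hL.trans ?_)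
  rw [Wr_comm]
  exact Wr_K hr1 y x

omit [Fact p.Prime] in
/-- the action on two balls of bounded radius is faithful -/
theorem Wr_bot (h : Loc G Γ d) (hcb : ∀ p : ℕ, p.Prime → CB0 G Γ p → CB G Γ p) {x y : V}
    (hxy : Γ.Adj x y) {r : ℕ} (hr1 : 1 ≤ r)
    (hr : 2 * d * (2 * d + 1) ≤ r) : (Wr Γ r x y : Subgroup G) = ⊥ := by
  by_contra hne
  have := h.finB x y
  obtain ⟨L, hL, hLne, hsn, hmin⟩ := exists_min (Wr_le r x y) (nm_Wr h r x y) hne
  have : Finite L := h.fin_le ((hL.trans (Wr_le r x y)).trans (B_le x y))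
  rcases min_cases hLne hmin with hper | ⟨p, hp, hpL⟩
  · exact no_perf h hxy hr1 hL hLne hsn hmin hper
  · have : Fact p.Prime := ⟨hp⟩
    exact no_p h (hcb p hp) hxy hr1 hr hL hLne hsn hpL

end fin

end Pool.Agent.Work.MP_6d7bb4.helper94
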