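import Mathlib

/-! # MP_6d7bb4: group theoretic preliminaries (helper94)

`Nm B N`: the subgroup `B` normalises `N`; `O p B` = largest normal `p`-subgroup of the finite
subgroup `B`; `Sn B L`: `L` is subnormal in `B`. -/

set_option autoImplicit false

namespace Pool.Agent.Work.MP_6d7bb4.helper94

open scoped commutatorElement

section grp
variable {G : Type*} [Group G]

/-- `B` normalises `N` -/
def Nm (B N : Subgroup G) : Prop := ∀ b ∈ B, ∀ n ∈ N, b * n * b⁻¹ ∈ N

theorem nm_iff {B N : Subgroup G} : Nm B N ↔ B ≤ Subgroup.normalizer (N : Set G) :=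
  Subgroup.le_normalizer_iff.symm

theorem Nm.mono {B B' N : Subgroup G} (h : Nm B N) (hB : B' ≤ B) : Nm B' N :=
  fun _ hb => h _ (hB hb)

theorem nm_self (B : Subgroup G) : Nm B B := fun _ hb _ hn =>
  B.mul_mem (B.mul_mem hb hn) (B.inv_mem hb)

theorem Nm.inf {B M N : Subgroup G} (h : Nm B M) (h' : Nm B N) : Nm B (M ⊓ N) :=
  fun b hb n hn => ⟨h b hb n hn.1, h' b hb n hn.2⟩

theorem nm_of_le {B N : Subgroup G} (h : B ≤ N) : Nm B N := fun _ hb _ hn =>
  N.mul_mem (N.mul_mem (h hb) hn) (N.inv_mem (h hb))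

theorem Nm.sup_left {A B N : Subgroup G} (h : Nm A N) (h' : Nm B N) : Nm (A ⊔ B) N := by
  rw [nm_iff] at *
  exact sup_le h h'

theorem Nm.iSup_left {ι : Sort*} {A : ι → Subgroup G} {N : Subgroup G} (h : ∀ i, Nm (A i) N) :
    Nm (⨆ i, A i) N := by
  rw [nm_iff]
  exact iSup_le (fun i => nm_iff.mp (h i))

theorem Nm.iSup {ι : Sort*} {B : Subgroup G} {N : ι → Subgroup G}
    (h : ∀ b ∈ B, ∀ i, ∀ n ∈ N i, b * n * b⁻¹ ∈ ⨆ j, N j) : Nm B (⨆ i, N i) := by
  intro b hb n hn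
  have h1 : (⨆ i, N i) ≤ (⨆ i, N i).comap (MulAut.conj b).toMonoidHom :=
    iSup_le (fun i n hn => h b hb i n hn)
  exact h1 hn

theorem Nm.sup {B M N : Subgroup G} (h : Nm B M) (h' : Nm B N) : Nm B (M ⊔ N) := by
  intro b hb n hn
  have h1 : M ⊔ N ≤ (M ⊔ N).comap (MulAut.conj b).toMonoidHom :=
    sup_le (fun n hn => le_sup_left (α := Subgroup G) (h b hb n hn))
      (fun n hn => le_sup_right (α := Subgroup G) (h' b hb n hn))
  exact h1 hn

/-- elements of a join with a normalised subgroup -/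
theorem mem_sup_nm {A N : Subgroup G} (h : Nm A N) {g : G} (hg : g ∈ A ⊔ N) :
    ∃ a ∈ A, ∃ n ∈ N, g = a * n := by
  have h1 : (A ⊔ N : Subgroup G) ≤
      { carrier := {g | ∃ a ∈ A, ∃ n ∈ N, g = a * n}
        one_mem' := ⟨1, A.one_mem, 1, N.one_mem, by simp⟩
        mul_mem' := by
          rintro _ _ ⟨a, ha, n, hn, rfl⟩ ⟨a', ha', n', hn', rfl⟩
          refine ⟨a * a', A.mul_mem ha ha', a'⁻¹ * n * a'⁻¹⁻¹ * n',
            N.mul_mem (h _ (A.inv_mem ha') _ hn) hn', by group⟩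
        inv_mem' := by
          rintro _ ⟨a, ha, n, hn, rfl⟩
          exact ⟨a⁻¹, A.inv_mem ha, a * n⁻¹ * a⁻¹, h _ ha _ (N.inv_mem hn), by group⟩ } := by
    refine sup_le ?_ ?_
    · intro a ha
      exact ⟨a, ha, 1, N.one_mem, by simp⟩
    · intro n hn
      exact ⟨1, A.one_mem, n, hn, by simp⟩
  exact h1 hg

/-! ## `O_p` -/

/-- the largest normal `p`-subgroup -/
def O (p : ℕ) (B : Subgroup G) : Subgroup G := sSup {N | N ≤ B ∧ Nm B N ∧ IsPGroup p N}

theorem O_le (p : ℕ) (B : Subgroup G) : O p B ≤ B := sSup_le (fun _ h => h.1)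

theorem le_O {p : ℕ} {B N : Subgroup G} (h1 : N ≤ B) (h2 : Nm B N) (h3 : IsPGroup p N) :
    N ≤ O p B := le_sSup ⟨h1, h2, h3⟩

theorem isP_sup {p : ℕ} {M N : Subgroup G} (hM : IsPGroup p M) (hN : IsPGroup p N)
    (h : Nm M N) : IsPGroup p (M ⊔ N : Subgroup G) := by
  have h1 := IsPGroup.to_sup_of_normal_right' hM hN (nm_iff.mp h)
  exact h1

theorem O_spec {p : ℕ} [Fact p.Prime] {B : Subgroup G} [Finite B] :
    IsPGroup p (O p B) ∧ Nm B (O p B) := by
  classical
  have hfin : {N : Subgroup G | N ≤ B ∧ Nm B N ∧ IsPGroup p N}.Finite := by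
    have h1 : (Set.Iic B).Finite := by
      have : Finite (Set.Iic B) := Finite.of_injective
        (fun N : Set.Iic B => (N.1.subgroupOf B)) (by
          intro N M h
          have h2 : N.1.subgroupOf B = M.1.subgroupOf B := h
          rw [Subgroup.subgroupOf_inj, inf_eq_left.mpr N.2, inf_eq_left.mpr M.2] at h2
          exact Subtype.ext h2)
      exact Set.toFinite _
    exact h1.subset (fun N h => h.1)
  have hne : {N : Subgroup G | N ≤ B ∧ Nm B N ∧ IsPGroup p N}.Nonempty :=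
    ⟨⊥, bot_le, fun b _ n hn => by
      rw [Subgroup.mem_bot] at hn ⊢
      rw [hn]
      group, IsPGroup.of_bot⟩
  obtain ⟨M, hM⟩ := hfin.exists_maximal hne
  have h2 : O p B = M := by
    refine le_antisymm (sSup_le ?_) (le_sSup hM.1)
    intro N hN
    have h3 : N ⊔ M ∈ {N : Subgroup G | N ≤ B ∧ Nm B N ∧ IsPGroup p N} := by
      refine ⟨sup_le hN.1 hM.1.1, hN.2.1.sup hM.1.2.1, ?_⟩
      exact isP_sup hN.2.2 hM.1.2.2 (hM.1.2.1.mono hN.1)
    exact le_sup_left.trans (hM.2 h3 le_sup_right)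
  rw [h2]
  exact ⟨hM.1.2.2, hM.1.2.1⟩

theorem O_isP {p : ℕ} [Fact p.Prime] (B : Subgroup G) [Finite B] : IsPGroup p (O p B) :=
  O_spec.1

theorem O_nm {p : ℕ} [Fact p.Prime] (B : Subgroup G) [Finite B] : Nm B (O p B) := O_spec.2

/-- conjugate subgroup -/
def cj (g : G) (S : Subgroup G) : Subgroup G := S.comap (MulAut.conj g⁻¹).toMonoidHom

theorem mem_cj {g h : G} {S : Subgroup G} : h ∈ cj g S ↔ g⁻¹ * h * g ∈ S := by
  unfold cj
  rw [Subgroup.mem_comap]
  simp

theorem conj_mem_cj {g h : G} {S : Subgroup G} (hh : h ∈ S) : g * h * g⁻¹ ∈ cj g S := by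
  rw [mem_cj]
  have : g⁻¹ * (g * h * g⁻¹) * g = h := by group
  rw [this]
  exact hh

theorem isP_cj {p : ℕ} {S : Subgroup G} (g : G) (h : IsPGroup p S) : IsPGroup p (cj g S) := by
  intro x
  obtain ⟨k, hk⟩ := h ⟨g⁻¹ * x.1 * g, mem_cj.mp x.2⟩
  refine ⟨k, ?_⟩
  have h1 : (g⁻¹ * x.1 * g) ^ (p ^ k) = 1 := by
    have := congrArg Subtype.val hk
    simpa using this
  have h2 : (g⁻¹ * x.1 * g) ^ (p ^ k) = g⁻¹ * x.1 ^ (p ^ k) * g := by
    have := conj_pow (i := p ^ k) (a := g⁻¹) (b := x.1)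
    rw [inv_inv] at this
    exact this
  rw [h2] at h1
  have h3 : x.1 ^ (p ^ k) = 1 := by
    have : x.1 ^ (p ^ k) = g * (g⁻¹ * x.1 ^ (p ^ k) * g) * g⁻¹ := by group
    rw [this, h1]
    group
  exact Subtype.ext (by simpa using h3)

theorem nm_cj {B N : Subgroup G} (g : G) (h : Nm B N) : Nm (cj g B) (cj g N) := by
  intro b hb n hn
  rw [mem_cj] at *
  have h1 := h _ hb _ hn
  have h2 : g⁻¹ * (b * n * b⁻¹) * g = g⁻¹ * b * g * (g⁻¹ * n * g) * (g⁻¹ * b * g)⁻¹ := by group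
  rw [h2]
  exact h1

theorem cj_mono {M N : Subgroup G} (g : G) (h : M ≤ N) : cj g M ≤ cj g N := by
  intro x hx
  rw [mem_cj] at *
  exact h hx

theorem cj_inv_cj (g : G) (S : Subgroup G) : cj g (cj g⁻¹ S) = S := by
  ext x
  rw [mem_cj, mem_cj]
  have : g⁻¹⁻¹ * (g⁻¹ * x * g) * g⁻¹ = x := by group
  rw [this]

theorem cj_cj_inv (g : G) (S : Subgroup G) : cj g⁻¹ (cj g S) = S := by
  have := cj_inv_cj g⁻¹ S
  rwa [inv_inv] at this

theorem O_cj (p : ℕ) (g : G) (B : Subgroup G) : O p (cj g B) = cj g (O p B) := by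
  have key : ∀ (g : G) (B : Subgroup G), cj g (O p B) ≤ O p (cj g B) := by
    intro g B
    have h1 : O p B ≤ cj g⁻¹ (O p (cj g B)) := by
      refine sSup_le (fun N hN => ?_)
      have h2 : cj g N ≤ O p (cj g B) :=
        le_O (cj_mono g hN.1) (nm_cj g hN.2.1) (isP_cj g hN.2.2)
      have h3 := cj_mono g⁻¹ h2
      rw [cj_cj_inv] at h3
      exact h3
    have h4 := cj_mono g h1
    rw [cj_inv_cj] at h4
    exact h4
  refine le_antisymm ?_ (key g B)
  have h1 := cj_mono g (key g⁻¹ (cj g B))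
  rw [cj_inv_cj, cj_cj_inv] at h1
  exact h1

/-- a subgroup normalised by `M` has an `M`-invariant `O_p` -/
theorem nm_O {p : ℕ} {M N : Subgroup G} (h : Nm M N) : Nm M (O p N) := by
  intro m hm n hn
  have h1 : cj m N = N := by
    ext x
    rw [mem_cj]
    constructor
    · intro hx
      have := h m hm _ hx
      have h2 : m * (m⁻¹ * x * m) * m⁻¹ = x := by group
      rwa [h2] at this
    · intro hx
      have := h m⁻¹ (M.inv_mem hm) _ hx
      rwa [inv_inv] at this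
  have h2 := conj_mem_cj (g := m) hn
  rw [← O_cj, h1] at h2
  exact h2

theorem O_inf {p : ℕ} [Fact p.Prime] {B K : Subgroup G} [Finite B] (hK : K ≤ B) (h : Nm B K) :
    O p K = O p B ⊓ K := by
  have : Finite K := Finite.of_injective _ (Subgroup.inclusion_injective hK)
  refine le_antisymm (le_inf ?_ (O_le p K)) ?_
  · exact le_O ((O_le p K).trans hK) (nm_O h) (O_isP K)
  · refine le_O inf_le_right ?_ ((O_isP B).to_le inf_le_left)
    exact ((O_nm B).mono hK).inf (nm_self K)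

/-! ## Subnormal subgroups -/

/-- `L` is subnormal in `B` -/
inductive Sn (B : Subgroup G) : Subgroup G → Prop
  | refl : Sn B B
  | step {M N : Subgroup G} : Sn B M → N ≤ M → Nm M N → Sn B N

theorem Sn.le {B L : Subgroup G} (h : Sn B L) : L ≤ B := by
  induction h with
  | refl => exact le_refl _
  | step _ h1 _ ih => exact h1.trans ih

theorem Sn.inf {B L C : Subgroup G} (h : Sn B L) (hC : C ≤ B) : Sn C (L ⊓ C) := by
  induction h with
  | refl =>
    rw [inf_eq_right.mpr hC]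
    exact Sn.refl
  | step _ h1 h2 ih =>
    refine Sn.step ih (inf_le_inf_right C h1) ?_
    intro m hm n hn
    exact ⟨h2 m hm.1 n hn.1, C.mul_mem (C.mul_mem hm.2 hn.2) (C.inv_mem hm.2)⟩

theorem Sn.restrict {B L C : Subgroup G} (h : Sn B L) (hC : C ≤ B) (hL : L ≤ C) : Sn C L := by
  have := h.inf hC
  rwa [inf_eq_left.mpr hL] at this

theorem Sn.trans {B C L : Subgroup G} (h : Sn B C) (h' : Sn C L) : Sn B L := by
  induction h' with
  | refl => exact h
  | step _ h1 h2 ih => exact Sn.step ih h1 h2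

theorem Sn.lift {B K L : Subgroup G} (h : Sn K L) (hK : K ≤ B) (hB : Nm B K) : Sn B L :=
  Sn.trans (Sn.step Sn.refl hK hB) h

/-- a perfect subnormal subgroup commutes with every normal subgroup which it meets trivially -/
theorem Sn.comm {B L K : Subgroup G} (h : Sn B L) (hper : ⁅L, L⁆ = L) (hK : K ≤ B)
    (hB : Nm B K) (hLK : L ⊓ K = ⊥) : ⁅L, K⁆ = ⊥ := by
  have key : ∀ N, Sn B N → L ≤ N → ⁅L, K ⊓ N⁆ = ⊥ → ⁅L, K ⊓ B⁆ = ⊥ := by
    intro N hN
    induction hN with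
    | refl => exact fun _ h => h
    | @step M N hM h1 h2 ih =>
      intro hLN hbot
      refine ih (hLN.trans h1) ?_
      have h3 : ⁅L, K ⊓ M⁆ ≤ K ⊓ N := by
        rw [Subgroup.commutator_le]
        intro x hx y hy
        rw [commutatorElement_def]
        refine ⟨?_, ?_⟩
        · have h4 := hB x (hM.le (h1 (hLN hx))) y hy.1
          exact K.mul_mem h4 (K.inv_mem hy.1)
        · have h4 := h2 y hy.2 x⁻¹ (N.inv_mem (hLN hx))
          have h5 : x * y * x⁻¹ * y⁻¹ = x * (y * x⁻¹ * y⁻¹) := by group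
          rw [h5]
          exact N.mul_mem (hLN hx) h4
      have h4 : ⁅⁅L, K ⊓ M⁆, L⁆ = ⊥ := by
        rw [eq_bot_iff]
        refine (Subgroup.commutator_mono h3 (le_refl L)).trans ?_
        rw [Subgroup.commutator_comm, hbot]
      have h5 : ⁅⁅K ⊓ M, L⁆, L⁆ = ⊥ := by
        rw [Subgroup.commutator_comm (K ⊓ M) L]
        exact h4
      have h6 := Subgroup.commutator_commutator_eq_bot_of_rotate (H₁ := L) (H₂ := L)
        (H₃ := K ⊓ M) (by
          rw [Subgroup.commutator_comm L (K ⊓ M)]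
          exact h5) (by exact h5)
      rw [hper] at h6
      exact h6
  have h1 := key L h (le_refl L) (by
    rw [inf_comm, hLK]
    exact Subgroup.commutator_bot_right L)
  rw [inf_eq_left.mpr hK] at h1
  exact h1

theorem Sn.O_le_O {p : ℕ} [Fact p.Prime] {B N : Subgroup G} [Finite B] (h : Sn B N) :
    O p N ≤ O p B := by
  induction h with
  | refl => exact le_refl _
  | @step M N hM h1 h2 ih =>
    have : Finite N := Finite.of_injective _ (Subgroup.inclusion_injective (h1.trans hM.le))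
    exact (le_O ((O_le p N).trans h1) (nm_O h2) (O_isP N)).trans ih

theorem Sn.isP_le {p : ℕ} [Fact p.Prime] {B L : Subgroup G} [Finite B] (h : Sn B L)
    (hp : IsPGroup p L) : L ≤ O p B :=
  (le_O (le_refl L) (nm_self L) hp).trans h.O_le_O

theorem finite_Iic (B : Subgroup G) [Finite B] : (Set.Iic B).Finite := by
  have : Finite (Set.Iic B) := Finite.of_injective
    (fun N : Set.Iic B => (N.1.subgroupOf B)) (by
      intro N M h
      have h2 : N.1.subgroupOf B = M.1.subgroupOf B := h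
      rw [Subgroup.subgroupOf_inj, inf_eq_left.mpr N.2, inf_eq_left.mpr M.2] at h2
      exact Subtype.ext h2)
  exact Set.toFinite _

/-- a minimal subnormal subgroup -/
theorem exists_min {B W : Subgroup G} [Finite B] (hW : W ≤ B) (hB : Nm B W) (hne : W ≠ ⊥) :
    ∃ L, L ≤ W ∧ L ≠ ⊥ ∧ Sn B L ∧ ∀ N, N ≤ L → Nm L N → N = ⊥ ∨ N = L := by
  have hfin : {L : Subgroup G | L ≤ W ∧ L ≠ ⊥ ∧ Sn B L}.Finite :=
    (finite_Iic B).subset (fun L h => h.1.trans hW)
  obtain ⟨L, hL⟩ := hfin.exists_minimal ⟨W, le_refl W, hne, Sn.step Sn.refl hW hB⟩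
  refine ⟨L, hL.1.1, hL.1.2.1, hL.1.2.2, ?_⟩
  intro N hN hnm
  by_cases h : N = ⊥
  · exact Or.inl h
  · right
    refine le_antisymm hN (hL.2 ⟨hN.trans hL.1.1, h, Sn.step hL.1.2.2 hN hnm⟩ hN)

theorem min_cases {L : Subgroup G} [Finite L] (hne : L ≠ ⊥)
    (h : ∀ N, N ≤ L → Nm L N → N = ⊥ ∨ N = L) :
    ⁅L, L⁆ = L ∨ ∃ p : ℕ, p.Prime ∧ IsPGroup p L := by
  have h1 : ⁅L, L⁆ ≤ L := by
    rw [Subgroup.commutator_le]
    intro x hx y hy
    rw [commutatorElement_def]
    exact L.mul_mem (L.mul_mem (L.mul_mem hx hy) (L.inv_mem hx)) (L.inv_mem hy)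
  have h2 : Nm L ⁅L, L⁆ := by
    intro b hb n hn
    have h3 : b * n * b⁻¹ = ⁅b, n⁆ * n := by
      rw [commutatorElement_def]
      group
    rw [h3]
    exact mul_mem (Subgroup.commutator_mem_commutator hb (h1 hn)) hn
  rcases h _ h1 h2 with h3 | h3
  · right
    have hcomm : ∀ x ∈ L, ∀ y ∈ L, x * y = y * x := by
      intro x hx y hy
      have h4 : ⁅x, y⁆ ∈ ⁅L, L⁆ := Subgroup.commutator_mem_commutator hx hy
      rw [h3, Subgroup.mem_bot, commutatorElement_eq_one_iff_mul_comm] at h4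
      exact h4
    have : Nontrivial L := (Subgroup.nontrivial_iff_ne_bot L).mpr hne
    have h4 : Nat.card L ≠ 1 := by
      have := Finite.one_lt_card (α := L)
      omega
    obtain ⟨p, hp, hpd⟩ := Nat.exists_prime_and_dvd h4
    have : Fact p.Prime := ⟨hp⟩
    obtain ⟨g, hg⟩ := exists_prime_orderOf_dvd_card' p hpd
    refine ⟨p, hp, ?_⟩
    have h5 : Subgroup.zpowers g.1 ≤ L := by
      rw [Subgroup.zpowers_le]
      exact g.2
    have h6 : Nm L (Subgroup.zpowers g.1) := by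
      intro b hb n hn
      rw [hcomm b hb n (h5 hn)]
      have : n * b * b⁻¹ = n := by group
      rw [this]
      exact hn
    have ho : orderOf g.1 = p := by rw [← hg]; exact Subgroup.orderOf_coe g
    rcases h _ h5 h6 with h7 | h7
    · exfalso
      rw [Subgroup.zpowers_eq_bot] at h7
      rw [h7, orderOf_one] at ho
      exact hp.one_lt.ne ho
    · rw [← h7]
      refine IsPGroup.of_card (n := 1) ?_
      rw [Nat.card_zpowers, ho, pow_one]
  · exact Or.inl h3

/-! ## `p`-groups -/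

/-- a normal subgroup of a `p`-group meets the centre -/
theorem exists_central {p : ℕ} [Fact p.Prime] {Q N : Subgroup G} [Finite Q] (hQ : IsPGroup p Q)
    (hN : N ≤ Q) (hne : N ≠ ⊥) (hnm : Nm Q N) :
    ∃ z ∈ N, z ≠ 1 ∧ z ^ p = 1 ∧ ∀ q ∈ Q, q * z = z * q := by
  have : Finite N := Finite.of_injective _ (Subgroup.inclusion_injective hN)
  let act : MulAction Q N :=
    { smul := fun q n => ⟨q.1 * n.1 * q.1⁻¹, hnm q.1 q.2 n.1 n.2⟩
      one_smul := by
        intro n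
        apply Subtype.ext
        show (1 : G) * n.1 * (1 : G)⁻¹ = n.1
        group
      mul_smul := by
        intro q r n
        apply Subtype.ext
        show (q.1 * r.1) * n.1 * (q.1 * r.1)⁻¹ = q.1 * (r.1 * n.1 * r.1⁻¹) * q.1⁻¹
        group }
  have hsm : ∀ (q : Q) (n : N), ((q • n : N) : G) = q.1 * n.1 * q.1⁻¹ := fun _ _ => rfl
  have hNP : IsPGroup p N := hQ.to_le hN
  have : Nontrivial N := (Subgroup.nontrivial_iff_ne_bot N).mpr hne
  have hd : p ∣ Nat.card N := by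
    obtain ⟨k, hk⟩ := IsPGroup.iff_card.mp hNP
    have h1 : 1 < Nat.card N := Finite.one_lt_card
    rw [hk] at h1 ⊢
    have : k ≠ 0 := by
      rintro rfl
      simp at h1
    exact dvd_pow_self p this
  have h1 : (1 : N) ∈ MulAction.fixedPoints Q N := by
    intro q
    apply Subtype.ext
    rw [hsm]
    simp
  obtain ⟨z0, hz0, hz1⟩ := hQ.exists_fixed_point_of_prime_dvd_card_of_fixed_point N hd h1
  have hz2 : ∀ q ∈ Q, q * z0.1 = z0.1 * q := by
    intro q hq
    have h2 := congrArg Subtype.val (hz0 ⟨q, hq⟩)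
    rw [hsm] at h2
    calc q * z0.1 = q * z0.1 * q⁻¹ * q := by group
      _ = z0.1 * q := by rw [h2]
  have hz3 : z0.1 ≠ 1 := fun h => hz1 (Subtype.ext h.symm)
  obtain ⟨k, hk⟩ := hNP z0
  have hk' : ∃ k, z0.1 ^ p ^ k = 1 := ⟨k, by simpa using congrArg Subtype.val hk⟩
  classical
  obtain ⟨m, hm⟩ : ∃ m, m = Nat.find hk' := ⟨_, rfl⟩
  have hm1 : z0.1 ^ p ^ m = 1 := by rw [hm]; exact Nat.find_spec hk'
  have hm0 : m ≠ 0 := by
    rintro h0
    rw [h0] at hm1
    simp at hm1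
    exact hz3 (by simpa using hm1)
  refine ⟨z0.1 ^ p ^ (m - 1), N.pow_mem z0.2 _, ?_, ?_, ?_⟩
  · have := Nat.find_min hk' (m := m - 1) (by rw [← hm]; omega)
    exact this
  · rw [← pow_mul, ← pow_succ, Nat.sub_add_cancel (by omega)]
    exact hm1
  · intro q hq
    have h2 : Commute q z0.1 := hz2 q hq
    exact (h2.pow_right _).eq

/-- a subgroup outside a normal subgroup of index at most `p` covers the quotient -/
theorem cover {p : ℕ} [Fact p.Prime] {Q Q0 A : Subgroup G} [Finite Q] (hQ : IsPGroup p Q)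
    (h0 : Q0 ≤ Q) (hnm : Nm Q Q0) (hi : Q0.relIndex Q ≤ p) (hA : A ≤ Q) (hA0 : ¬ A ≤ Q0)
    {q : G} (hq : q ∈ Q) : ∃ a ∈ A, ∃ b ∈ Q0, q = a * b := by
  have hle : A ⊔ Q0 ≤ Q := sup_le hA h0
  have : Finite (A ⊔ Q0 : Subgroup G) := Finite.of_injective _ (Subgroup.inclusion_injective hle)
  have h1 := Subgroup.relIndex_mul_relIndex Q0 (A ⊔ Q0) Q le_sup_right hle
  have h2 : Q0.relIndex (A ⊔ Q0) ≠ 1 := by
    intro h
    rw [Subgroup.relIndex_eq_one] at h
    exact hA0 (le_sup_left.trans h)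
  have h3 : Q0.relIndex (A ⊔ Q0) ∣ Nat.card (A ⊔ Q0 : Subgroup G) := Subgroup.relIndex_dvd_card _ _
  obtain ⟨k, hk⟩ := IsPGroup.iff_card.mp (hQ.to_le hle)
  rw [hk] at h3
  obtain ⟨j, _, hj⟩ := (Nat.dvd_prime_pow (Fact.out : p.Prime)).mp h3
  have hj0 : j ≠ 0 := by
    rintro rfl
    rw [pow_zero] at hj
    exact h2 hj
  have h4 : p ≤ Q0.relIndex (A ⊔ Q0) := by
    rw [hj]
    exact Nat.le_self_pow hj0 p
  have hp0 : 0 < p := (Fact.out : p.Prime).pos
  have h5 : (A ⊔ Q0).relIndex Q = 1 := by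
    have h6 : (A ⊔ Q0).relIndex Q ≠ 0 := by
      intro h
      have h7 : (A ⊔ Q0).relIndex Q ∣ Nat.card Q := Subgroup.relIndex_dvd_card _ _
      rw [h] at h7
      have := Nat.card_pos (α := Q)
      rw [zero_dvd_iff] at h7
      omega
    have h8 : p * (A ⊔ Q0).relIndex Q ≤ p * 1 := by
      rw [mul_one]
      calc p * (A ⊔ Q0).relIndex Q ≤ Q0.relIndex (A ⊔ Q0) * (A ⊔ Q0).relIndex Q :=
            Nat.mul_le_mul_right _ h4
        _ ≤ p := by rw [h1]; exact hi
    have := Nat.le_of_mul_le_mul_left h8 hp0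
    omega
  rw [Subgroup.relIndex_eq_one] at h5
  exact mem_sup_nm (hnm.mono hA) (h5 hq)

end grp

end Pool.Agent.Work.MP_6d7bb4.helper94
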