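import Pool.Agent.Work.MP_6d7bb4_helper94.Grp

/-! # MP_6d7bb4: `p`-soluble groups (helper94) -/

set_option autoImplicit false
set_option linter.unusedSectionVars false

namespace Pool.Agent.Work.MP_6d7bb4.helper94

open scoped Pointwise

section hh
variable {G : Type*} [Group G]

/-- `X` is `p`-soluble: every nontrivial subgroup has a proper normal subgroup whose index is a
power of `p` or prime to `p` -/
def PSol (p : ℕ) (X : Subgroup G) : Prop :=
  ∀ L : Subgroup G, L ≤ X → L ≠ ⊥ → ∃ N, N ≤ L ∧ N ≠ L ∧ (∀ l ∈ L, ∀ n ∈ N, l * n * l⁻¹ ∈ N) ∧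
    ((∃ k, N.relIndex L = p ^ k) ∨ ¬ p ∣ N.relIndex L)

/-- action by conjugation -/
def cjH {A M : Subgroup G} (hn : Nm A M) : A →* MulAut M where
  toFun a :=
    { toFun := fun s => ⟨a.1 * s.1 * a.1⁻¹, hn a.1 a.2 s.1 s.2⟩
      invFun := fun s => ⟨a.1⁻¹ * s.1 * a.1, by
        have := hn a.1⁻¹ (A.inv_mem a.2) s.1 s.2
        rwa [inv_inv] at this⟩
      left_inv := by
        intro s
        apply Subtype.ext
        show a.1⁻¹ * (a.1 * s.1 * a.1⁻¹) * a.1 = s.1
        group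
      right_inv := by
        intro s
        apply Subtype.ext
        show a.1 * (a.1⁻¹ * s.1 * a.1) * a.1⁻¹ = s.1
        group
      map_mul' := by
        intro s t
        apply Subtype.ext
        show a.1 * (s.1 * t.1) * a.1⁻¹ = (a.1 * s.1 * a.1⁻¹) * (a.1 * t.1 * a.1⁻¹)
        group }
  map_one' := by
    ext s
    show (1 : G) * s.1 * (1 : G)⁻¹ = s.1
    group
  map_mul' := by
    intro a b
    ext s
    show (a.1 * b.1) * s.1 * (a.1 * b.1)⁻¹ = a.1 * (b.1 * s.1 * b.1⁻¹) * a.1⁻¹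
    group

theorem cjH_apply {A M : Subgroup G} (hn : Nm A M) (a : A) (s : M) :
    (cjH hn a s).1 = a.1 * s.1 * a.1⁻¹ := rfl

/-- coprime action: if the invariant `r`-subgroups are centralised then so is `M` -/
theorem coprime_cent {p : ℕ} (hp : p.Prime) {A : Subgroup G} (hAp : IsPGroup p A)
    {M : Subgroup G} (hfin : Finite M) (hpM : ¬ p ∣ Nat.card M) (hn : Nm A M)
    (hLR : ∀ r : ℕ, r.Prime → r ≠ p → ∀ S : Subgroup G, S ≤ M → IsPGroup r S →
      Nm A S → ∀ a ∈ A, ∀ s ∈ S, a * s = s * a) : ∀ a ∈ A, ∀ s ∈ M, a * s = s * a := by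
  obtain ⟨C, hC⟩ : ∃ C : Subgroup M, ∀ s, s ∈ C ↔ ∀ a ∈ A, a * s.1 = s.1 * a :=
    ⟨(Subgroup.centralizer (A : Set G)).subgroupOf M, fun s => by
      rw [Subgroup.mem_subgroupOf, Subgroup.mem_centralizer_iff]
      rfl⟩
  obtain ⟨ψ, hψ⟩ : ∃ ψ : A →* MulAut M, ∀ (a : A) (s : M), (ψ a s).1 = a.1 * s.1 * a.1⁻¹ :=
    ⟨cjH hn, fun a s => rfl⟩
  have hP : IsPGroup p ψ.range := hAp.of_surjective ψ.rangeRestrict ψ.rangeRestrict_surjective
  have : Fact p.Prime := ⟨hp⟩
  have key : ∀ r k : ℕ, r.Prime → r ^ k ∣ Nat.card M → r ^ k ∣ Nat.card C := by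
    intro r k hr hk
    by_cases hk0 : k = 0
    · rw [hk0, pow_zero]
      exact one_dvd _
    have hrM : r ∣ Nat.card M := (dvd_pow_self r hk0).trans hk
    have hrp : r ≠ p := by
      rintro rfl
      exact hpM hrM
    have : Fact r.Prime := ⟨hr⟩
    have h1 : ¬ p ∣ Nat.card (Sylow r M) := by
      intro h2
      obtain ⟨P⟩ : Nonempty (Sylow r M) := inferInstance
      have h3 := (Sylow.card_dvd_index P)
      exact hpM ((h2.trans h3).trans (Subgroup.index_dvd_card _))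
    obtain ⟨P, hPf⟩ := hP.nonempty_fixed_point_of_prime_not_dvd_card (Sylow r M) h1
    have h2 : ∀ a : A, ∀ s ∈ (P : Subgroup M), ψ a s ∈ (P : Subgroup M) := by
      intro a s hs
      have h3 := hPf ⟨ψ a, ⟨a, rfl⟩⟩
      have h4 : ψ a s ∈ ((ψ a • P : Sylow r M) : Subgroup M) := by
        rw [Sylow.pointwise_smul_def]
        exact Subgroup.smul_mem_pointwise_smul s (ψ a) (P : Subgroup M) hs
      have h5 : ψ a • P = P := h3
      rw [h5] at h4
      exact h4
    have h3 : (P : Subgroup M) ≤ C := by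
      intro s hs
      rw [hC]
      intro a ha
      refine hLR r hr hrp ((P : Subgroup M).map M.subtype) ?_ ?_ ?_ a ha s.1 ⟨s, hs, rfl⟩
      · rintro _ ⟨t, _, rfl⟩
        exact t.2
      · exact P.isPGroup'.map M.subtype
      · rintro a ha _ ⟨t, ht, rfl⟩
        exact ⟨ψ ⟨a, ha⟩ t, h2 ⟨a, ha⟩ t ht, hψ ⟨a, ha⟩ t⟩
    exact (P.pow_dvd_card_of_pow_dvd_card hk).trans (Subgroup.card_dvd_of_le h3)
  have h1 : Nat.card M ∣ Nat.card C :=
    (Nat.dvd_iff_prime_pow_dvd_dvd _ _).mpr (fun r k hr hk => key r k hr hk)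
  have h2 : C = ⊤ := by
    refine Subgroup.eq_top_of_card_eq C (Nat.dvd_antisymm (Subgroup.card_subgroup_dvd_card C) h1)
  intro a ha s hs
  have h3 : (⟨s, hs⟩ : M) ∈ C := by
    rw [h2]
    exact Subgroup.mem_top _
  exact (hC _).mp h3 a ha

/-- Hall-Higman type lemma -/
theorem hhA {p : ℕ} (hp : p.Prime) {X : Subgroup G} (hfin : Finite X) (hps : PSol p X)
    (hN : ∀ N : Subgroup G, N ≤ X → Nm X N → IsPGroup p N → N = ⊥)
    {A : Subgroup G} (hA : A ≤ X) (hAp : IsPGroup p A)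
    (hLR : ∀ r : ℕ, r.Prime → r ≠ p → ∀ S : Subgroup G, S ≤ X → IsPGroup r S →
      Nm A S → ∀ a ∈ A, ∀ s ∈ S, a * s = s * a) : A = ⊥ := by
  by_contra hA1
  have : Fact p.Prime := ⟨hp⟩
  have hfle : ∀ {K : Subgroup G}, K ≤ X → Finite K := fun hK =>
    Finite.of_injective _ (Subgroup.inclusion_injective hK)
  obtain ⟨C, hC⟩ : ∃ C : Subgroup G, ∀ g, g ∈ C ↔ g ∈ X ∧ ∀ M : Subgroup G, M ≤ X → Nm X M →
      ¬ p ∣ Nat.card M → ∀ m ∈ M, g * m = m * g := by
    refine ⟨{ carrier := {g | g ∈ X ∧ ∀ M : Subgroup G, M ≤ X → Nm X M →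
                ¬ p ∣ Nat.card M → ∀ m ∈ M, g * m = m * g}
              one_mem' := ⟨X.one_mem, fun M _ _ _ m _ => by rw [one_mul, mul_one]⟩
              mul_mem' := ?_
              inv_mem' := ?_ }, fun g => Iff.rfl⟩
    · rintro x y ⟨hx, hx'⟩ ⟨hy, hy'⟩
      refine ⟨X.mul_mem hx hy, fun M h1 h2 h3 m hm => ?_⟩
      rw [mul_assoc, hy' M h1 h2 h3 m hm, ← mul_assoc, hx' M h1 h2 h3 m hm, mul_assoc]
    · rintro x ⟨hx, hx'⟩
      refine ⟨X.inv_mem hx, fun M h1 h2 h3 m hm => ?_⟩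
      rw [inv_mul_eq_iff_eq_mul, ← mul_assoc, hx' M h1 h2 h3 m hm, mul_inv_cancel_right]
  have hCX : C ≤ X := fun g hg => ((hC g).mp hg).1
  have hCn : Nm X C := by
    intro x hx g hg
    rw [hC] at hg ⊢
    refine ⟨X.mul_mem (X.mul_mem hx hg.1) (X.inv_mem hx), fun M h1 h2 h3 m hm => ?_⟩
    have h4 := h2 x⁻¹ (X.inv_mem hx) m hm
    rw [inv_inv] at h4
    have h5 := hg.2 M h1 h2 h3 _ h4
    calc x * g * x⁻¹ * m = x * (g * (x⁻¹ * m * x)) * x⁻¹ := by group
      _ = x * (x⁻¹ * m * x * g) * x⁻¹ := by rw [h5]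
      _ = m * (x * g * x⁻¹) := by group
  have hAC : A ≤ C := by
    intro a ha
    rw [hC]
    refine ⟨hA ha, fun M h1 h2 h3 => ?_⟩
    exact coprime_cent hp hAp (hfle h1) h3 (h2.mono hA)
      (fun r hr hrp S hS => hLR r hr hrp S (hS.trans h1)) a ha
  have hpC : p ∣ Nat.card C := by
    have hAf := hfle hA
    have h1 : p ∣ Nat.card A := by
      obtain ⟨k, hk⟩ := IsPGroup.iff_card.mp hAp
      rw [hk]
      refine dvd_pow_self p ?_
      rintro rfl
      rw [pow_zero, Subgroup.card_eq_one] at hk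
      exact hA1 hk
    exact h1.trans (Subgroup.card_dvd_of_le hAC)
  -- minimal normal subgroup of order divisible by `p`
  have hfin' : {K : Subgroup G | K ≤ C ∧ Nm X K ∧ p ∣ Nat.card K}.Finite :=
    (finite_Iic X).subset (fun K h => h.1.trans hCX)
  obtain ⟨K, hK⟩ := hfin'.exists_minimal ⟨C, le_refl C, hCn, hpC⟩
  obtain ⟨⟨hKC, hKn, hpK⟩, hKm⟩ := hK
  have hKX := hKC.trans hCX
  have hKf := hfle hKX
  have hKne : K ≠ ⊥ := by
    rintro rfl
    rw [Subgroup.card_bot] at hpK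
    exact hp.one_lt.ne' (Nat.dvd_one.mp hpK)
  obtain ⟨N, hNK, hNne, hNn, hidx⟩ := hps K hKX hKne
  obtain ⟨K1, hK1⟩ : ∃ K1 : Subgroup G, ∀ g, g ∈ K1 ↔ g ∈ K ∧ ∀ x ∈ X, x * g * x⁻¹ ∈ N := by
    refine ⟨{ carrier := {g | g ∈ K ∧ ∀ x ∈ X, x * g * x⁻¹ ∈ N}
              one_mem' := ⟨K.one_mem, fun x _ => by
                rw [mul_one, mul_inv_cancel]
                exact N.one_mem⟩
              mul_mem' := ?_
              inv_mem' := ?_ }, fun g => Iff.rfl⟩
    · rintro g h ⟨hg, hg'⟩ ⟨hh, hh'⟩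
      refine ⟨K.mul_mem hg hh, fun x hx => ?_⟩
      have h1 : x * (g * h) * x⁻¹ = (x * g * x⁻¹) * (x * h * x⁻¹) := by group
      rw [h1]
      exact N.mul_mem (hg' x hx) (hh' x hx)
    · rintro g ⟨hg, hg'⟩
      refine ⟨K.inv_mem hg, fun x hx => ?_⟩
      have h1 : x * g⁻¹ * x⁻¹ = (x * g * x⁻¹)⁻¹ := by group
      rw [h1]
      exact N.inv_mem (hg' x hx)
  have hK1K : K1 ≤ K := fun g hg => ((hK1 g).mp hg).1
  have hK1N : K1 ≤ N := fun g hg => by
    have := ((hK1 g).mp hg).2 1 X.one_mem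
    rwa [one_mul, inv_one, mul_one] at this
  have hK1n : Nm X K1 := by
    intro x hx g hg
    rw [hK1] at hg ⊢
    refine ⟨hKn x hx g hg.1, fun y hy => ?_⟩
    have h1 : y * (x * g * x⁻¹) * y⁻¹ = (y * x) * g * (y * x)⁻¹ := by group
    rw [h1]
    exact hg.2 _ (X.mul_mem hy hx)
  have hK1ne : K1 ≠ K := by
    rintro h
    apply hNne
    refine le_antisymm hNK ?_
    rw [← h]
    exact hK1N
  have hpK1 : ¬ p ∣ Nat.card K1 := by
    intro h
    exact hK1ne (le_antisymm hK1K (hKm ⟨hK1K.trans hKC, hK1n, h⟩ hK1K))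
  have hN'n : (N.subgroupOf K).Normal := by
    refine ⟨fun n hn k => ?_⟩
    rw [Subgroup.mem_subgroupOf] at hn ⊢
    exact hNn k.1 k.2 n.1 hn
  have hpow : ∀ g ∈ K, g ^ (N.relIndex K) ∈ N := by
    intro g hg
    have h1 := Subgroup.pow_index_mem (H := N.subgroupOf K) ⟨g, hg⟩
    rw [Subgroup.mem_subgroupOf] at h1
    exact h1
  rcases hidx with ⟨k, hk⟩ | hidx
  · -- index a power of `p`
    have hK1c : ∀ g ∈ K, ∀ m ∈ K1, g * m = m * g := fun g hg m hm =>
      ((hC g).mp (hKC hg)).2 K1 (hK1K.trans hKX) hK1n hpK1 m hm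
    have hpow1 : ∀ g ∈ K, g ^ p ^ k ∈ K1 := by
      intro g hg
      rw [hK1]
      refine ⟨K.pow_mem hg _, fun x hx => ?_⟩
      have h1 := hpow _ (hKn x hx g hg)
      rw [hk, conj_pow] at h1
      exact h1
    obtain ⟨K1', hK1'⟩ : ∃ K' : Subgroup K, K' = K1.subgroupOf K := ⟨_, rfl⟩
    have hn1 : K1'.Normal := by
      refine ⟨fun n hn g => ?_⟩
      rw [hK1', Subgroup.mem_subgroupOf] at hn ⊢
      exact hK1n g.1 (hKX g.2) n.1 hn
    have hq : IsPGroup p (K ⧸ K1') := by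
      intro x
      obtain ⟨g, rfl⟩ := QuotientGroup.mk_surjective x
      refine ⟨k, ?_⟩
      rw [← QuotientGroup.mk_pow, QuotientGroup.eq_one_iff, hK1', Subgroup.mem_subgroupOf]
      exact hpow1 g.1 g.2
    obtain ⟨Q⟩ : Nonempty (Sylow p K) := inferInstance
    have hsup : (Q : Subgroup K) ⊔ K1' = ⊤ := by
      rw [← Subgroup.index_eq_one]
      have h1 : ((Q : Subgroup K) ⊔ K1').index ∣ (Q : Subgroup K).index :=
        Subgroup.index_dvd_of_le le_sup_left
      have h2 : ((Q : Subgroup K) ⊔ K1').index ∣ K1'.index :=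
        Subgroup.index_dvd_of_le le_sup_right
      obtain ⟨j, hj⟩ := IsPGroup.iff_card.mp hq
      have h3 : K1'.index = p ^ j := hj
      rw [h3] at h2
      obtain ⟨i, _, hi⟩ := (Nat.dvd_prime_pow hp).mp h2
      rw [hi] at h1 ⊢
      have h4 : ¬ p ∣ (Q : Subgroup K).index := Q.not_dvd_index
      by_cases hi0 : i = 0
      · rw [hi0, pow_zero]
      · exact absurd ((dvd_pow_self p hi0).trans h1) h4
    have hQn : (Q : Subgroup K).Normal := by
      refine ⟨fun n hn g => ?_⟩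
      have hg : g ∈ (Q : Subgroup K) ⊔ K1' := by
        rw [hsup]
        exact Subgroup.mem_top _
      obtain ⟨q, hq', z, hz, rfl⟩ := mem_sup_nm (fun b _ n hn => hn1.conj_mem n hn b) hg
      have h1 : z * n = n * z := by
        apply Subtype.ext
        rw [hK1', Subgroup.mem_subgroupOf] at hz
        exact (hK1c n.1 n.2 z.1 hz).symm
      have h2 : q * z * n * (q * z)⁻¹ = q * n * q⁻¹ := by
        calc q * z * n * (q * z)⁻¹ = q * (z * n) * z⁻¹ * q⁻¹ := by group
          _ = q * (n * z) * z⁻¹ * q⁻¹ := by rw [h1]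
          _ = q * n * q⁻¹ := by group
      rw [h2]
      exact Subgroup.mul_mem _ (Subgroup.mul_mem _ hq' hn) (Subgroup.inv_mem _ hq')
    have hQc := Sylow.characteristic_of_normal Q hQn
    have hQb : (Q : Subgroup K) ≠ ⊥ := Q.ne_bot_of_dvd_card hpK
    obtain ⟨P, hP⟩ : ∃ P : Subgroup G, P = (Q : Subgroup K).map K.subtype := ⟨_, rfl⟩
    have hPb : P = ⊥ := by
      refine hN P ?_ ?_ ?_
      · rw [hP]
        rintro _ ⟨t, _, rfl⟩
        exact hKX t.2
      · intro x hx g hg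
        rw [hP] at hg ⊢
        obtain ⟨t, ht, rfl⟩ := hg
        let φ : K ≃* K :=
          { toFun := fun s => ⟨x * s.1 * x⁻¹, hKn x hx s.1 s.2⟩
            invFun := fun s => ⟨x⁻¹ * s.1 * x, by
              have := hKn x⁻¹ (X.inv_mem hx) s.1 s.2
              rwa [inv_inv] at this⟩
            left_inv := by
              intro s
              apply Subtype.ext
              show x⁻¹ * (x * s.1 * x⁻¹) * x = s.1
              group
            right_inv := by
              intro s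
              apply Subtype.ext
              show x * (x⁻¹ * s.1 * x) * x⁻¹ = s.1
              group
            map_mul' := by
              intro s t
              apply Subtype.ext
              show x * (s.1 * t.1) * x⁻¹ = (x * s.1 * x⁻¹) * (x * t.1 * x⁻¹)
              group }
        have h1 := (Subgroup.characteristic_iff_map_eq.mp hQc) φ
        refine ⟨φ t, ?_, rfl⟩
        rw [← h1]
        exact ⟨t, ht, rfl⟩
      · rw [hP]
        exact Q.isPGroup'.map K.subtype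
    apply hQb
    rw [hP, Subgroup.map_eq_bot_iff_of_injective _ (Subgroup.subtype_injective K)] at hPb
    exact hPb
  · -- index prime to `p`
    obtain ⟨g, hg⟩ := exists_prime_orderOf_dvd_card' p hpK
    have hg1 : g.1 ^ p = 1 := by
      have := pow_orderOf_eq_one g
      rw [hg] at this
      simpa using congrArg Subtype.val this
    have hgK1 : g.1 ∈ K1 := by
      rw [hK1]
      refine ⟨g.2, fun x hx => ?_⟩
      obtain ⟨y, hy⟩ : ∃ y, y = x * g.1 * x⁻¹ := ⟨_, rfl⟩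
      have hyK : y ∈ K := by
        rw [hy]
        exact hKn x hx g.1 g.2
      have hyp : y ^ p = 1 := by
        rw [hy, conj_pow, hg1, mul_one, mul_inv_cancel]
      rw [← hy]
      have h1 := hpow y hyK
      have hco : Nat.Coprime (N.relIndex K) (orderOf y) := by
        refine Nat.Coprime.coprime_dvd_right (orderOf_dvd_of_pow_eq_one hyp) ?_
        exact ((Nat.Prime.coprime_iff_not_dvd hp).mpr hidx).symm
      obtain ⟨s, hs⟩ := exists_pow_eq_self_of_coprime hco
      rw [← hs]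
      exact N.pow_mem h1 s
    apply hpK1
    have h1 : orderOf (⟨g.1, hgK1⟩ : K1) = p := by
      rw [← Subgroup.orderOf_coe]
      show orderOf g.1 = p
      rw [Subgroup.orderOf_coe, hg]
    rw [← h1]
    exact orderOf_dvd_natCard _

/-- one element -/
theorem hh {p : ℕ} (hp : p.Prime) {X : Subgroup G} (hfin : Finite X) (hps : PSol p X)
    (hN : ∀ N : Subgroup G, N ≤ X → Nm X N → IsPGroup p N → N = ⊥)
    {a : G} (ha : a ∈ X) (hap : a ^ p = 1)
    (hLR : ∀ r : ℕ, r.Prime → r ≠ p → ∀ S : Subgroup G, S ≤ X → IsPGroup r S →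
      (∀ s ∈ S, a * s * a⁻¹ ∈ S) → ∀ s ∈ S, a * s = s * a) : a = 1 := by
  have h1 : Subgroup.zpowers a = ⊥ := by
    refine hhA hp hfin hps hN ?_ ?_ ?_
    · rw [Subgroup.zpowers_le]
      exact ha
    · rintro ⟨g, k, rfl⟩
      refine ⟨1, Subtype.ext ?_⟩
      show (a ^ k) ^ p ^ 1 = 1
      rw [pow_one, ← zpow_natCast, ← zpow_mul, mul_comm, zpow_mul, zpow_natCast, hap, one_zpow]
    · intro r hr hrp S hS hSr hn b hb s hs
      have h2 : ∀ s ∈ S, a * s = s * a :=
        hLR r hr hrp S hS hSr (fun s hs => hn a (Subgroup.mem_zpowers a) s hs)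
      obtain ⟨k, rfl⟩ := hb
      have h3 : Commute a s := h2 s hs
      exact (h3.zpow_left k).eq
  exact Subgroup.zpowers_eq_bot.mp h1

end hh

end Pool.Agent.Work.MP_6d7bb4.helper94
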