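import Pool.Agent.Work.MP_6d7bb4_helper94.HH

/-! # MP_6d7bb4: `p`-soluble groups with operators (helper94) -/

set_option autoImplicit false
set_option linter.unusedSectionVars false

namespace Pool.Agent.Work.MP_6d7bb4.helper94

open scoped Pointwise

section hhc
variable {G : Type*} [Group G]

/-- Hall-Higman type lemma with operators -/
theorem hhC {p : ℕ} (hp : p.Prime) {X Z : Subgroup G} (hfin : Finite X) (hXZ : X ≤ Z)
    (hXn : Nm Z X) (hps : PSol p X)
    (hN : ∀ N : Subgroup G, N ≤ X → Nm Z N → IsPGroup p N → N = ⊥)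
    {A : Subgroup G} (hA : A ≤ X) (hAp : IsPGroup p A) (hA1 : A ≠ ⊥) :
    ∃ M : Subgroup G, M ≤ X ∧ Nm Z M ∧ ¬ p ∣ Nat.card M ∧
      ¬ ∀ a ∈ A, ∀ m ∈ M, a * m = m * a := by
  by_contra hcon
  push Not at hcon
  have : Fact p.Prime := ⟨hp⟩
  have hfle : ∀ {K : Subgroup G}, K ≤ X → Finite K := fun hK =>
    Finite.of_injective _ (Subgroup.inclusion_injective hK)
  obtain ⟨C, hC⟩ : ∃ C : Subgroup G, ∀ g, g ∈ C ↔ g ∈ X ∧ ∀ M : Subgroup G, M ≤ X → Nm Z M →
      ¬ p ∣ Nat.card M → ∀ m ∈ M, g * m = m * g := by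
    refine ⟨{ carrier := {g | g ∈ X ∧ ∀ M : Subgroup G, M ≤ X → Nm Z M →
                ¬ p ∣ Nat.card M → ∀ m ∈ M, g * m = m * g}
              one_mem' := ⟨X.one_mem, fun M _ _ _ m _ => by rw [one_mul, mul_one]⟩
              mul_mem' := ?_
              inv_mem' := ?_ }, fun g => Iff.rfl⟩
    · rintro x y ⟨hx, hx'⟩ ⟨hy, hy'⟩
      refine ⟨X.mul_mem hx hy, fun M h1 h2 h3 m hm => ?_⟩
      rw [mul_assoc, hy' M h1 h2 h3 m hm, ← mul_assoc, hx' M h1 h2 h3 m hm, mul_assoc]
    · rintro x ⟨hx, hx'⟩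
      refine ⟨X.inv_mem hx, fun M h1 h2 h3 m hm => ?_⟩
      rw [inv_mul_eq_iff_eq_mul, ← mul_assoc, hx' M h1 h2 h3 m hm, mul_inv_cancel_right]
  have hCX : C ≤ X := fun g hg => ((hC g).mp hg).1
  have hCn : Nm Z C := by
    intro x hx g hg
    rw [hC] at hg ⊢
    refine ⟨hXn x hx g hg.1, fun M h1 h2 h3 m hm => ?_⟩
    have h4 := h2 x⁻¹ (Z.inv_mem hx) m hm
    rw [inv_inv] at h4
    have h5 := hg.2 M h1 h2 h3 _ h4
    calc x * g * x⁻¹ * m = x * (g * (x⁻¹ * m * x)) * x⁻¹ := by group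
      _ = x * (x⁻¹ * m * x * g) * x⁻¹ := by rw [h5]
      _ = m * (x * g * x⁻¹) := by group
  have hAC : A ≤ C := by
    intro a ha
    rw [hC]
    exact ⟨hA ha, fun M h1 h2 h3 => hcon M h1 h2 h3 a ha⟩
  have hpC : p ∣ Nat.card C := by
    have hAf := hfle hA
    have h1 : p ∣ Nat.card A := by
      obtain ⟨k, hk⟩ := IsPGroup.iff_card.mp hAp
      rw [hk]
      refine dvd_pow_self p ?_
      rintro rfl
      rw [pow_zero, Subgroup.card_eq_one] at hk
      exact hA1 hk
    exact h1.trans (Subgroup.card_dvd_of_le hAC)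
  -- minimal normal subgroup of order divisible by `p`
  have hfin' : {K : Subgroup G | K ≤ C ∧ Nm Z K ∧ p ∣ Nat.card K}.Finite :=
    (finite_Iic X).subset (fun K h => h.1.trans hCX)
  obtain ⟨K, hK⟩ := hfin'.exists_minimal ⟨C, le_refl C, hCn, hpC⟩
  obtain ⟨⟨hKC, hKn, hpK⟩, hKm⟩ := hK
  have hKX := hKC.trans hCX
  have hKf := hfle hKX
  have hKne : K ≠ ⊥ := by
    rintro rfl
    rw [Subgroup.card_bot] at hpK
    exact hp.one_lt.ne' (Nat.dvd_one.mp hpK)
  obtain ⟨N, hNK, hNne, hNn, hidx⟩ := hps K hKX hKne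
  obtain ⟨K1, hK1⟩ : ∃ K1 : Subgroup G, ∀ g, g ∈ K1 ↔ g ∈ K ∧ ∀ x ∈ Z, x * g * x⁻¹ ∈ N := by
    refine ⟨{ carrier := {g | g ∈ K ∧ ∀ x ∈ Z, x * g * x⁻¹ ∈ N}
              one_mem' := ⟨K.one_mem, fun x _ => by
                rw [mul_one, mul_inv_cancel]
                exact N.one_mem⟩
              mul_mem' := ?_
              inv_mem' := ?_ }, fun g => Iff.rfl⟩
    · rintro g h ⟨hg, hg'⟩ ⟨hh, hh'⟩
      refine ⟨K.mul_mem hg hh, fun x hx => ?_⟩
      have h1 : x * (g * h) * x⁻¹ = (x * g * x⁻¹) * (x * h * x⁻¹) := by group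
      rw [h1]
      exact N.mul_mem (hg' x hx) (hh' x hx)
    · rintro g ⟨hg, hg'⟩
      refine ⟨K.inv_mem hg, fun x hx => ?_⟩
      have h1 : x * g⁻¹ * x⁻¹ = (x * g * x⁻¹)⁻¹ := by group
      rw [h1]
      exact N.inv_mem (hg' x hx)
  have hK1K : K1 ≤ K := fun g hg => ((hK1 g).mp hg).1
  have hK1N : K1 ≤ N := fun g hg => by
    have := ((hK1 g).mp hg).2 1 Z.one_mem
    rwa [one_mul, inv_one, mul_one] at this
  have hK1n : Nm Z K1 := by
    intro x hx g hg
    rw [hK1] at hg ⊢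
    refine ⟨hKn x hx g hg.1, fun y hy => ?_⟩
    have h1 : y * (x * g * x⁻¹) * y⁻¹ = (y * x) * g * (y * x)⁻¹ := by group
    rw [h1]
    exact hg.2 _ (Z.mul_mem hy hx)
  have hK1ne : K1 ≠ K := by
    rintro h
    apply hNne
    refine le_antisymm hNK ?_
    rw [← h]
    exact hK1N
  have hpK1 : ¬ p ∣ Nat.card K1 := by
    intro h
    exact hK1ne (le_antisymm hK1K (hKm ⟨hK1K.trans hKC, hK1n, h⟩ hK1K))
  have hN'n : (N.subgroupOf K).Normal := by
    refine ⟨fun n hn k => ?_⟩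
    rw [Subgroup.mem_subgroupOf] at hn ⊢
    exact hNn k.1 k.2 n.1 hn
  have hpow : ∀ g ∈ K, g ^ (N.relIndex K) ∈ N := by
    intro g hg
    have h1 := Subgroup.pow_index_mem (H := N.subgroupOf K) ⟨g, hg⟩
    rw [Subgroup.mem_subgroupOf] at h1
    exact h1
  rcases hidx with ⟨k, hk⟩ | hidx
  · -- index a power of `p`
    have hK1c : ∀ g ∈ K, ∀ m ∈ K1, g * m = m * g := fun g hg m hm =>
      ((hC g).mp (hKC hg)).2 K1 (hK1K.trans hKX) hK1n hpK1 m hm
    have hpow1 : ∀ g ∈ K, g ^ p ^ k ∈ K1 := by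
      intro g hg
      rw [hK1]
      refine ⟨K.pow_mem hg _, fun x hx => ?_⟩
      have h1 := hpow _ (hKn x hx g hg)
      rw [hk, conj_pow] at h1
      exact h1
    obtain ⟨K1', hK1'⟩ : ∃ K' : Subgroup K, K' = K1.subgroupOf K := ⟨_, rfl⟩
    have hn1 : K1'.Normal := by
      refine ⟨fun n hn g => ?_⟩
      rw [hK1', Subgroup.mem_subgroupOf] at hn ⊢
      exact hK1n g.1 (hXZ (hKX g.2)) n.1 hn
    have hq : IsPGroup p (K ⧸ K1') := by
      intro x
      obtain ⟨g, rfl⟩ := QuotientGroup.mk_surjective x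
      refine ⟨k, ?_⟩
      rw [← QuotientGroup.mk_pow, QuotientGroup.eq_one_iff, hK1', Subgroup.mem_subgroupOf]
      exact hpow1 g.1 g.2
    obtain ⟨Q⟩ : Nonempty (Sylow p K) := inferInstance
    have hsup : (Q : Subgroup K) ⊔ K1' = ⊤ := by
      rw [← Subgroup.index_eq_one]
      have h1 : ((Q : Subgroup K) ⊔ K1').index ∣ (Q : Subgroup K).index :=
        Subgroup.index_dvd_of_le le_sup_left
      have h2 : ((Q : Subgroup K) ⊔ K1').index ∣ K1'.index :=
        Subgroup.index_dvd_of_le le_sup_right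
      obtain ⟨j, hj⟩ := IsPGroup.iff_card.mp hq
      have h3 : K1'.index = p ^ j := hj
      rw [h3] at h2
      obtain ⟨i, _, hi⟩ := (Nat.dvd_prime_pow hp).mp h2
      rw [hi] at h1 ⊢
      have h4 : ¬ p ∣ (Q : Subgroup K).index := Q.not_dvd_index
      by_cases hi0 : i = 0
      · rw [hi0, pow_zero]
      · exact absurd ((dvd_pow_self p hi0).trans h1) h4
    have hQn : (Q : Subgroup K).Normal := by
      refine ⟨fun n hn g => ?_⟩
      have hg : g ∈ (Q : Subgroup K) ⊔ K1' := by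
        rw [hsup]
        exact Subgroup.mem_top _
      obtain ⟨q, hq', z, hz, rfl⟩ := mem_sup_nm (fun b _ n hn => hn1.conj_mem n hn b) hg
      have h1 : z * n = n * z := by
        apply Subtype.ext
        rw [hK1', Subgroup.mem_subgroupOf] at hz
        exact (hK1c n.1 n.2 z.1 hz).symm
      have h2 : q * z * n * (q * z)⁻¹ = q * n * q⁻¹ := by
        calc q * z * n * (q * z)⁻¹ = q * (z * n) * z⁻¹ * q⁻¹ := by group
          _ = q * (n * z) * z⁻¹ * q⁻¹ := by rw [h1]
          _ = q * n * q⁻¹ := by group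
      rw [h2]
      exact Subgroup.mul_mem _ (Subgroup.mul_mem _ hq' hn) (Subgroup.inv_mem _ hq')
    have hQc := Sylow.characteristic_of_normal Q hQn
    have hQb : (Q : Subgroup K) ≠ ⊥ := Q.ne_bot_of_dvd_card hpK
    obtain ⟨P, hP⟩ : ∃ P : Subgroup G, P = (Q : Subgroup K).map K.subtype := ⟨_, rfl⟩
    have hPb : P = ⊥ := by
      refine hN P ?_ ?_ ?_
      · rw [hP]
        rintro _ ⟨t, _, rfl⟩
        exact hKX t.2
      · intro x hx g hg
        rw [hP] at hg ⊢
        obtain ⟨t, ht, rfl⟩ := hg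
        let φ : K ≃* K :=
          { toFun := fun s => ⟨x * s.1 * x⁻¹, hKn x hx s.1 s.2⟩
            invFun := fun s => ⟨x⁻¹ * s.1 * x, by
              have := hKn x⁻¹ (Z.inv_mem hx) s.1 s.2
              rwa [inv_inv] at this⟩
            left_inv := by
              intro s
              apply Subtype.ext
              show x⁻¹ * (x * s.1 * x⁻¹) * x = s.1
              group
            right_inv := by
              intro s
              apply Subtype.ext
              show x * (x⁻¹ * s.1 * x) * x⁻¹ = s.1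
              group
            map_mul' := by
              intro s t
              apply Subtype.ext
              show x * (s.1 * t.1) * x⁻¹ = (x * s.1 * x⁻¹) * (x * t.1 * x⁻¹)
              group }
        have h1 := (Subgroup.characteristic_iff_map_eq.mp hQc) φ
        refine ⟨φ t, ?_, rfl⟩
        rw [← h1]
        exact ⟨t, ht, rfl⟩
      · rw [hP]
        exact Q.isPGroup'.map K.subtype
    apply hQb
    rw [hP, Subgroup.map_eq_bot_iff_of_injective _ (Subgroup.subtype_injective K)] at hPb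
    exact hPb
  · -- index prime to `p`
    obtain ⟨g, hg⟩ := exists_prime_orderOf_dvd_card' p hpK
    have hg1 : g.1 ^ p = 1 := by
      have := pow_orderOf_eq_one g
      rw [hg] at this
      simpa using congrArg Subtype.val this
    have hgK1 : g.1 ∈ K1 := by
      rw [hK1]
      refine ⟨g.2, fun x hx => ?_⟩
      obtain ⟨y, hy⟩ : ∃ y, y = x * g.1 * x⁻¹ := ⟨_, rfl⟩
      have hyK : y ∈ K := by
        rw [hy]
        exact hKn x hx g.1 g.2
      have hyp : y ^ p = 1 := by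
        rw [hy, conj_pow, hg1, mul_one, mul_inv_cancel]
      rw [← hy]
      have h1 := hpow y hyK
      have hco : Nat.Coprime (N.relIndex K) (orderOf y) := by
        refine Nat.Coprime.coprime_dvd_right (orderOf_dvd_of_pow_eq_one hyp) ?_
        exact ((Nat.Prime.coprime_iff_not_dvd hp).mpr hidx).symm
      obtain ⟨s, hs⟩ := exists_pow_eq_self_of_coprime hco
      rw [← hs]
      exact N.pow_mem h1 s
    apply hpK1
    have h1 : orderOf (⟨g.1, hgK1⟩ : K1) = p := by
      rw [← Subgroup.orderOf_coe]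
      show orderOf g.1 = p
      rw [Subgroup.orderOf_coe, hg]
    rw [← h1]
    exact orderOf_dvd_natCard _

/-- Hall-Higman type lemma with operators, second form -/
theorem hhB {p : ℕ} (hp : p.Prime) {X Z : Subgroup G} (hfin : Finite X) (hXZ : X ≤ Z)
    (hXn : Nm Z X) (hps : PSol p X)
    (hN : ∀ N : Subgroup G, N ≤ X → Nm Z N → IsPGroup p N → N = ⊥)
    {A : Subgroup G} (hA : A ≤ X) (hAp : IsPGroup p A)
    (hLR : ∀ r : ℕ, r.Prime → r ≠ p → ∀ S : Subgroup G, S ≤ X → IsPGroup r S →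
      Nm A S → ∀ a ∈ A, ∀ s ∈ S, a * s = s * a) : A = ⊥ := by
  by_contra hA1
  obtain ⟨M, h1, h2, h3, h4⟩ := hhC hp hfin hXZ hXn hps hN hA hAp hA1
  have hMf : Finite M := Finite.of_injective _ (Subgroup.inclusion_injective h1)
  exact h4 (coprime_cent hp hAp hMf h3 (h2.mono (hA.trans hXZ))
    (fun r hr hrp S hS => hLR r hr hrp S (hS.trans h1)))

end hhc

end Pool.Agent.Work.MP_6d7bb4.helper94
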