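import Pool.Agent.Work.MP_6d7bb4_helper94.Ee

/-! # MP_6d7bb4: the semisimple module of a vertex stabiliser (helper94) -/

set_option autoImplicit false
set_option linter.unusedSectionVars false

namespace Pool.Agent.Work.MP_6d7bb4.helper94

open Qd Ps Ff

universe u

section md
variable {G : Type u} [Group G]

theorem psol_top {p : ℕ} {X : Subgroup G} (hps : PSol p X) : PSol p (⊤ : Subgroup X) := by
  intro L _ hne
  obtain ⟨N, hN1, hN2, hN3, hN4⟩ := hps (L.map X.subtype) (by
    rintro _ ⟨y, _, rfl⟩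
    exact y.2) (by
    intro h
    exact hne ((Subgroup.map_eq_bot_iff_of_injective _ (Subgroup.subtype_injective X)).mp h))
  have hLe : L = (L.map X.subtype).subgroupOf X :=
    (Subgroup.comap_map_eq_self_of_injective (Subgroup.subtype_injective X) L).symm
  have hNX : N ≤ X := hN1.trans (by
    rintro _ ⟨y, _, rfl⟩
    exact y.2)
  refine ⟨N.subgroupOf X, ?_, ?_, ?_, ?_⟩
  · rw [hLe]
    exact Subgroup.comap_mono hN1
  · intro h
    apply hN2
    rw [← h, Subgroup.map_subgroupOf_eq_of_le hNX]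
  · intro l hl n hn'
    rw [Subgroup.mem_subgroupOf] at hn' ⊢
    exact hN3 l.1 ⟨l, hl, rfl⟩ n.1 hn'
  · have h1 : (N.subgroupOf X).relIndex L = N.relIndex (L.map X.subtype) := by
      have h2 := Subgroup.relIndex_comap (f := X.subtype) N L
      exact h2
    rw [h1]
    exact hN4

/-- the semisimple module -/
structure Md (p : ℕ) (X V R : Subgroup G) {U : Type u} [AddCommGroup U]
    (ψ : X →* (AddMonoid.End U)ˣ) : Prop where
  ex : ∀ u : U, p • u = 0
  ker : ∀ x : X, x.1 ∈ R ↔ ψ x = 1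
  cen : ∀ x : X, (∀ v ∈ V, x.1 * v = v * x.1) → ψ x = 1
  np : ∀ N : Subgroup (AddMonoid.End U)ˣ, N ≤ ψ.range → Nm ψ.range N → IsPGroup p N → N = ⊥
  qd : ∀ A : Subgroup G,
    (∀ a ∈ A, ∀ b ∈ A, ∀ v ∈ V, a * (b * v * b⁻¹ * v⁻¹) * a⁻¹ = b * v * b⁻¹ * v⁻¹) →
    ∀ a b : X, a.1 ∈ A → b.1 ∈ A → ∀ u : U, (ψ a : AddMonoid.End U)
      ((ψ b : AddMonoid.End U) u - u) = (ψ b : AddMonoid.End U) u - u
  of : ∀ A : Subgroup G, A ≤ X → (∀ a ∈ A, a ∈ R → ∀ v ∈ V, a * v = v * a) →
    Nat.card V * Nat.card (A ⊓ Subgroup.centralizer (V : Set G) : Subgroup G) ≤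
        Nat.card A * Nat.card (V ⊓ Subgroup.centralizer (A : Set G) : Subgroup G) →
    Nat.card U ≤ Nat.card ((A.subgroupOf X).map ψ) * Nat.card (FxU ((A.subgroupOf X).map ψ))

theorem mod_ex {p : ℕ} (hp : p.Prime) {X V : Subgroup G} (hXf : Finite X) (hVf : Finite V)
    (hn : Nm X V) (hab : ∀ u ∈ V, ∀ v ∈ V, u * v = v * u) (hexp : ∀ v ∈ V, v ^ p = 1) :
    ∃ R, IsR p X V R ∧ ∃ (U : Type u) (_ : AddCommGroup U) (_ : Finite U)
      (ψ : X →* (AddMonoid.End U)ˣ), Md p X V R ψ := by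
  have : Fact p.Prime := ⟨hp⟩
  obtain ⟨W, iW, e, φ, he, hφ⟩ := model hn hab
  have hWf : Finite W := Finite.of_equiv V e
  have he1 : e 1 = 0 := by
    have h1 := he 1 1
    rw [mul_one] at h1
    exact left_eq_add.mp h1
  have hep : ∀ (v : V) (n : ℕ), e (v ^ n) = n • e v := by
    intro v n
    induction n with
    | zero => rw [pow_zero, zero_smul, he1]
    | succ n ih => rw [pow_succ, he, ih, succ_nsmul]
  have hpW : ∀ w : W, p • w = 0 := by
    intro w
    obtain ⟨v, rfl⟩ := e.surjective w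
    rw [← hep]
    have : v ^ p = 1 := Subtype.ext (hexp v.1 v.2)
    rw [this, he1]
  -- trivial action
  have hφ1 : ∀ x : X, φ x = 1 ↔ ∀ v ∈ V, x.1 * v = v * x.1 := by
    intro x
    constructor
    · intro h v hv
      have h1 := hφ x ⟨v, hv⟩
      rw [h] at h1
      have h2 : e ⟨v, hv⟩ = e ⟨x.1 * v * x.1⁻¹, hn x.1 x.2 v hv⟩ := h1
      have h3 := congrArg Subtype.val (e.injective h2)
      have h4 : v = x.1 * v * x.1⁻¹ := h3
      exact (mul_inv_eq_iff_eq_mul.mp h4.symm)
    · intro h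
      refine AddMonoidHom.ext (fun w => ?_)
      obtain ⟨v, rfl⟩ := e.surjective w
      show φ x (e v) = e v
      rw [hφ]
      congr 1
      apply Subtype.ext
      show x.1 * v.1 * x.1⁻¹ = v.1
      rw [h v.1 v.2, mul_inv_cancel_right]
  obtain ⟨U, iU, fU, ψ, hψ⟩ := semi (X := X) hp (Nat.card W) W φ (le_refl _) hpW
  -- the kernel
  obtain ⟨R, hR⟩ : ∃ R : Subgroup G, R = ψ.ker.map X.subtype := ⟨_, rfl⟩
  have hRm : ∀ x : X, x.1 ∈ R ↔ ψ x = 1 := by
    intro x
    rw [hR]
    constructor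
    · rintro ⟨y, hy, hyx⟩
      have : y = x := Subtype.ext hyx
      rw [← this]
      exact hy
    · intro h
      exact ⟨x, h, rfl⟩
  have hRX : R ≤ X := by
    rw [hR]
    rintro _ ⟨y, _, rfl⟩
    exact y.2
  have hIsR : IsR p X V R := by
    refine ⟨hRX, ?_, ?_, ?_⟩
    · intro x hx g hg
      have h1 : ψ ⟨g, hRX hg⟩ = 1 := (hRm ⟨g, hRX hg⟩).mp hg
      refine (hRm (⟨x, hx⟩ * ⟨g, hRX hg⟩ * ⟨x, hx⟩⁻¹)).mpr ?_
      rw [map_mul, map_mul, h1, mul_one, ← map_mul, mul_inv_cancel, map_one]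
    · intro g hg
      have h1 : ψ ⟨g, hRX hg⟩ = 1 := (hRm ⟨g, hRX hg⟩).mp hg
      obtain ⟨k, hk⟩ := hψ.kp _ h1
      exact ⟨k, fun v hv => (hφ1 _).mp hk v hv⟩
    · intro M hM hMn hMp g hg
      refine (hRm ⟨g, hM hg⟩).mpr ?_
      refine hψ.np (M.subgroupOf X) ?_ ?_ ⟨g, hM hg⟩ (by
        rw [Subgroup.mem_subgroupOf]
        exact hg)
      · intro x n hn'
        rw [Subgroup.mem_subgroupOf] at hn' ⊢
        exact hMn x.1 x.2 n.1 hn'
      · intro n hn'
        rw [Subgroup.mem_subgroupOf] at hn'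
        obtain ⟨k, hk⟩ := hMp n.1 hn'
        exact ⟨k, hψ.k1 _ ((hφ1 _).mpr hk)⟩
  have hval : ∀ x : X, ((ψ.toHomUnits x : (AddMonoid.End U)ˣ) : AddMonoid.End U) = ψ x :=
    fun _ => rfl
  refine ⟨R, hIsR, U, iU, fU, ψ.toHomUnits, hψ.ex, ?_, ?_, ?_, ?_, ?_⟩
  · intro x
    rw [hRm]
    exact ⟨fun h => Units.ext h, fun h => congrArg Units.val h⟩
  · intro x hx
    exact Units.ext (hψ.k1 _ ((hφ1 _).mpr hx))
  · intro N hNY hNn hNp
    rw [Subgroup.eq_bot_iff_forall]
    intro n hn'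
    obtain ⟨x, rfl⟩ := hNY hn'
    have h1 := hψ.np (N.comap ψ.toHomUnits) ?_ ?_ x hn'
    · exact Units.ext h1
    · intro y m hm
      rw [Subgroup.mem_comap] at hm ⊢
      rw [map_mul, map_mul, map_inv]
      exact hNn _ ⟨y, rfl⟩ _ hm
    · intro m hm
      obtain ⟨k, hk⟩ := hNp ⟨_, hm⟩
      have h2 : (ψ.toHomUnits m) ^ p ^ k = 1 := congrArg Subtype.val hk
      rw [← map_pow] at h2
      exact ⟨k, congrArg Units.val h2⟩
  · intro A hq a b ha hb
    refine hψ.qd a b (fun w => ?_)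
    obtain ⟨v, rfl⟩ := e.surjective w
    have h1 : φ b (e v) - e v =
        e ⟨b.1 * v.1 * b.1⁻¹ * v.1⁻¹, V.mul_mem (hn b.1 b.2 v.1 v.2) (V.inv_mem v.2)⟩ := by
      rw [sub_eq_iff_eq_add, ← he, hφ]
      congr 1
      apply Subtype.ext
      show b.1 * v.1 * b.1⁻¹ = b.1 * v.1 * b.1⁻¹ * v.1⁻¹ * v.1
      group
    rw [h1, hφ]
    congr 1
    apply Subtype.ext
    exact hq a.1 ha b.1 hb v.1 v.2
  · intro A hA hAR h5
    obtain ⟨A1, hA1⟩ : ∃ A1 : Subgroup X, A1 = A.subgroupOf X := ⟨_, rfl⟩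
    have hA1m : ∀ x : X, x ∈ A1 ↔ x.1 ∈ A := by
      intro x
      rw [hA1, Subgroup.mem_subgroupOf]
    obtain ⟨A', hA'⟩ : ∃ A', A' = A1.map ψ.toHomUnits := ⟨_, rfl⟩
    have hA'f : Finite A' := by
      rw [hA']
      exact Finite.of_surjective _ (ψ.toHomUnits.subgroupMap_surjective A1)
    have hcA : Nat.card A = Nat.card A1 := by
      rw [hA1]
      exact (Nat.card_congr (Subgroup.subgroupOfEquivOfLe hA).toEquiv).symm
    rw [← hA1, ← hA']
    have h1 := hψ.cd A1
    have h2 : Nat.card (Fx ψ A1) = Nat.card (FxU A') := by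
      have : Fx ψ A1 = FxU A' := by
        ext w
        rw [mem_Fx, mem_FxU, hA']
        constructor
        · rintro h _ ⟨x, hx, rfl⟩
          exact h x hx
        · intro h x hx
          exact h _ ⟨x, hx, rfl⟩
      rw [this]
    have h3 : Nat.card (Fx φ A1) =
        Nat.card (V ⊓ Subgroup.centralizer (A : Set G) : Subgroup G) := by
      have hmem : ∀ v : V, e v ∈ Fx φ A1 ↔
          v.1 ∈ (V ⊓ Subgroup.centralizer (A : Set G) : Subgroup G) := by
        intro v
        rw [mem_Fx, Subgroup.mem_inf, Subgroup.mem_centralizer_iff]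
        constructor
        · intro h
          refine ⟨v.2, fun a ha => ?_⟩
          have h4 := h ⟨a, hA ha⟩ ((hA1m _).mpr ha)
          rw [hφ] at h4
          have h5 := congrArg Subtype.val (e.injective h4)
          exact mul_inv_eq_iff_eq_mul.mp h5
        · rintro ⟨_, h⟩ x hx
          rw [hφ]
          congr 1
          apply Subtype.ext
          show x.1 * v.1 * x.1⁻¹ = v.1
          rw [h x.1 ((hA1m x).mp hx), mul_inv_cancel_right]
      refine Nat.card_congr
        { toFun := fun w => ⟨(e.symm w.1).1, by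
            rw [← hmem, e.apply_symm_apply]
            exact w.2⟩
          invFun := fun v => ⟨e ⟨v.1, v.2.1⟩, by
            rw [hmem]
            exact v.2⟩
          left_inv := ?_
          right_inv := ?_ }
      · intro w
        apply Subtype.ext
        show e ⟨(e.symm w.1).1, _⟩ = w.1
        rw [Subtype.coe_eta, e.apply_symm_apply]
      · intro v
        apply Subtype.ext
        show (e.symm (e ⟨v.1, _⟩)).1 = v.1
        rw [e.symm_apply_apply]
    have h4 : Nat.card A1 ≤ Nat.card A' *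
        Nat.card (A ⊓ Subgroup.centralizer (V : Set G) : Subgroup G) := by
      obtain ⟨f, hf⟩ : ∃ f : A1 →* A', ∀ x : A1, (f x).1 = ψ.toHomUnits x.1 :=
        ⟨(ψ.toHomUnits.comp A1.subtype).codRestrict A' (fun x => by
          rw [hA']
          exact ⟨x.1, x.2, rfl⟩), fun _ => rfl⟩
      have hfs : Function.Surjective f := by
        rintro ⟨y, hy⟩
        rw [hA'] at hy
        obtain ⟨x, hx, rfl⟩ := hy
        exact ⟨⟨x, hx⟩, Subtype.ext (hf _)⟩
      have h5 : Nat.card A1 = Nat.card A' * Nat.card f.ker := by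
        rw [Subgroup.card_eq_card_quotient_mul_card_subgroup f.ker]
        congr 1
        exact Nat.card_congr (QuotientGroup.quotientKerEquivOfSurjective f hfs).toEquiv
      rw [h5]
      refine Nat.mul_le_mul_left _ ?_
      have hAf : Finite (A ⊓ Subgroup.centralizer (V : Set G) : Subgroup G) :=
        Finite.of_injective _ (Subgroup.inclusion_injective (inf_le_left.trans hA))
      refine Nat.card_le_card_of_injective (fun x : f.ker =>
        (⟨x.1.1.1, (hA1m _).mp x.1.2, ?_⟩ :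
          (A ⊓ Subgroup.centralizer (V : Set G) : Subgroup G))) ?_
      · show x.1.1.1 ∈ Subgroup.centralizer (V : Set G)
        rw [Subgroup.mem_centralizer_iff]
        intro v hv
        have h6 : ψ x.1.1 = 1 := by
          have h7 : (f x.1).1 = 1 := congrArg Subtype.val (MonoidHom.mem_ker.mp x.2)
          rw [hf] at h7
          exact congrArg Units.val h7
        exact (hAR x.1.1.1 ((hA1m _).mp x.1.2) ((hRm x.1.1).mpr h6) v hv).symm
      · intro x y h
        have h6 := congrArg (fun z : (A ⊓ Subgroup.centralizer (V : Set G) : Subgroup G) =>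
          z.1) h
        exact Subtype.ext (Subtype.ext (Subtype.ext h6))
    have hVW : Nat.card V = Nat.card W := Nat.card_congr e
    rw [← h2]
    have hpos1 : 0 < Nat.card (Fx φ A1) := Nat.card_pos
    have hAf : Finite (A ⊓ Subgroup.centralizer (V : Set G) : Subgroup G) :=
      Finite.of_injective _ (Subgroup.inclusion_injective (inf_le_left.trans hA))
    have hpos2 : 0 < Nat.card (A ⊓ Subgroup.centralizer (V : Set G) : Subgroup G) :=
      Nat.card_pos
    obtain ⟨c, hc⟩ : ∃ c, c = Nat.card (A ⊓ Subgroup.centralizer (V : Set G) :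
      Subgroup G) := ⟨_, rfl⟩
    obtain ⟨f1, hf1⟩ : ∃ c, c = Nat.card (Fx φ A1) := ⟨_, rfl⟩
    rw [← h3, hVW, hcA, ← hc, ← hf1] at h5
    rw [← hc] at h4 hpos2
    rw [← hf1] at h1 hpos1
    have h6 : (f1 * c) * Nat.card U ≤ (f1 * c) * (Nat.card A' * Nat.card (Fx ψ A1)) := by
      calc (f1 * c) * Nat.card U = (Nat.card U * f1) * c := by ring
        _ ≤ (Nat.card W * Nat.card (Fx ψ A1)) * c := Nat.mul_le_mul_right _ h1
        _ = (Nat.card W * c) * Nat.card (Fx ψ A1) := by ring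
        _ ≤ (Nat.card A1 * f1) * Nat.card (Fx ψ A1) := Nat.mul_le_mul_right _ h5
        _ ≤ ((Nat.card A' * c) * f1) * Nat.card (Fx ψ A1) :=
          Nat.mul_le_mul_right _ (Nat.mul_le_mul_right _ h4)
        _ = _ := by ring
    exact Nat.le_of_mul_le_mul_left h6 (Nat.mul_pos hpos1 hpos2)

end md

end Pool.Agent.Work.MP_6d7bb4.helper94
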