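import Pool.Agent.Work.MP_6d7bb4_helper94.Zeta

/-! # MP_6d7bb4: case B does not occur for `p`-soluble groups, end of the proof (helper94) -/

set_option autoImplicit false
set_option linter.unusedSectionVars false

namespace Pool.Agent.Work.MP_6d7bb4.helper94

open MulAction
open scoped commutatorElement

section ncb
variable {V G : Type*} [Group G] [MulAction G V] {Γ : SimpleGraph V} {d p : ℕ}

/-- a link for the groups `VZ` -/
structure LkZ (Γ : SimpleGraph V) (p : ℕ) (ζ : V → V → Subgroup G) (x x' w' w : V) : Prop where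
  xx : Γ.Adj x x'
  ww : Γ.Adj w w'
  xw : VZ Γ ζ x ≤ Qv Γ p w'
  wx : VZ Γ ζ w ≤ Qv Γ p x'
  cr : ¬ VZ Γ ζ x ≤ Qv Γ p w

variable [Fact p.Prime]

theorem LkZ.symm (h : Loc G Γ d) (hB : CB0 G Γ p) {ζ : V → V → Subgroup G} (hz : Zt Γ p ζ)
    {x x' w' w : V} (l : LkZ Γ p ζ x x' w' w) : LkZ Γ p ζ w w' x' x where
  xx := l.ww
  ww := l.xx
  xw := l.wx
  wx := l.xw
  cr := by
    intro hcon
    apply l.cr
    intro v hv
    have h1 : v ∈ (Qe p w w' : Subgroup G) := Qv_le_Qe' h l.ww (l.xw hv)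
    rw [Qv_eq h l.ww]
    refine ⟨h1, centZ_K h hz l.ww (Qe_le w w' h1) ?_⟩
    intro u hu
    exact (VZ_comm h hB hz (hcon hu) hv).symm

theorem critZ (h : Loc G Γ d) (hB : CB0 G Γ p) {ζ : V → V → Subgroup G} (hz : Zt Γ p ζ)
    {x0 y0 : V} (hxy : Γ.Adj x0 y0) : ∃ x x' w' w, LkZ Γ p ζ x x' w' w := by
  classical
  have h1 : ∃ n, ∃ x w, Γ.dist x w = n ∧ ¬ VZ Γ ζ x ≤ Qv Γ p w := by
    by_contra hcon
    push Not at hcon
    apply hz.ne x0 y0 hxy
    rw [Subgroup.eq_bot_iff_forall]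
    intro z hz'
    apply h.faith
    intro v
    exact Qv_le_st v (hcon _ x0 v rfl (z_le_VZ hxy hz'))
  obtain ⟨b, hb⟩ : ∃ b, b = Nat.find h1 := ⟨_, rfl⟩
  obtain ⟨x, w, hxw, hcr⟩ := Nat.find_spec h1
  have hmin : ∀ m, m < b → ∀ x w, Γ.dist x w = m → VZ Γ ζ x ≤ Qv Γ p w := by
    intro m hm x w hd
    by_contra h2
    exact Nat.find_min h1 (hb ▸ hm) ⟨x, w, hd, h2⟩
  rw [← hb] at hxw
  have hb0 : b ≠ 0 := by
    intro h0
    rw [h0, h.conn.dist_eq_zero_iff] at hxw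
    rw [hxw] at hcr
    exact hcr (VZ_le_Qv h hB hz w)
  obtain ⟨c, rfl⟩ := Nat.exists_eq_succ_of_ne_zero hb0
  have hmn : ∀ x w, Γ.dist x w ≤ c → VZ Γ ζ x ≤ Qv Γ p w := fun x w hd =>
    hmin _ (Nat.lt_succ_of_le hd) x w rfl
  obtain ⟨q, hq⟩ := h.conn.exists_walk_length_eq_dist w x
  rw [SimpleGraph.dist_comm, hxw] at hq
  have hq' : q.length = c + 1 := hq
  have had : ∀ k, k < c + 1 → Γ.Adj (q.getVert k) (q.getVert (k + 1)) := fun k hk =>
    q.adj_getVert_succ (by omega)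
  have hdist : ∀ i m, i + m ≤ c + 1 → Γ.dist (q.getVert i) (q.getVert (i + m)) ≤ m := by
    intro i m
    induction m with
    | zero => simp
    | succ m ih =>
      intro hm
      have h3 := ih (by omega)
      have h4 := h.conn.dist_triangle (u := q.getVert i) (v := q.getVert (i + m))
        (w := q.getVert (i + (m + 1)))
      have h5 : Γ.dist (q.getVert (i + m)) (q.getVert (i + (m + 1))) = 1 :=
        SimpleGraph.dist_eq_one_iff_adj.mpr (had _ (by omega))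
      omega
  have e0 : q.getVert 0 = w := q.getVert_zero
  have e1 : q.getVert (c + 1) = x := by
    rw [← hq']
    exact q.getVert_length
  refine ⟨x, q.getVert c, q.getVert 1, w, ?_, ?_, ?_, ?_, hcr⟩
  · have h3 := had c (by omega)
    rw [e1] at h3
    exact h3.symm
  · have h3 := had 0 (by omega)
    rw [e0] at h3
    exact h3
  · refine hmn _ _ ?_
    have h3 := hdist 1 c (by omega)
    rw [show 1 + c = c + 1 by omega, e1] at h3
    rw [SimpleGraph.dist_comm]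
    exact h3
  · refine hmn _ _ ?_
    have h3 := hdist 0 c (by omega)
    rw [e0, zero_add] at h3
    exact h3

/-- case B does not occur -/
theorem nocb (h : Loc G Γ d) (hB : CB0 G Γ p) {x0 y0 : V} (hxy0 : Γ.Adj x0 y0)
    (hps : ∀ w, PSol p (Nh Γ p w : Subgroup G))
    (hsc : 5 ≤ p ∨ ∀ w, ∀ T0 T : Subgroup G, T0 ≤ T → T ≤ Nh Γ p w → Nm T T0 →
      (∃ k, T0.relIndex T = (5 - p) ^ k) → ∀ a ∈ (Nh Γ p w : Subgroup G), a ^ p = 1 →
      (∀ t ∈ T, a * t * a⁻¹ ∈ T) → (∀ t ∈ T0, a * t * a⁻¹ ∈ T0) →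
      ∀ t ∈ T, ∃ z ∈ (Nh Γ p w : Subgroup G), z ∈ (K Γ w : Subgroup G) ∧
        a * t * a⁻¹ * t⁻¹ * z⁻¹ ∈ T0) : False := by
  obtain ⟨ζ, hz⟩ := zt_exists h hB hxy0
  have hp : p.Prime := Fact.out
  have hVs : ∀ x, VZ Γ ζ x ≤ stabilizer G x := fun x => (VZ_le_Qv h hB hz x).trans (Qv_le_st x)
  have hact := fun w => act_triv (p := p) hp (X := (Nh Γ p w : Subgroup G)) (V := VZ Γ ζ w)
    (h.fin_le (Nh_le w)) (h.fin_le (hVs w)) ((nm_VZ h hz w).mono (Nh_le w))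
    (fun u hu v hv => VZ_comm h hB hz (VZ_le_Qv h hB hz w hu) hv)
    (fun v hv => VZ_pow h hB hz hv) (hps w)
  choose Rf hR hA using hact
  have hRcj : ∀ (g : G) x, Rf (g • x) = cj g (Rf x) := by
    intro g x
    have h1 := (hR x).cj g
    rw [← Nh_cj h, ← VZ_cj h hz] at h1
    exact (hR (g • x)).unique h1
  have hRn : ∀ x, Nm (stabilizer G x) (Rf x) := nm_of_equiv hRcj
  have hRs : ∀ x, Rf x ≤ stabilizer G x := fun x => (hR x).le.trans (Nh_le x)
  have c1 : ∀ {x y : V}, Γ.Adj x y → ∀ a ∈ Rf x, a ∈ B x y → a ∈ (K Γ x : Subgroup G) :=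
    fun {x y} hxy a ha haB => nc_lem h hz hxy (hRs x) (hRn x) (hR x).pa ha haB
  -- the groups `Rf x ⊓ K x` centralise `VZ x`
  have hSB : ∀ {x y : V}, Γ.Adj x y → Rf x ⊓ K Γ x ≤ B x y := fun {x y} hxy =>
    inf_le_right.trans (K_le_B hxy)
  have hSn : ∀ x, Nm (stabilizer G x) (Rf x ⊓ K Γ x) := fun x => (hRn x).inf (nm_K h x)
  have hScj : ∀ (g : G) x z, z ∈ Rf x ⊓ K Γ x → g * z * g⁻¹ ∈ Rf (g • x) ⊓ K Γ (g • x) := by
    intro g x z hz'
    rw [hRcj, K_cj h]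
    exact ⟨conj_mem_cj hz'.1, conj_mem_cj hz'.2⟩
  have c2 : ∀ {x y : V}, Γ.Adj x y → ∀ s ∈ Rf x ⊓ K Γ x, ∀ z ∈ ζ x y, s * z = z * s := by
    intro x y hxy
    have hζle := hz.le x y hxy
    have hζQ : ζ x y ≤ Qe p x y := hζle.trans (OZ_le _ _)
    have hζf : Finite (ζ x y) := h.fin_le (hζQ.trans (Qe_le_st x y))
    have hpa : ∀ {x y : V}, Γ.Adj x y → PAct p (Rf x ⊓ K Γ x) (ζ x y) := by
      intro x y hxy n hn
      obtain ⟨k, hk⟩ := (hR x).pa n hn.1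
      exact ⟨k, fun v hv => hk v (z_le_VZ hxy hv)⟩
    obtain ⟨Z1, hZ1⟩ : ∃ Z1 : Subgroup G, ∀ z, z ∈ Z1 ↔ z ∈ ζ x y ∧
        ∀ s ∈ Rf x ⊓ K Γ x, s * z = z * s :=
      ⟨ζ x y ⊓ Subgroup.centralizer (Rf x ⊓ K Γ x : Subgroup G), fun z => by
        rw [Subgroup.mem_inf, Subgroup.mem_centralizer_iff]
        rfl⟩
    obtain ⟨Z2, hZ2⟩ : ∃ Z2 : Subgroup G, ∀ z, z ∈ Z2 ↔ z ∈ Z1 ∧
        ∀ s ∈ Rf y ⊓ K Γ y, s * z = z * s :=
      ⟨Z1 ⊓ Subgroup.centralizer (Rf y ⊓ K Γ y : Subgroup G), fun z => by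
        rw [Subgroup.mem_inf, Subgroup.mem_centralizer_iff]
        rfl⟩
    have hZ1le : Z1 ≤ ζ x y := fun z hz' => ((hZ1 z).mp hz').1
    have hZ2le : Z2 ≤ ζ x y := fun z hz' => hZ1le ((hZ2 z).mp hz').1
    have hSxB : Nm (B x y) (Rf x ⊓ K Γ x) := (hSn x).mono (B_le x y)
    have hSyB : Nm (B x y) (Rf y ⊓ K Γ y) := by
      rw [B_comm]
      exact (hSn y).mono (B_le y x)
    have hZ1n : Nm (B x y) Z1 := by
      intro b hb z hz'
      rw [hZ1] at hz' ⊢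
      refine ⟨nm_z hz x y b hb z hz'.1, fun s hs => ?_⟩
      have h1 := hSxB b⁻¹ ((B x y).inv_mem hb) s hs
      rw [inv_inv] at h1
      have h2 := hz'.2 _ h1
      calc s * (b * z * b⁻¹) = b * (b⁻¹ * s * b * z) * b⁻¹ := by group
        _ = b * (z * (b⁻¹ * s * b)) * b⁻¹ := by rw [h2]
        _ = b * z * b⁻¹ * s := by group
    have hZ2n : Nm (B x y) Z2 := by
      intro b hb z hz'
      rw [hZ2] at hz' ⊢
      refine ⟨hZ1n b hb z hz'.1, fun s hs => ?_⟩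
      have h1 := hSyB b⁻¹ ((B x y).inv_mem hb) s hs
      rw [inv_inv] at h1
      have h2 := hz'.2 _ h1
      calc s * (b * z * b⁻¹) = b * (b⁻¹ * s * b * z) * b⁻¹ := by group
        _ = b * (z * (b⁻¹ * s * b)) * b⁻¹ := by rw [h2]
        _ = b * z * b⁻¹ * s := by group
    have hZ2ne : Z2 ≠ ⊥ := by
      obtain ⟨z, hz1, hz2, hz3⟩ := fixp hp hζf ((nm_z hz x y).mono (hSB hxy)) (hpa hxy)
        ((Qe_isP h x y).to_le hζQ) (hz.ne x y hxy)
      have hZ1ne : Z1 ≠ ⊥ := by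
        intro hcon
        apply hz2
        rw [← Subgroup.mem_bot, ← hcon, hZ1]
        exact ⟨hz1, hz3⟩
      have hZ1f : Finite Z1 := Finite.of_injective _ (Subgroup.inclusion_injective hZ1le)
      have hSyB' : Rf y ⊓ K Γ y ≤ B x y := by
        rw [B_comm]
        exact hSB hxy.symm
      obtain ⟨z', hz1', hz2', hz3'⟩ := fixp hp hZ1f (hZ1n.mono hSyB') (by
        intro n hn
        obtain ⟨k, hk⟩ := hpa hxy.symm n hn
        refine ⟨k, fun v hv => hk v ?_⟩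
        rw [hz.cm]
        exact hZ1le hv) ((Qe_isP h x y).to_le (hZ1le.trans hζQ)) hZ1ne
      intro hcon
      apply hz2'
      rw [← Subgroup.mem_bot, ← hcon, hZ2]
      exact ⟨hz1', hz3'⟩
    have h3 := hz.mn x y hxy Z2 hZ2le hZ2ne hZ2n (by
      intro σ hσ1 hσ2 z hz'
      have hσ1' : σ⁻¹ • y = x := by rw [← hσ1, inv_smul_smul]
      have hσ2' : σ⁻¹ • x = y := by rw [← hσ2, inv_smul_smul]
      obtain ⟨hz1, hz2⟩ := (hZ2 z).mp hz'
      obtain ⟨hz3, hz4⟩ := (hZ1 z).mp hz1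
      rw [hZ2, hZ1]
      refine ⟨⟨?_, ?_⟩, ?_⟩
      · have h4 := conj_mem_cj (g := σ) hz3
        rwa [← hz.cj, hσ1, hσ2, hz.cm] at h4
      · intro s hs
        have h4 := hScj σ⁻¹ x s hs
        rw [hσ2', inv_inv] at h4
        have h5 := hz2 _ h4
        calc s * (σ * z * σ⁻¹) = σ * (σ⁻¹ * s * σ * z) * σ⁻¹ := by group
          _ = σ * (z * (σ⁻¹ * s * σ)) * σ⁻¹ := by rw [h5]
          _ = σ * z * σ⁻¹ * s := by group
      · intro s hs
        have h4 := hScj σ⁻¹ y s hs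
        rw [hσ1', inv_inv] at h4
        have h5 := hz4 _ h4
        calc s * (σ * z * σ⁻¹) = σ * (σ⁻¹ * s * σ * z) * σ⁻¹ := by group
          _ = σ * (z * (σ⁻¹ * s * σ)) * σ⁻¹ := by rw [h5]
          _ = σ * z * σ⁻¹ * s := by group)
    intro s hs z hz'
    rw [← h3, hZ2, hZ1] at hz'
    exact hz'.1.2 s hs
  have c3 : ∀ x, ∀ s ∈ Rf x ⊓ K Γ x, ∀ v ∈ VZ Γ ζ x, s * v = v * s := by
    intro x s hs v hv
    have h1 : VZ Γ ζ x ≤ Subgroup.centralizer {s} := by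
      refine iSup_le (fun y => ?_)
      intro z hz'
      rw [Subgroup.mem_centralizer_singleton_iff]
      exact (c2 y.2 s hs z hz').symm
    have h2 := h1 hv
    rw [Subgroup.mem_centralizer_singleton_iff] at h2
    exact h2.symm
  -- the final contradiction
  have key : ∀ x x' w' w, LkZ Γ p ζ x x' w' w → (p = 2 → Nat.card (VZ Γ ζ w) *
      Nat.card (VZ Γ ζ x ⊓ Subgroup.centralizer (VZ Γ ζ w : Set G) : Subgroup G) ≤
      Nat.card (VZ Γ ζ x) *
        Nat.card (VZ Γ ζ w ⊓ Subgroup.centralizer (VZ Γ ζ x : Set G) : Subgroup G)) →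
      False := by
    intro x x' w' w l hoff
    have hAQ : VZ Γ ζ x ≤ (Qe p w w' : Subgroup G) := fun v hv => Qv_le_Qe' h l.ww (l.xw hv)
    have hAN : VZ Γ ζ x ≤ (Nh Γ p w : Subgroup G) := hAQ.trans (Qe_le_Nh l.ww)
    have hA' : VZ Γ ζ x ≤ Rf w := by
      refine hA w (VZ Γ ζ x) hAN ?_ ?_ hoff ?_
      · intro a ha b hb v hv
        have hvx : v ∈ stabilizer G x := (K_le_B l.xx.symm (Qv_le x' (l.wx hv))).2
        have h1 : b * v * b⁻¹ * v⁻¹ ∈ VZ Γ ζ x := by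
          have h2 := nm_VZ h hz x v hvx b⁻¹ (Subgroup.inv_mem _ hb)
          have e : b * v * b⁻¹ * v⁻¹ = b * (v * b⁻¹ * v⁻¹) := by group
          rw [e]
          exact Subgroup.mul_mem _ hb h2
        rw [VZ_comm h hB hz (VZ_le_Qv h hB hz x ha) h1, mul_inv_cancel_right]
      · rcases hsc with h5 | hsc
        · exact Or.inl h5
        · right
          intro T0 T h1 h2 h3 h4 a ha h5 h6 t ht
          obtain ⟨z, hz1, hz2, hz3⟩ := hsc w T0 T h1 h2 h3 h4 a (hAN ha)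
            (VZ_pow h hB hz ha) h5 h6 t ht
          refine ⟨z, hz1, ?_, hz3⟩
          intro y hy v hv
          have h7 := K_Nh h hz2 hy
          have h8 : z * y = (z * y * z⁻¹ * y⁻¹) * (y * z) := by group
          have h9 : y * z * v * (y * z)⁻¹ ∈ VZ Γ ζ w :=
            nm_VZ h hz w (y * z) (Subgroup.mul_mem _ (Nh_le w hy) hz2.1) v hv
          have h10 := VZ_comm h hB hz h7 h9
          calc z * (y * v * y⁻¹) * z⁻¹ = (z * y) * v * (z * y)⁻¹ := by group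
            _ = (z * y * z⁻¹ * y⁻¹) * (y * z * v * (y * z)⁻¹) * (z * y * z⁻¹ * y⁻¹)⁻¹ := by
              group
            _ = y * z * v * (y * z)⁻¹ := by rw [h10, mul_inv_cancel_right]
            _ = y * (z * v * z⁻¹) * y⁻¹ := by group
      · intro _ a ha haR v hv
        exact c3 w a ⟨haR, c1 l.ww a haR (Qe_le w w' (hAQ ha))⟩ v hv
    apply l.cr
    intro v hv
    rw [Qv_eq h l.ww]
    exact ⟨hAQ hv, c1 l.ww v (hA' hv) (Qe_le w w' (hAQ hv))⟩
  obtain ⟨x, x', w', w, l⟩ := critZ h hB hz hxy0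
  rcases le_total (Nat.card (VZ Γ ζ w) *
      Nat.card (VZ Γ ζ x ⊓ Subgroup.centralizer (VZ Γ ζ w : Set G) : Subgroup G))
      (Nat.card (VZ Γ ζ x) *
        Nat.card (VZ Γ ζ w ⊓ Subgroup.centralizer (VZ Γ ζ x : Set G) : Subgroup G)) with h1 | h1
  · exact key x x' w' w l (fun _ => h1)
  · exact key w w' x' x (l.symm h hB hz) (fun _ => h1)

end ncb

end Pool.Agent.Work.MP_6d7bb4.helper94
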