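import Pool.Agent.Work.MP_6d7bb4_helper94.Zeta
import Pool.Agent.Work.MP_6d7bb4_helper94.Ncb
import Pool.Agent.Work.MP_6d7bb4_helper94.Md

/-! # MP_6d7bb4: the local configuration at the primes two and three (helper94) -/

set_option autoImplicit false
set_option linter.unusedSectionVars false

namespace Pool.Agent.Work.MP_6d7bb4.helper94

open MulAction
open scoped commutatorElement

section grp
variable {G : Type*} [Group G]

/-- powers in a group generated by elements which commute modulo `E` -/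
theorem gen_pw {Z E : Subgroup G} (hE : Nm Z E) (hEZ : E ≤ Z) {T : Set G}
    (hT : ∀ s ∈ T, s ∈ Z) (hc : ∀ s ∈ T, ∀ s' ∈ T, s * s' * s⁻¹ * s'⁻¹ ∈ E) {n : ℕ}
    (hn : ∀ s ∈ T, s ^ n ∈ E) : ∀ s ∈ Subgroup.closure T ⊔ E, s ^ n ∈ E := by
  obtain ⟨E', hE'⟩ : ∃ E' : Subgroup Z, E' = E.subgroupOf Z := ⟨_, rfl⟩
  have hE'm : ∀ s : Z, s ∈ E' ↔ s.1 ∈ E := by
    intro s
    rw [hE', Subgroup.mem_subgroupOf]
  have hE'n : E'.Normal := by
    refine ⟨fun m hm g => ?_⟩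
    rw [hE'm] at hm ⊢
    exact hE g.1 g.2 m.1 hm
  obtain ⟨T', hT'⟩ : ∃ T' : Set (Z ⧸ E'), T' = {q | ∃ s : Z, s.1 ∈ T ∧
      (QuotientGroup.mk s : Z ⧸ E') = q} := ⟨_, rfl⟩
  have hcom : ∀ x ∈ T', ∀ y ∈ T', x * y = y * x := by
    rw [hT']
    rintro _ ⟨s, hs, rfl⟩ _ ⟨s', hs', rfl⟩
    rw [← QuotientGroup.mk_mul, ← QuotientGroup.mk_mul, QuotientGroup.eq, hE'm]
    have h1 := hc s.1⁻¹⁻¹ (by rw [inv_inv]; exact hs) s'.1 hs'
    have h2 : ((s * s')⁻¹ * (s' * s) : Z).1 =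
        (s.1 * s'.1)⁻¹ * (s.1 * s'.1 * s.1⁻¹ * s'.1⁻¹)⁻¹ * (s.1 * s'.1) := by
      show (s.1 * s'.1)⁻¹ * (s'.1 * s.1) = _
      group
    rw [h2]
    have h3 := hE (s.1 * s'.1)⁻¹ (Z.inv_mem (Z.mul_mem s.2 s'.2)) _
      (E.inv_mem (hc s.1 hs s'.1 hs'))
    rwa [inv_inv] at h3
  have hpw : ∀ q ∈ Subgroup.closure T', q ^ n = 1 := by
    intro q hq
    induction hq using Subgroup.closure_induction with
    | mem x hx =>
      rw [hT'] at hx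
      obtain ⟨s, hs, rfl⟩ := hx
      rw [← QuotientGroup.mk_pow, QuotientGroup.eq_one_iff, hE'm]
      exact hn s.1 hs
    | one => exact one_pow n
    | mul x y hx hy h1 h2 =>
      have h3 : Commute x y := by
        have h4 := (Subgroup.isMulCommutative_closure hcom).is_comm.comm ⟨x, hx⟩ ⟨y, hy⟩
        exact congrArg Subtype.val h4
      rw [h3.mul_pow, h1, h2, one_mul]
    | inv x hx h1 => rw [inv_pow, h1, inv_one]
  have hle : Subgroup.closure T ⊔ E ≤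
      ((Subgroup.closure T').comap (QuotientGroup.mk' E')).map Z.subtype := by
    refine sup_le ?_ ?_
    · rw [Subgroup.closure_le]
      intro s hs
      refine ⟨⟨s, hT s hs⟩, ?_, rfl⟩
      refine Subgroup.subset_closure ?_
      rw [hT']
      exact ⟨⟨s, hT s hs⟩, hs, rfl⟩
    · intro s hs
      refine ⟨⟨s, hEZ hs⟩, ?_, rfl⟩
      show (QuotientGroup.mk ⟨s, hEZ hs⟩ : Z ⧸ E') ∈ Subgroup.closure T'
      have h1 : (QuotientGroup.mk ⟨s, hEZ hs⟩ : Z ⧸ E') = 1 := by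
        rw [QuotientGroup.eq_one_iff, hE'm]
        exact hs
      rw [h1]
      exact Subgroup.one_mem _
  intro s hs
  obtain ⟨z, hz, rfl⟩ := hle hs
  have h1 := hpw _ hz
  have h2 : (QuotientGroup.mk (z ^ n) : Z ⧸ E') = 1 := h1
  rw [QuotientGroup.eq_one_iff, hE'm] at h2
  exact h2

end grp

section g1
variable {V G : Type*} [Group G] [MulAction G V] {Γ : SimpleGraph V} {d p : ℕ}

/-- transitivity of the lower group -/
theorem g1 (h : Loc G Γ d) {x y : V} (hxy : Γ.Adj x y) {L L0 : Subgroup G}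
    (hR : L ≤ stabilizer G x) (hRn : Nm (stabilizer G x) L) (hL0 : Nm (stabilizer G x) L0)
    {q : ℕ} (hq : q.Prime) (hpw : ∀ l ∈ L, ∃ k : ℕ, l ^ q ^ k ∈ L0) {a : G} (ha : a ∈ L)
    (haB : a ∈ B x y) (haK : a ∉ (K Γ x : Subgroup G)) :
    ∀ y y', Γ.Adj x y → Γ.Adj x y' → ∃ n ∈ L0, n • y = y' := by
  have hfs := h.fin x
  have hfin : {J : Subgroup G | J ≤ L ∧ Nm (stabilizer G x) J ∧ ¬ J ⊓ B x y ≤ K Γ x}.Finite :=
    (finite_Iic (stabilizer G x)).subset (fun J hJ => hJ.1.trans hR)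
  obtain ⟨J, hJ⟩ := hfin.exists_minimal ⟨L, le_refl L, hRn, fun hcon => haK (hcon ⟨ha, haB⟩)⟩
  obtain ⟨⟨hJR, hJn, hJK⟩, hJm⟩ := hJ
  have hJs := hJR.trans hR
  have hJf := h.fin_le hJs
  have ht : ∀ y y', Γ.Adj x y → Γ.Adj x y' → ∃ n ∈ J, n • y = y' := by
    rcases h.sp x J hJs hJn with h1 | h1
    · exact h1
    · exfalso
      exact hJK (fun g hg => h1 g hg.1 y hxy hg.2.2)
  obtain ⟨P, hP⟩ : ∃ P, P = J ⊓ B x y := ⟨_, rfl⟩
  have hPJ : P ≤ J := by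
    rw [hP]
    exact inf_le_left
  have hPB : Nm (B x y) P := by
    rw [hP]
    exact (hJn.mono (B_le x y)).inf (nm_self _)
  -- proper normal subgroups of `J` do not contain `P`
  have hno : ∀ M : Subgroup G, M ≤ J → M ≠ J → Nm J M → P ≤ M → False := by
    intro M hMJ hMne hMn hPM
    obtain ⟨J1, hJ1⟩ : ∃ J1 : Subgroup G, J1 = ⨆ j : J, cj j.1 P := ⟨_, rfl⟩
    have hJ1M : J1 ≤ M := by
      rw [hJ1]
      refine iSup_le (fun j => ?_)
      intro g hg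
      rw [mem_cj] at hg
      have h1 := hMn j.1 j.2 _ (hPM hg)
      have e : j.1 * (j.1⁻¹ * g * j.1) * j.1⁻¹ = g := by group
      rwa [e] at h1
    have hPJ1 : P ≤ J1 := by
      rw [hJ1]
      have h1 := le_iSup (fun j : J => cj j.1 P) 1
      have h2 : cj (1 : J).1 P = P := by
        ext z
        rw [mem_cj]
        show (1 : G)⁻¹ * z * 1 ∈ P ↔ z ∈ P
        rw [inv_one, one_mul, mul_one]
      rw [h2] at h1
      exact h1
    have hJ1J : Nm J J1 := by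
      rw [hJ1]
      refine Nm.iSup ?_
      intro b hb j n hn
      have h1 : b * n * b⁻¹ ∈ cj (⟨b, hb⟩ * j : J).1 P := by
        show b * n * b⁻¹ ∈ cj (b * j.1) P
        rw [cj_mul]
        exact conj_mem_cj hn
      have h3 := le_iSup (fun j : J => cj j.1 P) (⟨b, hb⟩ * j)
      exact h3 h1
    have hJ1B : Nm (B x y) J1 := by
      rw [hJ1]
      refine Nm.iSup ?_
      intro b hb j n hn
      have hj : b * j.1 * b⁻¹ ∈ J := hJn b (B_le x y hb) j.1 j.2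
      have h1 : b * n * b⁻¹ ∈ cj (b * j.1 * b⁻¹) P := by
        rw [mem_cj] at hn ⊢
        have h2 := hPB b hb _ hn
        have e : b * (j.1⁻¹ * n * j.1) * b⁻¹ =
            (b * j.1 * b⁻¹)⁻¹ * (b * n * b⁻¹) * (b * j.1 * b⁻¹) := by group
        rwa [e] at h2
      have h3 := le_iSup (fun j : J => cj j.1 P) ⟨b * j.1 * b⁻¹, hj⟩
      exact h3 h1
    have hJ1s : Nm (stabilizer G x) J1 := nm_st hJs ht h hxy hJ1J hJ1B
    have h1 : J ≤ J1 := by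
      refine hJm ⟨(hJ1M.trans hMJ).trans hJR, hJ1s, ?_⟩ (hJ1M.trans hMJ)
      intro hcon
      apply hJK
      rw [← hP]
      exact (le_inf hPJ1 (by rw [hP]; exact inf_le_right)).trans hcon
    exact hMne (le_antisymm hMJ (h1.trans hJ1M))
  obtain ⟨D, hD⟩ : ∃ D : Subgroup G, D = J ⊓ L0 := ⟨_, rfl⟩
  have hDJ : D ≤ J := by
    rw [hD]
    exact inf_le_left
  have hDn : Nm J D := by
    rw [hD]
    exact (nm_self J).inf (hL0.mono hJs)
  have hfac : ∀ j ∈ J, ∃ a ∈ P, ∃ b ∈ D, j = a * b := by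
    by_contra hcon
    push Not at hcon
    obtain ⟨M, hM1, hM2, hM3, hM4⟩ := pq hq hJf hDJ hDn hPJ (by
      intro j hj
      obtain ⟨k, hk⟩ := hpw j (hJR hj)
      refine ⟨k, ?_⟩
      rw [hD]
      exact ⟨J.pow_mem hj _, hk⟩) hcon
    exact hno M hM1 hM2 hM3 hM4
  have hfix : ∀ y', Γ.Adj x y' → ∃ n ∈ D, n • y = y' := by
    intro y' hy'
    obtain ⟨n, hn, hn'⟩ := ht y y' hxy hy'
    obtain ⟨a, ha, b, hb, hab⟩ := hfac n⁻¹ (J.inv_mem hn)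
    refine ⟨b⁻¹, D.inv_mem hb, ?_⟩
    have h1 : b⁻¹ = n * a := by
      have : n = (a * b)⁻¹ := by
        rw [← hab, inv_inv]
      rw [this]
      group
    rw [hP] at ha
    rw [h1, mul_smul, (ha.2).2, hn']
  intro y1 y2 hy1 hy2
  obtain ⟨n1, hn1, hn1'⟩ := hfix y1 hy1
  obtain ⟨n2, hn2, hn2'⟩ := hfix y2 hy2
  rw [hD] at hn1 hn2
  refine ⟨n2 * n1⁻¹, L0.mul_mem hn2.2 (L0.inv_mem hn1.2), ?_⟩
  rw [mul_smul, ← hn1', inv_smul_smul, hn2']

/-- the local configuration -/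
structure Cfg (Γ : SimpleGraph V) (p : ℕ) (x y : V) (N R : Subgroup G) (t : G) : Prop where
  RN : R ≤ N
  Nh : N ≤ Nh Γ p x
  nN : Nm (stabilizer G x) N
  nR : Nm (stabilizer G x) R
  tr : ∀ y y', Γ.Adj x y → Γ.Adj x y' → ∃ n ∈ N, n • y = y'
  NB : ∀ n ∈ N, n ∈ B x y → n ∈ (K Γ x : Subgroup G)
  NK : ∀ n ∈ N, n ∈ (K Γ x : Subgroup G) → n ∈ R
  ab : ∀ a ∈ N, ∀ b ∈ N, a * b * a⁻¹ * b⁻¹ ∈ R
  ex : ∀ a ∈ N, a ^ (5 - p) ∈ R
  tQ : t ∈ (Qe p x y : Subgroup G)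
  tp : t ^ p = 1
  nt : ¬ ∀ n ∈ N, t * n * t⁻¹ * n⁻¹ ∈ R
  cm : ∀ g ∈ stabilizer G x, t * (g * t * g⁻¹) * t⁻¹ * (g * t * g⁻¹)⁻¹ ∈ N
  mn : ∀ M : Subgroup G, R ≤ M → M ≤ N → Nm (stabilizer G x) M → M = R ∨ M = N
  ix : ∀ C : Subgroup G, (∀ n, n ∈ C ↔ n ∈ N ∧ t * n * t⁻¹ * n⁻¹ ∈ R) →
    C.relIndex N ≤ p + 1

end g1

end Pool.Agent.Work.MP_6d7bb4.helper94
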