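import Pool.Agent.Work.MP_6d7bb4_helper94.Lc

/-! # MP_6d7bb4: existence of the local configuration (helper94) -/

set_option autoImplicit false
set_option linter.unusedSectionVars false

namespace Pool.Agent.Work.MP_6d7bb4.helper94

open MulAction Tv Ff Ps
open scoped commutatorElement

section cfg
variable {V G : Type*} [Group G] [MulAction G V] {Γ : SimpleGraph V} {d p : ℕ}

theorem conj_el {G : Type*} [Group G] (n t : G) : n * t * n⁻¹ * t⁻¹ = (t * n * t⁻¹ * n⁻¹)⁻¹ := by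
  group

/-- the configuration from the module -/
theorem cfg_of [Fact p.Prime] (h : Loc G Γ d) (hp23 : p = 2 ∨ p = 3) {w w' : V}
    (hww : Γ.Adj w w') (hps : PSol p (Nh Γ p w : Subgroup G)) {W : Subgroup G}
    (hcW : ∀ q ∈ (Qv Γ p w : Subgroup G), ∀ v ∈ W, q * v = v * q)
    {U : Type*} [AddCommGroup U] [Finite U] [Module (ZMod p) U]
    {ψ : (stabilizer G w) →* (AddMonoid.End U)ˣ}
    (hker : ∀ x : stabilizer G w, (∀ v ∈ W, x.1 * v = v * x.1) → ψ x = 1)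
    (hnp : ∀ N : Subgroup (AddMonoid.End U)ˣ, N ≤ ψ.range → Nm ψ.range N → IsPGroup p N → N = ⊥)
    {t0 : stabilizer G w} (htQ : t0.1 ∈ (Qe p w w' : Subgroup G)) (htp : t0.1 ^ p = 1)
    {e : U} {f : U →+ ZMod p} (hTV : TV (ψ t0) e f) : ∃ N R, Cfg Γ p w w' N R t0.1 := by
  have hfs := h.fin w
  obtain ⟨Z, hZ⟩ : ∃ Z, Z = ψ.range := ⟨_, rfl⟩
  obtain ⟨Y, hY⟩ : ∃ Y, Y = ((Nh Γ p w : Subgroup G).subgroupOf (stabilizer G w)).map ψ :=
    ⟨_, rfl⟩
  have hNhs : Nm (stabilizer G w) (Nh Γ p w : Subgroup G) := nm_of_equiv (Nh_cj h) w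
  have hYm : ∀ g : stabilizer G w, g.1 ∈ (Nh Γ p w : Subgroup G) → ψ g ∈ Y := by
    intro g hg
    rw [hY]
    exact ⟨g, hg, rfl⟩
  have hYZ : Y ≤ Z := by
    rw [hY, hZ]
    rintro _ ⟨g, _, rfl⟩
    exact ⟨g, rfl⟩
  have hZm : ∀ g : stabilizer G w, ψ g ∈ Z := by
    intro g
    rw [hZ]
    exact ⟨g, rfl⟩
  have hYn : Nm Z Y := by
    rw [hY, hZ]
    rintro _ ⟨g, rfl⟩ _ ⟨n, hn, rfl⟩
    refine ⟨g * n * g⁻¹, hNhs g.1 g.2 n.1 hn, ?_⟩
    rw [map_mul, map_mul, map_inv]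
  have hYf : Finite Y := by
    rw [hY]
    exact Finite.of_surjective _ (ψ.subgroupMap_surjective _)
  have hYps : PSol p Y := by
    have hfN := h.fin_le (Nh_le (Γ := Γ) (p := p) (G := G) w)
    have h1 := psol_range (Fact.out : p.Prime)
      (ψ.comp (Subgroup.inclusion (Nh_le (Γ := Γ) (p := p) (G := G) w))) (psol_top hps)
    have h2 : (ψ.comp (Subgroup.inclusion (Nh_le (Γ := Γ) (p := p) (G := G) w))).range = Y := by
      rw [hY]
      ext s
      constructor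
      · rintro ⟨n, rfl⟩
        exact ⟨⟨n.1, Nh_le w n.2⟩, n.2, rfl⟩
      · rintro ⟨n, hn, rfl⟩
        exact ⟨⟨n.1, hn⟩, rfl⟩
    rwa [h2] at h1
  have hnp' : ∀ N : Subgroup (AddMonoid.End U)ˣ, N ≤ Y → Nm Z N → IsPGroup p N → N = ⊥ := by
    intro N h1 h2 h3
    rw [hZ] at h2 hYZ
    exact hnp N (h1.trans hYZ) h2 h3
  have htNh : t0.1 ∈ (Nh Γ p w : Subgroup G) := Qe_le_Nh hww htQ
  obtain ⟨t, ht⟩ : ∃ t, t = ψ t0 := ⟨_, rfl⟩
  rw [← ht] at hTV
  have htY : t ∈ Y := by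
    rw [ht]
    exact hYm t0 htNh
  obtain ⟨E, D, hED, hCo⟩ := exists_E hp23 hYf hYZ hYn hYps hnp' hTV htY
  -- preimages
  obtain ⟨pre, hpre⟩ : ∃ pre : Subgroup (AddMonoid.End U)ˣ → Subgroup G, ∀ S,
      pre S = (S.comap ψ).map (stabilizer G w).subtype ⊓ Nh Γ p w := ⟨_, fun _ => rfl⟩
  have hm : ∀ S (g : stabilizer G w), g.1 ∈ pre S ↔ ψ g ∈ S ∧
      g.1 ∈ (Nh Γ p w : Subgroup G) := by
    intro S g
    rw [hpre, Subgroup.mem_inf]
    refine and_congr_left (fun _ => ?_)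
    constructor
    · rintro ⟨g', hg', hgg⟩
      have h1 : g' = g := Subtype.ext hgg
      rw [← h1]
      exact hg'
    · intro hg
      exact ⟨g, hg, rfl⟩
  have hpN : ∀ S, pre S ≤ Nh Γ p w := by
    intro S
    rw [hpre]
    exact inf_le_right
  have hps' : ∀ S, pre S ≤ stabilizer G w := fun S => (hpN S).trans (Nh_le w)
  have hpn : ∀ S, Nm Z S → Nm (stabilizer G w) (pre S) := by
    intro S hS g hg n hn
    have hns := hps' S hn
    have h1 := (hm S ⟨n, hns⟩).mp hn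
    refine (hm S (⟨g, hg⟩ * ⟨n, hns⟩ * ⟨g, hg⟩⁻¹)).mpr ⟨?_, hNhs g hg n h1.2⟩
    rw [map_mul, map_mul, map_inv]
    exact hS _ (hZm _) _ h1.1
  have hmono : ∀ {S S'}, S ≤ S' → pre S ≤ pre S' := by
    intro S S' hS n hn
    have hns := hps' S hn
    have h1 := (hm S ⟨n, hns⟩).mp hn
    exact (hm S' ⟨n, hns⟩).mpr ⟨hS h1.1, h1.2⟩
  have htK : t0.1 ∉ (K Γ w : Subgroup G) := by
    intro hcon
    apply hTV.ne1
    rw [ht]
    refine hker t0 (hcW t0.1 ?_)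
    rw [Qv_eq h hww]
    exact ⟨htQ, hcon⟩
  have hinvZ : ∀ {g}, g ∈ Z → g⁻¹ ∈ Z := fun hg => Z.inv_mem hg
  -- `pre D` is not transitive
  have hT0 : ¬ ∀ y y', Γ.Adj w y → Γ.Adj w y' → ∃ n ∈ pre D, n • y = y' := by
    intro htr
    obtain ⟨T, hT⟩ : ∃ T : Subgroup (AddMonoid.End U)ˣ,
        T = Subgroup.closure {s | ∃ g : stabilizer G w, s = ψ g * t * (ψ g)⁻¹} := ⟨_, rfl⟩
    have hTQ : T ≤ ((Qe p w w' : Subgroup G).subgroupOf (stabilizer G w)).map ψ := by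
      rw [hT, Subgroup.closure_le]
      rintro _ ⟨g, rfl⟩
      have hga : Γ.Adj w (g.1⁻¹ • w') := by
        have h1 : Γ.Adj (g.1⁻¹ • w) (g.1⁻¹ • w') := h.adj _ _ _ hww
        have h2 : g.1⁻¹ • w = w := mem_stabilizer_iff.mp ((stabilizer G w).inv_mem g.2)
        rwa [h2] at h1
      obtain ⟨n, hn, hnw⟩ := htr w' (g.1⁻¹ • w') hww hga
      have hns := hps' D hn
      have hnD := ((hm D ⟨n, hns⟩).mp hn).1
      have hb : (g * ⟨n, hns⟩ : stabilizer G w).1 ∈ B w w' := by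
        refine ⟨(g * ⟨n, hns⟩ : stabilizer G w).2, ?_⟩
        show (g.1 * n) • w' = w'
        rw [mul_smul, hnw, smul_inv_smul]
      have h3 := nm_Qe h w w' _ hb _ htQ
      refine ⟨(g * ⟨n, hns⟩) * t0 * (g * ⟨n, hns⟩)⁻¹, h3, ?_⟩
      have h4 : t * ψ ⟨n, hns⟩ = ψ ⟨n, hns⟩ * t := by
        have := hED.td 1 Z.one_mem _ hnD
        rwa [one_mul, inv_one, mul_one] at this
      rw [map_mul, map_mul, map_mul, map_inv, map_mul, ← ht]
      calc ψ g * ψ ⟨n, hns⟩ * t * (ψ g * ψ ⟨n, hns⟩)⁻¹ =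
          ψ g * (ψ ⟨n, hns⟩ * t) * (ψ ⟨n, hns⟩)⁻¹ * (ψ g)⁻¹ := by group
        _ = ψ g * t * (ψ g)⁻¹ := by
          rw [← h4]
          group
    have hTp : IsPGroup p T := by
      refine IsPGroup.to_le ?_ hTQ
      exact IsPGroup.map ((Qe_isP h w w').comap_of_injective (stabilizer G w).subtype
        (Subgroup.subtype_injective _)) _
    have hTn : Nm ψ.range T := by
      rintro _ ⟨g, rfl⟩ s hs
      rw [hT] at hs ⊢
      have h1 : Subgroup.closure {s | ∃ g : stabilizer G w, s = ψ g * t * (ψ g)⁻¹} ≤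
          (Subgroup.closure {s | ∃ g : stabilizer G w, s = ψ g * t * (ψ g)⁻¹}).comap
            (MulAut.conj (ψ g)).toMonoidHom := by
        rw [Subgroup.closure_le]
        rintro _ ⟨k, rfl⟩
        refine Subgroup.subset_closure ⟨g * k, ?_⟩
        show ψ g * (ψ k * t * (ψ k)⁻¹) * (ψ g)⁻¹ = _
        rw [map_mul]
        group
      exact h1 hs
    have hTb := hnp T (hTQ.trans (by
      rintro _ ⟨g, _, rfl⟩
      exact ⟨g, rfl⟩)) hTn hTp
    apply hTV.ne1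
    have h1 : t ∈ T := by
      rw [hT]
      refine Subgroup.subset_closure ⟨1, ?_⟩
      rw [map_one, one_mul, inv_one, mul_one]
    rw [hTb] at h1
    exact Subgroup.mem_bot.mp h1
  have hr : (5 - p).Prime := by
    rcases hp23 with rfl | rfl
    · norm_num
    · norm_num
  have hDE := hmono hED.DE
  have hmw : ∀ {S} {n : G} (hn : n ∈ pre S), ψ ⟨n, hps' S hn⟩ ∈ S := fun {S} {n} hn =>
    ((hm S ⟨n, hps' S hn⟩).mp hn).1
  have hNB : ∀ n ∈ pre E, n ∈ B w w' → n ∈ (K Γ w : Subgroup G) := by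
    intro n hn hnB
    by_contra hnK
    refine hT0 (g1 h hww (hps' E) (hpn E hED.nE) (hpn D hED.nD) hr ?_ hn hnB hnK)
    intro l hl
    refine ⟨1, ?_⟩
    have hls := hps' E hl
    refine (hm D (⟨l, hls⟩ ^ (5 - p) ^ 1)).mpr ⟨?_, Subgroup.pow_mem _ (hpN E hl) _⟩
    rw [map_pow, pow_one]
    exact hED.ex _ (hmw hl)
  have hNtr : ∀ y y', Γ.Adj w y → Γ.Adj w y' → ∃ n ∈ pre E, n • y = y' := by
    obtain ⟨T, hT⟩ : ∃ T : Set (AddMonoid.End U)ˣ,
        T = {s | ∃ g : stabilizer G w, s = ψ g * t * (ψ g)⁻¹} := ⟨_, rfl⟩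
    have hTZ : ∀ s ∈ T, s ∈ Z := by
      rw [hT]
      rintro _ ⟨g, rfl⟩
      exact Z.mul_mem (Z.mul_mem (hZm g) (hYZ htY)) (Z.inv_mem (hZm g))
    have hEZ : E ≤ Z := hED.EY.trans hYZ
    have hgp := gen_pw (n := p) hED.nE hEZ hTZ (by
      rw [hT]
      rintro _ ⟨g, rfl⟩ _ ⟨k, rfl⟩
      exact hED.cm _ (hZm g) _ (hZm k)) (by
      rw [hT]
      rintro _ ⟨g, rfl⟩
      rw [conj_pow, hTV.pow_p, mul_one, mul_inv_cancel]
      exact E.one_mem)
    have hLn : Nm Z (Subgroup.closure T ⊔ E) := by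
      refine Nm.sup ?_ hED.nE
      rw [hZ]
      rintro _ ⟨g, rfl⟩ s hs
      have h1 : Subgroup.closure T ≤ (Subgroup.closure T).comap
          (MulAut.conj (ψ g)).toMonoidHom := by
        rw [Subgroup.closure_le]
        intro s hs
        rw [hT] at hs
        obtain ⟨k, rfl⟩ := hs
        refine Subgroup.subset_closure ?_
        rw [hT]
        refine ⟨g * k, ?_⟩
        show ψ g * (ψ k * t * (ψ k)⁻¹) * (ψ g)⁻¹ = _
        rw [map_mul]
        group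
      exact h1 hs
    have htT : t0.1 ∈ pre (Subgroup.closure T ⊔ E) := by
      refine (hm _ t0).mpr ⟨?_, htNh⟩
      rw [← ht]
      refine Subgroup.mem_sup_left (Subgroup.subset_closure ?_)
      rw [hT]
      refine ⟨1, ?_⟩
      rw [map_one, one_mul, inv_one, mul_one]
    refine g1 h hww (hps' _) (hpn _ hLn) (hpn E hED.nE) (Fact.out : p.Prime) ?_ htT
      (Qe_le w w' htQ) htK
    intro l hl
    refine ⟨1, ?_⟩
    have hls := hps' _ hl
    refine (hm E (⟨l, hls⟩ ^ p ^ 1)).mpr ⟨?_, Subgroup.pow_mem _ (hpN _ hl) _⟩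
    rw [map_pow, pow_one]
    exact hgp _ (hmw hl)
  have hEY : ∀ s ∈ E, ∃ n : stabilizer G w, n.1 ∈ pre E ∧ ψ n = s := by
    intro s hs
    have h1 := hED.EY hs
    rw [hY] at h1
    obtain ⟨n, hn, rfl⟩ := h1
    exact ⟨n, (hm E n).mpr ⟨hs, hn⟩, rfl⟩
  refine ⟨pre E, pre D, hDE, hpN E, hpn E hED.nE, hpn D hED.nD, hNtr, hNB, ?_, ?_, ?_, htQ,
    htp, ?_, ?_, ?_, ?_⟩
  · -- kernel elements
    intro n hn hnK
    have hns := hps' E hn
    refine (hm D ⟨n, hns⟩).mpr ⟨hED.zd _ (hmw hn) ?_, hpN E hn⟩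
    intro y hy
    rw [hY] at hy
    obtain ⟨m, hm', rfl⟩ := hy
    have h1 := K_Nh h hnK hm'
    have h2 : ψ (⟨n, hns⟩ * m * ⟨n, hns⟩⁻¹ * m⁻¹) = 1 := hker _ (hcW _ h1)
    rw [map_mul, map_mul, map_mul, map_inv, map_inv] at h2
    have h3 := mul_inv_eq_one.mp h2
    exact (mul_inv_eq_iff_eq_mul.mp h3).symm
  · intro a ha b hb
    have has := hps' E ha
    have hbs := hps' E hb
    refine (hm D (⟨a, has⟩ * ⟨b, hbs⟩ * ⟨a, has⟩⁻¹ * ⟨b, hbs⟩⁻¹)).mpr ⟨?_, ?_⟩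
    · rw [map_mul, map_mul, map_mul, map_inv, map_inv]
      exact hED.ab _ (hmw ha) _ (hmw hb)
    · exact Subgroup.mul_mem _ (Subgroup.mul_mem _ (Subgroup.mul_mem _ (hpN E ha) (hpN E hb))
        (Subgroup.inv_mem _ (hpN E ha))) (Subgroup.inv_mem _ (hpN E hb))
  · intro a ha
    have has := hps' E ha
    refine (hm D (⟨a, has⟩ ^ (5 - p))).mpr ⟨?_, Subgroup.pow_mem _ (hpN E ha) _⟩
    rw [map_pow]
    exact hED.ex _ (hmw ha)
  · intro hcon
    apply hED.nt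
    intro s hs
    obtain ⟨n, hn, rfl⟩ := hEY s hs
    have h1 := hcon n.1 hn
    have h2 := ((hm D (t0 * n * t0⁻¹ * n⁻¹)).mp h1).1
    rw [map_mul, map_mul, map_mul, map_inv, map_inv, ← ht] at h2
    exact h2
  · intro g hg
    refine (hm E (t0 * (⟨g, hg⟩ * t0 * ⟨g, hg⟩⁻¹) * t0⁻¹ * (⟨g, hg⟩ * t0 * ⟨g, hg⟩⁻¹)⁻¹)).mpr
      ⟨?_, ?_⟩
    · have h1 := hED.cm 1 Z.one_mem _ (hZm ⟨g, hg⟩)
      rw [one_mul, inv_one, mul_one] at h1
      rw [map_mul, map_mul, map_mul, map_inv, map_inv, map_mul, map_mul, map_inv, ← ht]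
      exact h1
    · have h2 := hNhs g hg _ htNh
      exact Subgroup.mul_mem _ (Subgroup.mul_mem _ (Subgroup.mul_mem _ htNh h2)
        (Subgroup.inv_mem _ htNh)) (Subgroup.inv_mem _ h2)
  · intro M hM1 hM2 hM3
    have hMs : M ≤ stabilizer G w := hM2.trans (hps' E)
    rcases hED.mn ((M.subgroupOf (stabilizer G w)).map ψ) (by
      rintro _ ⟨m, hm', rfl⟩
      exact hmw (hM2 hm')) (by
      rw [hZ]
      rintro _ ⟨g, rfl⟩ _ ⟨m, hm', rfl⟩
      refine ⟨g * m * g⁻¹, hM3 g.1 g.2 m.1 hm', ?_⟩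
      rw [map_mul, map_mul, map_inv]) with h1 | h1
    · right
      refine le_antisymm hM2 ?_
      intro n hn
      obtain ⟨m, hm', hmn⟩ := h1.ge (hmw hn)
      have h3 : (m⁻¹ * ⟨n, hps' E hn⟩ : stabilizer G w).1 ∈ pre D := by
        refine (hm D _).mpr ⟨?_, ?_⟩
        · rw [map_mul, map_inv, hmn, inv_mul_cancel]
          exact D.one_mem
        · exact Subgroup.mul_mem _ (Subgroup.inv_mem _ (hpN E (hM2 hm'))) (hpN E hn)
      have h4 := M.mul_mem hm' (hM1 h3)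
      have h5 : m.1 * (m⁻¹ * ⟨n, hps' E hn⟩ : stabilizer G w).1 = n := by
        show m.1 * (m.1⁻¹ * n) = n
        group
      rw [← h5]
      exact h4
    · left
      refine le_antisymm ?_ hM1
      intro m hm'
      exact (hm D ⟨m, hMs hm'⟩).mpr ⟨h1 ⟨⟨m, hMs hm'⟩, hm', rfl⟩, hpN E (hM2 hm')⟩
  · intro C hC
    have hCs : C ≤ stabilizer G w := fun c hc => hps' E ((hC c).mp hc).1
    obtain ⟨C', hC'⟩ : ∃ C', C' = (C.subgroupOf (stabilizer G w)).map ψ := ⟨_, rfl⟩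
    have hC'm : ∀ x, x ∈ C' ↔ x ∈ E ∧ t * x * t⁻¹ * x⁻¹ ∈ D := by
      intro x
      rw [hC']
      constructor
      · rintro ⟨n, hn, rfl⟩
        have h1 := (hC n.1).mp hn
        refine ⟨hmw h1.1, ?_⟩
        have h2 := ((hm D (t0 * n * t0⁻¹ * n⁻¹)).mp h1.2).1
        rw [map_mul, map_mul, map_mul, map_inv, map_inv, ← ht] at h2
        exact h2
      · rintro ⟨h1, h2⟩
        obtain ⟨n, hn, rfl⟩ := hEY x h1
        refine ⟨n, (hC n.1).mpr ⟨hn, (hm D (t0 * n * t0⁻¹ * n⁻¹)).mpr ⟨?_, ?_⟩⟩, rfl⟩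
        · rw [map_mul, map_mul, map_mul, map_inv, map_inv, ← ht]
          exact h2
        · exact Subgroup.mul_mem _ (Subgroup.mul_mem _ (Subgroup.mul_mem _ htNh (hpN E hn))
            (Subgroup.inv_mem _ htNh)) (Subgroup.inv_mem _ (hpN E hn))
    have h1 := hED.ix C' hC'm
    have h2 : C.relIndex (pre E) = C'.relIndex E := by
      rw [← Subgroup.relIndex_subgroupOf (hps' E)]
      have h3 : C.subgroupOf (stabilizer G w) =
          C'.comap ψ ⊓ (pre E).subgroupOf (stabilizer G w) := by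
        ext n
        rw [Subgroup.mem_inf, Subgroup.mem_comap, Subgroup.mem_subgroupOf,
          Subgroup.mem_subgroupOf]
        constructor
        · intro hn
          exact ⟨by rw [hC']; exact ⟨n, hn, rfl⟩, ((hC n.1).mp hn).1⟩
        · rintro ⟨h4, h5⟩
          rw [hC'm] at h4
          refine (hC n.1).mpr ⟨h5, (hm D (t0 * n * t0⁻¹ * n⁻¹)).mpr ⟨?_, ?_⟩⟩
          · rw [map_mul, map_mul, map_mul, map_inv, map_inv, ← ht]
            exact h4.2
          · exact Subgroup.mul_mem _ (Subgroup.mul_mem _ (Subgroup.mul_mem _ htNh (hpN E h5))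
              (Subgroup.inv_mem _ htNh)) (Subgroup.inv_mem _ (hpN E h5))
      rw [h3, Subgroup.inf_relIndex_right, Subgroup.relIndex_comap]
      congr 1
      ext x
      constructor
      · rintro ⟨n, hn, rfl⟩
        exact hmw hn
      · intro hx
        obtain ⟨n, hn, rfl⟩ := hEY x hx
        exact ⟨n, hn, rfl⟩
    rw [h2]
    exact h1

end cfg

end Pool.Agent.Work.MP_6d7bb4.helper94
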