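import Pool.Agent.Work.MP_6d7bb4_helper94.Lc2

/-! # MP_6d7bb4: existence of the local configuration, end of the proof (helper94) -/

set_option autoImplicit false
set_option linter.unusedSectionVars false

namespace Pool.Agent.Work.MP_6d7bb4.helper94

open MulAction Tv Ff Ps
open scoped commutatorElement

section cfg
variable {V G : Type*} [Group G] [MulAction G V] {Γ : SimpleGraph V} {d p : ℕ}

theorem cfg_ex [Fact p.Prime] (h : Loc G Γ d) (hB : CB0 G Γ p) (hp23 : p = 2 ∨ p = 3)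
    {x0 y0 : V} (hxy0 : Γ.Adj x0 y0) (hps : ∀ w, PSol p (Nh Γ p w : Subgroup G)) :
    ∃ (x y : V) (N R : Subgroup G) (t : G), Γ.Adj x y ∧ Cfg Γ p x y N R t := by
  obtain ⟨ζ, hz⟩ := zt_exists h hB hxy0
  have hp : p.Prime := Fact.out
  have hVs : ∀ x, VZ Γ ζ x ≤ stabilizer G x := fun x => (VZ_le_Qv h hB hz x).trans (Qv_le_st x)
  have hact := fun w => mod_ex (p := p) hp (X := stabilizer G w) (V := VZ Γ ζ w)
    (h.fin w) (h.fin_le (hVs w)) (nm_VZ h hz w)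
    (fun u hu v hv => VZ_comm h hB hz (VZ_le_Qv h hB hz w hu) hv)
    (fun v hv => VZ_pow h hB hz hv)
  choose Rf hR hA using hact
  have hRcj : ∀ (g : G) x, Rf (g • x) = cj g (Rf x) := by
    intro g x
    have h1 := (hR x).cj g
    rw [← st_cj, ← VZ_cj h hz] at h1
    exact (hR (g • x)).unique h1
  have hRn : ∀ x, Nm (stabilizer G x) (Rf x) := nm_of_equiv hRcj
  have hRs : ∀ x, Rf x ≤ stabilizer G x := fun x => (hR x).le
  have c1 : ∀ {x y : V}, Γ.Adj x y → ∀ a ∈ Rf x, a ∈ B x y → a ∈ (K Γ x : Subgroup G) :=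
    fun {x y} hxy a ha haB => nc_lem h hz hxy (hRs x) (hRn x) (hR x).pa ha haB
  -- the groups `Rf x ⊓ K x` centralise `VZ x`
  have hSB : ∀ {x y : V}, Γ.Adj x y → Rf x ⊓ K Γ x ≤ B x y := fun {x y} hxy =>
    inf_le_right.trans (K_le_B hxy)
  have hSn : ∀ x, Nm (stabilizer G x) (Rf x ⊓ K Γ x) := fun x => (hRn x).inf (nm_K h x)
  have hScj : ∀ (g : G) x z, z ∈ Rf x ⊓ K Γ x → g * z * g⁻¹ ∈ Rf (g • x) ⊓ K Γ (g • x) := by
    intro g x z hz'
    rw [hRcj, K_cj h]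
    exact ⟨conj_mem_cj hz'.1, conj_mem_cj hz'.2⟩
  have c2 : ∀ {x y : V}, Γ.Adj x y → ∀ s ∈ Rf x ⊓ K Γ x, ∀ z ∈ ζ x y, s * z = z * s := by
    intro x y hxy
    have hζle := hz.le x y hxy
    have hζQ : ζ x y ≤ Qe p x y := hζle.trans (OZ_le _ _)
    have hζf : Finite (ζ x y) := h.fin_le (hζQ.trans (Qe_le_st x y))
    have hpa : ∀ {x y : V}, Γ.Adj x y → PAct p (Rf x ⊓ K Γ x) (ζ x y) := by
      intro x y hxy n hn
      obtain ⟨k, hk⟩ := (hR x).pa n hn.1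
      exact ⟨k, fun v hv => hk v (z_le_VZ hxy hv)⟩
    obtain ⟨Z1, hZ1⟩ : ∃ Z1 : Subgroup G, ∀ z, z ∈ Z1 ↔ z ∈ ζ x y ∧
        ∀ s ∈ Rf x ⊓ K Γ x, s * z = z * s :=
      ⟨ζ x y ⊓ Subgroup.centralizer (Rf x ⊓ K Γ x : Subgroup G), fun z => by
        rw [Subgroup.mem_inf, Subgroup.mem_centralizer_iff]
        rfl⟩
    obtain ⟨Z2, hZ2⟩ : ∃ Z2 : Subgroup G, ∀ z, z ∈ Z2 ↔ z ∈ Z1 ∧
        ∀ s ∈ Rf y ⊓ K Γ y, s * z = z * s :=
      ⟨Z1 ⊓ Subgroup.centralizer (Rf y ⊓ K Γ y : Subgroup G), fun z => by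
        rw [Subgroup.mem_inf, Subgroup.mem_centralizer_iff]
        rfl⟩
    have hZ1le : Z1 ≤ ζ x y := fun z hz' => ((hZ1 z).mp hz').1
    have hZ2le : Z2 ≤ ζ x y := fun z hz' => hZ1le ((hZ2 z).mp hz').1
    have hSxB : Nm (B x y) (Rf x ⊓ K Γ x) := (hSn x).mono (B_le x y)
    have hSyB : Nm (B x y) (Rf y ⊓ K Γ y) := by
      rw [B_comm]
      exact (hSn y).mono (B_le y x)
    have hZ1n : Nm (B x y) Z1 := by
      intro b hb z hz'
      rw [hZ1] at hz' ⊢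
      refine ⟨nm_z hz x y b hb z hz'.1, fun s hs => ?_⟩
      have h1 := hSxB b⁻¹ ((B x y).inv_mem hb) s hs
      rw [inv_inv] at h1
      have h2 := hz'.2 _ h1
      calc s * (b * z * b⁻¹) = b * (b⁻¹ * s * b * z) * b⁻¹ := by group
        _ = b * (z * (b⁻¹ * s * b)) * b⁻¹ := by rw [h2]
        _ = b * z * b⁻¹ * s := by group
    have hZ2n : Nm (B x y) Z2 := by
      intro b hb z hz'
      rw [hZ2] at hz' ⊢
      refine ⟨hZ1n b hb z hz'.1, fun s hs => ?_⟩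
      have h1 := hSyB b⁻¹ ((B x y).inv_mem hb) s hs
      rw [inv_inv] at h1
      have h2 := hz'.2 _ h1
      calc s * (b * z * b⁻¹) = b * (b⁻¹ * s * b * z) * b⁻¹ := by group
        _ = b * (z * (b⁻¹ * s * b)) * b⁻¹ := by rw [h2]
        _ = b * z * b⁻¹ * s := by group
    have hZ2ne : Z2 ≠ ⊥ := by
      obtain ⟨z, hz1, hz2, hz3⟩ := fixp hp hζf ((nm_z hz x y).mono (hSB hxy)) (hpa hxy)
        ((Qe_isP h x y).to_le hζQ) (hz.ne x y hxy)
      have hZ1ne : Z1 ≠ ⊥ := by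
        intro hcon
        apply hz2
        rw [← Subgroup.mem_bot, ← hcon, hZ1]
        exact ⟨hz1, hz3⟩
      have hZ1f : Finite Z1 := Finite.of_injective _ (Subgroup.inclusion_injective hZ1le)
      have hSyB' : Rf y ⊓ K Γ y ≤ B x y := by
        rw [B_comm]
        exact hSB hxy.symm
      obtain ⟨z', hz1', hz2', hz3'⟩ := fixp hp hZ1f (hZ1n.mono hSyB') (by
        intro n hn
        obtain ⟨k, hk⟩ := hpa hxy.symm n hn
        refine ⟨k, fun v hv => hk v ?_⟩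
        rw [hz.cm]
        exact hZ1le hv) ((Qe_isP h x y).to_le (hZ1le.trans hζQ)) hZ1ne
      intro hcon
      apply hz2'
      rw [← Subgroup.mem_bot, ← hcon, hZ2]
      exact ⟨hz1', hz3'⟩
    have h3 := hz.mn x y hxy Z2 hZ2le hZ2ne hZ2n (by
      intro σ hσ1 hσ2 z hz'
      have hσ1' : σ⁻¹ • y = x := by rw [← hσ1, inv_smul_smul]
      have hσ2' : σ⁻¹ • x = y := by rw [← hσ2, inv_smul_smul]
      obtain ⟨hz1, hz2⟩ := (hZ2 z).mp hz'
      obtain ⟨hz3, hz4⟩ := (hZ1 z).mp hz1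
      rw [hZ2, hZ1]
      refine ⟨⟨?_, ?_⟩, ?_⟩
      · have h4 := conj_mem_cj (g := σ) hz3
        rwa [← hz.cj, hσ1, hσ2, hz.cm] at h4
      · intro s hs
        have h4 := hScj σ⁻¹ x s hs
        rw [hσ2', inv_inv] at h4
        have h5 := hz2 _ h4
        calc s * (σ * z * σ⁻¹) = σ * (σ⁻¹ * s * σ * z) * σ⁻¹ := by group
          _ = σ * (z * (σ⁻¹ * s * σ)) * σ⁻¹ := by rw [h5]
          _ = σ * z * σ⁻¹ * s := by group
      · intro s hs
        have h4 := hScj σ⁻¹ y s hs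
        rw [hσ1', inv_inv] at h4
        have h5 := hz4 _ h4
        calc s * (σ * z * σ⁻¹) = σ * (σ⁻¹ * s * σ * z) * σ⁻¹ := by group
          _ = σ * (z * (σ⁻¹ * s * σ)) * σ⁻¹ := by rw [h5]
          _ = σ * z * σ⁻¹ * s := by group)
    intro s hs z hz'
    rw [← h3, hZ2, hZ1] at hz'
    exact hz'.1.2 s hs
  have c3 : ∀ x, ∀ s ∈ Rf x ⊓ K Γ x, ∀ v ∈ VZ Γ ζ x, s * v = v * s := by
    intro x s hs v hv
    have h1 : VZ Γ ζ x ≤ Subgroup.centralizer {s} := by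
      refine iSup_le (fun y => ?_)
      intro z hz'
      rw [Subgroup.mem_centralizer_singleton_iff]
      exact (c2 y.2 s hs z hz').symm
    have h2 := h1 hv
    rw [Subgroup.mem_centralizer_singleton_iff] at h2
    exact h2.symm
  -- the configuration
  have key : ∀ x x' w' w, LkZ Γ p ζ x x' w' w → Nat.card (VZ Γ ζ w) *
      Nat.card (VZ Γ ζ x ⊓ Subgroup.centralizer (VZ Γ ζ w : Set G) : Subgroup G) ≤
      Nat.card (VZ Γ ζ x) *
        Nat.card (VZ Γ ζ w ⊓ Subgroup.centralizer (VZ Γ ζ x : Set G) : Subgroup G) →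
      ∃ (x y : V) (N R : Subgroup G) (t : G), Γ.Adj x y ∧ Cfg Γ p x y N R t := by
    intro x x' w' w l hoff
    have hAQ : VZ Γ ζ x ≤ (Qe p w w' : Subgroup G) := fun v hv => Qv_le_Qe' h l.ww (l.xw hv)
    have hAN : VZ Γ ζ x ≤ (Nh Γ p w : Subgroup G) := hAQ.trans (Qe_le_Nh l.ww)
    have hAs : VZ Γ ζ x ≤ stabilizer G w := hAN.trans (Nh_le w)
    obtain ⟨U, iU, fU, ψ, hψ⟩ := hA w
    obtain ⟨A', hA'⟩ : ∃ A', A' = ((VZ Γ ζ x).subgroupOf (stabilizer G w)).map ψ := ⟨_, rfl⟩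
    obtain ⟨Y, hY⟩ : ∃ Y, Y = ((Nh Γ p w : Subgroup G).subgroupOf (stabilizer G w)).map ψ :=
      ⟨_, rfl⟩
    have hNhs : Nm (stabilizer G w) (Nh Γ p w : Subgroup G) := nm_of_equiv (Nh_cj h) w
    have hfs := h.fin w
    have hYZ : Y ≤ ψ.range := by
      rw [hY]
      rintro _ ⟨g, _, rfl⟩
      exact ⟨g, rfl⟩
    have hYn : Nm ψ.range Y := by
      rw [hY]
      rintro _ ⟨g, rfl⟩ _ ⟨n, hn, rfl⟩
      refine ⟨g * n * g⁻¹, hNhs g.1 g.2 n.1 hn, ?_⟩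
      rw [map_mul, map_mul, map_inv]
    have hYf : Finite Y := by
      rw [hY]
      exact Finite.of_surjective _ (ψ.subgroupMap_surjective _)
    have hYps : PSol p Y := by
      have hfN := h.fin_le (Nh_le (Γ := Γ) (p := p) (G := G) w)
      have h1 := psol_range (Fact.out : p.Prime)
        (ψ.comp (Subgroup.inclusion (Nh_le (Γ := Γ) (p := p) (G := G) w))) (psol_top (hps w))
      have h2 : (ψ.comp (Subgroup.inclusion (Nh_le (Γ := Γ) (p := p) (G := G) w))).range =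
          Y := by
        rw [hY]
        ext s
        constructor
        · rintro ⟨n, rfl⟩
          exact ⟨⟨n.1, Nh_le w n.2⟩, n.2, rfl⟩
        · rintro ⟨n, hn, rfl⟩
          exact ⟨⟨n.1, hn⟩, rfl⟩
      rwa [h2] at h1
    have hnp' : ∀ N : Subgroup (AddMonoid.End U)ˣ, N ≤ Y → Nm ψ.range N → IsPGroup p N →
        N = ⊥ := fun N h1 h2 h3 => hψ.np N (h1.trans hYZ) h2 h3
    have hA'Y : A' ≤ Y := by
      rw [hA', hY]
      rintro _ ⟨g, hg, rfl⟩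
      exact ⟨g, hAN hg, rfl⟩
    have hquad : ∀ a ∈ VZ Γ ζ x, ∀ b ∈ VZ Γ ζ x, ∀ v ∈ VZ Γ ζ w,
        a * (b * v * b⁻¹ * v⁻¹) * a⁻¹ = b * v * b⁻¹ * v⁻¹ := by
      intro a ha b hb v hv
      have hvx : v ∈ stabilizer G x := (K_le_B l.xx.symm (Qv_le x' (l.wx hv))).2
      have h1 : b * v * b⁻¹ * v⁻¹ ∈ VZ Γ ζ x := by
        have h2 := nm_VZ h hz x v hvx b⁻¹ (Subgroup.inv_mem _ hb)
        have e : b * v * b⁻¹ * v⁻¹ = b * (v * b⁻¹ * v⁻¹) := by group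
        rw [e]
        exact Subgroup.mul_mem _ hb h2
      rw [VZ_comm h hB hz (VZ_le_Qv h hB hz x ha) h1, mul_inv_cancel_right]
    have hAR : ∀ a ∈ VZ Γ ζ x, a ∈ Rf w → ∀ v ∈ VZ Γ ζ w, a * v = v * a := by
      intro a ha haR v hv
      exact c3 w a ⟨haR, c1 l.ww a haR (Qe_le w w' (hAQ ha))⟩ v hv
    have hA1 : A' ≠ ⊥ := by
      intro hcon
      apply l.cr
      intro v hv
      have h1 : ψ ⟨v, hAs hv⟩ ∈ A' := by
        rw [hA']
        exact ⟨_, hv, rfl⟩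
      rw [hcon, Subgroup.mem_bot] at h1
      have h2 := (hψ.ker ⟨v, hAs hv⟩).mpr h1
      rw [Qv_eq h l.ww]
      exact ⟨hAQ hv, c1 l.ww v h2 (Qe_le w w' (hAQ hv))⟩
    have hqU : ∀ a ∈ A', ∀ b ∈ A', ∀ u : U,
        (a : AddMonoid.End U) ((b : AddMonoid.End U) u - u) = (b : AddMonoid.End U) u - u := by
      rw [hA']
      rintro _ ⟨a, ha, rfl⟩ _ ⟨b, hb, rfl⟩ u
      exact hψ.qd _ hquad a b ha hb u
    have hof := hψ.of _ hAs hAR hoff
    rw [← hA'] at hof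
    obtain ⟨t, htA, ht1, htq, htr⟩ := exists_tv hp23 hψ.ex hYf hYZ hYn hYps hnp' hA'Y hA1 hqU hof
    let : Module (ZMod p) U := AddCommGroup.zmodModule hψ.ex
    obtain ⟨e, f, hTV⟩ := tv_of_rank ht1 htq htr
    rw [hA'] at htA
    obtain ⟨t0, ht0, rfl⟩ := htA
    obtain ⟨N, R, hC⟩ := cfg_of h hp23 l.ww (hps w)
      (W := VZ Γ ζ w) (fun q hq v hv => VZ_comm h hB hz hq hv) hψ.cen hψ.np (hAQ ht0)
      (VZ_pow h hB hz ht0) hTV
    exact ⟨w, w', N, R, t0.1, l.ww, hC⟩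
  obtain ⟨x, x', w', w, l⟩ := critZ h hB hz hxy0
  rcases le_total (Nat.card (VZ Γ ζ w) *
      Nat.card (VZ Γ ζ x ⊓ Subgroup.centralizer (VZ Γ ζ w : Set G) : Subgroup G))
      (Nat.card (VZ Γ ζ x) *
        Nat.card (VZ Γ ζ w ⊓ Subgroup.centralizer (VZ Γ ζ x : Set G) : Subgroup G)) with h1 | h1
  · exact key x x' w' w l h1
  · exact key w w' x' x (l.symm h hB hz) h1

end cfg

end Pool.Agent.Work.MP_6d7bb4.helper94
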