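import Pool.Agent.Work.MP_6d7bb4_helper94.Quad
import Pool.Agent.Work.MP_6d7bb4_helper94.Grp

/-! # MP_6d7bb4: quadratic elements centralise `r`-groups (helper94) -/

set_option autoImplicit false
set_option linter.unusedSectionVars false

namespace Pool.Agent.Work.MP_6d7bb4.helper94.Qd

open scoped commutatorElement

section grp
variable {G : Type*} [Group G]

theorem comm_ne {r : ℕ} (hr : r.Prime) {T : Subgroup G} (hfin : Finite T) (hT : IsPGroup r T)
    (hne : T ≠ ⊥) : ⁅T, T⁆ ≠ T := by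
  have : Fact r.Prime := ⟨hr⟩
  have : Group.IsNilpotent T := hT.isNilpotent
  have : Nontrivial T := (Subgroup.nontrivial_iff_ne_bot T).mpr hne
  have h1 := Group.IsSolvable.commutator_lt_top_of_nontrivial T
  intro h
  apply h1.ne
  have h2 := Subgroup.map_subtype_commutator T
  rw [h] at h2
  rw [eq_top_iff]
  intro x _
  have h3 : x.1 ∈ (commutator T).map T.subtype := by
    rw [h2]
    exact x.2
  obtain ⟨y, hy, hyx⟩ := h3
  have h4 : y = x := Subtype.ext hyx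
  rw [← h4]
  exact hy

theorem sq_ne {T : Subgroup G} (hfin : Finite T) (hT : IsPGroup 2 T) (hne : T ≠ ⊥) :
    Subgroup.closure {x | ∃ s ∈ T, x = s * s} ≠ T := by
  have : Fact (Nat.Prime 2) := ⟨Nat.prime_two⟩
  have : Nontrivial T := (Subgroup.nontrivial_iff_ne_bot T).mpr hne
  obtain ⟨n, hn⟩ := IsPGroup.iff_card.mp hT
  have hn0 : n ≠ 0 := by
    rintro rfl
    have := Finite.one_lt_card (α := T)
    rw [hn] at this
    omega
  obtain ⟨k, rfl⟩ := Nat.exists_eq_succ_of_ne_zero hn0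
  obtain ⟨M, hM⟩ := Sylow.exists_subgroup_card_pow_prime (G := T) 2 (n := k) (by
    rw [hn]
    exact pow_dvd_pow 2 (Nat.le_succ k))
  have hi : M.index = 2 := by
    have h1 := M.card_mul_index
    rw [hM, hn, Nat.succ_eq_add_one, pow_succ] at h1
    exact Nat.eq_of_mul_eq_mul_left (pow_pos (by norm_num) k) h1
  intro h
  have h1 : Subgroup.closure {x | ∃ s ∈ T, x = s * s} ≤ M.map T.subtype := by
    rw [Subgroup.closure_le]
    rintro _ ⟨s, hs, rfl⟩
    exact ⟨(⟨s, hs⟩ : T) * ⟨s, hs⟩, Subgroup.mul_self_mem_of_index_two hi _, rfl⟩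
  rw [h] at h1
  have h2 : M = ⊤ := by
    rw [eq_top_iff]
    intro x _
    obtain ⟨y, hy, hyx⟩ := h1 x.2
    have h4 : y = x := Subtype.ext hyx
    rw [← h4]
    exact hy
  rw [h2, Subgroup.index_top] at hi
  omega

/-- a minimal non-centralised invariant subgroup -/
theorem exists_minT {a : G} {S : Subgroup G} (hfin : Finite S)
    (hn : ∀ s ∈ S, a * s * a⁻¹ ∈ S) (hc : ¬ ∀ s ∈ S, a * s = s * a) :
    ∃ T, T ≤ S ∧ (∀ s ∈ T, a * s * a⁻¹ ∈ T) ∧ (¬ ∀ s ∈ T, a * s = s * a) ∧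
      ∀ D, D ≤ T → D ≠ T → (∀ s ∈ D, a * s * a⁻¹ ∈ D) → ∀ s ∈ D, a * s = s * a := by
  have hf : {T : Subgroup G | T ≤ S ∧ (∀ s ∈ T, a * s * a⁻¹ ∈ T) ∧
      ¬ ∀ s ∈ T, a * s = s * a}.Finite := (finite_Iic S).subset (fun T h => h.1)
  obtain ⟨T, hT⟩ := hf.exists_minimal ⟨S, le_refl S, hn, hc⟩
  refine ⟨T, hT.1.1, hT.1.2.1, hT.1.2.2, ?_⟩
  intro D hD hne hDn
  by_contra hcon
  exact hne (le_antisymm hD (hT.2 ⟨hD.trans hT.1.1, hDn, hcon⟩ hD))

/-- an `a`-central characteristic subgroup is centralised by the conjugates of `a` -/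
theorem cent_conj {a m : G} {D : Subgroup G} (h : ∀ s ∈ D, a * s = s * a)
    (hm : ∀ s ∈ D, m⁻¹ * s * m ∈ D) : ∀ s ∈ D, m * a * m⁻¹ * s = s * (m * a * m⁻¹) := by
  intro s hs
  have h1 := h _ (hm s hs)
  calc m * a * m⁻¹ * s = m * (a * (m⁻¹ * s * m)) * m⁻¹ := by group
    _ = m * (m⁻¹ * s * m * a) * m⁻¹ := by rw [h1]
    _ = s * (m * a * m⁻¹) := by group

end grp

section lemR
variable {Λ : Type*} [Ring Λ]

theorem val_conj {a m : Λˣ} {u : Λ} (ha : (a : Λ) = 1 + u) :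
    ((m * a * m⁻¹ : Λˣ) : Λ) = 1 + m * u * ((m⁻¹ : Λˣ) : Λ) := by
  rw [Units.val_mul, Units.val_mul, ha, mul_add, mul_one, add_mul, Units.mul_inv]

theorem sq_conj {m : Λˣ} {u : Λ} (hu : u * u = 0) :
    (m * u * ((m⁻¹ : Λˣ) : Λ)) * (m * u * ((m⁻¹ : Λˣ) : Λ)) = 0 := by
  calc (m * u * ((m⁻¹ : Λˣ) : Λ)) * (m * u * ((m⁻¹ : Λˣ) : Λ)) =
      m * u * (((m⁻¹ : Λˣ) : Λ) * m) * u * ((m⁻¹ : Λˣ) : Λ) := by simp only [mul_assoc]
    _ = m * (u * u) * ((m⁻¹ : Λˣ) : Λ) := by rw [Units.inv_mul, mul_one]; simp only [mul_assoc]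
    _ = 0 := by rw [hu, mul_zero, zero_mul]

/-- a finite `r`-group normalised by a quadratic element is centralised by it -/
theorem lemR {a : Λˣ} {u : Λ} (ha : (a : Λ) = 1 + u) (hu : u * u = 0) {p r : ℕ}
    (hpp : p.Prime) (hp : (p : Λ) = 0) (hp2 : p ≠ 2) (hrr : r.Prime) (hrp : r ≠ p)
    (h5 : r = 2 → 5 ≤ p) {S : Subgroup Λˣ} (hfin : Finite S) (hS : IsPGroup r S)
    (hn : ∀ s ∈ S, a * s * a⁻¹ ∈ S) : ∀ s ∈ S, a * s = s * a := by
  by_contra hcon
  have hcp2 : Nat.Coprime 2 p := (Nat.coprime_primes Nat.prime_two hpp).mpr (fun h => hp2 h.symm)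
  obtain ⟨T, hTS, hTn, hTc, hTm⟩ := exists_minT hfin hn hcon
  have hTf : Finite T := Finite.of_injective _ (Subgroup.inclusion_injective hTS)
  have hTP : IsPGroup r T := hS.to_le hTS
  have hTne : T ≠ ⊥ := by
    rintro h
    apply hTc
    intro s hs
    rw [h, Subgroup.mem_bot] at hs
    rw [hs, mul_one, one_mul]
  push Not at hTc
  obtain ⟨m, hm, hma⟩ := hTc
  obtain ⟨b, hb⟩ : ∃ b, b = m * a * m⁻¹ := ⟨_, rfl⟩
  obtain ⟨v, hv⟩ : ∃ v, v = (m : Λ) * u * ((m⁻¹ : Λˣ) : Λ) := ⟨_, rfl⟩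
  have hbv : (b : Λ) = 1 + v := by rw [hb, hv, val_conj ha]
  have hvv : v * v = 0 := by rw [hv, sq_conj hu]
  have hzT : b * a⁻¹ ∈ T := by
    have h1 : b * a⁻¹ = m * (a * m⁻¹ * a⁻¹) := by
      rw [hb]
      group
    rw [h1]
    exact T.mul_mem hm (hTn _ (T.inv_mem hm))
  have hzne : b * a⁻¹ ≠ 1 := by
    intro h
    rw [mul_inv_eq_one, hb, mul_inv_eq_iff_eq_mul] at h
    exact hma h.symm
  have hord : ∀ s ∈ T, ∃ k, s ^ r ^ k = 1 := by
    intro s hs
    obtain ⟨k, hk⟩ := hTP ⟨s, hs⟩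
    exact ⟨k, by simpa using congrArg Subtype.val hk⟩
  obtain ⟨k, hk⟩ := hord _ hzT
  have hco : ∀ k, Nat.Coprime (r ^ k) p := fun k =>
    Nat.Coprime.pow_left k ((Nat.coprime_primes hrr hpp).mpr hrp)
  by_cases hr2 : r = 2
  · subst hr2
    have hp5 := h5 rfl
    obtain ⟨D, hD⟩ : ∃ D : Subgroup Λˣ, D = Subgroup.closure {x | ∃ s ∈ T, x = s * s} := ⟨_, rfl⟩
    have hDT : D ≤ T := by
      rw [hD, Subgroup.closure_le]
      rintro _ ⟨s, hs, rfl⟩
      exact T.mul_mem hs hs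
    have hinv : ∀ g : Λˣ, (∀ s ∈ T, g * s * g⁻¹ ∈ T) → ∀ s ∈ D, g * s * g⁻¹ ∈ D := by
      intro g hg
      have h1 : D ≤ D.comap (MulAut.conj g).toMonoidHom := by
        nth_rewrite 1 [hD]
        rw [Subgroup.closure_le]
        rintro _ ⟨s, hs, rfl⟩
        show g * (s * s) * g⁻¹ ∈ D
        have h2 : g * (s * s) * g⁻¹ = (g * s * g⁻¹) * (g * s * g⁻¹) := by group
        rw [h2, hD]
        exact Subgroup.subset_closure ⟨_, hg s hs, rfl⟩
      exact fun s hs => h1 hs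
    have hDa := hTm D hDT (by
      rw [hD]
      exact sq_ne hTf hTP hTne) (hinv a hTn)
    have hDs : ∀ s ∈ T, s * s ∈ D := by
      intro s hs
      rw [hD]
      exact Subgroup.subset_closure ⟨s, hs, rfl⟩
    obtain ⟨w, hw⟩ : ∃ w, w = u * v + v * u := ⟨_, rfl⟩
    have e1 := even_w ha hbv hu hvv hpp hp hk (hco k) (hDa _ (hDs _ hzT))
    rw [← hw] at e1
    -- squares
    have ha2 : ((a * a : Λˣ) : Λ) = 1 + (u + u) := by
      rw [Units.val_mul, ha]
      have : (1 + u) * (1 + u) = 1 + (u + u) + u * u := by noncomm_ring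
      rw [this, hu, add_zero]
    have hb2 : ((b * b : Λˣ) : Λ) = 1 + (v + v) := by
      rw [Units.val_mul, hbv]
      have : (1 + v) * (1 + v) = 1 + (v + v) + v * v := by noncomm_ring
      rw [this, hvv, add_zero]
    have hu2 : (u + u) * (u + u) = 0 := by
      have : (u + u) * (u + u) = 4 * (u * u) := by noncomm_ring
      rw [this, hu, mul_zero]
    have hv2 : (v + v) * (v + v) = 0 := by
      have : (v + v) * (v + v) = 4 * (v * v) := by noncomm_ring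
      rw [this, hvv, mul_zero]
    have hz2T : b * b * (a * a)⁻¹ ∈ T := by
      have h1 : b * b * (a * a)⁻¹ = m * (a * (a * m⁻¹ * a⁻¹) * a⁻¹) := by
        rw [hb]
        group
      rw [h1]
      exact T.mul_mem hm (hTn _ (hTn _ (T.inv_mem hm)))
    obtain ⟨k2, hk2⟩ := hord _ hz2T
    have hcomm2 : a * a * (b * b * (a * a)⁻¹ * (b * b * (a * a)⁻¹)) =
        b * b * (a * a)⁻¹ * (b * b * (a * a)⁻¹) * (a * a) := by
      have h1 : Commute a (b * b * (a * a)⁻¹ * (b * b * (a * a)⁻¹)) := hDa _ (hDs _ hz2T)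
      exact (h1.mul_left h1).eq
    have e2 := even_w ha2 hb2 hu2 hv2 hpp hp hk2 (hco k2) hcomm2
    have e3 : (u + u) * (v + v) + (v + v) * (u + u) = 4 * w := by
      rw [hw]
      noncomm_ring
    rw [e3] at e2
    have e4 : 4 * w * (4 * w) = 16 * (w * w) := by noncomm_ring
    rw [e4, e1] at e2
    -- `32 w = 8 w`
    have e5 : ((24 : ℕ) : Λ) * w = 0 := by
      have h1 : (24 : Λ) * w = 16 * (2 * w) - 2 * (4 * w) := by noncomm_ring
      rw [Nat.cast_ofNat, h1, e2, sub_self]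
    have h24 : Nat.Coprime 24 p := by
      have h2 : (24 : ℕ) = 2 ^ 3 * 3 := by norm_num
      rw [h2]
      refine Nat.Coprime.mul_left (Nat.Coprime.pow_left 3 hcp2) ?_
      exact (Nat.coprime_primes Nat.prime_three hpp).mpr (by omega)
    have e6 := cancel hp h24 e5
    exact hzne (z_nil ha hbv hu hvv hpp hp (k := 1) (by rw [← hw, e6, pow_one]) hk (hco k))
  · obtain ⟨D, hD⟩ : ∃ D : Subgroup Λˣ, D = ⁅T, T⁆ := ⟨_, rfl⟩
    have hDT : D ≤ T := by
      rw [hD, Subgroup.commutator_le]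
      intro x hx y hy
      rw [commutatorElement_def]
      exact T.mul_mem (T.mul_mem (T.mul_mem hx hy) (T.inv_mem hx)) (T.inv_mem hy)
    have hinv : ∀ g : Λˣ, (∀ s ∈ T, g * s * g⁻¹ ∈ T) → ∀ s ∈ D, g * s * g⁻¹ ∈ D := by
      intro g hg
      have h1 : D ≤ D.comap (MulAut.conj g).toMonoidHom := by
        nth_rewrite 1 [hD]
        rw [Subgroup.commutator_le]
        intro x hx y hy
        show g * ⁅x, y⁆ * g⁻¹ ∈ D
        have h2 : g * ⁅x, y⁆ * g⁻¹ = ⁅g * x * g⁻¹, g * y * g⁻¹⁆ := by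
          rw [commutatorElement_def, commutatorElement_def]
          group
        rw [h2, hD]
        exact Subgroup.commutator_mem_commutator (hg x hx) (hg y hy)
      exact fun s hs => h1 hs
    have hDa := hTm D hDT (by
      rw [hD]
      exact comm_ne hrr hTf hTP hTne) (hinv a hTn)
    have hDb : ∀ s ∈ D, b * s = s * b := by
      rw [hb]
      refine cent_conj hDa ?_
      intro s hs
      have h1 := hinv m⁻¹ (fun s hs => by
        rw [inv_inv]
        exact T.mul_mem (T.mul_mem (T.inv_mem hm) hs) hm) s hs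
      rwa [inv_inv] at h1
    have heT : a * b * a⁻¹ * b⁻¹ ∈ T := by
      have h1 : a * b * a⁻¹ * b⁻¹ = (a * (b * a⁻¹) * a⁻¹) * (b * a⁻¹)⁻¹ := by group
      rw [h1]
      exact T.mul_mem (hTn _ hzT) (T.inv_mem hzT)
    obtain ⟨c, hc⟩ : ∃ c, c = (b * a⁻¹) * (a * b * a⁻¹ * b⁻¹) * (b * a⁻¹)⁻¹ *
      (a * b * a⁻¹ * b⁻¹)⁻¹ := ⟨_, rfl⟩
    have hcD : c ∈ D := by
      rw [hc, hD]
      exact Subgroup.commutator_mem_commutator hzT heT
    obtain ⟨j, hj⟩ := hord _ (hDT hcD)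
    have hrodd : Odd (r ^ j) := (hrr.odd_of_ne_two hr2).pow
    have h3 := odd_w ha hbv hu hvv hp hcp2 hc (hDa c hcD).symm (hDb c hcD).symm hj hrodd (hco j)
    exact hzne (z_nil ha hbv hu hvv hpp hp h3 hk (hco k))

end lemR

end Pool.Agent.Work.MP_6d7bb4.helper94.Qd
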