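import Pool.Agent.Work.MP_6d7bb4_helper94.Grp

/-! # MP_6d7bb4: local analysis, part 1 (helper94)

A group `G` acts faithfully and arc-transitively on a connected graph, with finite stabilisers; local
actions semiprimitive (`sp`). -/

set_option autoImplicit false

namespace Pool.Agent.Work.MP_6d7bb4.helper94

open MulAction
open scoped commutatorElement

section defs
variable {V G : Type*} [Group G] [MulAction G V]

/-- kernel of the action on the neighbours -/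
def K (Γ : SimpleGraph V) (x : V) : Subgroup G where
  carrier := {g | g • x = x ∧ ∀ y, Γ.Adj x y → g • y = y}
  one_mem' := ⟨one_smul _ _, fun _ _ => one_smul _ _⟩
  mul_mem' := by
    rintro a b ⟨h1, h2⟩ ⟨h3, h4⟩
    exact ⟨by rw [mul_smul, h3, h1], fun y hy => by rw [mul_smul, h4 y hy, h2 y hy]⟩
  inv_mem' := by
    rintro a ⟨h1, h2⟩
    exact ⟨by rw [inv_smul_eq_iff, h1], fun y hy => by rw [inv_smul_eq_iff, h2 y hy]⟩

/-- arc stabiliser -/
def B (x y : V) : Subgroup G := stabilizer G x ⊓ stabilizer G y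

variable (G) in
/-- the hypotheses -/
structure Loc (Γ : SimpleGraph V) (d : ℕ) : Prop where
  adj : ∀ (g : G) x y, Γ.Adj x y → Γ.Adj (g • x) (g • y)
  faith : ∀ g : G, (∀ x : V, g • x = x) → g = 1
  fin : ∀ x : V, Finite (stabilizer G x)
  conn : Γ.Connected
  arc : ∀ x y x' y', Γ.Adj x y → Γ.Adj x' y' → ∃ g : G, g • x = x' ∧ g • y = y'
  nfin : ∀ x, Finite {y // Γ.Adj x y}
  ncard : ∀ x, Nat.card {y // Γ.Adj x y} ≤ d
  sp : ∀ x, ∀ N : Subgroup G, N ≤ stabilizer G x → Nm (stabilizer G x) N →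
    (∀ y y', Γ.Adj x y → Γ.Adj x y' → ∃ n ∈ N, n • y = y') ∨
    (∀ n ∈ N, ∀ y, Γ.Adj x y → n • y = y → n ∈ K Γ x)
  pb : ∀ p : ℕ, p.Prime → ∀ x y, Γ.Adj x y → ∀ N : Subgroup G, N ≤ B x y → IsPGroup p N →
    ¬ N ≤ K Γ x → p ≤ d

end defs

section basic
variable {V G : Type*} [Group G] [MulAction G V] {Γ : SimpleGraph V} {d : ℕ}

theorem mem_K {x : V} {g : G} : g ∈ K Γ x ↔ g • x = x ∧ ∀ y, Γ.Adj x y → g • y = y := Iff.rfl

theorem mem_B {x y : V} {g : G} : g ∈ B x y ↔ g • x = x ∧ g • y = y := Iff.rfl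

theorem B_comm (x y : V) : (B x y : Subgroup G) = B y x := inf_comm _ _

theorem K_le_B {x y : V} (h : Γ.Adj x y) : (K Γ x : Subgroup G) ≤ B x y :=
  fun _ hg => ⟨hg.1, hg.2 y h⟩

theorem B_le (x y : V) : (B x y : Subgroup G) ≤ stabilizer G x := inf_le_left

theorem K_le (x : V) : (K Γ x : Subgroup G) ≤ stabilizer G x := fun _ hg => hg.1

theorem Loc.adj_iff (h : Loc G Γ d) (g : G) (x y : V) : Γ.Adj (g • x) (g • y) ↔ Γ.Adj x y := by
  constructor
  · intro h1
    have h2 := h.adj g⁻¹ _ _ h1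
    rwa [inv_smul_smul, inv_smul_smul] at h2
  · exact h.adj g x y

theorem K_cj (h : Loc G Γ d) (g : G) (x : V) : K Γ (g • x) = cj g (K Γ x) := by
  ext k
  rw [mem_cj, mem_K, mem_K]
  constructor
  · rintro ⟨h1, h2⟩
    refine ⟨by rw [mul_smul, mul_smul, h1, inv_smul_smul], fun y hy => ?_⟩
    rw [mul_smul, mul_smul, h2 _ (h.adj g x y hy), inv_smul_smul]
  · rintro ⟨h1, h2⟩
    refine ⟨?_, fun y hy => ?_⟩
    · rw [mul_smul, mul_smul, inv_smul_eq_iff] at h1
      exact h1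
    · have h3 : Γ.Adj x (g⁻¹ • y) := by
        rw [← h.adj_iff g, smul_inv_smul]
        exact hy
      have h4 := h2 _ h3
      rw [mul_smul, mul_smul, smul_inv_smul, inv_smul_eq_iff, smul_inv_smul] at h4
      exact h4

theorem B_cj (g : G) (x y : V) : B (g • x) (g • y) = cj g (B x y) := by
  ext k
  rw [mem_cj, mem_B, mem_B, mul_smul, mul_smul, mul_smul, mul_smul, inv_smul_eq_iff,
    inv_smul_eq_iff]

theorem st_cj (g : G) (x : V) : stabilizer G (g • x) = cj g (stabilizer G x) := by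
  ext k
  rw [mem_cj, mem_stabilizer_iff, mem_stabilizer_iff, mul_smul, mul_smul, inv_smul_eq_iff]

theorem nm_of_cj {M N : Subgroup G} (h : ∀ g ∈ M, cj g N = N) : Nm M N := by
  intro b hb n hn
  have := conj_mem_cj (g := b) hn
  rwa [h b hb] at this

theorem nm_K (h : Loc G Γ d) (x : V) : Nm (stabilizer G x) (K Γ x) :=
  nm_of_cj (fun g hg => by rw [← K_cj h, mem_stabilizer_iff.mp hg])

theorem Loc.finB (h : Loc G Γ d) (x y : V) : Finite (B x y : Subgroup G) :=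
  have := h.fin x
  Finite.of_injective _ (Subgroup.inclusion_injective (B_le x y))

theorem Loc.finK (h : Loc G Γ d) (x : V) : Finite (K Γ x : Subgroup G) :=
  have := h.fin x
  Finite.of_injective _ (Subgroup.inclusion_injective (K_le x))

theorem Loc.fin_le (h : Loc G Γ d) {x : V} {N : Subgroup G} (hN : N ≤ stabilizer G x) :
    Finite N :=
  have := h.fin x
  Finite.of_injective _ (Subgroup.inclusion_injective hN)

theorem conn_ind (hc : Γ.Connected) (S : Set V) {x : V} (hx : x ∈ S)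
    (h : ∀ v ∈ S, ∀ w, Γ.Adj v w → w ∈ S) (v : V) : v ∈ S := by
  have key : ∀ {u v : V}, Γ.Walk u v → u ∈ S → v ∈ S := by
    intro u v w
    induction w with
    | nil => exact fun h => h
    | cons hadj _ ih => exact fun hu => ih (h _ hu _ hadj)
  obtain ⟨w⟩ := hc.preconnected x v
  exact key w hx

/-- (P1): a subgroup normalised by a vertex stabiliser and an inversion is trivial -/
theorem P1 (h : Loc G Γ d) {x y : V} (hxy : Γ.Adj x y) {N : Subgroup G}
    (hN : N ≤ stabilizer G x) (hnm : Nm (stabilizer G x) N) {σ : G} (h1 : σ • x = y)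
    (h2 : σ • y = x) (hσ : ∀ n ∈ N, σ * n * σ⁻¹ ∈ N) : N = ⊥ := by
  -- the normaliser
  obtain ⟨M, hM⟩ : ∃ M : Subgroup G, ∀ g, g ∈ M ↔ ∀ n, n ∈ N ↔ g * n * g⁻¹ ∈ N :=
    ⟨Subgroup.normalizer (N : Set G), fun g => Subgroup.mem_normalizer_iff⟩
  have hMs : stabilizer G x ≤ M := by
    intro g hg
    rw [hM]
    intro n
    refine ⟨hnm g hg n, fun hn => ?_⟩
    have := hnm g⁻¹ ((stabilizer G x).inv_mem hg) _ hn
    have h3 : g⁻¹ * (g * n * g⁻¹) * g⁻¹⁻¹ = n := by group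
    rwa [h3] at this
  have hMσ : σ ∈ M := by
    rw [hM]
    intro n
    refine ⟨hσ n, fun hn => ?_⟩
    have h3 : (σ * σ)⁻¹ ∈ stabilizer G x := by
      rw [Subgroup.inv_mem_iff, mem_stabilizer_iff, mul_smul, h1, h2]
    have h4 := hnm _ h3 _ (hσ _ hn)
    have h5 : (σ * σ)⁻¹ * (σ * (σ * n * σ⁻¹) * σ⁻¹) * (σ * σ)⁻¹⁻¹ = n := by group
    rwa [h5] at h4
  have htr : ∀ v, ∃ m ∈ M, m • x = v := by
    intro v
    refine conn_ind h.conn {v | ∃ m ∈ M, m • x = v} (x := x) ⟨1, M.one_mem, one_smul _ _⟩ ?_ v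
    rintro _ ⟨m, hm, rfl⟩ w hw
    have h3 : Γ.Adj x (m⁻¹ • w) := by
      rw [← h.adj_iff m, smul_inv_smul]
      exact hw
    obtain ⟨g, hg1, hg2⟩ := h.arc x y x (m⁻¹ • w) hxy h3
    refine ⟨m * g * σ, M.mul_mem (M.mul_mem hm (hMs hg1)) hMσ, ?_⟩
    rw [mul_smul, mul_smul, h1, hg2, smul_inv_smul]
  rw [Subgroup.eq_bot_iff_forall]
  intro n hn
  apply h.faith
  intro v
  obtain ⟨m, hm, rfl⟩ := htr v
  have h3 : m⁻¹ * n * m⁻¹⁻¹ ∈ N := ((hM m⁻¹).mp (M.inv_mem hm) n).mp hn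
  have h4 := mem_stabilizer_iff.mp (hN h3)
  rw [inv_inv, mul_smul, mul_smul, inv_smul_eq_iff] at h4
  exact h4

theorem Loc.inv (h : Loc G Γ d) {x y : V} (hxy : Γ.Adj x y) :
    ∃ σ : G, σ • x = y ∧ σ • y = x := h.arc x y y x hxy hxy.symm

/-- a transitive subgroup of the vertex stabiliser supplements the arc stabiliser -/
theorem factor {x y : V} {N : Subgroup G} (hN : N ≤ stabilizer G x)
    (ht : ∀ y y', Γ.Adj x y → Γ.Adj x y' → ∃ n ∈ N, n • y = y')
    (h : Loc G Γ d) (hxy : Γ.Adj x y) {g : G} (hg : g ∈ stabilizer G x) :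
    ∃ n ∈ N, ∃ b ∈ B x y, g = n * b := by
  have h1 : Γ.Adj x (g • y) := by
    have := h.adj g x y hxy
    rwa [mem_stabilizer_iff.mp hg] at this
  obtain ⟨n, hn, hn'⟩ := ht y (g • y) hxy h1
  refine ⟨n, hn, n⁻¹ * g, ?_, by group⟩
  rw [mem_B, mul_smul, mul_smul, mem_stabilizer_iff.mp hg, ← hn', inv_smul_smul]
  refine ⟨?_, rfl⟩
  rw [inv_smul_eq_iff, mem_stabilizer_iff.mp (hN hn)]

/-- normalised by a transitive subgroup and the arc stabiliser -/
theorem nm_st {x y : V} {N M : Subgroup G} (hN : N ≤ stabilizer G x)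
    (ht : ∀ y y', Γ.Adj x y → Γ.Adj x y' → ∃ n ∈ N, n • y = y')
    (h : Loc G Γ d) (hxy : Γ.Adj x y) (h1 : Nm N M) (h2 : Nm (B x y) M) :
    Nm (stabilizer G x) M := by
  intro g hg m hm
  obtain ⟨n, hn, b, hb, rfl⟩ := factor hN ht h hxy hg
  have h3 := h1 n hn _ (h2 b hb m hm)
  have h4 : n * (b * m * b⁻¹) * n⁻¹ = n * b * m * (n * b)⁻¹ := by group
  rwa [h4] at h3

/-- commuting subgroups normalise -/
theorem nm_of_comm {N M : Subgroup G} (h : ∀ n ∈ N, ∀ m ∈ M, n * m = m * n) : Nm N M := by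
  intro n hn m hm
  rw [h n hn m hm]
  have : m * n * n⁻¹ = m := by group
  rwa [this]

theorem nm_of_equiv {D : V → Subgroup G} (hD : ∀ (g : G) x, D (g • x) = cj g (D x)) (x : V) :
    Nm (stabilizer G x) (D x) :=
  nm_of_cj (fun g hg => by rw [← hD, mem_stabilizer_iff.mp hg])

/-- If the centraliser of `D x` moves a neighbour while fixing another one then `D x` and `D y`
meet trivially -/
theorem DD_of_cent (h : Loc G Γ d) {D : V → Subgroup G} (hD : ∀ (g : G) x, D (g • x) = cj g (D x))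
    (hDs : ∀ x, D x ≤ stabilizer G x) {x y : V} (hxy : Γ.Adj x y) {g : G} (hg : g ∈ B x y)
    (hgK : g ∉ K Γ x) (hc : ∀ k ∈ D x, g * k = k * g) : D x ⊓ D y = ⊥ := by
  obtain ⟨C, hC⟩ : ∃ C : Subgroup G, ∀ g, g ∈ C ↔ g ∈ stabilizer G x ∧
      ∀ k ∈ D x, g * k = k * g :=
    ⟨stabilizer G x ⊓ Subgroup.centralizer (D x : Subgroup G), fun g => by
      rw [Subgroup.mem_inf, Subgroup.mem_centralizer_iff]
      exact and_congr_right (fun _ => forall₂_congr (fun k _ => eq_comm))⟩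
  have hCs : C ≤ stabilizer G x := fun g hg => ((hC g).mp hg).1
  have hCn : Nm (stabilizer G x) C := by
    intro a ha c hc
    rw [hC] at hc ⊢
    refine ⟨(stabilizer G x).mul_mem ((stabilizer G x).mul_mem ha hc.1)
      ((stabilizer G x).inv_mem ha), fun k hk => ?_⟩
    have h1 := nm_of_equiv hD x a⁻¹ ((stabilizer G x).inv_mem ha) k hk
    rw [inv_inv] at h1
    have h2 := hc.2 _ h1
    calc a * c * a⁻¹ * k = a * (c * (a⁻¹ * k * a)) * a⁻¹ := by group
      _ = a * (a⁻¹ * k * a * c) * a⁻¹ := by rw [h2]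
      _ = k * (a * c * a⁻¹) := by group
  have ht : ∀ y y', Γ.Adj x y → Γ.Adj x y' → ∃ n ∈ C, n • y = y' := by
    rcases h.sp x C hCs hCn with h1 | h1
    · exact h1
    · exact absurd (h1 g ((hC g).mpr ⟨hg.1, hc⟩) y hxy hg.2) hgK
  obtain ⟨σ, h1, h2⟩ := h.inv hxy
  refine P1 h hxy (fun k hk => hDs x hk.1) ?_ h1 h2 ?_
  · refine nm_st hCs ht h hxy ?_ ?_
    · exact nm_of_comm (fun n hn m hm => ((hC n).mp hn).2 m hm.1)
    · refine ((nm_of_equiv hD x).mono (B_le x y)).inf ?_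
      rw [B_comm]
      exact (nm_of_equiv hD y).mono (B_le y x)
  · intro n hn
    have h3 := conj_mem_cj (g := σ) hn.1
    have h4 := conj_mem_cj (g := σ) hn.2
    rw [← hD, h1] at h3
    rw [← hD, h2] at h4
    exact ⟨h4, h3⟩

end basic

end Pool.Agent.Work.MP_6d7bb4.helper94
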