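import Pool.Agent.Work.MP_6d7bb4_helper94.Loc

/-! # MP_6d7bb4: local analysis, part 2 (helper94): the `p`-subgroups -/

set_option autoImplicit false
set_option linter.unusedSectionVars false

namespace Pool.Agent.Work.MP_6d7bb4.helper94

open MulAction
open scoped commutatorElement

section oz
variable {G : Type*} [Group G]

/-- central elements of order `p` -/
def OZ (p : ℕ) (Q : Subgroup G) : Subgroup G where
  carrier := {z | z ∈ Q ∧ z ^ p = 1 ∧ ∀ q ∈ Q, q * z = z * q}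
  one_mem' := ⟨Q.one_mem, one_pow _, fun q _ => by simp⟩
  mul_mem' := by
    rintro a b ⟨h1, h2, h3⟩ ⟨h4, h5, h6⟩
    refine ⟨Q.mul_mem h1 h4, ?_, fun q hq => ?_⟩
    · have : Commute a b := h6 a h1
      rw [this.mul_pow, h2, h5, mul_one]
    · rw [← mul_assoc, h3 q hq, mul_assoc, h6 q hq, mul_assoc]
  inv_mem' := by
    rintro a ⟨h1, h2, h3⟩
    refine ⟨Q.inv_mem h1, by rw [inv_pow, h2, inv_one], fun q hq => ?_⟩
    have : Commute q a := h3 q hq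
    exact this.inv_right.eq

theorem mem_OZ {p : ℕ} {Q : Subgroup G} {z : G} :
    z ∈ OZ p Q ↔ z ∈ Q ∧ z ^ p = 1 ∧ ∀ q ∈ Q, q * z = z * q := Iff.rfl

theorem OZ_le (p : ℕ) (Q : Subgroup G) : OZ p Q ≤ Q := fun _ h => h.1

theorem OZ_cj (p : ℕ) (g : G) (Q : Subgroup G) : OZ p (cj g Q) = cj g (OZ p Q) := by
  have hpow : ∀ z : G, (g⁻¹ * z * g) ^ p = g⁻¹ * z ^ p * g := by
    intro z
    have := conj_pow (i := p) (a := g⁻¹) (b := z)
    rw [inv_inv] at this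
    exact this
  ext z
  rw [mem_cj, mem_OZ, mem_OZ, mem_cj]
  refine and_congr_right (fun _ => and_congr ?_ ?_)
  · rw [hpow]
    constructor
    · intro h
      rw [h]
      group
    · intro h
      have h1 : z ^ p = g * (g⁻¹ * z ^ p * g) * g⁻¹ := by group
      rw [h1, h]
      group
  · constructor
    · intro h q hq
      have h1 := h (g * q * g⁻¹) (conj_mem_cj hq)
      calc q * (g⁻¹ * z * g) = g⁻¹ * (g * q * g⁻¹ * z) * g := by group
        _ = g⁻¹ * (z * (g * q * g⁻¹)) * g := by rw [h1]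
        _ = g⁻¹ * z * g * q := by group
    · intro h q hq
      have h1 := h _ (mem_cj.mp hq)
      calc q * z = g * (g⁻¹ * q * g * (g⁻¹ * z * g)) * g⁻¹ := by group
        _ = g * (g⁻¹ * z * g * (g⁻¹ * q * g)) * g⁻¹ := by rw [h1]
        _ = z * q := by group

end oz

section defs
variable {V G : Type*} [Group G] [MulAction G V]

/-- `O_p` of the arc stabiliser -/
def Qe (p : ℕ) (x y : V) : Subgroup G := O p (B x y)

/-- `O_p` of the kernel on the neighbours -/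
def Qv (Γ : SimpleGraph V) (p : ℕ) (x : V) : Subgroup G := O p (K Γ x)

/-- central elements of order `p` of `Qe` -/
def Zz (p : ℕ) (x y : V) : Subgroup G := OZ p (Qe p x y)

/-- generated by the `Zz x y` -/
def Vv (Γ : SimpleGraph V) (p : ℕ) (x : V) : Subgroup G :=
  ⨆ y : {y // Γ.Adj x y}, Zz p x y.1

variable (G) in
/-- case B -/
structure CB0 (Γ : SimpleGraph V) (p : ℕ) : Prop where
  zq : ∀ x y, Γ.Adj x y → (Zz p x y : Subgroup G) ≤ Qv Γ p x
  ne : ∀ x y, Γ.Adj x y → ¬ (Qe p x y : Subgroup G) ≤ K Γ x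

variable (G) in
/-- case B with index at most `p` -/
structure CB (Γ : SimpleGraph V) (p : ℕ) : Prop extends CB0 G Γ p where
  rl : ∀ x y, Γ.Adj x y → (Qv Γ p x : Subgroup G).relIndex (Qe p x y) ≤ p


end defs

section one
variable {V G : Type*} [Group G] [MulAction G V] {Γ : SimpleGraph V} {d p : ℕ}

theorem Qe_comm (x y : V) : (Qe p x y : Subgroup G) = Qe p y x := by
  unfold Qe
  rw [B_comm]

theorem Zz_comm (x y : V) : (Zz p x y : Subgroup G) = Zz p y x := by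
  unfold Zz
  rw [Qe_comm]

theorem Qe_cj (g : G) (x y : V) : Qe p (g • x) (g • y) = cj g (Qe p x y) := by
  unfold Qe
  rw [B_cj, O_cj]

theorem Qv_cj (h : Loc G Γ d) (g : G) (x : V) : Qv Γ p (g • x) = cj g (Qv Γ p x) := by
  unfold Qv
  rw [K_cj h, O_cj]

theorem Zz_cj (g : G) (x y : V) : Zz p (g • x) (g • y) = cj g (Zz p x y) := by
  unfold Zz
  rw [Qe_cj, OZ_cj]

theorem Zz_le_Vv {x y : V} (hxy : Γ.Adj x y) : (Zz p x y : Subgroup G) ≤ Vv Γ p x :=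
  le_iSup (fun y : {y // Γ.Adj x y} => (Zz p x y.1 : Subgroup G)) ⟨y, hxy⟩

theorem Vv_cj (h : Loc G Γ d) (g : G) (x : V) : Vv Γ p (g • x) = cj g (Vv Γ p x) := by
  have key : ∀ (g : G) (x : V), Vv Γ p (g • x) ≤ cj g (Vv Γ p x) := by
    intro g x
    refine iSup_le (fun y => ?_)
    have h1 : Γ.Adj x (g⁻¹ • y.1) := by
      rw [← h.adj_iff g, smul_inv_smul]
      exact y.2
    have h2 : (Zz p (g • x) y.1 : Subgroup G) = cj g (Zz p x (g⁻¹ • y.1)) := by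
      rw [← Zz_cj, smul_inv_smul]
    rw [h2]
    exact cj_mono g (Zz_le_Vv h1)
  refine le_antisymm (key g x) ?_
  have h1 := cj_mono g (key g⁻¹ (g • x))
  rw [inv_smul_smul, cj_inv_cj] at h1
  exact h1

variable [Fact p.Prime]

theorem Qe_isP (h : Loc G Γ d) (x y : V) : IsPGroup p (Qe p x y : Subgroup G) :=
  have := h.finB x y
  O_isP _

theorem nm_Qe (h : Loc G Γ d) (x y : V) : Nm (B x y) (Qe p x y : Subgroup G) :=
  have := h.finB x y
  O_nm _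

theorem Qe_le (x y : V) : (Qe p x y : Subgroup G) ≤ B x y := O_le _ _

theorem Qe_le_st (x y : V) : (Qe p x y : Subgroup G) ≤ stabilizer G x :=
  (O_le _ _).trans (B_le x y)

theorem Qv_le (x : V) : (Qv Γ p x : Subgroup G) ≤ K Γ x := O_le _ _

theorem Qv_le_st (x : V) : (Qv Γ p x : Subgroup G) ≤ stabilizer G x := (O_le _ _).trans (K_le x)

theorem Qv_eq (h : Loc G Γ d) {x y : V} (hxy : Γ.Adj x y) :
    (Qv Γ p x : Subgroup G) = Qe p x y ⊓ K Γ x :=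
  have := h.finB x y
  O_inf (K_le_B hxy) ((nm_K h x).mono (B_le x y))

theorem Qv_le_Qe (h : Loc G Γ d) {x y : V} (hxy : Γ.Adj x y) :
    (Qv Γ p x : Subgroup G) ≤ Qe p x y := by
  rw [Qv_eq h hxy]
  exact inf_le_left

theorem Qv_le_Qe' (h : Loc G Γ d) {x y : V} (hxy : Γ.Adj x y) :
    (Qv Γ p y : Subgroup G) ≤ Qe p x y := by
  rw [Qe_comm]
  exact Qv_le_Qe h hxy.symm

theorem nm_Qv (h : Loc G Γ d) (x : V) : Nm (stabilizer G x) (Qv Γ p x) :=
  nm_of_equiv (Qv_cj h) x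

theorem nm_Vv (h : Loc G Γ d) (x : V) : Nm (stabilizer G x) (Vv Γ p x) :=
  nm_of_equiv (Vv_cj h) x

theorem finQe (h : Loc G Γ d) (x y : V) : Finite (Qe p x y : Subgroup G) :=
  h.fin_le (Qe_le_st x y)

/-- step 0 -/
theorem QeK (h : Loc G Γ d) {x y : V} (hxy : Γ.Adj x y)
    (hK : (Qe p x y : Subgroup G) ≤ K Γ x) : (Qe p x y : Subgroup G) = ⊥ := by
  have h0 : (Qv Γ p x : Subgroup G) = Qe p x y := by
    rw [Qv_eq h hxy]
    exact inf_eq_left.mpr hK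
  obtain ⟨σ, h1, h2⟩ := h.inv hxy
  refine P1 h hxy (Qe_le_st x y) ?_ h1 h2 ?_
  · rw [← h0]
    exact nm_Qv h x
  · intro n hn
    have h3 := conj_mem_cj (g := σ) hn
    rw [← Qe_cj, h1, h2, Qe_comm] at h3
    exact h3

/-- case A -/
theorem caseA (h : Loc G Γ d) {x y : V} (hxy : Γ.Adj x y)
    (hZ : ¬ (Zz p x y : Subgroup G) ≤ Qv Γ p x) : (Qv Γ p x ⊓ Qv Γ p y : Subgroup G) = ⊥ := by
  obtain ⟨z, hz, hzQ⟩ := SetLike.not_le_iff_exists.mp hZ
  refine DD_of_cent h (Qv_cj h) Qv_le_st hxy (g := z) (Qe_le x y hz.1) ?_ ?_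
  · intro hzK
    rw [Qv_eq h hxy] at hzQ
    exact hzQ ⟨hz.1, hzK⟩
  · intro k hk
    exact (hz.2.2 k (Qv_le_Qe h hxy hk)).symm

theorem transfer_arc (h : Loc G Γ d) {P : V → V → Prop}
    (hP : ∀ (g : G) x y, P x y → P (g • x) (g • y)) {x y : V} (hxy : Γ.Adj x y) (h1 : P x y)
    {x' y' : V} (hxy' : Γ.Adj x' y') : P x' y' := by
  obtain ⟨g, rfl, rfl⟩ := h.arc x y x' y' hxy hxy'
  exact hP g x y h1

/-- the three cases -/
theorem cases3 (h : Loc G Γ d) : (∀ x y, Γ.Adj x y → (Qe p x y : Subgroup G) = ⊥) ∨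
    (∀ x y, Γ.Adj x y → (Qv Γ p x ⊓ Qv Γ p y : Subgroup G) = ⊥) ∨ CB0 G Γ p := by
  by_cases h1 : ∃ x y, Γ.Adj x y ∧ (Qe p x y : Subgroup G) ≤ K Γ x
  · left
    obtain ⟨x, y, hxy, hK⟩ := h1
    intro x' y' hxy'
    refine transfer_arc h (P := fun x y => (Qe p x y : Subgroup G) = ⊥) ?_ hxy (QeK h hxy hK) hxy'
    intro g a b hab
    rw [Qe_cj, hab]
    ext k
    rw [mem_cj, Subgroup.mem_bot, Subgroup.mem_bot]
    constructor
    · intro h2
      have h3 : k = g * (g⁻¹ * k * g) * g⁻¹ := by group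
      rw [h3, h2]
      group
    · rintro rfl
      group
  · by_cases h2 : ∃ x y, Γ.Adj x y ∧ ¬ (Zz p x y : Subgroup G) ≤ Qv Γ p x
    · right; left
      obtain ⟨x, y, hxy, hZ⟩ := h2
      intro x' y' hxy'
      refine caseA h hxy' ?_
      refine transfer_arc h (P := fun x y => ¬ (Zz p x y : Subgroup G) ≤ Qv Γ p x) ?_ hxy hZ hxy'
      intro g a b hab hcon
      apply hab
      rw [Zz_cj, Qv_cj h] at hcon
      have h3 := cj_mono g⁻¹ hcon
      rwa [cj_cj_inv, cj_cj_inv] at h3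
    · right; right
      push Not at h1 h2
      exact ⟨h2, h1⟩

end one

section two
variable {V G : Type*} [Group G] [MulAction G V] {Γ : SimpleGraph V} {d p : ℕ} [Fact p.Prime]

theorem Zz_ne (h : Loc G Γ d) (hB : CB0 G Γ p) {x y : V} (hxy : Γ.Adj x y) :
    (Zz p x y : Subgroup G) ≠ ⊥ := by
  have := finQe (p := p) h x y
  have hne : (Qe p x y : Subgroup G) ≠ ⊥ := by
    intro h1
    apply hB.ne x y hxy
    rw [h1]
    exact bot_le
  obtain ⟨z, hz, hz1, hzp, hzc⟩ := exists_central (Qe_isP h x y) (le_refl _) hne (nm_self _)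
  intro h1
  have h2 : z ∈ (Zz p x y : Subgroup G) := ⟨hz, hzp, hzc⟩
  rw [h1, Subgroup.mem_bot] at h2
  exact hz1 h2

theorem Vv_le_OZ (h : Loc G Γ d) (hB : CB G Γ p) (x : V) :
    (Vv Γ p x : Subgroup G) ≤ OZ p (Qv Γ p x) := by
  refine iSup_le (fun y => ?_)
  intro z hz
  exact ⟨hB.zq x y.1 y.2 hz, hz.2.1, fun q hq => hz.2.2 q (Qv_le_Qe h y.2 hq)⟩

theorem Vv_le_Qv (h : Loc G Γ d) (hB : CB G Γ p) (x : V) :
    (Vv Γ p x : Subgroup G) ≤ Qv Γ p x := (Vv_le_OZ h hB x).trans (OZ_le _ _)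

theorem Vv_pow (h : Loc G Γ d) (hB : CB G Γ p) {x : V} {v : G} (hv : v ∈ Vv Γ p x) :
    v ^ p = 1 := (Vv_le_OZ h hB x hv).2.1

theorem Vv_comm (h : Loc G Γ d) (hB : CB G Γ p) {x : V} {q v : G} (hq : q ∈ Qv Γ p x)
    (hv : v ∈ Vv Γ p x) : q * v = v * q := (Vv_le_OZ h hB x hv).2.2 q hq

theorem Vv_le_Qe (h : Loc G Γ d) (hB : CB G Γ p) {x y : V} (hxy : Γ.Adj x y) :
    (Vv Γ p x : Subgroup G) ≤ Qe p x y := (Vv_le_Qv h hB x).trans (Qv_le_Qe h hxy)

theorem mem_Zz (h : Loc G Γ d) (hB : CB G Γ p) {x y : V} (hxy : Γ.Adj x y) {v : G}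
    (hv : v ∈ Vv Γ p x) (hc : ∀ q ∈ (Qe p x y : Subgroup G), q * v = v * q) : v ∈ Zz p x y :=
  ⟨Vv_le_Qe h hB hxy hv, Vv_pow h hB hv, hc⟩

theorem Zz_comm_Qe {x y : V} {z q : G} (hz : z ∈ (Zz p x y : Subgroup G))
    (hq : q ∈ (Qe p x y : Subgroup G)) : q * z = z * q := hz.2.2 q hq

theorem nm_Zz (x y : V) : Nm (B x y) (Zz p x y : Subgroup G) := by
  refine nm_of_cj (fun g hg => ?_)
  rw [← Zz_cj, hg.1, hg.2]

/-- elements of an arc stabiliser which centralise `Vv x` are in the kernel -/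
theorem cent_K (h : Loc G Γ d) (hB : CB G Γ p) {x y : V} (hxy : Γ.Adj x y) {g : G}
    (hg : g ∈ B x y) (hc : ∀ v ∈ Vv Γ p x, g * v = v * g) : g ∈ K Γ x := by
  obtain ⟨C, hC⟩ : ∃ C : Subgroup G, ∀ g, g ∈ C ↔ g ∈ stabilizer G x ∧
      ∀ k ∈ Vv Γ p x, g * k = k * g :=
    ⟨stabilizer G x ⊓ Subgroup.centralizer (Vv Γ p x : Subgroup G), fun g => by
      rw [Subgroup.mem_inf, Subgroup.mem_centralizer_iff]
      exact and_congr_right (fun _ => forall₂_congr (fun k _ => eq_comm))⟩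
  have hCs : C ≤ stabilizer G x := fun g hg => ((hC g).mp hg).1
  have hCn : Nm (stabilizer G x) C := by
    intro a ha c hc
    rw [hC] at hc ⊢
    refine ⟨(stabilizer G x).mul_mem ((stabilizer G x).mul_mem ha hc.1)
      ((stabilizer G x).inv_mem ha), fun k hk => ?_⟩
    have h1 := nm_Vv h x a⁻¹ ((stabilizer G x).inv_mem ha) k hk
    rw [inv_inv] at h1
    have h2 := hc.2 _ h1
    calc a * c * a⁻¹ * k = a * (c * (a⁻¹ * k * a)) * a⁻¹ := by group
      _ = a * (a⁻¹ * k * a * c) * a⁻¹ := by rw [h2]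
      _ = k * (a * c * a⁻¹) := by group
  rcases h.sp x C hCs hCn with ht | h1
  · exfalso
    apply Zz_ne h hB.toCB0 hxy
    obtain ⟨σ, h1, h2⟩ := h.inv hxy
    refine P1 h hxy ((OZ_le _ _).trans (Qe_le_st x y)) ?_ h1 h2 ?_
    · refine nm_st hCs ht h hxy ?_ (nm_Zz x y)
      exact nm_of_comm (fun n hn m hm => ((hC n).mp hn).2 m (Zz_le_Vv hxy hm))
    · intro n hn
      have h3 := conj_mem_cj (g := σ) hn
      rw [← Zz_cj, h1, h2, Zz_comm] at h3
      exact h3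
  · exact h1 g ((hC g).mpr ⟨hg.1, hc⟩) y hxy hg.2

theorem cent_Q (h : Loc G Γ d) (hB : CB G Γ p) {x y : V} (hxy : Γ.Adj x y) {g : G}
    (hg : g ∈ (Qe p x y : Subgroup G)) (hc : ∀ v ∈ Vv Γ p x, g * v = v * g) :
    g ∈ Qv Γ p x := by
  rw [Qv_eq h hxy]
  exact ⟨hg, cent_K h hB hxy (Qe_le x y hg) hc⟩

/-- a link: `x ~ x'`, `w' ~ w`, the critical pair `x`, `w` -/
structure Lk (Γ : SimpleGraph V) (G : Type*) [Group G] [MulAction G V] (p : ℕ) (x x' w' w : V) :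
    Prop where
  xx : Γ.Adj x x'
  ww : Γ.Adj w w'
  xw : (Vv Γ p x : Subgroup G) ≤ Qv Γ p w'
  wx : (Vv Γ p w : Subgroup G) ≤ Qv Γ p x'
  cr : ¬ (Vv Γ p x : Subgroup G) ≤ Qv Γ p w

theorem Lk.symm (h : Loc G Γ d) (hB : CB G Γ p) {x x' w' w : V} (l : Lk Γ G p x x' w' w) :
    Lk Γ G p w w' x' x where
  xx := l.ww
  ww := l.xx
  xw := l.wx
  wx := l.xw
  cr := by
    intro hcon
    apply l.cr
    intro v hv
    refine cent_Q h hB l.ww (Qv_le_Qe' h l.ww (l.xw hv)) ?_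
    intro u hu
    exact (Vv_comm h hB (hcon hu) hv).symm

theorem Lk.cover (h : Loc G Γ d) (hB : CB G Γ p) {x x' w' w : V} (l : Lk Γ G p x x' w' w)
    {q : G} (hq : q ∈ (Qe p x x' : Subgroup G)) :
    ∃ u ∈ (Vv Γ p w : Subgroup G), ∃ q0 ∈ (Qv Γ p x : Subgroup G), q = u * q0 := by
  have := finQe (p := p) h x x'
  exact helper94.cover (Qe_isP h x x') (Qv_le_Qe h l.xx)
    ((nm_Qv h x).mono (Qe_le_st x x')) (hB.rl _ _ l.xx) (l.wx.trans (Qv_le_Qe' h l.xx))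
    (l.symm h hB).cr hq

theorem Lk.cent (h : Loc G Γ d) (hB : CB G Γ p) {x x' w' w : V} (l : Lk Γ G p x x' w' w)
    {v : G} (hv : v ∈ (Vv Γ p x : Subgroup G)) (hc : ∀ u ∈ (Vv Γ p w : Subgroup G), u * v = v * u) :
    v ∈ (Zz p x x' : Subgroup G) := by
  refine mem_Zz h hB l.xx hv ?_
  intro q hq
  obtain ⟨u, hu, q0, hq0, rfl⟩ := l.cover h hB hq
  rw [mul_assoc, Vv_comm h hB hq0 hv, ← mul_assoc, hc u hu, mul_assoc]

/-- the commutators of `Vv x` with `Qe x x'` -/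
def CC (Γ : SimpleGraph V) (p : ℕ) (x x' : V) : Subgroup G :=
  ⁅(Vv Γ p x : Subgroup G), (Qe p x x' : Subgroup G)⁆

theorem Lk.comm (h : Loc G Γ d) (hB : CB G Γ p) {x x' w' w : V} (l : Lk Γ G p x x' w' w) :
    (CC Γ p x x' : Subgroup G) ≤ Zz p x x' ⊓ Zz p w w' := by
  have h1 : (CC Γ p x x' : Subgroup G) ≤ Vv Γ p x ⊓ Vv Γ p w := by
    unfold CC
    rw [Subgroup.commutator_le]
    intro v hv q hq
    obtain ⟨u, hu, q0, hq0, rfl⟩ := l.cover h hB hq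
    have h2 : ⁅v, u * q0⁆ = v * u * v⁻¹ * u⁻¹ := by
      rw [commutatorElement_def]
      have h3 : q0 * v⁻¹ = v⁻¹ * q0 := Vv_comm h hB hq0 (Subgroup.inv_mem _ hv)
      calc v * (u * q0) * v⁻¹ * (u * q0)⁻¹ = v * u * (q0 * v⁻¹) * q0⁻¹ * u⁻¹ := by group
        _ = v * u * (v⁻¹ * q0) * q0⁻¹ * u⁻¹ := by rw [h3]
        _ = v * u * v⁻¹ * u⁻¹ := by group
    rw [h2]
    have hux : u ∈ stabilizer G x := (K_le_B l.xx.symm (Qv_le x' (l.wx hu))).2
    have hvw : v ∈ stabilizer G w := (K_le_B l.ww.symm (Qv_le w' (l.xw hv))).2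
    constructor
    · have h3 := nm_Vv h x u hux v⁻¹ (Subgroup.inv_mem _ hv)
      have h4 : v * u * v⁻¹ * u⁻¹ = v * (u * v⁻¹ * u⁻¹) := by group
      rw [h4]
      exact Subgroup.mul_mem _ hv h3
    · exact Subgroup.mul_mem _ (nm_Vv h w v hvw u hu) (Subgroup.inv_mem _ hu)
  intro a ha
  obtain ⟨h2, h3⟩ := h1 ha
  constructor
  · refine l.cent h hB h2 ?_
    intro u hu
    exact Vv_comm h hB (Vv_le_Qv h hB w hu) h3
  · refine (l.symm h hB).cent h hB h3 ?_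
    intro u hu
    exact Vv_comm h hB (Vv_le_Qv h hB x hu) h2

end two

end Pool.Agent.Work.MP_6d7bb4.helper94
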