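import Pool.Agent.Work.MP_6d7bb4_helper94.Tv2
import Pool.Agent.Work.MP_6d7bb4_helper94.HHC
import Pool.Agent.Work.MP_6d7bb4_helper94.Act

/-! # MP_6d7bb4: elementary abelian 3-groups acting on 2-groups (helper94) -/

set_option autoImplicit false
set_option linter.unusedSectionVars false

namespace Pool.Agent.Work.MP_6d7bb4.helper94.Tv

open Qd Ff
open scoped commutatorElement

/-- two commuting elements of order three -/
theorem three {M : Type*} [AddCommGroup M] {f g : AddMonoid.End M} (hfg : f * g = g * f)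
    (hf : f * f * f = 1) (hg : g * g * g = 1) (h3 : ∀ x : M, x + x + x = 0 → x = 0)
    (h1 : ∀ x, f x = x → x = 0) (h2 : ∀ x, g x = x → x = 0)
    (h12 : ∀ x, (f * g) x = x → x = 0) (h122 : ∀ x, (f * g * g) x = x → x = 0) (x : M) :
    x = 0 := by
  have nm : ∀ k : AddMonoid.End M, k * k * k = 1 → (∀ x, k x = x → x = 0) → 1 + k + k * k = 0 := by
    intro k hk hk0
    refine AddMonoidHom.ext (fun y => ?_)
    refine hk0 _ ?_
    have e1 : k * (1 + k + k * k) = 1 + k + k * k := by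
      calc k * (1 + k + k * k) = k + k * k + k * k * k := by noncomm_ring
        _ = 1 + k + k * k := by
          rw [hk]
          abel
    have e2 : (k * (1 + k + k * k)) y = (1 + k + k * k) y := by rw [e1]
    exact e2
  have n1 := nm f hf h1
  have n2 := nm g hg h2
  have c1 : (f * g) * (f * g) = f * f * (g * g) := by
    calc (f * g) * (f * g) = f * (g * f) * g := by noncomm_ring
      _ = f * f * (g * g) := by
        rw [← hfg]
        noncomm_ring
  have n12 := nm (f * g) (by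
    calc (f * g) * (f * g) * (f * g) = f * f * (g * g) * (f * g) := by rw [c1]
      _ = f * f * (g * (g * f)) * g := by noncomm_ring
      _ = f * f * (g * (f * g)) * g := by rw [← hfg]
      _ = f * f * ((g * f) * g) * g := by noncomm_ring
      _ = f * f * ((f * g) * g) * g := by rw [← hfg]
      _ = (f * f * f) * (g * g * g) := by noncomm_ring
      _ = 1 := by rw [hf, hg, one_mul]) h12
  have c3 : (f * g * g) * (f * g * g) = f * f * g := by
    calc (f * g * g) * (f * g * g) = f * g * (g * f) * (g * g) := by noncomm_ring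
      _ = f * g * (f * g) * (g * g) := by rw [← hfg]
      _ = f * (g * f) * g * (g * g) := by noncomm_ring
      _ = f * (f * g) * g * (g * g) := by rw [← hfg]
      _ = f * f * g * (g * g * g) := by noncomm_ring
      _ = f * f * g := by rw [hg, mul_one]
  have n122 := nm (f * g * g) (by
    calc (f * g * g) * (f * g * g) * (f * g * g) = f * f * g * (f * g * g) := by rw [c3]
      _ = f * f * (g * f) * (g * g) := by noncomm_ring
      _ = (f * f * f) * (g * g * g) := by
        rw [← hfg]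
        noncomm_ring
      _ = 1 := by rw [hf, hg, one_mul]) h122
  refine h3 x ?_
  have e1 : (1 : AddMonoid.End M) + 1 + 1 = (1 + f + f * f) + (1 + g + g * g) +
      (1 + f * g + (f * g) * (f * g)) + (1 + f * g * g + (f * g * g) * (f * g * g)) -
      (1 + f + f * f) * (1 + g + g * g) := by
    rw [c1, c3]
    noncomm_ring
  rw [n1, n2, n12, n122] at e1
  have e2 : (1 : AddMonoid.End M) + 1 + 1 = 0 := by
    rw [e1]
    noncomm_ring
  have e3 : ((1 : AddMonoid.End M) + 1 + 1) x = (0 : AddMonoid.End M) x := by rw [e2]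
  exact e3

section mod3
variable {G : Type*} [Group G]

theorem mod3 {R B : Subgroup G} (hfin : Finite R) (hR : IsPGroup 2 R)
    (hab : ∀ a ∈ B, ∀ b ∈ B, a * b = b * a) (hcu : ∀ a ∈ B, a * a * a = 1) (hn : Nm B R)
    (hmin : ∀ D, D ≤ R → D ≠ R → Nm B D → ∀ b ∈ B, ∀ s ∈ D, b * s = s * b)
    {a b : G} (ha : a ∈ B) (hna : ¬ ∀ s ∈ R, a * s = s * a) (hb : b ∈ B)
    (hnb : ¬ ∀ s ∈ R, b * s = s * b) :
    (∀ s ∈ R, (a * b) * s = s * (a * b)) ∨ (∀ s ∈ R, (a * b * b) * s = s * (a * b * b)) := by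
  by_contra hcon
  push Not at hcon
  obtain ⟨hab1, hab2⟩ := hcon
  obtain ⟨D, hD⟩ : ∃ D : Subgroup G, ∀ s, s ∈ D ↔ s ∈ R ∧ ∀ b ∈ B, b * s = s * b :=
    ⟨R ⊓ Subgroup.centralizer (B : Set G), fun s => by
      rw [Subgroup.mem_inf, Subgroup.mem_centralizer_iff]
      rfl⟩
  have hDR : D ≤ R := fun s hs => ((hD s).mp hs).1
  have hRne : R ≠ ⊥ := by
    rintro rfl
    apply hna
    intro s hs
    rw [Subgroup.mem_bot] at hs
    rw [hs, mul_one, one_mul]
  have hcle : ⁅R, R⁆ ≤ D := by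
    have hDn : Nm B ⁅R, R⁆ := by
      intro b hb s hs
      have h2 : ⁅R, R⁆ ≤ (⁅R, R⁆).comap (MulAut.conj b).toMonoidHom := by
        rw [Subgroup.commutator_le]
        intro x hx y hy
        show b * ⁅x, y⁆ * b⁻¹ ∈ ⁅R, R⁆
        have h3 : b * ⁅x, y⁆ * b⁻¹ = ⁅b * x * b⁻¹, b * y * b⁻¹⁆ := by
          rw [commutatorElement_def, commutatorElement_def]
          group
        rw [h3]
        exact Subgroup.commutator_mem_commutator (hn b hb x hx) (hn b hb y hy)
      exact h2 hs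
    have hDle : ⁅R, R⁆ ≤ R := by
      rw [Subgroup.commutator_le]
      intro x hx y hy
      rw [commutatorElement_def]
      exact R.mul_mem (R.mul_mem (R.mul_mem hx hy) (R.inv_mem hx)) (R.inv_mem hy)
    have hDc := hmin ⁅R, R⁆ hDle (comm_ne Nat.prime_two hfin hR hRne) hDn
    intro s hs
    rw [hD]
    exact ⟨hDle hs, fun b hb => hDc b hb s hs⟩
  have hRD : Nm R D := by
    intro x hx s hs
    have e1 : x * s * x⁻¹ = ⁅x, s⁆ * s := by
      rw [commutatorElement_def]
      group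
    rw [e1]
    exact D.mul_mem (hcle (Subgroup.commutator_mem_commutator hx (hDR hs))) hs
  obtain ⟨D', hD'⟩ : ∃ D' : Subgroup R, D' = D.subgroupOf R := ⟨_, rfl⟩
  have hD'm : ∀ s : R, s ∈ D' ↔ s.1 ∈ D := by
    intro s
    rw [hD', Subgroup.mem_subgroupOf]
  have hD'n : D'.Normal := by
    refine ⟨fun n hn g => ?_⟩
    rw [hD'm] at hn ⊢
    exact hRD g.1 g.2 n.1 hn
  -- fixed points
  have hfix : ∀ c ∈ B, (¬ ∀ s ∈ R, c * s = s * c) → ∀ s ∈ R, c * s * c⁻¹ * s⁻¹ ∈ D → s ∈ D := by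
    intro c hc hnc
    obtain ⟨T, hT⟩ : ∃ T : Subgroup G, ∀ s, s ∈ T ↔ s ∈ R ∧ c * s * c⁻¹ * s⁻¹ ∈ D := by
      refine ⟨{ carrier := {s | s ∈ R ∧ c * s * c⁻¹ * s⁻¹ ∈ D}
                one_mem' := ⟨R.one_mem, by
                  have e1 : c * 1 * c⁻¹ * (1 : G)⁻¹ = 1 := by group
                  rw [e1]
                  exact D.one_mem⟩
                mul_mem' := ?_
                inv_mem' := ?_ }, fun s => Iff.rfl⟩
      · rintro s s' ⟨h1, h2⟩ ⟨h3, h4⟩
        refine ⟨R.mul_mem h1 h3, ?_⟩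
        have e1 : c * (s * s') * c⁻¹ * (s * s')⁻¹ =
            (c * s * c⁻¹ * s⁻¹) * (s * (c * s' * c⁻¹ * s'⁻¹) * s⁻¹) := by group
        rw [e1]
        exact D.mul_mem h2 (hRD s h1 _ h4)
      · rintro s ⟨h1, h2⟩
        refine ⟨R.inv_mem h1, ?_⟩
        have e1 : c * s⁻¹ * c⁻¹ * s⁻¹⁻¹ = s⁻¹ * (c * s * c⁻¹ * s⁻¹)⁻¹ * s⁻¹⁻¹ := by group
        rw [e1]
        exact hRD s⁻¹ (R.inv_mem h1) _ (D.inv_mem h2)
    have hTR : T ≤ R := fun s hs => ((hT s).mp hs).1
    have hTne : T ≠ R := by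
      intro h
      apply hnc
      intro s hs
      have h1 : s ∈ T := by
        rw [h]
        exact hs
      have h2 := ((hT s).mp h1).2
      obtain ⟨d, hd⟩ : ∃ d, d = c * s * c⁻¹ * s⁻¹ := ⟨_, rfl⟩
      rw [← hd] at h2
      have h3 : c * s * c⁻¹ = d * s := by
        rw [hd]
        group
      have h4 := ((hD d).mp h2).2 c hc
      have h5 := conj_iter h3 h4 3
      have h6 : c ^ 3 = 1 := by
        have := hcu c hc
        rw [← this]
        simp only [pow_succ, pow_zero, one_mul]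
      rw [h6, one_mul, inv_one, mul_one] at h5
      have h7 : d ^ 3 = 1 := right_eq_mul.mp h5
      obtain ⟨k, hk⟩ := hR ⟨d, hDR h2⟩
      have hk' : d ^ 2 ^ k = 1 := congrArg Subtype.val hk
      have h8 : d = 1 := one_of_coprime h7 hk' (Nat.Coprime.pow_right k (by norm_num))
      rw [h8, one_mul] at h3
      exact mul_inv_eq_iff_eq_mul.mp h3
    have hTn : Nm B T := by
      intro x hx s hs
      rw [hT] at hs ⊢
      refine ⟨hn x hx s hs.1, ?_⟩
      have h1 := hab c hc x hx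
      have h2 := hab c⁻¹ (B.inv_mem hc) x⁻¹ (B.inv_mem hx)
      have hxd : ∀ d ∈ D, x * d * x⁻¹ ∈ D := by
        intro d hd
        have h3 := ((hD d).mp hd).2 x hx
        rw [h3, mul_inv_cancel_right]
        exact hd
      have e1 : c * (x * s * x⁻¹) * c⁻¹ * (x * s * x⁻¹)⁻¹ =
          x * (c * s * c⁻¹ * s⁻¹) * x⁻¹ := by
        calc c * (x * s * x⁻¹) * c⁻¹ * (x * s * x⁻¹)⁻¹ =
            (c * x) * s * (c * x)⁻¹ * x * s⁻¹ * x⁻¹ := by group
          _ = (x * c) * s * (x * c)⁻¹ * x * s⁻¹ * x⁻¹ := by rw [h1]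
          _ = x * (c * s * c⁻¹ * s⁻¹) * x⁻¹ := by group
      rw [e1]
      exact hxd _ hs.2
    have h1 := hmin T hTR hTne hTn
    intro s hs hs'
    rw [hD]
    exact ⟨hs, fun b hb => h1 b hb s ((hT s).mpr ⟨hs, hs'⟩)⟩
  -- the module
  let : CommGroup (R ⧸ D') := { (inferInstance : Group (R ⧸ D')) with
    mul_comm := by
      intro x y
      obtain ⟨x, rfl⟩ := QuotientGroup.mk_surjective x
      obtain ⟨y, rfl⟩ := QuotientGroup.mk_surjective y
      show (QuotientGroup.mk (x * y) : R ⧸ D') = QuotientGroup.mk (y * x)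
      rw [QuotientGroup.eq, hD'm]
      have e1 : ((x * y)⁻¹ * (y * x) : R).1 = ⁅y.1⁻¹, x.1⁻¹⁆ := by
        show (x.1 * y.1)⁻¹ * (y.1 * x.1) = _
        rw [commutatorElement_def]
        group
      rw [e1]
      exact hcle (Subgroup.commutator_mem_commutator (R.inv_mem y.2) (R.inv_mem x.2)) }
  obtain ⟨F, hF⟩ : ∃ F : B →* AddMonoid.End (Additive (R ⧸ D')), ∀ (c : B) (s : R),
      F c (Additive.ofMul (QuotientGroup.mk s : R ⧸ D')) =
        Additive.ofMul (QuotientGroup.mk ⟨c.1 * s.1 * c.1⁻¹, hn c.1 c.2 s.1 s.2⟩ : R ⧸ D') := by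
    have hle : ∀ c : B, D' ≤ D'.comap (cjH hn c).toMonoidHom := by
      intro c s hs
      show cjH hn c s ∈ D'
      rw [hD'm] at hs ⊢
      show c.1 * s.1 * c.1⁻¹ ∈ D
      rw [((hD s.1).mp hs).2 c.1 c.2, mul_inv_cancel_right]
      exact hs
    refine ⟨{ toFun := fun c => MonoidHom.toAdditive
                (QuotientGroup.map D' D' (cjH hn c).toMonoidHom (hle c))
              map_one' := ?_
              map_mul' := ?_ }, fun _ _ => rfl⟩
    · refine AddMonoidHom.ext (fun w => ?_)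
      obtain ⟨s, hs⟩ := QuotientGroup.mk_surjective w.toMul
      have hw : w = Additive.ofMul (QuotientGroup.mk s : R ⧸ D') := by
        rw [hs]
        rfl
      rw [hw]
      show Additive.ofMul (QuotientGroup.mk (cjH hn 1 s) : R ⧸ D') = _
      rw [map_one]
      rfl
    · intro c c'
      refine AddMonoidHom.ext (fun w => ?_)
      obtain ⟨s, hs⟩ := QuotientGroup.mk_surjective w.toMul
      have hw : w = Additive.ofMul (QuotientGroup.mk s : R ⧸ D') := by
        rw [hs]
        rfl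
      rw [hw]
      show Additive.ofMul (QuotientGroup.mk (cjH hn (c * c') s) : R ⧸ D') =
        Additive.ofMul (QuotientGroup.mk (cjH hn c (cjH hn c' s)) : R ⧸ D')
      rw [map_mul]
      rfl
  have hF0 : ∀ c : B, (¬ ∀ s ∈ R, c.1 * s = s * c.1) → ∀ w, F c w = w → w = 0 := by
    intro c hc w hw
    obtain ⟨s, hs⟩ := QuotientGroup.mk_surjective w.toMul
    have hw' : w = Additive.ofMul (QuotientGroup.mk s : R ⧸ D') := by
      rw [hs]
      rfl
    rw [hw', hF] at hw
    have h1 : (QuotientGroup.mk ⟨c.1 * s.1 * c.1⁻¹, hn c.1 c.2 s.1 s.2⟩ : R ⧸ D') =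
      QuotientGroup.mk s := hw
    rw [eq_comm, QuotientGroup.eq, hD'm] at h1
    have h2 : s.1⁻¹ * (c.1 * s.1 * c.1⁻¹) ∈ D := h1
    have h3 : c.1 * s.1 * c.1⁻¹ * s.1⁻¹ ∈ D := by
      have e1 : c.1 * s.1 * c.1⁻¹ * s.1⁻¹ = s.1 * (s.1⁻¹ * (c.1 * s.1 * c.1⁻¹)) * s.1⁻¹ := by
        group
      rw [e1]
      exact hRD s.1 s.2 _ h2
    have h4 := hfix c.1 c.2 hc s.1 s.2 h3
    rw [hw']
    show (QuotientGroup.mk s : R ⧸ D') = 1
    rw [QuotientGroup.eq_one_iff, hD'm]
    exact h4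
  have hF3 : ∀ c : B, F c * F c * F c = 1 := by
    intro c
    rw [← map_mul, ← map_mul]
    have : c * c * c = 1 := Subtype.ext (hcu c.1 c.2)
    rw [this, map_one]
  have hall : ∀ w : Additive (R ⧸ D'), w = 0 := by
    intro w
    have hfg : F ⟨a, ha⟩ * F ⟨b, hb⟩ = F ⟨b, hb⟩ * F ⟨a, ha⟩ := by
      rw [← map_mul, ← map_mul]
      congr 1
      exact Subtype.ext (hab a ha b hb)
    refine three hfg (hF3 _) (hF3 _) ?_ (hF0 _ hna) (hF0 _ hnb) ?_ ?_ w
    · intro x hx
      obtain ⟨s, hs⟩ := QuotientGroup.mk_surjective x.toMul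
      have hx' : x = Additive.ofMul (QuotientGroup.mk s : R ⧸ D') := by
        rw [hs]
        rfl
      rw [hx'] at hx ⊢
      have h1 : (QuotientGroup.mk (s * s * s) : R ⧸ D') = 1 := hx
      rw [QuotientGroup.eq_one_iff] at h1
      show (QuotientGroup.mk s : R ⧸ D') = 1
      obtain ⟨k, hk⟩ := hR s
      refine one_of_coprime (m := 3) (n := 2 ^ k) ?_ ?_ (Nat.Coprime.pow_right k (by norm_num))
      · rw [← QuotientGroup.mk_pow, QuotientGroup.eq_one_iff]
        have e1 : s ^ 3 = s * s * s := by simp only [pow_succ, pow_zero, one_mul]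
        rw [e1]
        exact h1
      · rw [← QuotientGroup.mk_pow, hk]
        rfl
    · rw [← map_mul]
      refine hF0 _ ?_
      intro h
      obtain ⟨s, hs, hs'⟩ := hab1
      exact hs' (h s hs)
    · rw [← map_mul, ← map_mul]
      refine hF0 _ ?_
      intro h
      obtain ⟨s, hs, hs'⟩ := hab2
      exact hs' (h s hs)
  apply hna
  intro s hs
  have h1 := hall (Additive.ofMul (QuotientGroup.mk ⟨s, hs⟩ : R ⧸ D'))
  have h2 : (QuotientGroup.mk ⟨s, hs⟩ : R ⧸ D') = 1 := h1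
  rw [QuotientGroup.eq_one_iff, hD'm] at h2
  exact ((hD s).mp h2).2 a ha

end mod3

end Pool.Agent.Work.MP_6d7bb4.helper94.Tv
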