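import Pool.Agent.Work.MP_6d7bb4_helper94.LocP

/-! # MP_6d7bb4: local analysis, part 3 (helper94): extension of links -/

set_option autoImplicit false
set_option linter.unusedSectionVars false

namespace Pool.Agent.Work.MP_6d7bb4.helper94

open MulAction
open scoped commutatorElement

theorem cj_sup {G : Type*} [Group G] (g : G) (M N : Subgroup G) :
    cj g (M ⊔ N) = cj g M ⊔ cj g N := by
  refine le_antisymm ?_ (sup_le (cj_mono g le_sup_left) (cj_mono g le_sup_right))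
  have h1 : M ⊔ N ≤ cj g⁻¹ (cj g M ⊔ cj g N) := by
    refine sup_le ?_ ?_
    · have := cj_mono g⁻¹ (le_sup_left : cj g M ≤ cj g M ⊔ cj g N)
      rwa [cj_cj_inv] at this
    · have := cj_mono g⁻¹ (le_sup_right : cj g N ≤ cj g M ⊔ cj g N)
      rwa [cj_cj_inv] at this
  have h2 := cj_mono g h1
  rwa [cj_inv_cj] at h2

section nc
variable {V G : Type*} [Group G] [MulAction G V] {Γ : SimpleGraph V} {d p : ℕ}

/-- generated by the `Qe x y` -/
def Nh (Γ : SimpleGraph V) (p : ℕ) (x : V) : Subgroup G :=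
  ⨆ y : {y // Γ.Adj x y}, Qe p x y.1

theorem Qe_le_Nh {x y : V} (hxy : Γ.Adj x y) : (Qe p x y : Subgroup G) ≤ Nh Γ p x :=
  le_iSup (fun y : {y // Γ.Adj x y} => (Qe p x y.1 : Subgroup G)) ⟨y, hxy⟩

theorem Nh_cj (h : Loc G Γ d) (g : G) (x : V) : Nh Γ p (g • x) = cj g (Nh Γ p x) := by
  have key : ∀ (g : G) (x : V), Nh Γ p (g • x) ≤ cj g (Nh Γ p x) := by
    intro g x
    refine iSup_le (fun y => ?_)
    have h1 : Γ.Adj x (g⁻¹ • y.1) := by
      rw [← h.adj_iff g, smul_inv_smul]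
      exact y.2
    have h2 : (Qe p (g • x) y.1 : Subgroup G) = cj g (Qe p x (g⁻¹ • y.1)) := by
      rw [← Qe_cj, smul_inv_smul]
    rw [h2]
    exact cj_mono g (Qe_le_Nh h1)
  refine le_antisymm (key g x) ?_
  have h1 := cj_mono g (key g⁻¹ (g • x))
  rw [inv_smul_smul, cj_inv_cj] at h1
  exact h1

variable [Fact p.Prime]

theorem Nh_le (x : V) : (Nh Γ p x : Subgroup G) ≤ stabilizer G x :=
  iSup_le (fun y => Qe_le_st x y.1)

theorem Nh_tr (h : Loc G Γ d) (hB : CB G Γ p) (x : V) :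
    ∀ y y', Γ.Adj x y → Γ.Adj x y' → ∃ n ∈ (Nh Γ p x : Subgroup G), n • y = y' := by
  rcases h.sp x (Nh Γ p x) (Nh_le x) (nm_of_equiv (Nh_cj h) x) with h1 | h1
  · exact h1
  · intro y y' hy _
    exfalso
    apply hB.ne x y hy
    intro q hq
    exact h1 q (Qe_le_Nh hy hq) y hy (Qe_le x y hq).2

/-- the actions of `a` and `b` on `Vv x` commute -/
def cm (Γ : SimpleGraph V) (p : ℕ) (x : V) (a b : G) : Prop :=
  ∀ v ∈ (Vv Γ p x : Subgroup G), a * (b * v * b⁻¹) * a⁻¹ = b * (a * v * a⁻¹) * b⁻¹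

theorem cm.symm {x : V} {a b : G} (h : cm Γ p x a b) : cm Γ p x b a :=
  fun v hv => (h v hv).symm

theorem cm.mul (h : Loc G Γ d) {x : V} {a b t : G} (ha : cm Γ p x a t) (hb : cm Γ p x b t)
    (hbx : b ∈ stabilizer G x) : cm Γ p x (a * b) t := by
  intro v hv
  have h1 := hb v hv
  have h2 := ha _ (nm_Vv h x b hbx v hv)
  calc a * b * (t * v * t⁻¹) * (a * b)⁻¹ = a * (b * (t * v * t⁻¹) * b⁻¹) * a⁻¹ := by group
    _ = a * (t * (b * v * b⁻¹) * t⁻¹) * a⁻¹ := by rw [h1]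
    _ = t * (a * (b * v * b⁻¹) * a⁻¹) * t⁻¹ := h2
    _ = t * (a * b * v * (a * b)⁻¹) * t⁻¹ := by group

theorem cm.inv (h : Loc G Γ d) {x : V} {a t : G} (ha : cm Γ p x a t)
    (hax : a ∈ stabilizer G x) : cm Γ p x a⁻¹ t := by
  intro v hv
  have h0 := nm_Vv h x a⁻¹ ((stabilizer G x).inv_mem hax) v hv
  have h1 := ha _ h0
  have h2 : a * (a⁻¹ * v * a⁻¹⁻¹) * a⁻¹ = v := by group
  rw [h2] at h1
  calc a⁻¹ * (t * v * t⁻¹) * a⁻¹⁻¹ =
      a⁻¹ * (a * (t * (a⁻¹ * v * a⁻¹⁻¹) * t⁻¹) * a⁻¹) * a⁻¹⁻¹ := by rw [h1]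
    _ = t * (a⁻¹ * v * a⁻¹⁻¹) * t⁻¹ := by group

theorem cm.conj (h : Loc G Γ d) {x : V} {a b : G} (hab : cm Γ p x a b) (g : G) :
    cm Γ p (g • x) (g * a * g⁻¹) (g * b * g⁻¹) := by
  intro v hv
  rw [Vv_cj h, mem_cj] at hv
  have h1 := hab _ hv
  calc g * a * g⁻¹ * (g * b * g⁻¹ * v * (g * b * g⁻¹)⁻¹) * (g * a * g⁻¹)⁻¹ =
      g * (a * (b * (g⁻¹ * v * g) * b⁻¹) * a⁻¹) * g⁻¹ := by group
    _ = g * (b * (a * (g⁻¹ * v * g) * a⁻¹) * b⁻¹) * g⁻¹ := by rw [h1]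
    _ = g * b * g⁻¹ * (g * a * g⁻¹ * v * (g * a * g⁻¹)⁻¹) * (g * b * g⁻¹)⁻¹ := by group

variable (G) in
/-- the actions of `Qe x y` and `Qe x y'` on `Vv x` commute -/
def ncm (Γ : SimpleGraph V) (p : ℕ) (x y y' : V) : Prop :=
  ∀ s ∈ (Qe p x y : Subgroup G), ∀ t ∈ (Qe p x y' : Subgroup G), cm Γ p x s t

theorem ncm.symm {x y y' : V} (h : ncm G Γ p x y y') : ncm G Γ p x y' y :=
  fun s hs t ht => (h t ht s hs).symm

theorem ncm.conj (h : Loc G Γ d) {x y y' : V} (hn : ncm G Γ p x y y') (g : G) :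
    ncm G Γ p (g • x) (g • y) (g • y') := by
  intro s hs t ht
  rw [Qe_cj, mem_cj] at hs ht
  have h1 := (hn _ hs _ ht).conj h g
  have h2 : g * (g⁻¹ * s * g) * g⁻¹ = s := by group
  have h3 : g * (g⁻¹ * t * g) * g⁻¹ = t := by group
  rwa [h2, h3] at h1

theorem nc_exists (h : Loc G Γ d) (hB : CB G Γ p) {x y : V} (hxy : Γ.Adj x y) :
    ∃ w, Γ.Adj x w ∧ ¬ ncm G Γ p x w y := by
  by_contra hcon
  push Not at hcon
  have hall : ∀ y', Γ.Adj x y' → ∀ w, Γ.Adj x w → ncm G Γ p x w y' := by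
    intro y' hy' w hw
    obtain ⟨g, hg1, hg2⟩ := h.arc x y x y' hxy hy'
    have h1 : Γ.Adj x (g⁻¹ • w) := by
      rw [← h.adj_iff g, smul_inv_smul, hg1]
      exact hw
    have h2 := (hcon _ h1).conj h g
    rwa [hg1, hg2, smul_inv_smul] at h2
  have hle : ∀ y', Γ.Adj x y' → ∀ w, Γ.Adj x w →
      (Zz p x y' : Subgroup G) ≤ Zz p x w := by
    intro y' hy' w hw
    obtain ⟨M, hM⟩ : ∃ M : Subgroup G, ∀ g, g ∈ M ↔ g ∈ stabilizer G x ∧
        ∀ t ∈ (Qe p x y' : Subgroup G), cm Γ p x g t :=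
      ⟨{ carrier := {g | g ∈ stabilizer G x ∧ ∀ t ∈ (Qe p x y' : Subgroup G), cm Γ p x g t}
         one_mem' := ⟨Subgroup.one_mem _, fun t _ v _ => by group⟩
         mul_mem' := fun {a b} ha hb => ⟨Subgroup.mul_mem _ ha.1 hb.1,
           fun t ht => (ha.2 t ht).mul h (hb.2 t ht) hb.1⟩
         inv_mem' := fun {a} ha => ⟨Subgroup.inv_mem _ ha.1,
           fun t ht => (ha.2 t ht).inv h ha.1⟩ }, fun _ => Iff.rfl⟩
    have hNM : (Nh Γ p x : Subgroup G) ≤ M := by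
      refine iSup_le (fun w' => ?_)
      intro s hs
      rw [hM]
      exact ⟨Qe_le_st x w'.1 hs, fun t ht => hall y' hy' w'.1 w'.2 s hs t ht⟩
    obtain ⟨n, hn, hn'⟩ := Nh_tr h hB x y' w hy' hw
    have hnx := Nh_le x hn
    intro z hz
    refine mem_Zz h hB hw (Zz_le_Vv hy' hz) ?_
    intro q hq
    have h1 : n⁻¹ * q * n ∈ (Qe p x y' : Subgroup G) := by
      rw [← mem_cj, ← Qe_cj, hn', mem_stabilizer_iff.mp hnx]
      exact hq
    have h2 := ((hM n).mp (hNM hn)).2 _ h1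
    have h3 := nm_Vv h x n⁻¹ ((stabilizer G x).inv_mem hnx) z (Zz_le_Vv hy' hz)
    have h4 := h2 _ h3
    have h5 : n * (n⁻¹ * z * n⁻¹⁻¹) * n⁻¹ = z := by group
    rw [h5] at h4
    have h6 := Zz_comm_Qe hz h1
    have h7 : n⁻¹ * q * n * z * (n⁻¹ * q * n)⁻¹ = z := by
      rw [h6]
      group
    rw [h7] at h4
    have h8 : q * z * q⁻¹ = z := by
      rw [← h4]
      have h9 : n * (n⁻¹ * q * n * (n⁻¹ * z * n⁻¹⁻¹) * (n⁻¹ * q * n)⁻¹) * n⁻¹ = q * z * q⁻¹ := by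
        group
      rw [h9] at h4 ⊢
      rw [h4, h4]
    calc q * z = q * z * q⁻¹ * q := by group
      _ = z * q := by rw [h8]
  have hV : (Vv Γ p x : Subgroup G) = Zz p x y :=
    le_antisymm (iSup_le (fun w => hle w.1 w.2 y hxy)) (Zz_le_Vv hxy)
  apply Zz_ne h hB.toCB0 hxy
  obtain ⟨σ, h1, h2⟩ := h.inv hxy
  refine P1 h hxy ((OZ_le _ _).trans (Qe_le_st x y)) ?_ h1 h2 ?_
  · rw [← hV]
    exact nm_Vv h x
  · intro n hn
    have h3 := conj_mem_cj (g := σ) hn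
    rw [← Zz_cj, h1, h2, Zz_comm] at h3
    exact h3

/-- the groups `Qe x w` which do not commute with `Qe x y` generate `Nh x` -/
theorem nc_gen (h : Loc G Γ d) (hB : CB G Γ p) {x y : V} (hxy : Γ.Adj x y) :
    (Nh Γ p x : Subgroup G) ≤ ⨆ w : {w // Γ.Adj x w ∧ ¬ ncm G Γ p x w y}, Qe p x w.1 := by
  obtain ⟨Y, hY⟩ : ∃ Y : Subgroup G, Y = ⨆ w : {w // Γ.Adj x w ∧ ¬ ncm G Γ p x w y}, Qe p x w.1 :=
    ⟨_, rfl⟩
  rw [← hY]
  have hle : ∀ w, Γ.Adj x w → ¬ ncm G Γ p x w y → (Qe p x w : Subgroup G) ≤ Y := by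
    intro w h1 h2
    rw [hY]
    exact le_iSup (fun w : {w // Γ.Adj x w ∧ ¬ ncm G Γ p x w y} => (Qe p x w.1 : Subgroup G))
      ⟨w, h1, h2⟩
  have ha : ∀ w : {w // Γ.Adj x w}, Nm (Qe p x w.1 : Subgroup G) Y := by
    rintro ⟨w, hw⟩
    by_cases hn : ncm G Γ p x w y
    · rw [hY]
      refine Nm.iSup ?_
      rintro q hq ⟨w', hw', hn'⟩ n hn0
      have hqx := Qe_le_st x w hq
      have h1 : Γ.Adj x (q • w') := by
        have := h.adj q x w' hw'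
        rwa [mem_stabilizer_iff.mp hqx] at this
      have h2 : ¬ ncm G Γ p x (q • w') y := by
        intro h3
        apply hn'
        intro s hs t ht
        have h4 : q * s * q⁻¹ ∈ (Qe p x (q • w') : Subgroup G) := by
          have := conj_mem_cj (g := q) hs
          rwa [← Qe_cj, mem_stabilizer_iff.mp hqx] at this
        have h5 := h3 _ h4 t ht
        have h6 := hn q hq t ht
        have h7 := ((h6.inv h hqx).mul h h5 (Qe_le_st _ _ h4)).mul h h6 hqx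
        have h8 : q⁻¹ * (q * s * q⁻¹) * q = s := by group
        rwa [h8] at h7
      have h3 : q * n * q⁻¹ ∈ (Qe p x (q • w') : Subgroup G) := by
        have := conj_mem_cj (g := q) hn0
        rwa [← Qe_cj, mem_stabilizer_iff.mp hqx] at this
      rw [← hY]
      exact hle _ h1 h2 h3
    · exact nm_of_le (hle w hw hn)
  have hb : Nm (Nh Γ p x : Subgroup G) Y := Nm.iSup_left ha
  obtain ⟨w0, hw0, hn0⟩ := nc_exists h hB hxy
  refine iSup_le (fun w => ?_)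
  obtain ⟨n, hn, hn'⟩ := Nh_tr h hB x w0 w.1 hw0 w.2
  have hnx := Nh_le x hn
  intro q hq
  have h1 : n⁻¹ * q * n ∈ (Qe p x w0 : Subgroup G) := by
    rw [← mem_cj, ← Qe_cj, hn', mem_stabilizer_iff.mp hnx]
    exact hq
  have h2 := hb n hn _ (hle w0 hw0 hn0 h1)
  have h3 : n * (n⁻¹ * q * n) * n⁻¹ = q := by group
  rwa [h3] at h2

/-- extension of a link -/
theorem ext (h : Loc G Γ d) (hB : CB G Γ p) {x x' w' w : V} (l : Lk Γ G p x x' w' w) :
    ∃ y, Γ.Adj x y ∧ ¬ ncm G Γ p x y x' ∧ ¬ (Vv Γ p y : Subgroup G) ≤ Qv Γ p w' := by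
  by_contra hcon
  push Not at hcon
  have step1 : ∀ y, Γ.Adj x y → ¬ ncm G Γ p x y x' →
      Nm (Qe p x x' : Subgroup G) (Vv Γ p x ⊔ Vv Γ p y) := by
    intro y hy hny
    have hVy := hcon y hy hny
    have hq1 : (Qv Γ p x : Subgroup G) ≤ stabilizer G y := by
      intro q hq
      exact ((Qv_le x : (Qv Γ p x : Subgroup G) ≤ K Γ x) hq).2 y hy
    have hc1 : Nm (Qv Γ p x : Subgroup G) (Vv Γ p x ⊔ Vv Γ p y) :=
      ((nm_Vv h x).mono (Qv_le_st x)).sup ((nm_Vv h y).mono hq1)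
    have hc2 : Nm (Vv Γ p w : Subgroup G) (Vv Γ p x ⊔ Vv Γ p y) := by
      intro u hu
      have hux : u ∈ stabilizer G x := (K_le_B l.xx.symm (Qv_le x' (l.wx hu))).2
      have h1 : (Vv Γ p x ⊔ Vv Γ p y : Subgroup G) ≤
          (Vv Γ p x ⊔ Vv Γ p y).comap (MulAut.conj u).toMonoidHom := by
        refine sup_le ?_ ?_
        · intro v hv
          exact le_sup_left (α := Subgroup G) (nm_Vv h x u hux v hv)
        · intro v hv
          show u * v * u⁻¹ ∈ (Vv Γ p x ⊔ Vv Γ p y : Subgroup G)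
          obtain ⟨v0, hv0, q', hq', hvq⟩ := (l.symm h hB).cover h hB
            (Qv_le_Qe' h l.ww (hVy hv))
          have h2 : u * v * u⁻¹ = (u * v0 * u⁻¹ * v0⁻¹) * v := by
            have h3 : q' * u⁻¹ = u⁻¹ * q' := Vv_comm h hB hq' (Subgroup.inv_mem _ hu)
            rw [hvq]
            calc u * (v0 * q') * u⁻¹ = u * v0 * (q' * u⁻¹) := by group
              _ = u * v0 * (u⁻¹ * q') := by rw [h3]
              _ = u * v0 * u⁻¹ * v0⁻¹ * (v0 * q') := by group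
          rw [h2]
          refine Subgroup.mul_mem _ (Subgroup.mem_sup_left ?_) (Subgroup.mem_sup_right hv)
          exact Subgroup.mul_mem _ (nm_Vv h x u hux v0 hv0) (Subgroup.inv_mem _ hv0)
      intro n hn
      exact h1 hn
    intro q hq n hn
    obtain ⟨u, hu, q0, hq0, rfl⟩ := l.cover h hB hq
    have h1 := hc2 u hu _ (hc1 q0 hq0 n hn)
    have h2 : u * (q0 * n * q0⁻¹) * u⁻¹ = u * q0 * n * (u * q0)⁻¹ := by group
    rwa [h2] at h1
  have step2 : ∀ w1 : {w // Γ.Adj x w ∧ ¬ ncm G Γ p x w x'},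
      Nm (Qe p x w1.1 : Subgroup G) (Vv Γ p x ⊔ Vv Γ p x') := by
    rintro ⟨w1, hw1, hn1⟩
    obtain ⟨g, hg1, hg2⟩ := h.arc x x' x w1 l.xx hw1
    have hgi : g⁻¹ • x = x := by rw [inv_smul_eq_iff, hg1]
    have h1 : Γ.Adj x (g⁻¹ • x') := by
      rw [← h.adj_iff g, smul_inv_smul, hg1]
      exact l.xx
    have h2 : ¬ ncm G Γ p x (g⁻¹ • x') x' := by
      intro h3
      apply hn1
      have h4 := h3.conj h g
      rw [hg1, smul_inv_smul, hg2] at h4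
      exact h4.symm
    have h3 := nm_cj g (step1 _ h1 h2)
    rw [cj_sup, ← Vv_cj h, ← Vv_cj h, ← Qe_cj, hg1, hg2, smul_inv_smul] at h3
    exact h3
  have step3 : Nm (Nh Γ p x : Subgroup G) (Vv Γ p x ⊔ Vv Γ p x') :=
    (Nm.iSup_left step2).mono (nc_gen h hB l.xx)
  have hx' : (Vv Γ p x' : Subgroup G) ≤ stabilizer G x := fun v hv =>
    (K_le_B l.xx.symm (Qv_le x' (Vv_le_Qv h hB x' hv))).2
  obtain ⟨σ, h1, h2⟩ := h.inv l.xx
  have h5 : (Vv Γ p x ⊔ Vv Γ p x' : Subgroup G) = ⊥ := by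
    refine P1 h l.xx (sup_le ((Vv_le_Qv h hB x).trans (Qv_le_st x)) hx') ?_ h1 h2 ?_
    · refine nm_st (Nh_le x) (Nh_tr h hB x) h l.xx step3 ?_
      refine ((nm_Vv h x).mono (B_le x x')).sup ?_
      rw [B_comm]
      exact (nm_Vv h x').mono (B_le x' x)
    · intro n hn
      have h3 := conj_mem_cj (g := σ) hn
      rw [cj_sup, ← Vv_cj h, ← Vv_cj h, h1, h2, sup_comm] at h3
      exact h3
  apply Zz_ne h hB.toCB0 l.xx
  rw [eq_bot_iff, ← h5]
  exact (Zz_le_Vv l.xx).trans le_sup_left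

end nc

end Pool.Agent.Work.MP_6d7bb4.helper94
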