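import Pool.Agent.Work.MP_6d7bb4_helper94.LemR
import Pool.Agent.Work.MP_6d7bb4_helper94.HH

/-! # MP_6d7bb4: `p`-stability of `p`-soluble groups (helper94) -/

set_option autoImplicit false
set_option linter.unusedSectionVars false

namespace Pool.Agent.Work.MP_6d7bb4.helper94.Ps

open Qd

section chief
variable {X U : Type*} [Group X] [AddCommGroup U] (φ : X →* AddMonoid.End U)

/-- invariant subgroups -/
def Inv (W : AddSubgroup U) : Prop := ∀ x : X, ∀ w ∈ W, φ x w ∈ W

variable {φ}

theorem inv_bot : Inv φ (⊥ : AddSubgroup U) := by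
  intro x w hw
  rw [AddSubgroup.mem_bot] at hw ⊢
  rw [hw, map_zero]

end chief

section quot
variable {X U : Type*} [Group X] [AddCommGroup U] {φ : X →* AddMonoid.End U}

/-- restriction to an invariant subgroup -/
def rs {W : AddSubgroup U} (h : Inv φ W) (x : X) : W →+ W where
  toFun w := ⟨φ x w.1, h x w.1 w.2⟩
  map_zero' := Subtype.ext (map_zero (φ x))
  map_add' v w := Subtype.ext (map_add (φ x) v.1 w.1)

/-- action on an invariant subgroup -/
def ra {W : AddSubgroup U} (h : Inv φ W) : X →* AddMonoid.End W where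
  toFun x := rs h x
  map_one' := by
    refine AddMonoidHom.ext (fun w => Subtype.ext ?_)
    show φ 1 w.1 = w.1
    rw [map_one]
    rfl
  map_mul' := by
    intro x y
    refine AddMonoidHom.ext (fun w => Subtype.ext ?_)
    show φ (x * y) w.1 = φ x (φ y w.1)
    rw [map_mul]
    rfl

theorem ra_coe {W : AddSubgroup U} (h : Inv φ W) (x : X) (w : W) : (ra h x w).1 = φ x w.1 := rfl

/-- action on a quotient -/
def qa {W : AddSubgroup U} (h : Inv φ W) : X →* AddMonoid.End (U ⧸ W) where
  toFun x := QuotientAddGroup.map _ _ (φ x) (fun w hw => h x w hw)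
  map_one' := by
    refine AddMonoidHom.ext (fun w => ?_)
    obtain ⟨w, rfl⟩ := QuotientAddGroup.mk_surjective w
    show (QuotientAddGroup.mk (φ 1 w) : U ⧸ W) = QuotientAddGroup.mk w
    rw [map_one]
    rfl
  map_mul' := by
    intro x y
    refine AddMonoidHom.ext (fun w => ?_)
    obtain ⟨w, rfl⟩ := QuotientAddGroup.mk_surjective w
    show (QuotientAddGroup.mk (φ (x * y) w) : U ⧸ W) = QuotientAddGroup.mk (φ x (φ y w))
    rw [map_mul]
    rfl

theorem qa_mk {W : AddSubgroup U} (h : Inv φ W) (x : X) (w : U) :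
    qa h x (QuotientAddGroup.mk w) = QuotientAddGroup.mk (φ x w) := rfl

end quot

section irr
variable {X U : Type*} [Group X] [AddCommGroup U] {φ : X →* AddMonoid.End U}

/-- no normal `p`-subgroups of an irreducible group in characteristic `p` -/
theorem irr_noP {p : ℕ} (hp : p.Prime) [Finite U] (hpU : ∀ w : U, p • w = 0)
    {Y : Subgroup (AddMonoid.End U)ˣ}
    (hirr : ∀ W : AddSubgroup U, (∀ y ∈ Y, ∀ w ∈ W, (y : AddMonoid.End U) w ∈ W) →
      W = ⊥ ∨ W = ⊤) (hne : Nontrivial U) {N : Subgroup (AddMonoid.End U)ˣ} (_hN : N ≤ Y)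
    (hNn : Nm Y N) (hNp : IsPGroup p N) : N = ⊥ := by
  have : Fact p.Prime := ⟨hp⟩
  let act : MulAction N U :=
    { smul := fun n w => (n.1 : AddMonoid.End U) w
      one_smul := fun w => rfl
      mul_smul := fun m n w => rfl }
  have hsm : ∀ (n : N) (w : U), n • w = (n.1 : AddMonoid.End U) w := fun _ _ => rfl
  have hd : p ∣ Nat.card U := by
    obtain ⟨w, hw⟩ := exists_ne (0 : U)
    have h1 : addOrderOf w = p := addOrderOf_eq_prime (hpU w) hw
    rw [← h1]
    exact addOrderOf_dvd_natCard w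
  have h0 : (0 : U) ∈ MulAction.fixedPoints N U := by
    intro n
    rw [hsm, map_zero]
  obtain ⟨w0, hw0, hw1⟩ := hNp.exists_fixed_point_of_prime_dvd_card_of_fixed_point U hd h0
  obtain ⟨W, hW⟩ : ∃ W : AddSubgroup U, ∀ w, w ∈ W ↔ ∀ n ∈ N, (n : AddMonoid.End U) w = w := by
    refine ⟨{ carrier := {w | ∀ n ∈ N, (n : AddMonoid.End U) w = w}
              zero_mem' := fun n _ => map_zero _
              add_mem' := ?_
              neg_mem' := ?_ }, fun w => Iff.rfl⟩
    · intro v w hv hw n hn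
      rw [map_add, hv n hn, hw n hn]
    · intro v hv n hn
      rw [map_neg, hv n hn]
  have hWi : ∀ y ∈ Y, ∀ w ∈ W, (y : AddMonoid.End U) w ∈ W := by
    intro y hy w hw
    rw [hW] at hw ⊢
    intro n hn
    have h1 := hNn y⁻¹ (Y.inv_mem hy) n hn
    have h2 := hw _ h1
    have h3 : n * y = y * (y⁻¹ * n * y⁻¹⁻¹) := by group
    have h4 : (n : AddMonoid.End U) * y = y * ((y⁻¹ * n * y⁻¹⁻¹ : (AddMonoid.End U)ˣ) :
        AddMonoid.End U) := by
      rw [← Units.val_mul, ← Units.val_mul, h3]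
    have h5 : (n : AddMonoid.End U) ((y : AddMonoid.End U) w) =
        ((n : AddMonoid.End U) * y) w := rfl
    rw [h5, h4]
    show (y : AddMonoid.End U) (((y⁻¹ * n * y⁻¹⁻¹ : (AddMonoid.End U)ˣ) : AddMonoid.End U) w) = _
    rw [h2]
  rcases hirr W hWi with h1 | h1
  · exfalso
    have h2 : w0 ∈ W := by
      rw [hW]
      intro n hn
      exact hw0 ⟨n, hn⟩
    rw [h1, AddSubgroup.mem_bot] at h2
    exact hw1 h2.symm
  · rw [Subgroup.eq_bot_iff_forall]
    intro n hn
    apply Units.ext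
    ext w
    have h2 : w ∈ W := by
      rw [h1]
      exact AddSubgroup.mem_top w
    rw [hW] at h2
    exact h2 n hn

/-- images of `p`-soluble groups -/
theorem psol_range {X Y : Type*} [Group X] [Group Y] {p : ℕ} (hp : p.Prime) [Finite X]
    (f : X →* Y) (h : PSol p (⊤ : Subgroup X)) : PSol p f.range := by
  have : Fact p.Prime := ⟨hp⟩
  intro L hL hne
  -- a subgroup of `X` minimal with image `L`
  have hfin : {M : Subgroup X | M.map f = L}.Finite := Set.toFinite _
  obtain ⟨M, hM⟩ := hfin.exists_minimal ⟨L.comap f, by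
    show (L.comap f).map f = L
    rw [Subgroup.map_comap_eq]
    exact inf_eq_right.mpr hL⟩
  obtain ⟨hML, hmin⟩ := hM
  have hML' : M.map f = L := hML
  have hMne : M ≠ ⊥ := by
    rintro rfl
    rw [Subgroup.map_bot] at hML'
    exact hne hML'.symm
  obtain ⟨N, hNM, hNne, hNn, hidx⟩ := h M le_top hMne
  refine ⟨N.map f, ?_, ?_, ?_, ?_⟩
  · rw [← hML']
    exact Subgroup.map_mono hNM
  · intro h1
    exact hNne (le_antisymm hNM (hmin h1 hNM))
  · intro l hl n hn
    rw [← hML'] at hl
    obtain ⟨x, hx, rfl⟩ := hl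
    obtain ⟨y, hy, rfl⟩ := hn
    exact ⟨x * y * x⁻¹, hNn x hx y hy, by rw [map_mul, map_mul, map_inv]⟩
  · have hd : (N.map f).relIndex L ∣ N.relIndex M := by
      obtain ⟨g, hg⟩ : ∃ g : M →* L, ∀ x : M, (g x).1 = f x.1 :=
        ⟨(f.comp M.subtype).codRestrict L (fun x => by
          rw [← hML']
          exact ⟨x.1, x.2, rfl⟩), fun _ => rfl⟩
      have hgs : Function.Surjective g := by
        rintro ⟨l, hl⟩
        rw [← hML'] at hl
        obtain ⟨x, hx, rfl⟩ := hl
        exact ⟨⟨x, hx⟩, Subtype.ext (hg _)⟩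
      have h3 := Subgroup.index_map_dvd (N.subgroupOf M) hgs
      have h4 : (N.subgroupOf M).map g = (N.map f).subgroupOf L := by
        ext l
        rw [Subgroup.mem_subgroupOf]
        constructor
        · rintro ⟨x, hx, rfl⟩
          exact ⟨x.1, hx, (hg x).symm⟩
        · rintro ⟨x, hx, hxl⟩
          exact ⟨⟨x, hNM hx⟩, hx, Subtype.ext ((hg _).trans hxl)⟩
      rw [h4] at h3
      exact h3
    rcases hidx with ⟨k, hk⟩ | h1
    · left
      rw [hk] at hd
      obtain ⟨j, _, hj⟩ := (Nat.dvd_prime_pow hp).mp hd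
      exact ⟨j, hj⟩
    · right
      exact fun h2 => h1 (h2.trans hd)

end irr

end Pool.Agent.Work.MP_6d7bb4.helper94.Ps
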