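import Pool.Agent.Work.MP_6d7bb4_helper94.Nc

/-! # MP_6d7bb4: local analysis, part 4 (helper94): the length of a link is bounded -/

set_option autoImplicit false
set_option linter.unusedSectionVars false

namespace Pool.Agent.Work.MP_6d7bb4.helper94

open MulAction
open scoped commutatorElement

section chain
variable {G : Type*} [Group G]

theorem card_step {H' H : Subgroup G} (hfin : Finite H) (hle : H' ≤ H) (hne : H' ≠ H) :
    2 * Nat.card H' ≤ Nat.card H := by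
  have h1 := Subgroup.relIndex_mul_relIndex ⊥ H' H bot_le hle
  rw [Subgroup.relIndex_bot_left, Subgroup.relIndex_bot_left] at h1
  have h2 : H'.relIndex H ≠ 1 := by
    rw [Ne, Subgroup.relIndex_eq_one]
    exact fun h => hne (le_antisymm hle h)
  have h3 : H'.relIndex H ≠ 0 := by
    intro h
    rw [h, mul_zero] at h1
    have := Nat.card_pos (α := H)
    omega
  have h4 : 2 ≤ H'.relIndex H := by omega
  calc 2 * Nat.card H' = Nat.card H' * 2 := mul_comm _ _
    _ ≤ Nat.card H' * H'.relIndex H := Nat.mul_le_mul_left _ h4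
    _ = _ := h1

theorem chain_aux {V0 : Subgroup G} [Finite V0] {S : Finset ℕ} {a : ℕ → G} {m : ℕ}
    {U : Subgroup G} (hm : m ∉ S) (h0 : ∀ k ∈ insert m S, a k ∈ V0) (h1 : a m ∉ U)
    (h2 : ∀ k ∈ S, a k ∈ U)
    (ih : 2 ^ S.card ≤ Nat.card (Subgroup.closure (a '' (S : Set ℕ)))) :
    2 ^ (insert m S).card ≤
      Nat.card (Subgroup.closure (a '' ((insert m S : Finset ℕ) : Set ℕ))) := by
  rw [Finset.card_insert_of_notMem hm, pow_succ, mul_comm]
  have hV : Subgroup.closure (a '' ((insert m S : Finset ℕ) : Set ℕ)) ≤ V0 := by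
    rw [Subgroup.closure_le]
    rintro _ ⟨k, hk, rfl⟩
    exact h0 k hk
  have hfin := Finite.of_injective _ (Subgroup.inclusion_injective hV)
  refine (Nat.mul_le_mul_left 2 ih).trans (card_step hfin ?_ ?_)
  · refine Subgroup.closure_mono (Set.image_mono ?_)
    intro k hk
    exact Finset.mem_insert_of_mem hk
  · intro hcon
    apply h1
    have h3 : a m ∈ Subgroup.closure (a '' ((insert m S : Finset ℕ) : Set ℕ)) :=
      Subgroup.subset_closure ⟨m, Finset.mem_insert_self _ _, rfl⟩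
    rw [← hcon] at h3
    have h4 : Subgroup.closure (a '' (S : Set ℕ)) ≤ U := by
      rw [Subgroup.closure_le]
      rintro _ ⟨k, hk, rfl⟩
      exact h2 k hk
    exact h4 h3

theorem chain_fin {V0 : Subgroup G} [Finite V0] {S : Finset ℕ} {a : ℕ → G}
    (h0 : ∀ m ∈ S, a m ∈ V0)
    (h : 2 ^ S.card ≤ Nat.card (Subgroup.closure (a '' (S : Set ℕ)))) :
    2 ^ S.card ≤ Nat.card V0 := by
  have hV : Subgroup.closure (a '' (S : Set ℕ)) ≤ V0 := by
    rw [Subgroup.closure_le]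
    rintro _ ⟨k, hk, rfl⟩
    exact h0 k hk
  exact h.trans (Nat.card_le_card_of_injective _ (Subgroup.inclusion_injective hV))

theorem chain_zero (a : ℕ → G) :
    2 ^ (∅ : Finset ℕ).card ≤ Nat.card (Subgroup.closure (a '' ((∅ : Finset ℕ) : Set ℕ))) := by
  simp

/-- separated elements give a long chain of subgroups -/
theorem chain_min {V0 : Subgroup G} [Finite V0] (S : Finset ℕ) (a : ℕ → G) (U : ℕ → Subgroup G)
    (h0 : ∀ m ∈ S, a m ∈ V0) (h1 : ∀ m ∈ S, a m ∉ U m)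
    (h2 : ∀ m ∈ S, ∀ m' ∈ S, m < m' → a m' ∈ U m) : 2 ^ S.card ≤ Nat.card V0 := by
  refine chain_fin h0 ?_
  revert h0 h1 h2
  refine Finset.induction_on_min S ?_ ?_
  · intro _ _ _
    exact chain_zero a
  · intro m S hm ih h0 h1 h2
    refine chain_aux (V0 := V0) (U := U m) (fun h => lt_irrefl _ (hm m h)) h0
      (h1 m (Finset.mem_insert_self _ _))
      (fun k hk => h2 m (Finset.mem_insert_self _ _) k (Finset.mem_insert_of_mem hk) (hm k hk)) ?_
    exact ih (fun k hk => h0 k (Finset.mem_insert_of_mem hk))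
      (fun k hk => h1 k (Finset.mem_insert_of_mem hk))
      (fun k hk k' hk' => h2 k (Finset.mem_insert_of_mem hk) k' (Finset.mem_insert_of_mem hk'))

theorem chain_max {V0 : Subgroup G} [Finite V0] (S : Finset ℕ) (a : ℕ → G) (U : ℕ → Subgroup G)
    (h0 : ∀ m ∈ S, a m ∈ V0) (h1 : ∀ m ∈ S, a m ∉ U m)
    (h2 : ∀ m ∈ S, ∀ m' ∈ S, m' < m → a m' ∈ U m) : 2 ^ S.card ≤ Nat.card V0 := by
  refine chain_fin h0 ?_
  revert h0 h1 h2
  refine Finset.induction_on_max S ?_ ?_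
  · intro _ _ _
    exact chain_zero a
  · intro m S hm ih h0 h1 h2
    refine chain_aux (V0 := V0) (U := U m) (fun h => lt_irrefl _ (hm m h)) h0
      (h1 m (Finset.mem_insert_self _ _))
      (fun k hk => h2 m (Finset.mem_insert_self _ _) k (Finset.mem_insert_of_mem hk) (hm k hk)) ?_
    exact ih (fun k hk => h0 k (Finset.mem_insert_of_mem hk))
      (fun k hk => h1 k (Finset.mem_insert_of_mem hk))
      (fun k hk k' hk' => h2 k (Finset.mem_insert_of_mem hk) k' (Finset.mem_insert_of_mem hk'))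

end chain

theorem dist_path {V : Type*} {Γ : SimpleGraph V} (hc : Γ.Connected) {s : ℕ → V} {N : ℕ}
    (ad : ∀ k, k < N → Γ.Adj (s k) (s (k + 1))) (i m : ℕ) (hm : i + m ≤ N) :
    Γ.dist (s i) (s (i + m)) ≤ m := by
  induction m with
  | zero => simp
  | succ m ih =>
    have h1 := ih (by omega)
    have h2 := hc.dist_triangle (u := s i) (v := s (i + m)) (w := s (i + (m + 1)))
    have h3 : Γ.dist (s (i + m)) (s (i + (m + 1))) = 1 :=
      SimpleGraph.dist_eq_one_iff_adj.mpr (ad _ (by omega))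
    omega

section path
variable {V G : Type*} [Group G] [MulAction G V] {Γ : SimpleGraph V} {d p : ℕ}

variable (G) in
/-- a path all of whose segments of length `c + 1` are links -/
structure Pth (Γ : SimpleGraph V) (p c : ℕ) (s : ℕ → V) (n : ℕ) : Prop where
  ad : ∀ k, k < n + c + 1 → Γ.Adj (s k) (s (k + 1))
  cr : ∀ k, k ≤ n → ¬ (Vv Γ p (s (k + c + 1)) : Subgroup G) ≤ Qv Γ p (s k)
  nc : ∀ k, c ≤ k → k < n + c → ¬ ncm G Γ p (s (k + 1)) (s (k + 2)) (s k)

variable (G) in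
/-- minimality of `c + 1` -/
def Mn (Γ : SimpleGraph V) (p c : ℕ) : Prop :=
  ∀ x w : V, Γ.dist x w ≤ c → (Vv Γ p x : Subgroup G) ≤ Qv Γ p w

variable [Fact p.Prime]

theorem Pth.lk (h : Loc G Γ d) {c n k : ℕ} {s : ℕ → V} (P : Pth G Γ p c s n) (mn : Mn G Γ p c)
    (hk : k ≤ n) : Lk Γ G p (s (k + c + 1)) (s (k + c)) (s (k + 1)) (s k) where
  xx := (P.ad (k + c) (by omega)).symm
  ww := P.ad k (by omega)
  xw := by
    refine mn _ _ ?_
    rw [SimpleGraph.dist_comm, show k + c + 1 = k + 1 + c by omega]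
    exact dist_path h.conn P.ad (k + 1) c (by omega)
  wx := mn _ _ (dist_path h.conn P.ad k c (by omega))
  cr := P.cr k hk

theorem Pth.lk' (h : Loc G Γ d) (hB : CB G Γ p) {c n k : ℕ} {s : ℕ → V} (P : Pth G Γ p c s n)
    (mn : Mn G Γ p c) (hk : k ≤ n) :
    Lk Γ G p (s k) (s (k + 1)) (s (k + c)) (s (k + c + 1)) :=
  (P.lk h mn hk).symm h hB

theorem Pth.step (h : Loc G Γ d) (hB : CB G Γ p) {c n : ℕ} {s : ℕ → V} (P : Pth G Γ p c s n)
    (mn : Mn G Γ p c) : ∃ s', Pth G Γ p c s' (n + 1) := by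
  obtain ⟨y, hy, hn, hcr⟩ := ext h hB (P.lk h mn (le_refl n))
  obtain ⟨s', hs'⟩ : ∃ s' : ℕ → V, s' = fun k => if k ≤ n + c + 1 then s k else y := ⟨_, rfl⟩
  have e1 : ∀ k, k ≤ n + c + 1 → s' k = s k := by
    intro k hk
    rw [hs']
    exact if_pos hk
  have e2 : s' (n + c + 2) = y := by
    rw [hs']
    exact if_neg (by omega)
  refine ⟨s', ?_, ?_, ?_⟩
  · intro k hk
    rcases Nat.lt_or_ge k (n + c + 1) with h1 | h1
    · rw [e1 _ (by omega), e1 _ (by omega)]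
      exact P.ad k h1
    · have h2 : k = n + c + 1 := by omega
      rw [h2, e2, e1 _ (le_refl _)]
      exact hy
  · intro k hk
    rcases Nat.lt_or_ge k (n + 1) with h1 | h1
    · rw [e1 _ (by omega), e1 _ (by omega)]
      exact P.cr k (by omega)
    · have h2 : k = n + 1 := by omega
      rw [h2, e1 (n + 1) (by omega), show n + 1 + c + 1 = n + c + 2 by omega, e2]
      exact hcr
  · intro k hk hk'
    rcases Nat.lt_or_ge k (n + c) with h1 | h1
    · rw [e1 _ (by omega), e1 _ (by omega), e1 _ (by omega)]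
      exact P.nc k hk h1
    · have h2 : k = n + c := by omega
      rw [h2, e2, e1 _ (by omega), e1 _ (by omega)]
      exact hn

theorem Pth.exists (h : Loc G Γ d) (hB : CB G Γ p) {c : ℕ} {s : ℕ → V} (P : Pth G Γ p c s 0)
    (mn : Mn G Γ p c) (n : ℕ) : ∃ s, Pth G Γ p c s n := by
  induction n with
  | zero => exact ⟨s, P⟩
  | succ n ih =>
    obtain ⟨s', P'⟩ := ih
    exact P'.step h hB mn

/-- a critical pair exists -/
theorem crit (h : Loc G Γ d) (hB : CB G Γ p) {x0 y0 : V} (hxy : Γ.Adj x0 y0) :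
    ∃ c, Mn G Γ p c ∧ ∃ s, Pth G Γ p c s 0 := by
  classical
  have h1 : ∃ n, ∃ x w, Γ.dist x w = n ∧ ¬ (Vv Γ p x : Subgroup G) ≤ Qv Γ p w := by
    by_contra hcon
    push Not at hcon
    apply Zz_ne h hB.toCB0 hxy
    rw [Subgroup.eq_bot_iff_forall]
    intro z hz
    apply h.faith
    intro v
    exact Qv_le_st v (hcon _ x0 v rfl (Zz_le_Vv hxy hz))
  obtain ⟨b, hb⟩ : ∃ b, b = Nat.find h1 := ⟨_, rfl⟩
  obtain ⟨x, w, hxw, hcr⟩ := Nat.find_spec h1
  have hmin : ∀ m, m < b → ∀ x w, Γ.dist x w = m → (Vv Γ p x : Subgroup G) ≤ Qv Γ p w := by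
    intro m hm x w hd
    by_contra h2
    exact Nat.find_min h1 (hb ▸ hm) ⟨x, w, hd, h2⟩
  rw [← hb] at hxw
  have hb0 : b ≠ 0 := by
    intro h0
    rw [h0, h.conn.dist_eq_zero_iff] at hxw
    rw [hxw] at hcr
    exact hcr (Vv_le_Qv h hB w)
  obtain ⟨c, rfl⟩ := Nat.exists_eq_succ_of_ne_zero hb0
  refine ⟨c, fun x w hd => hmin _ (Nat.lt_succ_of_le hd) x w rfl, ?_⟩
  obtain ⟨q, hq⟩ := h.conn.exists_walk_length_eq_dist w x
  rw [SimpleGraph.dist_comm, hxw] at hq
  refine ⟨q.getVert, ?_, ?_, ?_⟩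
  · intro k hk
    exact q.adj_getVert_succ (by omega)
  · intro k hk
    have h2 : k = 0 := by omega
    rw [h2, show 0 + c + 1 = q.length by omega, SimpleGraph.Walk.getVert_length,
      SimpleGraph.Walk.getVert_zero]
    exact hcr
  · intro k hk hk'
    omega

/-- convexity -/
theorem Pth.conv (h : Loc G Γ d) (hB : CB G Γ p) {c n : ℕ} {s : ℕ → V} (P : Pth G Γ p c s n)
    (mn : Mn G Γ p c) {i j : ℕ} (hj : j ≤ i + c + 1) (hjn : j ≤ n + 1) {a : G}
    (hai : a ∈ (Vv Γ p (s i) : Subgroup G)) (haj : a ∈ (Vv Γ p (s j) : Subgroup G)) :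
    ∀ m, i + m ≤ j → a ∈ (Vv Γ p (s (i + m)) : Subgroup G) := by
  intro m
  induction m with
  | zero => exact fun _ => hai
  | succ m ih =>
    intro hm
    have h1 := ih (by omega)
    have l := P.lk' h hB mn (k := i + m) (by omega)
    have h2 : a ∈ (Qv Γ p (s (i + m + c + 1)) : Subgroup G) := by
      refine mn (s j) _ ?_ haj
      obtain ⟨t, ht⟩ : ∃ t, i + m + c + 1 = j + t := ⟨i + m + c + 1 - j, by omega⟩
      rw [ht]
      refine (dist_path h.conn P.ad j t (by omega)).trans (by omega)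
    have h3 := l.cent h hB h1 (fun u hu => (Vv_comm h hB h2 hu).symm)
    rw [Zz_comm] at h3
    exact Zz_le_Vv l.xx.symm h3

/-- the commutators backwards -/
theorem Pth.CCb (h : Loc G Γ d) (hB : CB G Γ p) {c n : ℕ} {s : ℕ → V} (P : Pth G Γ p c s n)
    (mn : Mn G Γ p c) {k l : ℕ} (hk : k + c ≤ n) (h1 : k ≤ l) (h2 : l ≤ k + c + 1) :
    (CC Γ p (s (k + c + 1)) (s (k + c)) : Subgroup G) ≤ Vv Γ p (s l) := by
  intro a ha
  have lk := P.lk h mn (k := k) (by omega)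
  obtain ⟨h3, h4⟩ := lk.comm h hB ha
  obtain ⟨m, rfl⟩ : ∃ m, l = k + m := ⟨l - k, by omega⟩
  exact P.conv h hB mn (j := k + c + 1) (by omega) (by omega) (Zz_le_Vv lk.ww h4)
    (Zz_le_Vv lk.xx h3) m (by omega)

/-- the commutators forwards -/
theorem Pth.CCf (h : Loc G Γ d) (hB : CB G Γ p) {c n : ℕ} {s : ℕ → V} (P : Pth G Γ p c s n)
    (mn : Mn G Γ p c) {k l : ℕ} (hk : k + c ≤ n) (h1 : k ≤ l) (h2 : l ≤ k + c + 1) :
    (CC Γ p (s k) (s (k + 1)) : Subgroup G) ≤ Vv Γ p (s l) := by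
  intro a ha
  have lk := P.lk' h hB mn (k := k) (by omega)
  obtain ⟨h3, h4⟩ := lk.comm h hB ha
  obtain ⟨m, rfl⟩ : ∃ m, l = k + m := ⟨l - k, by omega⟩
  exact P.conv h hB mn (j := k + c + 1) (by omega) (by omega) (Zz_le_Vv lk.xx h3)
    (Zz_le_Vv lk.ww h4) m (by omega)

/-- two links at `x` -/
theorem nc_or (h : Loc G Γ d) (hB : CB G Γ p) {x y y' u u' w w' : V}
    (l : Lk Γ G p x y u w) (l' : Lk Γ G p x y' u' w') (hn : ¬ ncm G Γ p x y y') :
    ¬ (CC Γ p x y' : Subgroup G) ≤ Vv Γ p y ∨ ¬ (CC Γ p x y : Subgroup G) ≤ Vv Γ p y' := by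
  by_contra hcon
  push Not at hcon
  obtain ⟨h1, h2⟩ := hcon
  have key : ∀ {y u w : V}, Lk Γ G p x y u w → ∀ a ∈ (Vv Γ p x : Subgroup G),
      a ∈ (Vv Γ p y : Subgroup G) → a ∈ (Zz p x y : Subgroup G) := by
    intro y u w l a ha ha'
    exact l.cent h hB ha (fun b hb => Vv_comm h hB (l.wx hb) ha')
  have hC : ∀ {z a v : G} {y : V}, Γ.Adj x y → a ∈ (Qe p x y : Subgroup G) →
      v ∈ (Vv Γ p x : Subgroup G) → a * v * a⁻¹ * v⁻¹ ∈ (CC Γ p x y : Subgroup G) := by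
    intro _ a v y _ ha hv
    have h3 : a * v * a⁻¹ * v⁻¹ = ⁅v, a⁆⁻¹ := by
      rw [commutatorElement_def]
      group
    rw [h3]
    exact Subgroup.inv_mem _ (Subgroup.commutator_mem_commutator hv ha)
  have hV : ∀ {a v : G} {y : V}, a ∈ (Qe p x y : Subgroup G) →
      v ∈ (Vv Γ p x : Subgroup G) → a * v * a⁻¹ * v⁻¹ ∈ (Vv Γ p x : Subgroup G) := by
    intro a v y ha hv
    exact Subgroup.mul_mem _ (nm_Vv h x a (Qe_le_st x y ha) v hv) (Subgroup.inv_mem _ hv)
  apply hn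
  intro s hs t ht v hv
  obtain ⟨α, hα⟩ : ∃ α, α = t * v * t⁻¹ * v⁻¹ := ⟨_, rfl⟩
  obtain ⟨β, hβ⟩ : ∃ β, β = s * v * s⁻¹ * v⁻¹ := ⟨_, rfl⟩
  have hαC : α ∈ (CC Γ p x y' : Subgroup G) := by
    rw [hα]
    exact hC (z := 1) l'.xx ht hv
  have hβC : β ∈ (CC Γ p x y : Subgroup G) := by
    rw [hβ]
    exact hC (z := 1) l.xx hs hv
  have hαV : α ∈ (Vv Γ p x : Subgroup G) := by
    rw [hα]
    exact hV ht hv
  have hβV : β ∈ (Vv Γ p x : Subgroup G) := by
    rw [hβ]
    exact hV hs hv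
  have hαZ := key l α hαV (h1 hαC)
  have hβZ := key l' β hβV (h2 hβC)
  have c1 : s * α = α * s := Zz_comm_Qe hαZ hs
  have c2 : t * β = β * t := Zz_comm_Qe hβZ ht
  have c3 : α * β = β * α := Vv_comm h hB (Vv_le_Qv h hB x hαV) hβV
  have e1 : t * v * t⁻¹ = α * v := by
    rw [hα]
    group
  have e2 : s * v * s⁻¹ = β * v := by
    rw [hβ]
    group
  calc s * (t * v * t⁻¹) * s⁻¹ = s * α * v * s⁻¹ := by rw [e1]; group
    _ = α * (s * v * s⁻¹) := by rw [c1]; group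
    _ = α * β * v := by rw [e2]; group
    _ = β * (t * v * t⁻¹) := by rw [c3, e1]; group
    _ = β * t * v * t⁻¹ := by group
    _ = t * (β * v) * t⁻¹ := by rw [← c2]; group
    _ = t * (s * v * s⁻¹) * t⁻¹ := by rw [e2]

/-- the length of a link is bounded by the sizes of the groups `Vv` -/
theorem Pth.bound (h : Loc G Γ d) (hB : CB G Γ p) {c : ℕ} {s : ℕ → V} (mn : Mn G Γ p c)
    (P : Pth G Γ p c s (3 * c + 3)) {M : ℕ} (hM : ∀ x, Nat.card (Vv Γ p x : Subgroup G) ≤ M) :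
    2 ^ (c + 2) ≤ M * M := by
  classical
  have hfin : ∀ x, Finite (Vv Γ p x : Subgroup G) := fun x =>
    h.fin_le ((Vv_le_Qv h hB x).trans (Qv_le_st x))
  have h1 : ∀ k, k < c + 2 →
      ¬ (CC Γ p (s (k + c + 1)) (s (k + c)) : Subgroup G) ≤ Vv Γ p (s (k + c + 2)) ∨
      ¬ (CC Γ p (s (k + c + 1)) (s (k + c + 2)) : Subgroup G) ≤ Vv Γ p (s (k + c)) := by
    intro k hk
    exact nc_or h hB (P.lk' h hB mn (k := k + c + 1) (by omega)) (P.lk h mn (k := k) (by omega))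
      (P.nc (k + c) (by omega) (by omega))
  obtain ⟨S1, hS1⟩ : ∃ S : Finset ℕ, ∀ k, k ∈ S ↔ k < c + 2 ∧
      ¬ (CC Γ p (s (k + c + 1)) (s (k + c)) : Subgroup G) ≤ Vv Γ p (s (k + c + 2)) :=
    ⟨(Finset.range (c + 2)).filter (fun k =>
      ¬ (CC Γ p (s (k + c + 1)) (s (k + c)) : Subgroup G) ≤ Vv Γ p (s (k + c + 2))),
      fun k => by rw [Finset.mem_filter, Finset.mem_range]⟩
  obtain ⟨S2, hS2⟩ : ∃ S : Finset ℕ, ∀ k, k ∈ S ↔ k < c + 2 ∧
      ¬ (CC Γ p (s (k + c + 1)) (s (k + c + 2)) : Subgroup G) ≤ Vv Γ p (s (k + c)) :=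
    ⟨(Finset.range (c + 2)).filter (fun k =>
      ¬ (CC Γ p (s (k + c + 1)) (s (k + c + 2)) : Subgroup G) ≤ Vv Γ p (s (k + c))),
      fun k => by rw [Finset.mem_filter, Finset.mem_range]⟩
  have hcard : c + 2 ≤ S1.card + S2.card := by
    calc c + 2 = (Finset.range (c + 2)).card := (Finset.card_range _).symm
      _ ≤ (S1 ∪ S2).card := by
        refine Finset.card_le_card ?_
        intro k hk
        rw [Finset.mem_range] at hk
        rw [Finset.mem_union, hS1, hS2]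
        rcases h1 k hk with h2 | h2
        · exact Or.inl ⟨hk, h2⟩
        · exact Or.inr ⟨hk, h2⟩
      _ ≤ _ := Finset.card_union_le _ _
  have hb1 : 2 ^ S1.card ≤ M := by
    have h2 : ∀ k, ∃ a : G, k ∈ S1 → a ∈ (CC Γ p (s (k + c + 1)) (s (k + c)) : Subgroup G) ∧
        a ∉ (Vv Γ p (s (k + c + 2)) : Subgroup G) := by
      intro k
      by_cases hk : k ∈ S1
      · obtain ⟨a, ha, ha'⟩ := SetLike.not_le_iff_exists.mp ((hS1 k).mp hk).2
        exact ⟨a, fun _ => ⟨ha, ha'⟩⟩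
      · exact ⟨1, fun h => absurd h hk⟩
    choose a ha using h2
    refine (chain_min (V0 := Vv Γ p (s (c + 1))) S1 a (fun k => Vv Γ p (s (k + c + 2)))
      ?_ (fun k hk => (ha k hk).2) ?_).trans (hM _)
    · intro k hk
      have h3 := ((hS1 k).mp hk).1
      exact P.CCb h hB mn (k := k) (by omega) (by omega) (by omega) (ha k hk).1
    · intro k hk k' hk' hlt
      have h3 := ((hS1 k').mp hk').1
      exact P.CCb h hB mn (k := k') (by omega) (by omega) (by omega) (ha k' hk').1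
  have hb2 : 2 ^ S2.card ≤ M := by
    have h2 : ∀ k, ∃ a : G, k ∈ S2 → a ∈ (CC Γ p (s (k + c + 1)) (s (k + c + 2)) : Subgroup G) ∧
        a ∉ (Vv Γ p (s (k + c)) : Subgroup G) := by
      intro k
      by_cases hk : k ∈ S2
      · obtain ⟨a, ha, ha'⟩ := SetLike.not_le_iff_exists.mp ((hS2 k).mp hk).2
        exact ⟨a, fun _ => ⟨ha, ha'⟩⟩
      · exact ⟨1, fun h => absurd h hk⟩
    choose a ha using h2
    refine (chain_max (V0 := Vv Γ p (s (2 * c + 2))) S2 a (fun k => Vv Γ p (s (k + c)))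
      ?_ (fun k hk => (ha k hk).2) ?_).trans (hM _)
    · intro k hk
      have h3 := ((hS2 k).mp hk).1
      exact P.CCf h hB mn (k := k + c + 1) (by omega) (by omega) (by omega) (ha k hk).1
    · intro k hk k' hk' hlt
      have h3 := ((hS2 k).mp hk).1
      exact P.CCf h hB mn (k := k' + c + 1) (by omega) (by omega) (by omega) (ha k' hk').1
  calc 2 ^ (c + 2) ≤ 2 ^ (S1.card + S2.card) := Nat.pow_le_pow_right (by norm_num) hcard
    _ = 2 ^ S1.card * 2 ^ S2.card := pow_add _ _ _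
    _ ≤ M * M := Nat.mul_le_mul hb1 hb2

end path

end Pool.Agent.Work.MP_6d7bb4.helper94
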