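import Mathlib

/-! # MP_6d7bb4: quadratic elements of a ring of characteristic `p` (helper94) -/

set_option autoImplicit false
set_option linter.unusedSectionVars false

namespace Pool.Agent.Work.MP_6d7bb4.helper94.Qd

section ring
variable {Λ : Type*} [Ring Λ]

theorem inv_q {a : Λˣ} {u : Λ} (ha : (a : Λ) = 1 + u) (hu : u * u = 0) :
    ((a⁻¹ : Λˣ) : Λ) = 1 - u := by
  refine Units.inv_eq_of_mul_eq_one_right ?_
  rw [ha]
  have : (1 + u) * (1 - u) = 1 - u * u := by noncomm_ring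
  rw [this, hu, sub_zero]

/-- trace of `b a⁻¹` -/
theorem tr_z {a b : Λˣ} {u v : Λ} (ha : (a : Λ) = 1 + u) (hb : (b : Λ) = 1 + v)
    (hu : u * u = 0) (hv : v * v = 0) :
    ((b * a⁻¹ : Λˣ) : Λ) + (((b * a⁻¹)⁻¹ : Λˣ) : Λ) = 2 - (u * v + v * u) := by
  rw [mul_inv_rev, inv_inv, Units.val_mul, Units.val_mul, inv_q ha hu, inv_q hb hv, ha, hb]
  rw [← one_add_one_eq_two]
  simp only [mul_add, add_mul, mul_sub, sub_mul, one_mul, mul_one]
  abel

theorem tr_e {a b : Λˣ} {u v : Λ} (ha : (a : Λ) = 1 + u) (hb : (b : Λ) = 1 + v)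
    (hu : u * u = 0) (hv : v * v = 0) :
    ((a * b * a⁻¹ * b⁻¹ : Λˣ) : Λ) + (((a * b * a⁻¹ * b⁻¹)⁻¹ : Λˣ) : Λ) =
      2 + (u * v + v * u) * (u * v + v * u) := by
  have h1 : (a * b * a⁻¹ * b⁻¹)⁻¹ = b * a * b⁻¹ * a⁻¹ := by group
  have hu' : ∀ x : Λ, u * (u * x) = 0 := fun x => by rw [← mul_assoc, hu, zero_mul]
  have hv' : ∀ x : Λ, v * (v * x) = 0 := fun x => by rw [← mul_assoc, hv, zero_mul]
  rw [h1]
  simp only [Units.val_mul, inv_q ha hu, inv_q hb hv, ha, hb]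
  simp only [mul_add, add_mul, mul_sub, sub_mul, mul_assoc, one_mul, mul_one, hu, hv, hu', hv',
    mul_zero, sub_zero, zero_sub, add_zero, zero_add]
  rw [← one_add_one_eq_two]
  abel

theorem tr_f {a b : Λˣ} {u v : Λ} (ha : (a : Λ) = 1 + u) (hb : (b : Λ) = 1 + v)
    (hu : u * u = 0) (hv : v * v = 0) :
    ((b * a⁻¹ * a⁻¹ * b : Λˣ) : Λ) + (((b * a⁻¹ * a⁻¹ * b)⁻¹ : Λˣ) : Λ) =
      2 - 4 * (u * v + v * u) := by
  have h1 : (b * a⁻¹ * a⁻¹ * b)⁻¹ = b⁻¹ * a * a * b⁻¹ := by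
    simp only [mul_inv_rev, inv_inv, mul_assoc]
  have hu' : ∀ x : Λ, u * (u * x) = 0 := fun x => by rw [← mul_assoc, hu, zero_mul]
  have hv' : ∀ x : Λ, v * (v * x) = 0 := fun x => by rw [← mul_assoc, hv, zero_mul]
  rw [h1]
  simp only [Units.val_mul, inv_q ha hu, inv_q hb hv, ha, hb]
  have h4 : (4 : Λ) = 1 + 1 + 1 + 1 := by norm_num
  rw [h4, ← one_add_one_eq_two]
  simp only [mul_add, add_mul, mul_sub, sub_mul, mul_assoc, one_mul, mul_one, hu, hv, hu', hv',
    mul_zero, sub_zero, zero_sub, add_zero, zero_add]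
  abel

/-- `w` commutes with `u` -/
theorem w_u {u v : Λ} (hu : u * u = 0) : (u * v + v * u) * u = u * (u * v + v * u) := by
  rw [add_mul, mul_add, mul_assoc v, hu, mul_zero, ← mul_assoc u u, hu, zero_mul, add_zero,
    zero_add, mul_assoc]

theorem w_v {u v : Λ} (hv : v * v = 0) : (u * v + v * u) * v = v * (u * v + v * u) := by
  have := w_u (u := v) (v := u) hv
  rwa [add_comm (v * u)] at this

theorem pow_q {u : Λ} (hu : u * u = 0) (n : ℕ) : (1 + u) ^ n = 1 + n * u := by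
  induction n with
  | zero => simp
  | succ n ih =>
    rw [pow_succ, ih, Nat.cast_succ]
    have : (1 + (n : Λ) * u) * (1 + u) = 1 + (n + 1) * u + n * (u * u) := by noncomm_ring
    rw [this, hu, mul_zero, add_zero]

theorem pow_p {a : Λˣ} {u : Λ} (ha : (a : Λ) = 1 + u) (hu : u * u = 0) {p : ℕ}
    (hp : (p : Λ) = 0) : a ^ p = 1 := by
  apply Units.ext
  rw [Units.val_pow_eq_pow_val, ha, pow_q hu, hp, zero_mul, add_zero, Units.val_one]

/-- numbers prime to `p` can be cancelled -/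
theorem cancel {p k : ℕ} (hp : (p : Λ) = 0) (hk : Nat.Coprime k p) {x : Λ}
    (hx : (k : Λ) * x = 0) : x = 0 := by
  have h1 := Nat.isCoprime_iff_coprime.mpr hk
  obtain ⟨s, t, hst⟩ := h1
  have h2 : ((s * k + t * p : ℤ) : Λ) = 1 := by rw [hst, Int.cast_one]
  have h3 : ((s * k + t * p : ℤ) : Λ) * x = 0 := by
    push_cast
    rw [add_mul, mul_assoc, hx, hp, mul_zero, mul_zero, zero_mul, add_zero]
  rw [h2, one_mul] at h3
  exact h3

theorem one_of_coprime {G : Type*} [Group G] {z : G} {m n : ℕ} (h1 : z ^ m = 1) (h2 : z ^ n = 1)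
    (h : Nat.Coprime m n) : z = 1 := by
  have h3 : orderOf z ∣ Nat.gcd m n :=
    Nat.dvd_gcd (orderOf_dvd_of_pow_eq_one h1) (orderOf_dvd_of_pow_eq_one h2)
  rw [h] at h3
  exact orderOf_eq_one_iff.mp (Nat.dvd_one.mp h3)

/-- unipotent elements have `p`-power order -/
theorem unip {p : ℕ} (hpp : p.Prime) (hp : (p : Λ) = 0) {z : Λˣ} {k : ℕ}
    (h : ((z : Λ) - 1) ^ k = 0) : ∃ j, z ^ p ^ j = 1 := by
  rcases subsingleton_or_nontrivial Λ with hs | hn
  · exact ⟨0, Units.ext (Subsingleton.elim _ _)⟩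
  · have hc : CharP Λ p := (CharP.charP_iff_prime_eq_zero hpp).mpr hp
    have : Fact p.Prime := ⟨hpp⟩
    refine ⟨k, ?_⟩
    apply Units.ext
    have h1 : (z : Λ) = 1 + ((z : Λ) - 1) := by abel
    rw [Units.val_pow_eq_pow_val, h1, add_pow_char_pow_of_commute p k (Commute.one_left _),
      one_pow]
    have h2 : k ≤ p ^ k := (Nat.lt_pow_self hpp.one_lt).le
    rw [← Nat.sub_add_cancel h2, pow_add, h, mul_zero, add_zero, Units.val_one]

/-- if `w` is nilpotent then `b a⁻¹` is unipotent -/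
theorem z_nil {a b : Λˣ} {u v : Λ} (ha : (a : Λ) = 1 + u) (hb : (b : Λ) = 1 + v)
    (hu : u * u = 0) (hv : v * v = 0) {p : ℕ} (hpp : p.Prime) (hp : (p : Λ) = 0) {k : ℕ}
    (hw : (u * v + v * u) ^ k = 0) {n : ℕ} (hn : (b * a⁻¹) ^ n = 1) (hnp : Nat.Coprime n p) :
    b * a⁻¹ = 1 := by
  obtain ⟨z, hz⟩ : ∃ z, z = b * a⁻¹ := ⟨_, rfl⟩
  obtain ⟨w, hww⟩ : ∃ w, w = u * v + v * u := ⟨_, rfl⟩
  have ht := tr_z ha hb hu hv
  rw [← hz, ← hww] at ht
  rw [← hz] at hn ⊢
  rw [← hww] at hw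
  have hzz : (z : Λ) * ((z⁻¹ : Λˣ) : Λ) = 1 := Units.mul_inv z
  have hzz' : ((z⁻¹ : Λˣ) : Λ) * (z : Λ) = 1 := Units.inv_mul z
  -- `z ^ 2 + 1 = (2 - w) z`
  have h1 : (z : Λ) * z + 1 = (2 - w) * z := by
    rw [← ht, add_mul, hzz']
  have h1' : (z : Λ) * z + 1 = z * (2 - w) := by
    rw [← ht, mul_add, hzz]
  have hc : w * z = z * w := by
    have h2 := h1.symm.trans h1'
    rw [sub_mul, mul_sub, two_mul, mul_two] at h2
    exact sub_right_injective h2
  have hN : ((z : Λ) - 1) * ((z : Λ) - 1) = - (w * z) := by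
    have h2 : ((z : Λ) - 1) * ((z : Λ) - 1) = (z : Λ) * z + 1 - 2 * z := by noncomm_ring
    rw [h2, h1, sub_mul]
    abel
  have hC : Commute w (z : Λ) := hc
  have h3 : ((z : Λ) - 1) ^ (2 * k) = 0 := by
    rw [pow_mul, pow_two, hN, neg_pow, hC.mul_pow, hw, zero_mul, mul_zero]
  obtain ⟨j, hj⟩ := unip hpp hp h3
  exact one_of_coprime hn hj (Nat.Coprime.pow_right j hnp)

end ring

section even
variable {Λ : Type*} [Ring Λ]

/-- conjugation and sums of units -/
theorem conj_add {a x y : Λˣ} {t : Λ} (h : (x : Λ) + (y : Λ) = t) (ht : (a : Λ) * t = t * a) :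
    ((a * x * a⁻¹ : Λˣ) : Λ) + ((a * y * a⁻¹ : Λˣ) : Λ) = t := by
  have h1 : ((a * x * a⁻¹ : Λˣ) : Λ) + ((a * y * a⁻¹ : Λˣ) : Λ) =
      (a : Λ) * ((x : Λ) + y) * ((a⁻¹ : Λˣ) : Λ) := by
    rw [Units.val_mul, Units.val_mul, Units.val_mul, Units.val_mul, mul_add, add_mul]
  rw [h1, h, ht, mul_assoc, Units.mul_inv, mul_one]

/-- the case `r = 2`: `w ^ 2 = 2 w` -/
theorem even_w {a b : Λˣ} {u v : Λ} (ha : (a : Λ) = 1 + u) (hb : (b : Λ) = 1 + v)
    (hu : u * u = 0) (hv : v * v = 0) {p : ℕ} (hpp : p.Prime) (hp : (p : Λ) = 0)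
    {n : ℕ} (hn : (b * a⁻¹) ^ n = 1) (hnp : Nat.Coprime n p)
    (hc : a * (b * a⁻¹ * (b * a⁻¹)) = b * a⁻¹ * (b * a⁻¹) * a) :
    (u * v + v * u) * (u * v + v * u) = 2 * (u * v + v * u) := by
  obtain ⟨z, hz⟩ : ∃ z, z = b * a⁻¹ := ⟨_, rfl⟩
  obtain ⟨w, hww⟩ : ∃ w, w = u * v + v * u := ⟨_, rfl⟩
  have ht := tr_z ha hb hu hv
  rw [← hz, ← hww] at ht
  rw [← hz] at hn hc
  rw [← hww]
  have hwa : (a : Λ) * w = w * a := by
    have hwu : w * u = u * w := by
      rw [hww]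
      exact w_u hu
    rw [ha, add_mul, mul_add, one_mul, mul_one, hwu]
  have hzz : (z : Λ) * ((z⁻¹ : Λˣ) : Λ) = 1 := Units.mul_inv z
  have hzz' : ((z⁻¹ : Λˣ) : Λ) * (z : Λ) = 1 := Units.inv_mul z
  have h1 : (z : Λ) * z + 1 = (2 - w) * z := by
    rw [← ht, add_mul, hzz']
  have h1' : (z : Λ) * z + 1 = z * (2 - w) := by
    rw [← ht, mul_add, hzz]
  have hta : (a : Λ) * (2 - w) = (2 - w) * a := by
    rw [mul_sub, sub_mul, mul_two, two_mul, hwa]
  have hca : (a : Λ) * ((z : Λ) * z) = (z : Λ) * z * a := by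
    have := congrArg (Units.val) hc
    simpa only [Units.val_mul] using this
  obtain ⟨θ, hθ⟩ : ∃ θ : Λ, θ = (z : Λ) * z + 1 := ⟨_, rfl⟩
  have hθa : (a : Λ) * θ = θ * a := by
    rw [hθ, mul_add, add_mul, hca, mul_one, one_mul]
  have hθz : (z : Λ) * θ = θ * z := by
    rw [hθ, mul_add, add_mul, mul_one, one_mul, mul_assoc]
  -- `z` commutes with `a` on `θ`
  have h2 : (a : Λ) * z * θ = z * a * θ := by
    have h3 : (z : Λ) * θ = (2 - w) * (z * z) := by
      rw [hθz, hθ, h1, mul_assoc]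
    have h4 : (a : Λ) * ((z : Λ) * θ) = (z : Λ) * θ * a := by
      rw [h3, ← mul_assoc, hta, mul_assoc, hca, mul_assoc]
      noncomm_ring
    rw [mul_assoc, h4, mul_assoc, ← hθa, mul_assoc]
  have h3 : ∀ m : ℕ, (a : Λ) * ((z : Λ) ^ m) * θ = (z : Λ) ^ m * a * θ := by
    intro m
    induction m with
    | zero => rw [pow_zero, mul_one, one_mul]
    | succ m ih =>
      have e1 : ((z : Λ) ^ m) * θ = θ * (z : Λ) ^ m :=
        ((show Commute (z : Λ) θ from hθz).pow_left m).eq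
      calc (a : Λ) * (z : Λ) ^ (m + 1) * θ = a * z * (z ^ m * θ) := by
            rw [pow_succ']
            noncomm_ring
        _ = a * z * θ * z ^ m := by rw [e1]; noncomm_ring
        _ = z * a * θ * z ^ m := by rw [h2]
        _ = z * (a * (z ^ m * θ)) := by rw [e1]; noncomm_ring
        _ = z * (a * z ^ m * θ) := by noncomm_ring
        _ = z * (z ^ m * a * θ) := by rw [ih]
        _ = (z : Λ) ^ (m + 1) * a * θ := by
            rw [pow_succ']
            noncomm_ring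
  have h4 : ∀ m : ℕ, ((z : Λ) * a) ^ m * θ = (z : Λ) ^ m * (a : Λ) ^ m * θ := by
    intro m
    have e2 : ∀ m : ℕ, (a : Λ) ^ m * θ = θ * (a : Λ) ^ m := fun m =>
      ((show Commute (a : Λ) θ from hθa).pow_left m).eq
    induction m with
    | zero => simp
    | succ m ih =>
      calc ((z : Λ) * a) ^ (m + 1) * θ = z * (a * (((z : Λ) * a) ^ m * θ)) := by
            rw [pow_succ']
            noncomm_ring
        _ = z * (a * ((z : Λ) ^ m * (a : Λ) ^ m * θ)) := by rw [ih]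
        _ = z * (a * (z : Λ) ^ m * θ) * (a : Λ) ^ m := by
            rw [mul_assoc ((z : Λ) ^ m), e2]
            noncomm_ring
        _ = z * ((z : Λ) ^ m * a * θ) * (a : Λ) ^ m := by rw [h3]
        _ = z * (z : Λ) ^ m * (a * (θ * (a : Λ) ^ m)) := by noncomm_ring
        _ = z * (z : Λ) ^ m * (a * ((a : Λ) ^ m * θ)) := by rw [e2]
        _ = (z : Λ) ^ (m + 1) * (a : Λ) ^ (m + 1) * θ := by
            rw [pow_succ' (z : Λ), pow_succ' (a : Λ)]
            noncomm_ring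
  have hza : (z : Λ) * a = b := by
    rw [hz, Units.val_mul, mul_assoc, Units.inv_mul, mul_one]
  have h5 : (z : Λ) ^ p * θ = θ := by
    have h6 := h4 p
    have h7 : (b : Λ) ^ p = 1 := by
      have := congrArg Units.val (pow_p hb hv hp)
      rwa [Units.val_pow_eq_pow_val, Units.val_one] at this
    have h8 : (a : Λ) ^ p = 1 := by
      have := congrArg Units.val (pow_p ha hu hp)
      rwa [Units.val_pow_eq_pow_val, Units.val_one] at this
    rw [hza, h7, h8, mul_one, one_mul] at h6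
    exact h6.symm
  have h6 : ∀ m : ℕ, (z : Λ) ^ (p * m) * θ = θ := by
    intro m
    induction m with
    | zero => simp
    | succ m ih => rw [mul_add, mul_one, pow_add, mul_assoc, h5, ih]
  have h7 : (z : Λ) * θ = θ := by
    have hco : Nat.Coprime p (orderOf z) :=
      Nat.Coprime.coprime_dvd_right (orderOf_dvd_of_pow_eq_one hn) hnp.symm
    obtain ⟨s, hs⟩ := exists_pow_eq_self_of_coprime hco
    have h8 : (z : Λ) ^ (p * s) = z := by
      have := congrArg Units.val hs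
      rwa [← pow_mul, Units.val_pow_eq_pow_val] at this
    have h9 := h6 s
    rwa [h8] at h9
  have h8 : ((z⁻¹ : Λˣ) : Λ) * θ = θ := by
    calc ((z⁻¹ : Λˣ) : Λ) * θ = ((z⁻¹ : Λˣ) : Λ) * (z * θ) := by rw [h7]
      _ = θ := by rw [← mul_assoc, hzz', one_mul]
  have h9 : w * θ = 0 := by
    have h10 : (2 - w) * θ = 2 * θ := by
      rw [← ht, add_mul, h7, h8, two_mul]
    rw [sub_mul] at h10
    exact sub_eq_self.mp h10
  have hwz : w * z = z * w := by
    have h2 := h1.symm.trans h1'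
    rw [sub_mul, mul_sub, two_mul, mul_two] at h2
    exact sub_right_injective h2
  have h10 : w * ((2 - w) * z) = 0 := by rw [← h1, ← hθ, h9]
  have h11 : w * (2 - w) = 0 := by
    have : w * (2 - w) = w * ((2 - w) * z) * ((z⁻¹ : Λˣ) : Λ) := by
      rw [mul_assoc w, mul_assoc (2 - w), hzz, mul_one]
    rw [this, h10, zero_mul]
  rw [mul_sub, mul_two, ← two_mul, sub_eq_zero] at h11
  exact h11.symm

end even

section odd
variable {Λ : Type*} [Ring Λ]

/-- the case `r` odd: the commutator is trivial -/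
theorem odd_c {z e c : Λˣ} {t : Λ} (hzt : (z : Λ) + ((z⁻¹ : Λˣ) : Λ) = t)
    (het : (e : Λ) * t = t * e) (hze : z * e = c * e * z) (hcz : c * z = z * c)
    (hce : c * e = e * c) {p : ℕ} (hp : (p : Λ) = 0) (hp2 : Nat.Coprime 2 p)
    {m : ℕ} (hm : c ^ m = 1) (hodd : Odd m) (hmp : Nat.Coprime m p) : c = 1 := by
  obtain ⟨Z, hZ⟩ : ∃ Z : Λ, Z = z := ⟨_, rfl⟩
  obtain ⟨Zi, hZi⟩ : ∃ Z : Λ, Z = (z⁻¹ : Λˣ) := ⟨_, rfl⟩
  obtain ⟨E, hE⟩ : ∃ Z : Λ, Z = e := ⟨_, rfl⟩
  obtain ⟨Ei, hEi⟩ : ∃ Z : Λ, Z = (e⁻¹ : Λˣ) := ⟨_, rfl⟩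
  obtain ⟨C, hC⟩ : ∃ Z : Λ, Z = c := ⟨_, rfl⟩
  obtain ⟨Ci, hCi⟩ : ∃ Z : Λ, Z = (c⁻¹ : Λˣ) := ⟨_, rfl⟩
  have z1 : Z * Zi = 1 := by rw [hZ, hZi, Units.mul_inv]
  have z2 : Zi * Z = 1 := by rw [hZ, hZi, Units.inv_mul]
  have e1 : E * Ei = 1 := by rw [hE, hEi, Units.mul_inv]
  have e2 : Ei * E = 1 := by rw [hE, hEi, Units.inv_mul]
  have c1 : C * Ci = 1 := by rw [hC, hCi, Units.mul_inv]
  have c2 : Ci * C = 1 := by rw [hC, hCi, Units.inv_mul]
  have hZE : Z * E = C * E * Z := by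
    have := congrArg Units.val hze
    simpa only [Units.val_mul, hZ, hE, hC] using this
  have hCZ : C * Z = Z * C := by
    have := congrArg Units.val hcz
    simpa only [Units.val_mul, hZ, hC] using this
  have hCE : C * E = E * C := by
    have := congrArg Units.val hce
    simpa only [Units.val_mul, hE, hC] using this
  have hCiZ : Ci * Z = Z * Ci := by
    calc Ci * Z = Ci * (Z * (C * Ci)) := by rw [c1, mul_one]
      _ = Ci * (C * Z) * Ci := by rw [hCZ]; noncomm_ring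
      _ = Z * Ci := by rw [← mul_assoc Ci, c2, one_mul]
  have hCiE : Ci * E = E * Ci := by
    calc Ci * E = Ci * (E * (C * Ci)) := by rw [c1, mul_one]
      _ = Ci * (C * E) * Ci := by rw [hCE]; noncomm_ring
      _ = E * Ci := by rw [← mul_assoc Ci, c2, one_mul]
  have hCZi : C * Zi = Zi * C := by
    calc C * Zi = (Zi * Z) * (C * Zi) := by rw [z2, one_mul]
      _ = Zi * (C * Z) * Zi := by rw [hCZ]; noncomm_ring
      _ = Zi * C * (Z * Zi) := by noncomm_ring
      _ = Zi * C := by rw [z1, mul_one]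
  rw [← hZ, ← hZi] at hzt
  rw [← hE] at het
  have hEZ : E * Z = Ci * Z * E := by
    calc E * Z = (Ci * C) * (E * Z) := by rw [c2, one_mul]
      _ = Ci * (C * E * Z) := by noncomm_ring
      _ = Ci * Z * E := by rw [← hZE]; noncomm_ring
  have hEZi : E * Zi = Zi * C * E := by
    calc E * Zi = (Zi * Z) * (E * Zi) := by rw [z2, one_mul]
      _ = Zi * (Z * E) * Zi := by noncomm_ring
      _ = Zi * C * E * (Z * Zi) := by rw [hZE]; noncomm_ring
      _ = Zi * C * E := by rw [z1, mul_one]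
  -- `Ci Z + Zi C = Z + Zi`
  have h1 : Ci * Z + Zi * C = Z + Zi := by
    have h2 : (Ci * Z + Zi * C) * E = (Z + Zi) * E := by
      calc (Ci * Z + Zi * C) * E = Ci * Z * E + Zi * C * E := by rw [add_mul]
        _ = E * t := by rw [← hEZ, ← hEZi, ← mul_add, hzt]
        _ = (Z + Zi) * E := by rw [het, hzt]
    calc Ci * Z + Zi * C = (Ci * Z + Zi * C) * E * Ei := by rw [mul_assoc, e1, mul_one]
      _ = Z + Zi := by rw [h2, mul_assoc, e1, mul_one]
  -- Z Z and C agree up to the factor 1 - C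
  have h2 : (1 - C) * (Z * Z) = (1 - C) * C := by
    have h3 : C * (Ci * Z + Zi * C) * Z = C * (Z + Zi) * Z := by rw [h1]
    have h4 : C * (Ci * Z + Zi * C) * Z = Z * Z + C * C := by
      calc C * (Ci * Z + Zi * C) * Z = (C * Ci) * (Z * Z) + (C * Zi) * (C * Z) := by noncomm_ring
        _ = Z * Z + Zi * C * (Z * C) := by rw [c1, one_mul, hCZi, hCZ]
        _ = Z * Z + Zi * (C * Z) * C := by noncomm_ring
        _ = Z * Z + (Zi * Z) * (C * C) := by rw [hCZ]; noncomm_ring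
        _ = Z * Z + C * C := by rw [z2, one_mul]
    have h5 : C * (Z + Zi) * Z = C * (Z * Z) + C := by
      calc C * (Z + Zi) * Z = C * (Z * Z) + C * (Zi * Z) := by noncomm_ring
        _ = _ := by rw [z2, mul_one]
    rw [h4, h5] at h3
    rw [sub_mul, sub_mul, one_mul, one_mul]
    rw [sub_eq_sub_iff_add_eq_add, h3, add_comm]
  have h3 : t * Z = Z * Z + 1 := by rw [← hzt, add_mul, z2]
  have hCt : C * t = t * C := by rw [← hzt, mul_add, add_mul, hCZ, hCZi]
  have hCit : Ci * t = t * Ci := by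
    calc Ci * t = Ci * (t * (C * Ci)) := by rw [c1, mul_one]
      _ = Ci * (C * t) * Ci := by rw [hCt]; noncomm_ring
      _ = t * Ci := by rw [← mul_assoc Ci, c2, one_mul]
  have h4 : (1 - C) * t * Z = (1 - C) * (C + 1) := by
    rw [mul_assoc, h3, mul_add, h2, mul_add]
  have h5 : (1 - C) * (1 - C) * t = 0 := by
    have h6 : E * ((1 - C) * t * Z) = (1 - C) * t * Z * E := by
      rw [h4]
      have q1 : (E * C) * C = C * (C * E) := by
        calc (E * C) * C = (C * E) * C := by rw [hCE]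
          _ = C * (E * C) := mul_assoc _ _ _
          _ = C * (C * E) := by rw [hCE]
      calc E * ((1 - C) * (C + 1)) = E - (E * C) * C := by noncomm_ring
        _ = E - C * (C * E) := by rw [q1]
        _ = (1 - C) * (C + 1) * E := by noncomm_ring
    have h7 : E * ((1 - C) * t * Z) = (1 - C) * t * (Ci * Z * E) := by
      calc E * ((1 - C) * t * Z) = (E * t - (E * C) * t) * Z := by noncomm_ring
        _ = (E * t - C * (E * t)) * Z := by rw [← hCE, mul_assoc C E t]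
        _ = (t * E - C * (t * E)) * Z := by rw [het]
        _ = (1 - C) * t * (E * Z) := by noncomm_ring
        _ = _ := by rw [hEZ]
    have h8 : (1 - C) * t * (Ci * Z * E) = (1 - C) * t * Z * E := h7.symm.trans h6
    have h9 : (1 - C) * t * Ci = (1 - C) * t := by
      have h10 : (1 - C) * t * (Ci * Z * E) * (Ei * Zi) = (1 - C) * t * Z * E * (Ei * Zi) := by
        rw [h8]
      have h11 : (1 - C) * t * (Ci * Z * E) * (Ei * Zi) = (1 - C) * t * Ci := by
        calc (1 - C) * t * (Ci * Z * E) * (Ei * Zi) =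
            (1 - C) * t * Ci * (Z * ((E * Ei) * Zi)) := by noncomm_ring
          _ = _ := by rw [e1, one_mul, z1, mul_one]
      have h12 : (1 - C) * t * Z * E * (Ei * Zi) = (1 - C) * t := by
        calc (1 - C) * t * Z * E * (Ei * Zi) = (1 - C) * t * (Z * ((E * Ei) * Zi)) := by
              noncomm_ring
          _ = _ := by rw [e1, one_mul, z1, mul_one]
      rw [h11, h12] at h10
      exact h10
    have h10 : (1 - C) * t * C = (1 - C) * t := by
      calc (1 - C) * t * C = (1 - C) * t * Ci * C := by rw [h9]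
        _ = (1 - C) * t := by rw [mul_assoc, c2, mul_one]
    calc (1 - C) * (1 - C) * t = (1 - C) * t - (1 - C) * (C * t) := by noncomm_ring
      _ = (1 - C) * t - (1 - C) * t * C := by rw [hCt]; noncomm_ring
      _ = 0 := by rw [h10, sub_self]
  have h6 : (1 - C) * (1 - C) * (C + 1) = 0 := by
    calc (1 - C) * (1 - C) * (C + 1) = (1 - C) * ((1 - C) * (C + 1)) := by rw [mul_assoc]
      _ = (1 - C) * ((1 - C) * t * Z) := by rw [h4]
      _ = (1 - C) * (1 - C) * t * Z := by noncomm_ring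
      _ = 0 := by rw [h5, zero_mul]
  have h7 : (1 - C) * (1 - C) * C = - ((1 - C) * (1 - C)) := by
    rw [mul_add, mul_one] at h6
    exact eq_neg_of_add_eq_zero_left h6
  have h8 : ∀ k : ℕ, (1 - C) * (1 - C) * C ^ k = (-1) ^ k * ((1 - C) * (1 - C)) := by
    intro k
    induction k with
    | zero => simp
    | succ k ih =>
      rw [pow_succ, ← mul_assoc, ih, mul_assoc ((-1 : Λ) ^ k), h7, pow_succ]
      noncomm_ring
  have hCm : C ^ m = 1 := by
    have := congrArg Units.val hm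
    rwa [Units.val_pow_eq_pow_val, Units.val_one, ← hC] at this
  have h9 : (1 - C) * (1 - C) = 0 := by
    have h10 := h8 m
    rw [hCm, mul_one, hodd.neg_one_pow, neg_one_mul] at h10
    refine cancel (k := 2) hp hp2 ?_
    rw [Nat.cast_two, two_mul]
    nth_rewrite 1 [h10]
    exact neg_add_cancel _
  have h10 : (C - 1) * (C - 1) = 0 := by
    rw [← h9]
    noncomm_ring
  have h11 : c ^ p = 1 := pow_p (u := C - 1) (by rw [← hC]; abel) h10 hp
  exact one_of_coprime hm h11 hmp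

/-- the case `r` odd: `w ^ 3 = 0` -/
theorem odd_w {a b : Λˣ} {u v : Λ} (ha : (a : Λ) = 1 + u) (hb : (b : Λ) = 1 + v)
    (hu : u * u = 0) (hv : v * v = 0) {p : ℕ} (hp : (p : Λ) = 0) (hp2 : Nat.Coprime 2 p)
    {c : Λˣ} (hc : c = (b * a⁻¹) * (a * b * a⁻¹ * b⁻¹) * (b * a⁻¹)⁻¹ * (a * b * a⁻¹ * b⁻¹)⁻¹)
    (hca : c * a = a * c) (hcb : c * b = b * c)
    {m : ℕ} (hm : c ^ m = 1) (hodd : Odd m) (hmp : Nat.Coprime m p) :
    (u * v + v * u) ^ 3 = 0 := by
  obtain ⟨w, hww⟩ : ∃ w, w = u * v + v * u := ⟨_, rfl⟩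
  have hwu : w * u = u * w := by
    rw [hww]
    exact w_u hu
  have hwv : w * v = v * w := by
    rw [hww]
    exact w_v hv
  have hwa : Commute w (a : Λ) := by
    rw [ha]
    exact (Commute.one_right w).add_right hwu
  have hwb : Commute w (b : Λ) := by
    rw [hb]
    exact (Commute.one_right w).add_right hwv
  have hwai : Commute w ((a⁻¹ : Λˣ) : Λ) := by
    rw [inv_q ha hu]
    exact (Commute.one_right w).sub_right hwu
  have hwbi : Commute w ((b⁻¹ : Λˣ) : Λ) := by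
    rw [inv_q hb hv]
    exact (Commute.one_right w).sub_right hwv
  have tz := tr_z ha hb hu hv
  have te := tr_e ha hb hu hv
  have tf := tr_f ha hb hu hv
  rw [← hww] at tz te tf
  obtain ⟨z, hz⟩ : ∃ z, z = b * a⁻¹ := ⟨_, rfl⟩
  obtain ⟨e, he⟩ : ∃ z, z = a * b * a⁻¹ * b⁻¹ := ⟨_, rfl⟩
  have hwe : Commute w (e : Λ) := by
    rw [he, Units.val_mul, Units.val_mul, Units.val_mul]
    exact ((hwa.mul_right hwb).mul_right hwai).mul_right hwbi
  rw [← hz] at tz hc
  rw [← he] at te hc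
  have hcai : c * a⁻¹ = a⁻¹ * c := by
    rw [mul_inv_eq_iff_eq_mul, mul_assoc, hca, inv_mul_cancel_left]
  have hcbi : c * b⁻¹ = b⁻¹ * c := by
    rw [mul_inv_eq_iff_eq_mul, mul_assoc, hcb, inv_mul_cancel_left]
  have hcz : Commute c z := by
    rw [hz]
    exact Commute.mul_right hcb hcai
  have hce : Commute c e := by
    rw [he]
    exact ((Commute.mul_right hca hcb).mul_right hcai).mul_right hcbi
  have hze : z * e = c * e * z := by
    rw [hc]
    group
  have hc1 : c = 1 := odd_c tz (by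
    rw [mul_sub, sub_mul, mul_two, two_mul, hwe.eq]) hze hcz hce hp hp2 hm hodd hmp
  rw [hc1, one_mul] at hze
  -- `z'`
  obtain ⟨y, hy⟩ : ∃ y, y = a * z * a⁻¹ := ⟨_, rfl⟩
  have hye : y = e * z := by
    rw [hy, he, hz]
    group
  have hyz : y * z = z * y := by
    rw [hye, mul_assoc, ← mul_assoc z e z, hze, mul_assoc]
  have hey : e = y * z⁻¹ := by
    rw [hye, mul_inv_cancel_right]
  have ty : (y : Λ) + ((y⁻¹ : Λˣ) : Λ) = 2 - w := by
    have h1 : y⁻¹ = a * z⁻¹ * a⁻¹ := by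
      rw [hy]
      group
    rw [h1, hy]
    exact conj_add tz (by rw [mul_sub, sub_mul, mul_two, two_mul, hwa.eq])
  obtain ⟨f, hf⟩ : ∃ f, f = y * z := ⟨_, rfl⟩
  have hf1 : f = a * (b * a⁻¹ * a⁻¹ * b) * a⁻¹ := by
    rw [hf, hy, hz]
    group
  have hf2 : f⁻¹ = a * (b * a⁻¹ * a⁻¹ * b)⁻¹ * a⁻¹ := by
    rw [hf1]
    group
  have tF : (f : Λ) + ((f⁻¹ : Λˣ) : Λ) = 2 - 4 * w := by
    rw [hf2, hf1]
    refine conj_add tf ?_
    have h4 : (4 : Λ) = 1 + 1 + 1 + 1 := by norm_num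
    rw [h4, mul_sub, sub_mul, mul_two, two_mul]
    simp only [mul_add, add_mul, one_mul, hwa.eq]
  have hwf : Commute w (f : Λ) := by
    rw [hf1]
    simp only [Units.val_mul]
    exact (hwa.mul_right (((hwb.mul_right hwai).mul_right hwai).mul_right hwb)).mul_right hwai
  have h1 : ((e : Λ) - 1) * ((f : Λ) - 1) = 0 := by
    have h2 : e * f = y * y := by
      rw [hey, hf]
      calc y * z⁻¹ * (y * z) = y * z⁻¹ * (z * y) := by rw [hyz]
        _ = y * y := by group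
    have h3 : (e : Λ) * f = y * y := by
      have := congrArg Units.val h2
      simpa only [Units.val_mul] using this
    have h4 : (e : Λ) = y * ((z⁻¹ : Λˣ) : Λ) := by rw [hey, Units.val_mul]
    have h5 : (f : Λ) = y * z := by rw [hf, Units.val_mul]
    calc ((e : Λ) - 1) * ((f : Λ) - 1) = e * f - e - f + 1 := by noncomm_ring
      _ = y * y - y * ((z⁻¹ : Λˣ) : Λ) - y * z + y * ((y⁻¹ : Λˣ) : Λ) := by
        rw [h3, ← h4, ← h5, Units.mul_inv]
      _ = y * ((y + ((y⁻¹ : Λˣ) : Λ)) - (z + ((z⁻¹ : Λˣ) : Λ))) := by noncomm_ring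
      _ = 0 := by rw [ty, tz, sub_self, mul_zero]
  have h2 : ((e : Λ) - 1) * ((e : Λ) - 1) = e * (w * w) := by
    calc ((e : Λ) - 1) * ((e : Λ) - 1) = e * e + 1 - (e + e) := by noncomm_ring
      _ = e * e + e * ((e⁻¹ : Λˣ) : Λ) - (e + e) := by rw [Units.mul_inv]
      _ = e * (e + ((e⁻¹ : Λˣ) : Λ)) - (e + e) := by rw [mul_add]
      _ = e * (w * w) := by rw [te, mul_add, mul_two]; abel
  have h3 : ((f : Λ) - 1) * ((f : Λ) - 1) = - (f * (4 * w)) := by
    calc ((f : Λ) - 1) * ((f : Λ) - 1) = f * f + 1 - (f + f) := by noncomm_ring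
      _ = f * f + f * ((f⁻¹ : Λˣ) : Λ) - (f + f) := by rw [Units.mul_inv]
      _ = f * (f + ((f⁻¹ : Λˣ) : Λ)) - (f + f) := by rw [mul_add]
      _ = - (f * (4 * w)) := by rw [tF, mul_sub, mul_two]; abel
  have h4 : (e : Λ) * (w * w) * (f * (4 * w)) = 0 := by
    have h5 : ((e : Λ) - 1) * (((e : Λ) - 1) * ((f : Λ) - 1)) * ((f : Λ) - 1) = 0 := by
      rw [h1, mul_zero, zero_mul]
    have h6 : ((e : Λ) - 1) * (((e : Λ) - 1) * ((f : Λ) - 1)) * ((f : Λ) - 1) =
        (((e : Λ) - 1) * ((e : Λ) - 1)) * (((f : Λ) - 1) * ((f : Λ) - 1)) := by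
      simp only [mul_assoc]
    rw [h6, h2, h3, mul_neg, neg_eq_zero] at h5
    exact h5
  have h5 : (4 : Λ) * w ^ 3 = 0 := by
    have hw4 : (4 : Λ) * w = w * 4 := by
      have h4 : (4 : Λ) = 1 + 1 + 1 + 1 := by norm_num
      rw [h4]
      simp only [mul_add, add_mul, one_mul, mul_one]
    have hww2 : w * (w * (f : Λ)) = f * (w * w) := by
      rw [hwf.eq, ← mul_assoc, hwf.eq, mul_assoc]
    have hw34 : w * w * (4 * w) = 4 * w ^ 3 := by
      calc w * w * (4 * w) = w * (w * 4) * w := by simp only [mul_assoc]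
        _ = w * (4 * w) * w := by rw [hw4]
        _ = (w * 4) * w * w := by simp only [mul_assoc]
        _ = (4 * w) * w * w := by rw [hw4]
        _ = 4 * w ^ 3 := by rw [pow_succ, pow_succ, pow_one]; simp only [mul_assoc]
    have h6 : (e : Λ) * (w * w) * (f * (4 * w)) = (e * f) * (4 * w ^ 3) := by
      calc (e : Λ) * (w * w) * (f * (4 * w)) = e * (w * (w * f)) * (4 * w) := by
            simp only [mul_assoc]
        _ = e * (f * (w * w)) * (4 * w) := by rw [hww2]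
        _ = (e * f) * (w * w * (4 * w)) := by simp only [mul_assoc]
        _ = (e * f) * (4 * w ^ 3) := by rw [hw34]
    rw [h6] at h4
    have h7 : ((f⁻¹ : Λˣ) : Λ) * (((e⁻¹ : Λˣ) : Λ) * ((e * f) * (4 * w ^ 3))) = 0 := by
      rw [h4, mul_zero, mul_zero]
    have h8 : ((f⁻¹ : Λˣ) : Λ) * (((e⁻¹ : Λˣ) : Λ) * ((e * f) * (4 * w ^ 3))) = 4 * w ^ 3 := by
      rw [mul_assoc (e : Λ), ← mul_assoc ((e⁻¹ : Λˣ) : Λ), Units.inv_mul, one_mul, ← mul_assoc,
        Units.inv_mul, one_mul]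
    rwa [h8] at h7
  rw [← hww]
  refine cancel (k := 4) hp ?_ (by
    rw [← h5]
    norm_num)
  have : (4 : ℕ) = 2 ^ 2 := by norm_num
  rw [this]
  exact Nat.Coprime.pow_left 2 hp2

end odd

end Pool.Agent.Work.MP_6d7bb4.helper94.Qd
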