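import Pool.Agent.Work.MP_6d7bb4_helper94.Fin
import Pool.Agent.Work.MP_6d7bb4_helper94.Cls
import Pool.Agent.Work.MP_6d7bb4_helper94.Lc3

/-! # MP_6d7bb4: from the local action to the local hypotheses (helper94) -/

set_option autoImplicit false
set_option linter.unusedSectionVars false

namespace Pool.Agent.Work.MP_6d7bb4.helper94

open MulAction

section trans
variable {V : Type*} {Γ : SimpleGraph V} {Ω : Type*}

/-- `H` acts on the neighbours of `x` like `F` -/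
def LA (Γ : SimpleGraph V) (H : Subgroup (Γ ≃g Γ)) (F : Subgroup (Equiv.Perm Ω)) (x : V)
    (e : Γ.neighborSet x ≃ Ω) : Prop :=
  ∀ σ : Equiv.Perm Ω, σ ∈ F ↔ ∃ g ∈ H, g x = x ∧
    ∀ y : Γ.neighborSet x, g (y : V) = ((e.symm (σ (e y)) : Γ.neighborSet x) : V)

theorem smul_def {H : Subgroup (Γ ≃g Γ)} (g : H) (v : V) : g • v = g.1 v := rfl

theorem st_adj {H : Subgroup (Γ ≃g Γ)} {x : V} {g : H} (hg : g ∈ stabilizer H x)
    (y : Γ.neighborSet x) : g.1 y.1 ∈ Γ.neighborSet x := by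
  have h1 := Tr.adj_iso g.1 y.2
  have h2 : g.1 x = x := mem_stabilizer_iff.mp hg
  rwa [h2] at h1

/-- the action of the stabiliser on `Ω` -/
noncomputable def rho (H : Subgroup (Γ ≃g Γ)) (x : V) (e : Γ.neighborSet x ≃ Ω) :
    stabilizer H x →* Equiv.Perm Ω where
  toFun g :=
    { toFun := fun ω => e ⟨g.1.1 (e.symm ω).1, st_adj g.2 (e.symm ω)⟩
      invFun := fun ω => e ⟨(g⁻¹).1.1 (e.symm ω).1, st_adj (g⁻¹).2 (e.symm ω)⟩
      left_inv := by
        intro ω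
        apply e.symm.injective
        apply Subtype.ext
        simp only [Equiv.symm_apply_apply]
        exact Tr.inv_app g.1.1 _
      right_inv := by
        intro ω
        apply e.symm.injective
        apply Subtype.ext
        simp only [Equiv.symm_apply_apply]
        exact Tr.app_inv g.1.1 _ }
  map_one' := by
    ext ω
    apply e.symm.injective
    apply Subtype.ext
    show (e.symm (e _)).1 = _
    rw [Equiv.symm_apply_apply]
    rfl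
  map_mul' := by
    intro g g'
    ext ω
    apply e.symm.injective
    apply Subtype.ext
    show (e.symm (e _)).1 = (e.symm (e ⟨g.1.1 (e.symm (e ⟨g'.1.1 (e.symm ω).1, _⟩)).1, _⟩)).1
    rw [Equiv.symm_apply_apply, Equiv.symm_apply_apply]
    simp only [Equiv.symm_apply_apply]
    rfl

theorem rho_app {H : Subgroup (Γ ≃g Γ)} {x : V} (e : Γ.neighborSet x ≃ Ω)
    (g : stabilizer H x) (y : Γ.neighborSet x) :
    g.1.1 y.1 = ((e.symm (rho H x e g (e y)) : Γ.neighborSet x) : V) := by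
  show _ = (e.symm (e _)).1
  rw [Equiv.symm_apply_apply]
  simp only [Equiv.symm_apply_apply]

theorem rho_eq {H : Subgroup (Γ ≃g Γ)} {x : V} (e : Γ.neighborSet x ≃ Ω)
    (g : stabilizer H x) (y y' : Γ.neighborSet x) :
    rho H x e g (e y) = e y' ↔ g.1.1 y.1 = y'.1 := by
  rw [rho_app e g y]
  constructor
  · intro h
    rw [h, Equiv.symm_apply_apply]
  · intro h
    have h1 := Subtype.ext h
    rw [Equiv.symm_apply_eq] at h1
    exact h1

theorem rho_mem {H : Subgroup (Γ ≃g Γ)} {F : Subgroup (Equiv.Perm Ω)} {x : V}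
    {e : Γ.neighborSet x ≃ Ω} (hL : LA Γ H F x e) (g : stabilizer H x) : rho H x e g ∈ F :=
  (hL _).mpr ⟨g.1.1, g.1.2, mem_stabilizer_iff.mp g.2, fun y => rho_app e g y⟩

theorem rho_surj {H : Subgroup (Γ ≃g Γ)} {F : Subgroup (Equiv.Perm Ω)} {x : V}
    {e : Γ.neighborSet x ≃ Ω} (hL : LA Γ H F x e) {σ : Equiv.Perm Ω} (hσ : σ ∈ F) :
    ∃ g : stabilizer H x, rho H x e g = σ := by
  obtain ⟨g, hg, hx, h1⟩ := (hL σ).mp hσ
  refine ⟨⟨⟨g, hg⟩, hx⟩, ?_⟩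
  ext ω
  obtain ⟨y, rfl⟩ := e.surjective ω
  have h2 := h1 y
  have h3 : σ (e y) = e (e.symm (σ (e y))) := by rw [Equiv.apply_symm_apply]
  rw [h3, rho_eq]
  exact h2

theorem rho_ker {H : Subgroup (Γ ≃g Γ)} {x : V} (e : Γ.neighborSet x ≃ Ω) :
    (rho H x e).ker = (K Γ x : Subgroup H).subgroupOf (stabilizer H x) := by
  ext g
  rw [MonoidHom.mem_ker, Subgroup.mem_subgroupOf, mem_K]
  constructor
  · intro h
    refine ⟨g.2, fun y hy => ?_⟩
    have h1 := rho_app e g ⟨y, hy⟩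
    rw [h] at h1
    rw [smul_def, h1]
    show (e.symm (e ⟨y, hy⟩)).1 = y
    rw [Equiv.symm_apply_apply]
  · intro h
    ext ω
    obtain ⟨y, rfl⟩ := e.surjective ω
    show rho H x e g (e y) = e y
    rw [rho_eq]
    exact h.2 y.1 y.2

/-- image of a subgroup of the stabiliser -/
noncomputable def im (H : Subgroup (Γ ≃g Γ)) (x : V) (e : Γ.neighborSet x ≃ Ω)
    (N : Subgroup H) : Subgroup (Equiv.Perm Ω) :=
  (N.subgroupOf (stabilizer H x)).map (rho H x e)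

theorem mem_im {H : Subgroup (Γ ≃g Γ)} {x : V} {e : Γ.neighborSet x ≃ Ω} {N : Subgroup H}
    {σ : Equiv.Perm Ω} : σ ∈ im H x e N ↔ ∃ g : stabilizer H x, g.1 ∈ N ∧ rho H x e g = σ :=
  Iff.rfl

theorem im_le {H : Subgroup (Γ ≃g Γ)} {F : Subgroup (Equiv.Perm Ω)} {x : V}
    {e : Γ.neighborSet x ≃ Ω} (hL : LA Γ H F x e) (N : Subgroup H) : im H x e N ≤ F := by
  intro σ hσ
  obtain ⟨g, _, rfl⟩ := mem_im.mp hσ
  exact rho_mem hL g

theorem im_card {H : Subgroup (Γ ≃g Γ)} {x : V} (e : Γ.neighborSet x ≃ Ω) {N : Subgroup H}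
    (hN : N ≤ stabilizer H x) : (K Γ x : Subgroup H).relIndex N = Nat.card (im H x e N) := by
  unfold im
  rw [← Subgroup.relIndex_ker, rho_ker, Subgroup.relIndex_subgroupOf hN]

theorem im_isP {H : Subgroup (Γ ≃g Γ)} {x : V} (e : Γ.neighborSet x ≃ Ω) {N : Subgroup H}
    {p : ℕ} (hp : IsPGroup p N) : IsPGroup p (im H x e N) := by
  unfold im
  exact IsPGroup.map (hp.comap_of_injective (stabilizer H x).subtype
    (Subgroup.subtype_injective _)) _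

theorem im_nm {H : Subgroup (Γ ≃g Γ)} {F : Subgroup (Equiv.Perm Ω)} {x : V}
    {e : Γ.neighborSet x ≃ Ω} (hL : LA Γ H F x e) {N : Subgroup H}
    (hnm : Nm (stabilizer H x) N) : ∀ f ∈ F, ∀ n ∈ im H x e N, f * n * f⁻¹ ∈ im H x e N := by
  intro f hf n hn
  obtain ⟨g, rfl⟩ := rho_surj hL hf
  obtain ⟨k, hk, rfl⟩ := mem_im.mp hn
  rw [mem_im]
  refine ⟨g * k * g⁻¹, hnm g.1 g.2 k.1 hk, ?_⟩
  rw [map_mul, map_mul, map_inv]

theorem im_nm' {H : Subgroup (Γ ≃g Γ)} {F : Subgroup (Equiv.Perm Ω)} {x y : V}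
    (hxy : Γ.Adj x y) {e : Γ.neighborSet x ≃ Ω} (hL : LA Γ H F x e) {N : Subgroup H}
    (hnm : Nm (B x y) N) : ∀ f ∈ F, f (e ⟨y, hxy⟩) = e ⟨y, hxy⟩ → ∀ n ∈ im H x e N,
      f * n * f⁻¹ ∈ im H x e N := by
  intro f hf hfy n hn
  obtain ⟨g, rfl⟩ := rho_surj hL hf
  obtain ⟨k, hk, rfl⟩ := mem_im.mp hn
  rw [rho_eq] at hfy
  rw [mem_im]
  refine ⟨g * k * g⁻¹, hnm g.1 ⟨g.2, hfy⟩ k.1 hk, ?_⟩
  rw [map_mul, map_mul, map_inv]

/-- locally transitive -/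
theorem loc_tr {H : Subgroup (Γ ≃g Γ)} {F : Subgroup (Equiv.Perm Ω)}
    (hF : ∀ a b : Ω, ∃ σ ∈ F, σ a = b) (hloc : ∀ x, ∃ e, LA Γ H F x e) {x y y' : V}
    (hy : Γ.Adj x y) (hy' : Γ.Adj x y') : ∃ g ∈ H, g x = x ∧ g y = y' := by
  obtain ⟨e, hL⟩ := hloc x
  obtain ⟨σ, hσ, h1⟩ := hF (e ⟨y, hy⟩) (e ⟨y', hy'⟩)
  obtain ⟨g, hg⟩ := rho_surj hL hσ
  rw [← hg, rho_eq] at h1
  exact ⟨g.1.1, g.1.2, g.2, h1⟩

theorem arc_of_inv {H : Subgroup (Γ ≃g Γ)} (hc : Γ.Connected)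
    (hl : ∀ x y y' : V, Γ.Adj x y → Γ.Adj x y' → ∃ g ∈ H, g x = x ∧ g y = y')
    {x0 y0 : V} (h0 : Γ.Adj x0 y0) {g0 : Γ ≃g Γ} (hg0 : g0 ∈ H) (h1 : g0 x0 = y0)
    (h2 : g0 y0 = x0) (x y : V) (hxy : Γ.Adj x y) : ∃ g ∈ H, g x0 = x ∧ g y0 = y := by
  refine Tr.conn_ind' hc {x | ∀ y, Γ.Adj x y → ∃ g ∈ H, g x0 = x ∧ g y0 = y} (x := x0) ?_ ?_ x
    y hxy
  · intro y hy
    exact hl x0 y0 y h0 hy
  · intro x hx w hw y hy
    obtain ⟨g, hg, e1, e2⟩ := hx w hw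
    obtain ⟨g', hg', e3, e4⟩ := hl w x y hw.symm hy
    refine ⟨g' * (g * g0), H.mul_mem hg' (H.mul_mem hg hg0), ?_, ?_⟩
    · rw [Tr.mul_app, Tr.mul_app, h1, e2, e3]
    · rw [Tr.mul_app, Tr.mul_app, h2, e1, e4]

/-- the local hypotheses hold -/
theorem loc_of [Fintype Ω] {H : Subgroup (Γ ≃g Γ)} {F : Subgroup (Equiv.Perm Ω)}
    (hF2 : ∀ N : Subgroup (Equiv.Perm Ω), N ≤ F →
        (∀ f ∈ F, ∀ n ∈ N, f * n * f⁻¹ ∈ N) →
        ((∀ a b : Ω, ∃ σ ∈ N, σ a = b) ∨ (∀ σ ∈ N, ∀ a : Ω, σ a = a → σ = 1)))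
    (hc : Γ.Connected) (hfin : ∀ v : V, {g : Γ ≃g Γ | g ∈ H ∧ g v = v}.Finite)
    (hloc : ∀ x, ∃ e, LA Γ H F x e)
    (harc : ∀ x y x' y', Γ.Adj x y → Γ.Adj x' y' → ∃ g ∈ H, g x = x' ∧ g y = y') :
    Loc H Γ (Fintype.card Ω) where
  adj := fun g x y h => Tr.adj_iso g.1 h
  faith := by
    intro g h
    apply Subtype.ext
    ext v
    exact h v
  fin := by
    intro x
    have := (hfin x).to_subtype
    refine Finite.of_injective
      (fun g : stabilizer H x => (⟨g.1.1, g.1.2, g.2⟩ : {g : Γ ≃g Γ | g ∈ H ∧ g x = x})) ?_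
    intro g g' h
    have h1 : g.1.1 = g'.1.1 := Subtype.mk.inj h
    exact Subtype.ext (Subtype.ext h1)
  conn := hc
  arc := by
    intro x y x' y' h1 h2
    obtain ⟨g, hg, e1, e2⟩ := harc x y x' y' h1 h2
    exact ⟨⟨g, hg⟩, e1, e2⟩
  nfin := by
    intro x
    obtain ⟨e, _⟩ := hloc x
    exact Finite.of_equiv Ω e.symm
  ncard := by
    intro x
    obtain ⟨e, _⟩ := hloc x
    rw [← Nat.card_eq_fintype_card]
    exact (Nat.card_congr e).le
  sp := by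
    intro x N hN hnm
    obtain ⟨e, hL⟩ := hloc x
    rcases hF2 (im H x e N) (im_le hL N) (im_nm hL hnm) with h1 | h1
    · left
      intro y y' hy hy'
      obtain ⟨σ, hσ, h2⟩ := h1 (e ⟨y, hy⟩) (e ⟨y', hy'⟩)
      obtain ⟨g, hg, rfl⟩ := mem_im.mp hσ
      rw [rho_eq] at h2
      exact ⟨g.1, hg, h2⟩
    · right
      intro n hn y hy hny
      have h2 := h1 (rho H x e ⟨n, hN hn⟩) (mem_im.mpr ⟨_, hn, rfl⟩) (e ⟨y, hy⟩) (by
        rw [rho_eq]
        exact hny)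
      rw [← MonoidHom.mem_ker, rho_ker, Subgroup.mem_subgroupOf] at h2
      exact h2
  pb := by
    intro p hp x y hxy N hN hpN hNK
    have : Fact p.Prime := ⟨hp⟩
    obtain ⟨e, hL⟩ := hloc x
    have hcard := im_card e (hN.trans (B_le x y))
    obtain ⟨k, hk⟩ := IsPGroup.iff_card.mp (im_isP e hpN)
    have hk0 : k ≠ 0 := by
      rintro rfl
      rw [hk, pow_zero, Subgroup.relIndex_eq_one] at hcard
      exact hNK hcard
    have h1 : p ∣ Nat.card (im H x e N) := by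
      rw [hk]
      exact dvd_pow_self p hk0
    classical
    have h2 := h1.trans (Subgroup.card_subgroup_dvd_card (im H x e N))
    rw [Nat.card_eq_fintype_card, Fintype.card_perm] at h2
    exact (Nat.Prime.dvd_factorial hp).mp h2

/-- the condition `A` at the prime `p` -/
def CondA (F : Subgroup (Equiv.Perm Ω)) (p : ℕ) : Prop :=
  ∀ ω : Ω, ∀ N : Subgroup (Equiv.Perm Ω), N ≤ F →
    (∀ n ∈ N, n ω = ω) → (∀ f ∈ F, f ω = ω → ∀ n ∈ N, f * n * f⁻¹ ∈ N) →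
    IsPGroup p N → Nat.card N ≤ p

/-- the condition `B` at the prime `p` for the subgroup `S` -/
structure CondB0 (F : Subgroup (Equiv.Perm Ω)) (p : ℕ) (S : Subgroup (Equiv.Perm Ω)) : Prop where
  op : ∀ ω : Ω, ∀ N : Subgroup (Equiv.Perm Ω), N ≤ F →
    (∀ n ∈ N, n ω = ω) → (∀ f ∈ F, f ω = ω → ∀ n ∈ N, f * n * f⁻¹ ∈ N) →
    IsPGroup p N → N ≤ S
  ps : ∀ L : Subgroup (Equiv.Perm Ω), L ≤ S → L ≠ ⊥ → ∃ N, N ≤ L ∧ N ≠ L ∧
    (∀ l ∈ L, ∀ n ∈ N, l * n * l⁻¹ ∈ N) ∧ ((∃ k, N.relIndex L = p ^ k) ∨ ¬ p ∣ N.relIndex L)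

/-- the exceptional configuration at the prime `p` -/
structure Exc (F S : Subgroup (Equiv.Perm Ω)) (p : ℕ) (N R Q : Subgroup (Equiv.Perm Ω)) (ω : Ω)
    (t : Equiv.Perm Ω) : Prop where
  NS : N ≤ S
  RN : R ≤ N
  nN : ∀ f ∈ F, ∀ n ∈ N, f * n * f⁻¹ ∈ N
  nR : ∀ f ∈ F, ∀ n ∈ R, f * n * f⁻¹ ∈ R
  tr : ∀ a b : Ω, ∃ n ∈ N, n a = b
  sr : ∀ n ∈ N, ∀ a : Ω, n a = a → n = 1
  ab : ∀ a ∈ N, ∀ b ∈ N, a * b * a⁻¹ * b⁻¹ ∈ R
  ex : ∀ a ∈ N, a ^ (5 - p) ∈ R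
  mn : ∀ M : Subgroup (Equiv.Perm Ω), R ≤ M → M ≤ N → (∀ f ∈ F, ∀ n ∈ M, f * n * f⁻¹ ∈ M) →
    M = R ∨ M = N
  bg : p + 1 < R.relIndex N
  QF : Q ≤ F
  Qf : ∀ q ∈ Q, q ω = ω
  nQ : ∀ f ∈ F, f ω = ω → ∀ q ∈ Q, f * q * f⁻¹ ∈ Q
  Qp : IsPGroup p Q
  tQ : t ∈ Q
  tp : t ^ p = 1
  nt : ¬ ∀ n ∈ N, t * n * t⁻¹ * n⁻¹ ∈ R
  ix : ∀ C : Subgroup (Equiv.Perm Ω), (∀ n, n ∈ C ↔ n ∈ N ∧ t * n * t⁻¹ * n⁻¹ ∈ R) →
    C.relIndex N ≤ p + 1
  cm : ∀ f ∈ F, t * (f * t * f⁻¹) * t⁻¹ * (f * t * f⁻¹)⁻¹ ∈ N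

/-- the condition `B` at the prime `p` for the subgroup `S` -/
structure CondB (F : Subgroup (Equiv.Perm Ω)) (p : ℕ) (S : Subgroup (Equiv.Perm Ω)) : Prop
    extends CondB0 F p S where
  xc : 5 ≤ p ∨ ∀ N R Q ω t, ¬ Exc F S p N R Q ω t

/-- the image of `Qe` is a normal `p`-subgroup of a point stabiliser -/
theorem im_Qe {p : ℕ} [Fact p.Prime] {H : Subgroup (Γ ≃g Γ)}
    {F : Subgroup (Equiv.Perm Ω)} {d : ℕ} (h : Loc H Γ d) {x y : V} (hxy : Γ.Adj x y)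
    {e : Γ.neighborSet x ≃ Ω} (hL : LA Γ H F x e) :
    im H x e (Qe p x y) ≤ F ∧ (∀ n ∈ im H x e (Qe p x y), n (e ⟨y, hxy⟩) = e ⟨y, hxy⟩) ∧
      (∀ f ∈ F, f (e ⟨y, hxy⟩) = e ⟨y, hxy⟩ → ∀ n ∈ im H x e (Qe p x y),
        f * n * f⁻¹ ∈ im H x e (Qe p x y)) ∧ IsPGroup p (im H x e (Qe p x y)) := by
  refine ⟨im_le hL _, ?_, im_nm' hxy hL (nm_Qe h x y), im_isP e (Qe_isP h x y)⟩
  intro n hn
  obtain ⟨g, hg, rfl⟩ := mem_im.mp hn
  rw [rho_eq]
  exact (Qe_le x y hg).2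

/-- case `A` -/
theorem rl_of {p : ℕ} (hp : p.Prime) {H : Subgroup (Γ ≃g Γ)}
    {F : Subgroup (Equiv.Perm Ω)} {d : ℕ} (h : Loc H Γ d)
    (hloc : ∀ x, ∃ e, LA Γ H F x e) (hA : CondA F p) (hB : CB0 H Γ p) : CB H Γ p := by
  have : Fact p.Prime := ⟨hp⟩
  refine ⟨hB, ?_⟩
  intro x y hxy
  obtain ⟨e, hL⟩ := hloc x
  rw [Qv_eq h hxy, Subgroup.inf_relIndex_left, im_card e (Qe_le_st x y)]
  obtain ⟨h1, h2, h3, h4⟩ := im_Qe (p := p) h hxy hL
  exact hA (e ⟨y, hxy⟩) _ h1 h2 h3 h4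

/-- case `B`: the groups `Nh` act as subgroups of `S` -/
theorem Nh_S {p : ℕ} (hp : p.Prime) {H : Subgroup (Γ ≃g Γ)}
    {F S : Subgroup (Equiv.Perm Ω)} {d : ℕ} (h : Loc H Γ d) {x : V}
    {e : Γ.neighborSet x ≃ Ω} (hL : LA Γ H F x e) (hB : CondB0 F p S) (g : stabilizer H x)
    (hg : g.1 ∈ (Nh Γ p x : Subgroup H)) : rho H x e g ∈ S := by
  have : Fact p.Prime := ⟨hp⟩
  have h1 : (Nh Γ p x : Subgroup H) ≤ (S.comap (rho H x e)).map (stabilizer H x).subtype := by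
    refine iSup_le (fun y => ?_)
    intro q hq
    obtain ⟨h1, h2, h3, h4⟩ := im_Qe (p := p) h y.2 hL
    refine ⟨⟨q, Qe_le_st x y.1 hq⟩, ?_, rfl⟩
    show rho H x e _ ∈ S
    exact hB.op (e ⟨y.1, y.2⟩) _ h1 h2 h3 h4 (mem_im.mpr ⟨_, hq, rfl⟩)
  obtain ⟨g', hg', hgg⟩ := h1 hg
  have h2 : g' = g := Subtype.ext hgg
  rw [← h2]
  exact hg'

theorem rho_one {H : Subgroup (Γ ≃g Γ)} {x : V} {e : Γ.neighborSet x ≃ Ω}
    {g : stabilizer H x} : rho H x e g = 1 ↔ g.1 ∈ (K Γ x : Subgroup H) := by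
  rw [← MonoidHom.mem_ker, rho_ker, Subgroup.mem_subgroupOf]

/-- relative indices of images and preimages -/
theorem im_rel {H : Subgroup (Γ ≃g Γ)} {x : V} (e : Γ.neighborSet x ≃ Ω) {L : Subgroup H}
    (hL : L ≤ stabilizer H x) (N' : Subgroup (Equiv.Perm Ω)) :
    ((N'.comap (rho H x e)).map (stabilizer H x).subtype).relIndex L =
      N'.relIndex (im H x e L) := by
  have h1 : L = (L.subgroupOf (stabilizer H x)).map (stabilizer H x).subtype :=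
    (Subgroup.map_subgroupOf_eq_of_le hL).symm
  have h2 : ((N'.comap (rho H x e)).map (stabilizer H x).subtype).relIndex L =
      (N'.comap (rho H x e)).relIndex (L.subgroupOf (stabilizer H x)) := by
    conv_lhs => rw [h1]
    exact Subgroup.relIndex_map_map_of_injective _ _ (Subgroup.subtype_injective _)
  rw [h2, Subgroup.relIndex_comap]
  rfl

/-- case `B`: the groups `Nh` are `p`-soluble -/
theorem psol_of {p : ℕ} (hp : p.Prime) {H : Subgroup (Γ ≃g Γ)}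
    {F S : Subgroup (Equiv.Perm Ω)} {d : ℕ} (h : Loc H Γ d)
    (hloc : ∀ x, ∃ e, LA Γ H F x e) (hB : CondB0 F p S) (x : V) :
    PSol p (Nh Γ p x : Subgroup H) := by
  have : Fact p.Prime := ⟨hp⟩
  obtain ⟨e, hL⟩ := hloc x
  intro L hLN hLne
  have hLs : L ≤ stabilizer H x := hLN.trans (Nh_le x)
  have hLf : Finite L := h.fin_le hLs
  by_cases h1 : im H x e L = ⊥
  · have hLK : L ≤ (K Γ x : Subgroup H) := by
      intro g hg
      have h2 : rho H x e ⟨g, hLs hg⟩ ∈ im H x e L := mem_im.mpr ⟨_, hg, rfl⟩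
      rw [h1, Subgroup.mem_bot, rho_one] at h2
      exact h2
    obtain ⟨P⟩ : Nonempty (Sylow p L) := inferInstance
    obtain ⟨Q', hQ'⟩ : ∃ Q' : Subgroup L, Q' = (Qv Γ p x : Subgroup H).subgroupOf L := ⟨_, rfl⟩
    have hQn : Q'.Normal := by
      refine ⟨fun n hn g => ?_⟩
      rw [hQ', Subgroup.mem_subgroupOf] at hn ⊢
      exact nm_Qv h x g.1 (hLs g.2) n.1 hn
    have hQp : IsPGroup p Q' := by
      rw [hQ']
      have hf := h.finK x
      exact (O_isP (K Γ x : Subgroup H)).comap_of_injective L.subtype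
        (Subgroup.subtype_injective _)
    have hQP : Q' ≤ (P : Subgroup L) := by
      have h2 := P.is_maximal' (Q := ((P : Subgroup L) ⊔ Q'))
        (IsPGroup.to_sup_of_normal_right P.isPGroup' hQp) le_sup_left
      rw [← h2]
      exact le_sup_right
    have hPn : ∀ l : L, ∀ n ∈ (P : Subgroup L), l * n * l⁻¹ ∈ (P : Subgroup L) := by
      intro l n hn
      have h2 : l * n * l⁻¹ = (l * n * l⁻¹ * n⁻¹) * n := by group
      rw [h2]
      refine Subgroup.mul_mem _ (hQP ?_) hn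
      rw [hQ', Subgroup.mem_subgroupOf]
      exact K_Nh h (hLK l.2) (hLN n.2)
    by_cases hPt : (P : Subgroup L) = ⊤
    · refine ⟨⊥, bot_le, hLne.symm, ?_, Or.inl ?_⟩
      · intro l _ n hn
        rw [Subgroup.mem_bot] at hn ⊢
        rw [hn]
        group
      · rw [Subgroup.relIndex_bot_left]
        have h2 : IsPGroup p (⊤ : Subgroup L) := by
          rw [← hPt]
          exact P.isPGroup'
        have h3 := IsPGroup.iff_card.mp h2
        rwa [Subgroup.card_top] at h3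
    · refine ⟨(P : Subgroup L).map L.subtype, ?_, ?_, ?_, Or.inr ?_⟩
      · rintro _ ⟨y, _, rfl⟩
        exact y.2
      · intro h2
        apply hPt
        rw [eq_top_iff]
        intro y _
        have h3 : y.1 ∈ (P : Subgroup L).map L.subtype := by
          rw [h2]
          exact y.2
        obtain ⟨z, hz, hzy⟩ := h3
        have h4 : z = y := Subtype.ext hzy
        rw [← h4]
        exact hz
      · rintro l hl _ ⟨n, hn, rfl⟩
        exact ⟨⟨l, hl⟩ * n * ⟨l, hl⟩⁻¹, hPn ⟨l, hl⟩ n hn, rfl⟩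
      · have h2 : ((P : Subgroup L).map L.subtype).relIndex L = (P : Subgroup L).index := by
          show (((P : Subgroup L).map L.subtype).subgroupOf L).index = _
          congr 1
          exact Subgroup.comap_map_eq_self_of_injective (Subgroup.subtype_injective L) _
        rw [h2]
        exact P.not_dvd_index
  · have hS : im H x e L ≤ S := by
      intro σ hσ
      obtain ⟨g, hg, rfl⟩ := mem_im.mp hσ
      exact Nh_S hp h hL hB g (hLN hg)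
    obtain ⟨N', hN1, hN2, hN3, hN4⟩ := hB.ps _ hS h1
    obtain ⟨N, hN⟩ : ∃ N : Subgroup H, N =
        L ⊓ (N'.comap (rho H x e)).map (stabilizer H x).subtype := ⟨_, rfl⟩
    have hNm : ∀ g : stabilizer H x, g.1 ∈ N ↔ g.1 ∈ L ∧ rho H x e g ∈ N' := by
      intro g
      rw [hN, Subgroup.mem_inf]
      refine and_congr_right (fun _ => ?_)
      constructor
      · rintro ⟨g', hg', hgg⟩
        have h2 : g' = g := Subtype.ext hgg
        rw [← h2]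
        exact hg'
      · intro h2
        exact ⟨g, h2, rfl⟩
    refine ⟨N, ?_, ?_, ?_, ?_⟩
    · rw [hN]
      exact inf_le_left
    · intro h2
      apply hN2
      refine le_antisymm hN1 ?_
      intro σ hσ
      obtain ⟨g, hg, rfl⟩ := mem_im.mp hσ
      rw [← h2] at hg
      exact ((hNm g).mp hg).2
    · intro l hl n hn
      have hn1 : n ∈ L := by
        rw [hN] at hn
        exact hn.1
      have h2 := (hNm ⟨n, hLs hn1⟩).mp hn
      refine (hNm (⟨l, hLs hl⟩ * ⟨n, hLs hn1⟩ * ⟨l, hLs hl⟩⁻¹)).mpr ⟨?_, ?_⟩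
      · exact L.mul_mem (L.mul_mem hl hn1) (L.inv_mem hl)
      · rw [map_mul, map_mul, map_inv]
        exact hN3 _ (mem_im.mpr ⟨_, hl, rfl⟩) _ h2.2
    · have h2 : N.relIndex L = N'.relIndex (im H x e L) := by
        rw [hN, inf_comm, Subgroup.inf_relIndex_right, im_rel e hLs]
      rw [h2]
      exact hN4

theorem pinv (f : Equiv.Perm Ω) (a : Ω) : f⁻¹ (f a) = a := f.symm_apply_apply a

theorem papp (f : Equiv.Perm Ω) (a : Ω) : f (f⁻¹ a) = a := f.apply_symm_apply a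

/-- a group with a small quotient of the regular normal subgroup -/
theorem small_quot [Fintype Ω] {p : ℕ} (hp23 : p = 2 ∨ p = 3) {F N R Q : Subgroup (Equiv.Perm Ω)}
    (hF2 : ∀ N : Subgroup (Equiv.Perm Ω), N ≤ F →
        (∀ f ∈ F, ∀ n ∈ N, f * n * f⁻¹ ∈ N) →
        ((∀ a b : Ω, ∃ σ ∈ N, σ a = b) ∨ (∀ σ ∈ N, ∀ a : Ω, σ a = a → σ = 1)))
    (RN : R ≤ N) (nN : ∀ f ∈ F, ∀ n ∈ N, f * n * f⁻¹ ∈ N)
    (nR : ∀ f ∈ F, ∀ n ∈ R, f * n * f⁻¹ ∈ R) (NF : N ≤ F)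
    (tr : ∀ a b : Ω, ∃ n ∈ N, n a = b) (sr : ∀ n ∈ N, ∀ a : Ω, n a = a → n = 1)
    (hne : ∃ n ∈ N, n ∉ R) (sm : R.relIndex N ≤ p + 1) (QF : Q ≤ F) {ω : Ω}
    (Qf : ∀ q ∈ Q, q ω = ω) (Qp : IsPGroup p Q) : Nat.card Q ≤ p := by
  have hp : p.Prime := by
    rcases hp23 with rfl | rfl
    · exact Nat.prime_two
    · exact Nat.prime_three
  have : Fact p.Prime := ⟨hp⟩
  -- the elements which preserve the orbits of `R`
  obtain ⟨L, hL⟩ : ∃ L : Subgroup (Equiv.Perm Ω), ∀ f, f ∈ L ↔ f ∈ F ∧ ∀ a, ∃ r ∈ R, f a = r a := by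
    refine ⟨{ carrier := {f | f ∈ F ∧ ∀ a, ∃ r ∈ R, f a = r a}
              one_mem' := ⟨F.one_mem, fun a => ⟨1, R.one_mem, rfl⟩⟩
              mul_mem' := ?_
              inv_mem' := ?_ }, fun _ => Iff.rfl⟩
    · rintro f g ⟨hf, hf'⟩ ⟨hg, hg'⟩
      refine ⟨F.mul_mem hf hg, fun a => ?_⟩
      obtain ⟨r, hr, hra⟩ := hg' a
      obtain ⟨s, hs, hsa⟩ := hf' (g a)
      refine ⟨s * r, R.mul_mem hs hr, ?_⟩
      rw [Equiv.Perm.mul_apply, Equiv.Perm.mul_apply, hsa, hra]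
    · rintro f ⟨hf, hf'⟩
      refine ⟨F.inv_mem hf, fun a => ?_⟩
      obtain ⟨r, hr, hra⟩ := hf' (f⁻¹ a)
      refine ⟨r⁻¹, R.inv_mem hr, ?_⟩
      rw [papp] at hra
      rw [Equiv.Perm.eq_inv_iff_eq]
      exact hra.symm
  have hLF : L ≤ F := fun f hf => ((hL f).mp hf).1
  have hLn : ∀ f ∈ F, ∀ n ∈ L, f * n * f⁻¹ ∈ L := by
    intro f hf n hn
    rw [hL] at hn ⊢
    refine ⟨F.mul_mem (F.mul_mem hf hn.1) (F.inv_mem hf), fun a => ?_⟩
    obtain ⟨r, hr, hra⟩ := hn.2 (f⁻¹ a)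
    refine ⟨f * r * f⁻¹, nR f hf r hr, ?_⟩
    rw [Equiv.Perm.mul_apply, Equiv.Perm.mul_apply, Equiv.Perm.mul_apply, Equiv.Perm.mul_apply,
      hra]
  have hLs : ∀ σ ∈ L, ∀ a : Ω, σ a = a → σ = 1 := by
    rcases hF2 L hLF hLn with h1 | h1
    · exfalso
      obtain ⟨n, hn, hnR⟩ := hne
      obtain ⟨σ, hσ, hσ1⟩ := h1 ω (n ω)
      obtain ⟨r, hr, hr1⟩ := ((hL σ).mp hσ).2 ω
      apply hnR
      have h2 : r⁻¹ * n = 1 := by
        refine sr _ (N.mul_mem (N.inv_mem (RN hr)) hn) ω ?_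
        rw [Equiv.Perm.mul_apply, ← hσ1, hr1, pinv]
      have h3 : n = r := by
        rw [inv_mul_eq_one] at h2
        exact h2.symm
      rw [h3]
      exact hr
    · exact h1
  -- the action on the quotient
  obtain ⟨R', hR'⟩ : ∃ R' : Subgroup N, R' = R.subgroupOf N := ⟨_, rfl⟩
  have hR'm : ∀ s : N, s ∈ R' ↔ s.1 ∈ R := by
    intro s
    rw [hR', Subgroup.mem_subgroupOf]
  have hR'n : R'.Normal := by
    refine ⟨fun m hm g => ?_⟩
    rw [hR'm] at hm ⊢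
    exact nR g.1 (NF g.2) m.1 hm
  have hQN : Nm Q N := fun q hq n hn => nN q (QF hq) n hn
  have hle : ∀ q : Q, R' ≤ R'.comap (cjH hQN q).toMonoidHom := by
    intro q s hs
    show cjH hQN q s ∈ R'
    rw [hR'm] at hs ⊢
    exact nR q.1 (QF q.2) s.1 hs
  obtain ⟨F1, hF1⟩ : ∃ F1 : Q → (N ⧸ R') → (N ⧸ R'), ∀ (q : Q) (s : N),
      F1 q (QuotientGroup.mk s) = QuotientGroup.mk (cjH hQN q s) :=
    ⟨fun q => QuotientGroup.map R' R' (cjH hQN q).toMonoidHom (hle q), fun _ _ => rfl⟩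
  have hF1m : ∀ q q' : Q, ∀ x, F1 (q * q') x = F1 q (F1 q' x) := by
    intro q q' x
    obtain ⟨s, rfl⟩ := QuotientGroup.mk_surjective x
    rw [hF1, hF1, hF1, map_mul]
    rfl
  have hF11 : ∀ x, F1 1 x = x := by
    intro x
    obtain ⟨s, rfl⟩ := QuotientGroup.mk_surjective x
    rw [hF1, map_one]
    rfl
  obtain ⟨θ, hθ⟩ : ∃ θ : Q →* Equiv.Perm (N ⧸ R'), ∀ q x, θ q x = F1 q x :=
    ⟨{ toFun := fun q =>
        { toFun := F1 q
          invFun := F1 q⁻¹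
          left_inv := fun x => by rw [← hF1m, inv_mul_cancel, hF11]
          right_inv := fun x => by rw [← hF1m, mul_inv_cancel, hF11] }
       map_one' := Equiv.ext hF11
       map_mul' := fun q q' => Equiv.ext (hF1m q q') }, fun _ _ => rfl⟩
  have hinj : Function.Injective θ := by
    rw [injective_iff_map_eq_one]
    intro q hq
    apply Subtype.ext
    refine hLs q.1 ?_ ω (Qf q.1 q.2)
    rw [hL]
    refine ⟨QF q.2, fun a => ?_⟩
    obtain ⟨n, hn, rfl⟩ := tr ω a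
    have h1 := hθ q (QuotientGroup.mk ⟨n, hn⟩)
    rw [hq, hF1] at h1
    have h2 : (QuotientGroup.mk ⟨n, hn⟩ : N ⧸ R') = QuotientGroup.mk (cjH hQN q ⟨n, hn⟩) := h1
    rw [QuotientGroup.eq, hR'm] at h2
    have h3 : n⁻¹ * (q.1 * n * q.1⁻¹) ∈ R := h2
    have h4 : q.1 * n * q.1⁻¹ * n⁻¹ ∈ R := by
      have e1 : q.1 * n * q.1⁻¹ * n⁻¹ = n * (n⁻¹ * (q.1 * n * q.1⁻¹)) * n⁻¹ := by group
      rw [e1]
      exact nR n (NF hn) _ h3
    refine ⟨_, h4, ?_⟩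
    have h5 : q.1⁻¹ ω = ω := Qf q.1⁻¹ (Q.inv_mem q.2)
    rw [Equiv.Perm.mul_apply, pinv, Equiv.Perm.mul_apply, h5,
      Equiv.Perm.mul_apply]
  have hfQ : Finite (N ⧸ R') := inferInstance
  have hcard := Subgroup.card_dvd_of_injective θ hinj
  obtain ⟨k, hk⟩ := IsPGroup.iff_card.mp Qp
  have hn : Nat.card (N ⧸ R') ≤ p + 1 := by
    rw [hR']
    exact sm
  obtain ⟨n, hn'⟩ : ∃ n, n = Nat.card (N ⧸ R') := ⟨_, rfl⟩
  have hperm : Nat.card (Equiv.Perm (N ⧸ R')) = n.factorial := by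
    rw [Nat.card_perm, hn']
  rw [hk, hperm] at hcard
  rw [← hn'] at hn
  rw [hk]
  by_contra hcon
  push Not at hcon
  have hk2 : 2 ≤ k := by
    by_contra hk2
    have h1 : k ≤ 1 := by omega
    have h2 : p ^ k ≤ p ^ 1 := Nat.pow_le_pow_right hp.pos h1
    rw [pow_one] at h2
    omega
  have h1 : p ^ 2 ∣ n.factorial := (pow_dvd_pow p hk2).trans hcard
  rcases hp23 with rfl | rfl
  · interval_cases n <;> revert h1 <;> decide
  · interval_cases n <;> revert h1 <;> decide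

theorem relIndex_cj {G : Type*} [Group G] (g : G) (A C : Subgroup G) :
    (cj g A).relIndex (cj g C) = A.relIndex C := by
  unfold cj
  rw [Subgroup.relIndex_comap, Subgroup.map_comap_eq_self_of_surjective]
  exact (MulAut.conj g⁻¹).surjective

/-- at each prime -/
theorem hcb_of [Fintype Ω] {p : ℕ} (hp : p.Prime) {H : Subgroup (Γ ≃g Γ)}
    {F : Subgroup (Equiv.Perm Ω)} {d : ℕ} (h : Loc H Γ d)
    (hF2 : ∀ N : Subgroup (Equiv.Perm Ω), N ≤ F →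
        (∀ f ∈ F, ∀ n ∈ N, f * n * f⁻¹ ∈ N) →
        ((∀ a b : Ω, ∃ σ ∈ N, σ a = b) ∨ (∀ σ ∈ N, ∀ a : Ω, σ a = a → σ = 1)))
    (hloc : ∀ x, ∃ e, LA Γ H F x e) {x0 y0 : V} (hxy : Γ.Adj x0 y0)
    (hAB : CondA F p ∨ ∃ S, CondB F p S) (hB : CB0 H Γ p) : CB H Γ p := by
  have : Fact p.Prime := ⟨hp⟩
  rcases hAB with hA | ⟨S, hS⟩
  · exact rl_of hp h hloc hA hB
  by_cases hp5 : 5 ≤ p
  · exact (nocb h hB hxy (psol_of hp h hloc hS.toCondB0) (Or.inl hp5)).elim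
  have hp23 : p = 2 ∨ p = 3 := by
    have := hp.two_le
    interval_cases p
    · exact Or.inl rfl
    · exact Or.inr rfl
    · exact absurd hp (by norm_num)
  have hxc := hS.xc.resolve_left hp5
  obtain ⟨x, y, N, R, t, hxy', hC⟩ := cfg_ex h hB hp23 hxy (psol_of hp h hloc hS.toCondB0)
  obtain ⟨e, hL⟩ := hloc x
  have hNs : N ≤ stabilizer H x := hC.Nh.trans (Nh_le x)
  have hts : t ∈ stabilizer H x := Qe_le_st x y hC.tQ
  have hKs := nm_K h x
  have RN : im H x e R ≤ im H x e N := by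
    intro σ hσ
    obtain ⟨g, hg, rfl⟩ := mem_im.mp hσ
    exact mem_im.mpr ⟨g, hC.RN hg, rfl⟩
  have nN := im_nm hL hC.nN
  have nR := im_nm hL hC.nR
  have tr : ∀ a b : Ω, ∃ n ∈ im H x e N, n a = b := by
    intro a b
    obtain ⟨u, rfl⟩ := e.surjective a
    obtain ⟨v, rfl⟩ := e.surjective b
    obtain ⟨n, hn, hnu⟩ := hC.tr u.1 v.1 u.2 v.2
    refine ⟨rho H x e ⟨n, hNs hn⟩, mem_im.mpr ⟨_, hn, rfl⟩, ?_⟩
    rw [rho_eq]
    exact hnu
  have sr : ∀ n ∈ im H x e N, ∀ a : Ω, n a = a → n = 1 := by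
    intro σ hσ a ha
    obtain ⟨g, hg, rfl⟩ := mem_im.mp hσ
    obtain ⟨u, rfl⟩ := e.surjective a
    rw [rho_eq] at ha
    obtain ⟨n, hn, hnu⟩ := hC.tr y u.1 hxy' u.2
    have h1 : n⁻¹ * g.1 * n ∈ N := N.mul_mem (N.mul_mem (N.inv_mem hn) hg) hn
    have h2 : n⁻¹ * g.1 * n ∈ B x y := by
      refine ⟨hNs h1, ?_⟩
      have ha' : g.1 • u.1 = u.1 := ha
      show (n⁻¹ * g.1 * n) • y = y
      rw [mul_smul, mul_smul, hnu, ha', ← hnu, inv_smul_smul]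
    have h3 := hC.NB _ h1 h2
    rw [rho_one]
    have h4 := hKs n (hNs hn) _ h3
    have e1 : n * (n⁻¹ * g.1 * n) * n⁻¹ = g.1 := by group
    rwa [e1] at h4
  have NS : im H x e N ≤ S := by
    intro σ hσ
    obtain ⟨g, hg, rfl⟩ := mem_im.mp hσ
    exact Nh_S hp h hL hS.toCondB0 g (hC.Nh hg)
  -- commutators
  have hcomm : ∀ n : stabilizer H x, n.1 ∈ N →
      rho H x e ⟨t, hts⟩ * rho H x e n * (rho H x e ⟨t, hts⟩)⁻¹ * (rho H x e n)⁻¹ ∈
        im H x e R → t * n.1 * t⁻¹ * n.1⁻¹ ∈ R := by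
    intro n hn h1
    obtain ⟨r, hr, hr'⟩ := mem_im.mp h1
    rw [← map_inv, ← map_inv, ← map_mul, ← map_mul, ← map_mul] at hr'
    obtain ⟨c, hc⟩ : ∃ c : stabilizer H x, c = ⟨t, hts⟩ * n * ⟨t, hts⟩⁻¹ * n⁻¹ := ⟨_, rfl⟩
    have hc1 : c.1 = t * n.1 * t⁻¹ * n.1⁻¹ := by
      rw [hc]
      rfl
    rw [← hc] at hr'
    have h2 : rho H x e (r⁻¹ * c) = 1 := by
      rw [map_mul, map_inv, hr', inv_mul_cancel]
    have h3 : (r⁻¹ * c).1 ∈ (K Γ x : Subgroup H) := rho_one.mp h2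
    have h4 : c.1 ∈ N := by
      rw [hc1]
      exact N.mul_mem (hC.nN t hts n.1 hn) (N.inv_mem hn)
    have h5 : (r⁻¹ * c).1 ∈ R :=
      hC.NK _ (N.mul_mem (N.inv_mem (hC.RN hr)) h4) h3
    have h6 := R.mul_mem hr h5
    have e1 : r.1 * (r⁻¹ * c).1 = c.1 := by
      show r.1 * (r.1⁻¹ * c.1) = c.1
      group
    rw [e1, hc1] at h6
    exact h6
  have nt : ¬ ∀ n ∈ im H x e N, rho H x e ⟨t, hts⟩ * n * (rho H x e ⟨t, hts⟩)⁻¹ * n⁻¹ ∈
      im H x e R := by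
    intro hcon
    apply hC.nt
    intro n hn
    exact hcomm ⟨n, hNs hn⟩ hn (hcon _ (mem_im.mpr ⟨_, hn, rfl⟩))
  obtain ⟨Q1, Q2, Q3, Q4⟩ := im_Qe (p := p) h hxy' hL
  have hrl : (Qv Γ p x : Subgroup H).relIndex (Qe p x y) ≤ p := by
    rw [Qv_eq h hxy', Subgroup.inf_relIndex_left, im_card e (Qe_le_st x y)]
    by_cases hbg : p + 1 < (im H x e R).relIndex (im H x e N)
    · exfalso
      refine hxc (im H x e N) (im H x e R) (im H x e (Qe p x y)) (e ⟨y, hxy'⟩)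
        (rho H x e ⟨t, hts⟩) ⟨NS, RN, nN, nR, tr, sr, ?_, ?_, ?_, hbg, Q1, Q2, Q3, Q4,
          mem_im.mpr ⟨_, hC.tQ, rfl⟩, ?_, nt, ?_, ?_⟩
      · intro a ha b hb
        obtain ⟨g, hg, rfl⟩ := mem_im.mp ha
        obtain ⟨k, hk, rfl⟩ := mem_im.mp hb
        rw [← map_inv, ← map_inv, ← map_mul, ← map_mul, ← map_mul]
        exact mem_im.mpr ⟨_, hC.ab _ hg _ hk, rfl⟩
      · intro a ha
        obtain ⟨g, hg, rfl⟩ := mem_im.mp ha
        rw [← map_pow]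
        exact mem_im.mpr ⟨_, hC.ex _ hg, rfl⟩
      · intro M hM1 hM2 hM3
        obtain ⟨M', hM'⟩ : ∃ M' : Subgroup H, M' =
            N ⊓ (M.comap (rho H x e)).map (stabilizer H x).subtype := ⟨_, rfl⟩
        have hMm : ∀ g : stabilizer H x, g.1 ∈ M' ↔ g.1 ∈ N ∧ rho H x e g ∈ M := by
          intro g
          rw [hM', Subgroup.mem_inf]
          refine and_congr_right (fun _ => ?_)
          constructor
          · rintro ⟨g', hg', hgg⟩
            have h2 : g' = g := Subtype.ext hgg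
            rw [← h2]
            exact hg'
          · intro h2
            exact ⟨g, h2, rfl⟩
        have hM'N : M' ≤ N := by
          rw [hM']
          exact inf_le_left
        rcases hC.mn M' (by
          intro r hr
          exact (hMm ⟨r, hNs (hC.RN hr)⟩).mpr ⟨hC.RN hr, hM1 (mem_im.mpr ⟨_, hr, rfl⟩)⟩)
          hM'N (by
          intro g hg m hm
          have hms := hNs (hM'N hm)
          have h1 := (hMm ⟨m, hms⟩).mp hm
          refine (hMm (⟨g, hg⟩ * ⟨m, hms⟩ * ⟨g, hg⟩⁻¹)).mpr ⟨hC.nN g hg m h1.1, ?_⟩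
          rw [map_mul, map_mul, map_inv]
          exact hM3 _ (rho_mem hL _) _ h1.2) with h1 | h1
        · left
          refine le_antisymm ?_ hM1
          intro σ hσ
          obtain ⟨g, hg, rfl⟩ := mem_im.mp (hM2 hσ)
          have h2 : g.1 ∈ M' := (hMm g).mpr ⟨hg, hσ⟩
          rw [h1] at h2
          exact mem_im.mpr ⟨g, h2, rfl⟩
        · right
          refine le_antisymm hM2 ?_
          intro σ hσ
          obtain ⟨g, hg, rfl⟩ := mem_im.mp hσ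
          rw [← h1] at hg
          exact ((hMm g).mp hg).2
      · rw [← map_pow]
        have h2 : (⟨t, hts⟩ : stabilizer H x) ^ p = 1 := Subtype.ext hC.tp
        rw [h2, map_one]
      · intro C hCm
        rw [← im_rel e hNs]
        have h1 := hC.ix (N ⊓ (C.comap (rho H x e)).map (stabilizer H x).subtype) (by
          intro n
          rw [Subgroup.mem_inf]
          refine and_congr_right (fun hn => ?_)
          constructor
          · rintro ⟨g, hg, hgn⟩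
            have h2 : g.1 = n := hgn
            have h3 := ((hCm (rho H x e g)).mp hg).2
            rw [← h2]
            exact hcomm g (by rw [h2]; exact hn) h3
          · intro h2
            refine ⟨⟨n, hNs hn⟩, ?_, rfl⟩
            show rho H x e ⟨n, hNs hn⟩ ∈ C
            rw [hCm]
            refine ⟨mem_im.mpr ⟨_, hn, rfl⟩, ?_⟩
            rw [← map_inv, ← map_inv, ← map_mul, ← map_mul, ← map_mul]
            exact mem_im.mpr ⟨_, h2, rfl⟩)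
        rwa [inf_comm, Subgroup.inf_relIndex_right] at h1
      · intro f hf
        obtain ⟨g, rfl⟩ := rho_surj hL hf
        rw [← map_inv, ← map_mul, ← map_mul, ← map_inv, ← map_inv, ← map_mul, ← map_mul,
          ← map_mul]
        exact mem_im.mpr ⟨_, hC.cm g.1 g.2, rfl⟩
    · push Not at hbg
      have hne : ∃ n ∈ im H x e N, n ∉ im H x e R := by
        by_contra hcon
        push Not at hcon
        apply nt
        intro n hn
        refine hcon _ ?_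
        exact Subgroup.mul_mem _ (nN _ (rho_mem hL _) n hn) (Subgroup.inv_mem _ hn)
      exact small_quot hp23 hF2 RN nN nR (im_le hL N) tr sr hne hbg Q1 Q2 Q4
  refine ⟨hB, fun x' y' hxy'' => ?_⟩
  refine transfer_arc h (P := fun x y => (Qv Γ p x : Subgroup H).relIndex (Qe p x y) ≤ p) ?_
    hxy' hrl hxy''
  intro g a b hab
  rw [Qv_cj h, Qe_cj, relIndex_cj]
  exact hab

end trans

end Pool.Agent.Work.MP_6d7bb4.helper94
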