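import Pool.Agent.Work.MP_6d7bb4_helper94.FF

/-! # MP_6d7bb4: transvections in characteristic two and three (helper94) -/

set_option autoImplicit false
set_option linter.unusedSectionVars false

namespace Pool.Agent.Work.MP_6d7bb4.helper94.Tv

open Qd Ff

section ring
variable {Λ : Type*} [Ring Λ]

/-- nilpotent case -/
theorem pair0 {p : ℕ} (hp : p.Prime) (hp0 : (p : Λ) = 0) {a b : Λˣ} {u v : Λ}
    (ha : (a : Λ) = 1 + u) (hb : (b : Λ) = 1 + v) (hu : u * u = 0) (hv : v * v = 0)
    (h : u * v * u = 0) : ∃ j, (a * b⁻¹) ^ p ^ j = 1 := by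
  have hbi : ((b⁻¹ : Λˣ) : Λ) = 1 - v := inv_q hb hv
  have h1 : ((a * b⁻¹ : Λˣ) : Λ) - 1 = u - v - u * v := by
    rw [Units.val_mul, ha, hbi]
    noncomm_ring
  obtain ⟨n, hn⟩ : ∃ n, n = u - v - u * v := ⟨_, rfl⟩
  have h2 : n * n = v * u * v - u * v - v * u := by
    rw [hn]
    calc (u - v - u * v) * (u - v - u * v) =
        u * u - u * v - u * u * v - v * u + v * v + v * u * v - u * v * u + u * (v * v) +
          u * v * u * v := by noncomm_ring
      _ = v * u * v - u * v - v * u := by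
        rw [h, hu, hv]
        noncomm_ring
  have h3 : (n * n) * (n * n) = 0 := by
    rw [h2]
    calc (v * u * v - u * v - v * u) * (v * u * v - u * v - v * u) =
        v * u * (v * v) * u * v - v * (u * v * u) * v - v * u * (v * v) * u -
          u * (v * v) * u * v + u * v * u * v + u * (v * v) * u - v * (u * v * u) * v * 0 -
          v * (u * v * u) * v + v * (u * u) * v + v * (u * v * u) := by noncomm_ring
      _ = 0 := by
        rw [h, hv, hu]
        noncomm_ring
  refine unip hp hp0 (k := 4) ?_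
  rw [h1, ← hn]
  calc n ^ 4 = (n * n) * (n * n) := by noncomm_ring
    _ = 0 := h3

/-- the product of two transvections in characteristic three, trace one -/
theorem pair3 (h3 : (3 : Λ) = 0) {a b : Λˣ} {u v : Λ}
    (ha : (a : Λ) = 1 + u) (hb : (b : Λ) = 1 + v) (hu : u * u = 0) (hv : v * v = 0)
    (h : u * v * u = u) (h' : v * u * v = v) (hu0 : u ≠ 0) {n : ℕ} (hn : Nat.Coprime n 3)
    (hy : (a * b⁻¹) ^ n = 1) : False := by
  have hbi : ((b⁻¹ : Λˣ) : Λ) = 1 - v := inv_q hb hv
  obtain ⟨y, hyd⟩ : ∃ y, y = a * b⁻¹ := ⟨_, rfl⟩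
  obtain ⟨m, hm⟩ : ∃ m, m = u - v + u * v - v * u := ⟨_, rfl⟩
  have e3 : ∀ x : Λ, x + x + x = 0 := by
    intro x
    have : x + x + x = 3 * x := by noncomm_ring
    rw [this, h3, zero_mul]
  have h1 : ((y * y : Λˣ) : Λ) = 1 + m := by
    rw [hyd, Units.val_mul, Units.val_mul, ha, hbi, hm]
    calc (1 + u) * (1 - v) * ((1 + u) * (1 - v)) =
        1 + (u + u) - (v + v) - (u * v + u * v + u * v) - v * u + u * u -
          u * u * v + v * v + u * (v * v) + v * u * v - u * v * u + u * v * u * v := by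
          noncomm_ring
      _ = 1 + (u - v + u * v - v * u) := by
        rw [e3, hu, hv, h, h']
        noncomm_ring
  have h2 : m * m = 0 := by
    rw [hm]
    calc (u - v + u * v - v * u) * (u - v + u * v - v * u) =
        u * u - u * v + u * u * v - u * v * u - v * u + v * v - v * u * v + v * v * u +
          u * v * u - u * (v * v) + u * v * u * v - u * (v * v) * u - v * (u * u) +
          v * u * v - v * (u * u) * v + v * u * v * u := by noncomm_ring
      _ = 0 := by
        rw [hu, hv, h, h']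
        noncomm_ring
  have h4 : (y * y) ^ 3 = 1 := by
    refine pow_p h1 h2 ?_
    rw [Nat.cast_ofNat]
    exact h3
  have h5 : (y * y) ^ n = 1 := by
    rw [← pow_two, ← pow_mul, mul_comm, pow_mul, hyd, hy, one_pow]
  have h6 : y * y = 1 := one_of_coprime h5 h4 hn
  rw [h6, Units.val_one] at h1
  have h7 : m = 0 := (left_eq_add.mp h1)
  have h8 : u * v = -u := by
    have h9 : u * m = -(u * v) - u := by
      rw [hm]
      calc u * (u - v + u * v - v * u) = u * u - u * v + u * u * v - u * v * u := by noncomm_ring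
        _ = -(u * v) - u := by
          rw [hu, h]
          noncomm_ring
    rw [h7, mul_zero] at h9
    have h10 : u * v = u * v + (-(u * v) - u) := by
      rw [← h9, add_zero]
    rw [h10]
    abel
  apply hu0
  rw [← h, h8, neg_mul, hu, neg_zero]

end ring

section vec
variable {U : Type*} [AddCommGroup U] {p : ℕ} [Fact p.Prime] [Module (ZMod p) U]

/-- `t` is the transvection with centre `e` and functional `f` -/
structure TV (t : (AddMonoid.End U)ˣ) (e : U) (f : U →+ ZMod p) : Prop where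
  ap : ∀ v, (t : AddMonoid.End U) v = v + f v • e
  fe : f e = 0
  e0 : e ≠ 0
  f0 : ∃ v, f v ≠ 0

theorem smul_map (a : AddMonoid.End U) (c : ZMod p) (v : U) : a (c • v) = c • a v :=
  ZMod.map_smul a c v

theorem f_smul (f : U →+ ZMod p) (c : ZMod p) (v : U) : f (c • v) = c * f v := by
  rw [ZMod.map_smul f c v, smul_eq_mul]

theorem smul_inj {e : U} (he : e ≠ 0) {c c' : ZMod p} (h : c • e = c' • e) : c = c' := by
  have h1 : (c - c') • e = 0 := by rw [sub_smul, h, sub_self]
  rcases smul_eq_zero.mp h1 with h2 | h2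
  · exact sub_eq_zero.mp h2
  · exact absurd h2 he

theorem TV.inv {t : (AddMonoid.End U)ˣ} {e : U} {f : U →+ ZMod p} (h : TV t e f) :
    TV t⁻¹ e (-f) where
  ap := by
    intro v
    have h1 : (t : AddMonoid.End U) (v + (-f) v • e) = v := by
      rw [h.ap, AddMonoidHom.neg_apply, map_add, neg_smul, map_neg, f_smul, h.fe, mul_zero,
        neg_zero, add_zero, neg_add_cancel_right]
    have h2 : ((t⁻¹ : (AddMonoid.End U)ˣ) : AddMonoid.End U)
        ((t : AddMonoid.End U) (v + (-f) v • e)) = v + (-f) v • e := by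
      have h3 : (((t⁻¹ : (AddMonoid.End U)ˣ) : AddMonoid.End U) * (t : AddMonoid.End U))
        (v + (-f) v • e) = v + (-f) v • e := by
        rw [Units.inv_mul]
        rfl
      exact h3
    rw [h1] at h2
    exact h2
  fe := by rw [AddMonoidHom.neg_apply, h.fe, neg_zero]
  e0 := h.e0
  f0 := by
    obtain ⟨v, hv⟩ := h.f0
    exact ⟨v, by rwa [AddMonoidHom.neg_apply, neg_ne_zero]⟩

theorem inv_ap (x : (AddMonoid.End U)ˣ) (v : U) :
    ((x⁻¹ : (AddMonoid.End U)ˣ) : AddMonoid.End U) ((x : AddMonoid.End U) v) = v := by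
  have h3 : (((x⁻¹ : (AddMonoid.End U)ˣ) : AddMonoid.End U) * (x : AddMonoid.End U)) v = v := by
    rw [Units.inv_mul]
    rfl
  exact h3

theorem ap_inv (x : (AddMonoid.End U)ˣ) (v : U) :
    (x : AddMonoid.End U) (((x⁻¹ : (AddMonoid.End U)ˣ) : AddMonoid.End U) v) = v := by
  have h3 : ((x : AddMonoid.End U) * ((x⁻¹ : (AddMonoid.End U)ˣ) : AddMonoid.End U)) v = v := by
    rw [Units.mul_inv]
    rfl
  exact h3

theorem mul_ap (x y : (AddMonoid.End U)ˣ) (v : U) :
    ((x * y : (AddMonoid.End U)ˣ) : AddMonoid.End U) v =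
      (x : AddMonoid.End U) ((y : AddMonoid.End U) v) := rfl

theorem TV.conj {t : (AddMonoid.End U)ˣ} {e : U} {f : U →+ ZMod p} (h : TV t e f)
    (x : (AddMonoid.End U)ˣ) : TV (x * t * x⁻¹) ((x : AddMonoid.End U) e)
      (f.comp ((x⁻¹ : (AddMonoid.End U)ˣ) : AddMonoid.End U)) where
  ap := by
    intro v
    rw [mul_ap, mul_ap, h.ap, map_add, ap_inv, smul_map]
    rfl
  fe := by
    show f (((x⁻¹ : (AddMonoid.End U)ˣ) : AddMonoid.End U) ((x : AddMonoid.End U) e)) = 0
    rw [inv_ap, h.fe]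
  e0 := by
    intro h1
    apply h.e0
    rw [← inv_ap x e, h1, map_zero]
  f0 := by
    obtain ⟨v, hv⟩ := h.f0
    refine ⟨(x : AddMonoid.End U) v, ?_⟩
    show f (((x⁻¹ : (AddMonoid.End U)ˣ) : AddMonoid.End U) ((x : AddMonoid.End U) v)) ≠ 0
    rw [inv_ap]
    exact hv

/-- uniqueness of the data -/
theorem TV.uniq {t : (AddMonoid.End U)ˣ} {e e' : U} {f f' : U →+ ZMod p} (h : TV t e f)
    (h' : TV t e' f') : ∃ c : ZMod p, c ≠ 0 ∧ e' = c • e ∧ ∀ v, f v = c * f' v := by
  obtain ⟨w, hw⟩ := h'.f0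
  have h1 : ∀ v, f v • e = f' v • e' := fun v => by
    have h2 := h.ap v
    rw [h'.ap v] at h2
    exact (add_left_cancel h2).symm
  have h2 : e' = ((f' w)⁻¹ * f w) • e := by
    rw [mul_smul, h1, ← mul_smul, inv_mul_cancel₀ hw, one_smul]
  have hc : (f' w)⁻¹ * f w ≠ 0 := by
    intro h3
    apply h'.e0
    rw [h2, h3, zero_smul]
  refine ⟨_, hc, h2, fun v => ?_⟩
  have h3 := h1 v
  rw [h2, ← mul_smul] at h3
  have h4 := smul_inj h.e0 h3
  rw [h4, mul_comm]

theorem TV.ext {t s : (AddMonoid.End U)ˣ} {e e' : U} {f f' : U →+ ZMod p} (h : TV t e f)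
    (h' : TV s e' f') (h1 : ∀ v, f v • e = f' v • e') : t = s := by
  apply Units.ext
  refine AddMonoidHom.ext (fun v => ?_)
  show (t : AddMonoid.End U) v = (s : AddMonoid.End U) v
  rw [h.ap, h'.ap, h1]

/-- transvections from the rank -/
theorem tv_of_rank [Finite U] {t : (AddMonoid.End U)ˣ} (ht : t ≠ 1)
    (hq : ((t : AddMonoid.End U) - 1) * ((t : AddMonoid.End U) - 1) = 0)
    (hr : Nat.card U ≤ p * Nat.card ((t : AddMonoid.End U) - 1 : AddMonoid.End U).ker) :
    ∃ (e : U) (f : U →+ ZMod p), TV t e f := by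
  obtain ⟨u, hu⟩ : ∃ u : AddMonoid.End U, u = (t : AddMonoid.End U) - 1 := ⟨_, rfl⟩
  rw [← hu] at hq hr
  have hap : ∀ v, (t : AddMonoid.End U) v = v + u v := by
    intro v
    rw [hu]
    show (t : AddMonoid.End U) v = v + ((t : AddMonoid.End U) v - v)
    abel
  have hu0 : u ≠ 0 := by
    intro h
    apply ht
    apply Units.ext
    refine AddMonoidHom.ext (fun v => ?_)
    show (t : AddMonoid.End U) v = v
    rw [hap, h]
    show v + 0 = v
    rw [add_zero]
  obtain ⟨w0, hw0⟩ : ∃ w, u w ≠ 0 := by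
    by_contra hcon
    push Not at hcon
    exact hu0 (AddMonoidHom.ext hcon)
  obtain ⟨e, he⟩ : ∃ e, e = u w0 := ⟨_, rfl⟩
  have he0 : e ≠ 0 := by
    rw [he]
    exact hw0
  have h1 : Nat.card u.range ≤ p := by
    have h2 : Nat.card U = Nat.card u.range * Nat.card u.ker := by
      rw [AddSubgroup.card_eq_card_quotient_mul_card_addSubgroup u.ker]
      congr 1
      exact Nat.card_congr (QuotientAddGroup.quotientKerEquivRange u).toEquiv
    have h3 : 0 < Nat.card u.ker := Nat.card_pos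
    rw [h2] at hr
    exact Nat.le_of_mul_le_mul_right hr h3
  obtain ⟨g, hg⟩ : ∃ g : ZMod p → u.range, ∀ c, (g c).1 = c • e :=
    ⟨fun c => ⟨c • e, ⟨c • w0, (smul_map u c w0).trans (by rw [he])⟩⟩, fun _ => rfl⟩
  have hginj : Function.Injective g := by
    intro c c' h
    have h2 := congrArg Subtype.val h
    rw [hg, hg] at h2
    exact smul_inj he0 h2
  have hgs : Function.Surjective g := by
    have h2 : Nat.card (ZMod p) = Nat.card u.range := by
      refine le_antisymm (Nat.card_le_card_of_injective g hginj) ?_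
      rw [Nat.card_zmod]
      exact h1
    exact (Nat.bijective_iff_injective_and_card g).mpr ⟨hginj, h2⟩ |>.2
  have hex : ∀ v, ∃ c : ZMod p, u v = c • e := by
    intro v
    obtain ⟨c, hc⟩ := hgs ⟨u v, ⟨v, rfl⟩⟩
    refine ⟨c, ?_⟩
    rw [← hg, hc]
  choose f hf using hex
  refine ⟨e, { toFun := f
               map_zero' := ?_
               map_add' := ?_ }, ?_, ?_, he0, ⟨w0, ?_⟩⟩
  · refine smul_inj he0 ?_
    rw [← hf, map_zero, zero_smul]
  · intro v w
    refine smul_inj he0 ?_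
    rw [← hf, map_add, hf v, hf w, add_smul]
  · intro v
    rw [hap, hf v]
    rfl
  · show f e = 0
    refine smul_inj he0 ?_
    rw [← hf, zero_smul, he]
    have : (u * u) w0 = 0 := by
      rw [hq]
      rfl
    exact this
  · show f w0 ≠ 0
    intro h
    apply he0
    rw [he, hf w0, h, zero_smul]

theorem z2 : ∀ c : ZMod 2, c ≠ 0 → c = -1 := by decide

theorem z3 : ∀ c : ZMod 3, c ≠ 0 → c = 1 ∨ c = -1 := by decide

/-- two transvections whose quotient has order prime to `p` -/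
theorem pair (hp : p = 2 ∨ p = 3) {s t : (AddMonoid.End U)ˣ} {e e' : U} {f f' : U →+ ZMod p}
    (h : TV t e f) (h' : TV s e' f') (hne : t ≠ s) {n : ℕ} (hn : Nat.Coprime n p)
    (hy : (t * s⁻¹) ^ n = 1) : f e' * f' e = -1 := by
  have hp' : p.Prime := Fact.out
  have hp0 : ((p : ℕ) : AddMonoid.End U) = 0 := by
    ext w
    rw [AddMonoid.End.natCast_apply, ← Nat.cast_smul_eq_nsmul (ZMod p), ZMod.natCast_self,
      zero_smul]
    rfl
  obtain ⟨u, hu⟩ : ∃ u : AddMonoid.End U, u = (t : AddMonoid.End U) - 1 := ⟨_, rfl⟩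
  obtain ⟨v, hv⟩ : ∃ u : AddMonoid.End U, u = (s : AddMonoid.End U) - 1 := ⟨_, rfl⟩
  have hta : (t : AddMonoid.End U) = 1 + u := by
    rw [hu]
    abel
  have hsa : (s : AddMonoid.End U) = 1 + v := by
    rw [hv]
    abel
  have hu1 : ∀ w, u w = f w • e := by
    intro w
    rw [hu]
    show (t : AddMonoid.End U) w - w = _
    rw [h.ap]
    abel
  have hv1 : ∀ w, v w = f' w • e' := by
    intro w
    rw [hv]
    show (s : AddMonoid.End U) w - w = _
    rw [h'.ap]
    abel
  have huu : u * u = 0 := by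
    refine AddMonoidHom.ext (fun w => ?_)
    show u (u w) = 0
    rw [hu1 w, smul_map, hu1, h.fe, zero_smul, smul_zero]
  have hvv : v * v = 0 := by
    refine AddMonoidHom.ext (fun w => ?_)
    show v (v w) = 0
    rw [hv1 w, smul_map, hv1, h'.fe, zero_smul, smul_zero]
  have h1 : ∀ w, (u * v * u) w = (f e' * f' e) • u w := by
    intro w
    show u (v (u w)) = _
    rw [hu1 w, smul_map, hv1, smul_map, smul_map, hu1, ← mul_smul, ← mul_smul, ← mul_smul]
    congr 1
    ring
  have h1' : ∀ w, (v * u * v) w = (f e' * f' e) • v w := by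
    intro w
    show v (u (v w)) = _
    rw [hv1 w, smul_map, hu1, smul_map, smul_map, hv1, ← mul_smul, ← mul_smul, ← mul_smul]
    congr 1
    ring
  have hz : f e' * f' e ≠ 0 := by
    intro h2
    have h3 : u * v * u = 0 := by
      refine AddMonoidHom.ext (fun w => ?_)
      show (u * v * u) w = 0
      rw [h1, h2, zero_smul]
    obtain ⟨j, hj⟩ := pair0 (Λ := AddMonoid.End U) hp' hp0 hta hsa huu hvv h3
    have h4 := one_of_coprime hy hj (Nat.Coprime.pow_right j hn)
    exact hne (mul_inv_eq_one.mp h4)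
  rcases hp with rfl | rfl
  · exact z2 _ hz
  · rcases z3 _ hz with h2 | h2
    · exfalso
      have h3 : u * v * u = u := by
        refine AddMonoidHom.ext (fun w => ?_)
        show (u * v * u) w = u w
        rw [h1, h2, one_smul]
      have h3' : v * u * v = v := by
        refine AddMonoidHom.ext (fun w => ?_)
        show (v * u * v) w = v w
        rw [h1', h2, one_smul]
      have hu0 : u ≠ 0 := by
        intro h4
        obtain ⟨w, hw⟩ := h.f0
        have h5 := hu1 w
        rw [h4] at h5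
        have h6 : f w • e = 0 := h5.symm
        rcases smul_eq_zero.mp h6 with h7 | h7
        · exact hw h7
        · exact h.e0 h7
      have h30 : (3 : AddMonoid.End U) = 0 := by
        have := hp0
        rwa [Nat.cast_ofNat] at this
      exact pair3 (Λ := AddMonoid.End U) h30 hta hsa huu hvv h3 h3' hu0 hn hy
    · exact h2

theorem scal2 : ∀ a12 a21 a13 a31 a23 a32 : ZMod 2, a12 * a21 = -1 → a13 * a31 = -1 →
    a23 * a32 = -1 → (a31 + a21 * a32) * (a13 - a23 * a12) = -1 →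
    (a31 - a21 * a32) * (a13 + a23 * a12) = -1 → False := by decide

theorem scal3 : ∀ a12 a21 a13 a31 a23 a32 : ZMod 3, a12 * a21 = -1 → a13 * a31 = -1 →
    a23 * a32 = -1 → (a31 + a21 * a32) * (a13 - a23 * a12) = -1 →
    (a31 - a21 * a32) * (a13 + a23 * a12) = -1 → False := by decide

/-- three transvections -/
theorem triple (hp : p = 2 ∨ p = 3) {t1 t2 t3 : (AddMonoid.End U)ˣ} {e1 e2 e3 : U}
    {f1 f2 f3 : U →+ ZMod p} (h1 : TV t1 e1 f1) (h2 : TV t2 e2 f2) (h3 : TV t3 e3 f3)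
    (h12 : f1 e2 * f2 e1 = -1) (h13 : f1 e3 * f3 e1 = -1) (h23 : f2 e3 * f3 e2 = -1)
    {n : ℕ} (hn : Nat.Coprime n p)
    (hy : (t3 * (t2 * t1 * t2⁻¹)⁻¹) ^ n = 1) (hy' : (t3 * (t2⁻¹ * t1 * t2)⁻¹) ^ n = 1) :
    t3 = t2 * t1 * t2⁻¹ ∨ t3 = t2⁻¹ * t1 * t2 := by
  by_contra hcon
  push Not at hcon
  have k1 := h1.conj t2
  have k2 := h1.conj t2⁻¹
  rw [inv_inv] at k2
  have m1 := pair hp h3 k1 hcon.1 hn hy
  have m2 := pair hp h3 k2 hcon.2 hn hy'
  have e1' : (t2 : AddMonoid.End U) e1 = e1 + f2 e1 • e2 := h2.ap e1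
  have e2' : ((t2⁻¹ : (AddMonoid.End U)ˣ) : AddMonoid.End U) e1 = e1 + (-f2) e1 • e2 :=
    h2.inv.ap e1
  have e3' : (t2 : AddMonoid.End U) e3 = e3 + f2 e3 • e2 := h2.ap e3
  have e4' : ((t2⁻¹ : (AddMonoid.End U)ˣ) : AddMonoid.End U) e3 = e3 + (-f2) e3 • e2 :=
    h2.inv.ap e3
  have n1 : (f3 e1 + f2 e1 * f3 e2) * (f1 e3 - f2 e3 * f1 e2) = -1 := by
    have h4 : f3 ((t2 : AddMonoid.End U) e1) = f3 e1 + f2 e1 * f3 e2 := by
      rw [e1', map_add, f_smul]
    have h5 : (f1.comp ((t2⁻¹ : (AddMonoid.End U)ˣ) : AddMonoid.End U)) e3 =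
        f1 e3 - f2 e3 * f1 e2 := by
      show f1 (((t2⁻¹ : (AddMonoid.End U)ˣ) : AddMonoid.End U) e3) = _
      rw [e4', map_add, f_smul, AddMonoidHom.neg_apply, neg_mul, sub_eq_add_neg]
    rw [h4, h5] at m1
    exact m1
  have n2 : (f3 e1 - f2 e1 * f3 e2) * (f1 e3 + f2 e3 * f1 e2) = -1 := by
    have h4 : f3 (((t2⁻¹ : (AddMonoid.End U)ˣ) : AddMonoid.End U) e1) =
        f3 e1 - f2 e1 * f3 e2 := by
      rw [e2', map_add, f_smul, AddMonoidHom.neg_apply, neg_mul, sub_eq_add_neg]
    have h5 : (f1.comp (t2 : AddMonoid.End U)) e3 = f1 e3 + f2 e3 * f1 e2 := by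
      show f1 ((t2 : AddMonoid.End U) e3) = _
      rw [e3', map_add, f_smul]
    rw [h4, h5] at m2
    exact m2
  rcases hp with rfl | rfl
  · exact scal2 _ _ _ _ _ _ h12 h13 h23 n1 n2
  · exact scal3 _ _ _ _ _ _ h12 h13 h23 n1 n2

end vec

end Pool.Agent.Work.MP_6d7bb4.helper94.Tv
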