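import Pool.Agent.Work.MP_6d7bb4_helper94.Tv

/-! # MP_6d7bb4: transvections normalising a group of order prime to the characteristic
(helper94) -/

set_option autoImplicit false
set_option linter.unusedSectionVars false

namespace Pool.Agent.Work.MP_6d7bb4.helper94.Tv

open Qd Ff

section orb
variable {U : Type*} [AddCommGroup U] {p : ℕ} [Fact p.Prime] [Module (ZMod p) U]

/-- `t` normalises `E` -/
structure NE (t : (AddMonoid.End U)ˣ) (E : Subgroup (AddMonoid.End U)ˣ) : Prop where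
  a : ∀ x ∈ E, t * x * t⁻¹ ∈ E
  b : ∀ x ∈ E, t⁻¹ * x * t ∈ E

theorem NE.c {t : (AddMonoid.End U)ˣ} {E : Subgroup (AddMonoid.End U)ˣ} (h : NE t E)
    {x : (AddMonoid.End U)ˣ} (hx : x ∈ E) : x * t * x⁻¹ * t⁻¹ ∈ E := by
  have e : x * t * x⁻¹ * t⁻¹ = x * (t * x⁻¹ * t⁻¹) := by group
  rw [e]
  exact E.mul_mem hx (h.a _ (E.inv_mem hx))

/-- orders prime to `p` -/
def Co (p : ℕ) (E : Subgroup (AddMonoid.End U)ˣ) : Prop :=
  ∀ e ∈ E, ∃ n, Nat.Coprime n p ∧ e ^ n = 1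

theorem orb (hp : p = 2 ∨ p = 3) {E : Subgroup (AddMonoid.End U)ˣ} (hE : Co p E)
    {t : (AddMonoid.End U)ˣ} {e : U} {f : U →+ ZMod p} (h : TV t e f) (hn : NE t E)
    {x y t2 : (AddMonoid.End U)ˣ} (hx : x ∈ E) (ht2 : t2 = x * t * x⁻¹) (hxt : t ≠ t2)
    (hy : y ∈ E) :
    y * t * y⁻¹ = t ∨ y * t * y⁻¹ = t2 ∨ y * t * y⁻¹ = t2 * t * t2⁻¹ ∨
      y * t * y⁻¹ = t2⁻¹ * t * t2 := by
  by_cases h1 : y * t * y⁻¹ = t
  · exact Or.inl h1
  right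
  by_cases h2 : y * t * y⁻¹ = t2
  · exact Or.inl h2
  right
  have h2E : t2 * t⁻¹ ∈ E := by
    rw [ht2]
    exact hn.c hx
  have h3E : y * t * y⁻¹ * t⁻¹ ∈ E := hn.c hy
  have key : ∀ a b : (AddMonoid.End U)ˣ, a * t⁻¹ ∈ E → b * t⁻¹ ∈ E →
      ∃ n, Nat.Coprime n p ∧ (a * b⁻¹) ^ n = 1 := by
    intro a b ha hb
    refine hE _ ?_
    have e1 : a * b⁻¹ = (a * t⁻¹) * (b * t⁻¹)⁻¹ := by group
    rw [e1]
    exact E.mul_mem ha (E.inv_mem hb)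
  have h1E : t * t⁻¹ ∈ E := by
    rw [mul_inv_cancel]
    exact E.one_mem
  have H2 : TV t2 ((x : AddMonoid.End U) e)
      (f.comp ((x⁻¹ : (AddMonoid.End U)ˣ) : AddMonoid.End U)) := by
    rw [ht2]
    exact h.conj x
  obtain ⟨n12, hn12, hy12⟩ := key t t2 h1E h2E
  obtain ⟨n13, hn13, hy13⟩ := key t (y * t * y⁻¹) h1E h3E
  obtain ⟨n23, hn23, hy23⟩ := key t2 (y * t * y⁻¹) h2E h3E
  have h12 := pair hp h H2 hxt hn12 hy12
  have h13 := pair hp h (h.conj y) (Ne.symm h1) hn13 hy13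
  have h23 := pair hp H2 (h.conj y) (Ne.symm h2) hn23 hy23
  have h4E : t2 * t * t2⁻¹ * t⁻¹ ∈ E := by
    have e1 : t2 * t * t2⁻¹ * t⁻¹ = (t2 * t⁻¹) * (t * (t2 * t⁻¹)⁻¹ * t⁻¹) := by group
    rw [e1]
    exact E.mul_mem h2E (hn.a _ (E.inv_mem h2E))
  have h5E : t2⁻¹ * t * t2 * t⁻¹ ∈ E := by
    have e1 : t2⁻¹ * t * t2 * t⁻¹ = (t⁻¹ * (t2 * t⁻¹)⁻¹ * t) * (t2 * t⁻¹) := by group
    rw [e1]
    exact E.mul_mem (hn.b _ (E.inv_mem h2E)) h2E
  obtain ⟨n4, hn4, hy4⟩ := key (y * t * y⁻¹) (t2 * t * t2⁻¹) h3E h4E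
  obtain ⟨n5, hn5, hy5⟩ := key (y * t * y⁻¹) (t2⁻¹ * t * t2) h3E h5E
  refine triple hp h H2 (h.conj y) h12 h13 h23 (n := n4 * n5) (Nat.Coprime.mul_left hn4 hn5)
    ?_ ?_
  · rw [pow_mul, hy4, one_pow]
  · rw [mul_comm, pow_mul, hy5, one_pow]

theorem neg2 : ∀ c : ZMod 2, -c = c := by decide

/-- at most `p + 1` conjugates -/
theorem cnt (hp : p = 2 ∨ p = 3) {E : Subgroup (AddMonoid.End U)ˣ} (hE : Co p E)
    {t : (AddMonoid.End U)ˣ} {e : U} {f : U →+ ZMod p} (h : TV t e f) (hn : NE t E) :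
    ∃ s : Fin (p + 1) → (AddMonoid.End U)ˣ, ∀ y ∈ E, ∃ i, y * t * y⁻¹ = s i := by
  by_cases hc : ∀ x ∈ E, x * t * x⁻¹ = t
  · exact ⟨fun _ => t, fun y hy => ⟨0, hc y hy⟩⟩
  push Not at hc
  obtain ⟨x, hx, hxt⟩ := hc
  obtain ⟨t2, ht2⟩ : ∃ t2, t2 = x * t * x⁻¹ := ⟨_, rfl⟩
  rw [← ht2] at hxt
  rcases hp with rfl | rfl
  · refine ⟨![t, t2, t2 * t * t2⁻¹], fun y hy => ?_⟩
    have H2 : TV t2 ((x : AddMonoid.End U) e)
        (f.comp ((x⁻¹ : (AddMonoid.End U)ˣ) : AddMonoid.End U)) := by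
      rw [ht2]
      exact h.conj x
    have h1 : t2⁻¹ = t2 := by
      refine H2.inv.ext H2 (fun v => ?_)
      rw [AddMonoidHom.neg_apply, neg2]
    rcases orb (Or.inl rfl) hE h hn hx ht2 (Ne.symm hxt) hy with h3 | h3 | h3 | h3
    · exact ⟨0, h3⟩
    · exact ⟨1, h3⟩
    · exact ⟨2, h3⟩
    · refine ⟨2, ?_⟩
      show y * t * y⁻¹ = t2 * t * t2⁻¹
      rw [h3, h1]
  · refine ⟨![t, t2, t2 * t * t2⁻¹, t2⁻¹ * t * t2], fun y hy => ?_⟩
    rcases orb (Or.inr rfl) hE h hn hx ht2 (Ne.symm hxt) hy with h3 | h3 | h3 | h3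
    · exact ⟨0, h3⟩
    · exact ⟨1, h3⟩
    · exact ⟨2, h3⟩
    · exact ⟨3, h3⟩

theorem dv2 : ∀ k : Fin 4, k.1 ≠ 0 → ∀ g : Fin 4, g.1 ∣ k.1 → Nat.Coprime g.1 2 →
    g.1 ∣ 9 := by decide

theorem dv3 : ∀ k : Fin 5, k.1 ≠ 0 → ∀ g : Fin 5, g.1 ∣ k.1 → Nat.Coprime g.1 3 →
    g.1 ∣ 4 := by decide

/-- powers centralise `t` -/
theorem pw (hp : p = 2 ∨ p = 3) {E : Subgroup (AddMonoid.End U)ˣ} (hE : Co p E)
    {t : (AddMonoid.End U)ˣ} {e : U} {f : U →+ ZMod p} (h : TV t e f) (hn : NE t E)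
    {y : (AddMonoid.End U)ˣ} (hy : y ∈ E) : y ^ (5 - p) ^ 2 * t = t * y ^ (5 - p) ^ 2 := by
  obtain ⟨s, hs⟩ := cnt hp hE h hn
  have h1 : ∀ i : Fin (p + 2), ∃ j, y ^ i.1 * t * (y ^ i.1)⁻¹ = s j := fun i =>
    hs _ (E.pow_mem hy _)
  choose c hc using h1
  obtain ⟨i, j, hij, hcij⟩ := Fintype.exists_ne_map_eq_of_card_lt c (by
    rw [Fintype.card_fin, Fintype.card_fin]
    omega)
  have key : ∀ i j : Fin (p + 2), i < j → c i = c j →
      y ^ (5 - p) ^ 2 * t = t * y ^ (5 - p) ^ 2 := by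
    intro i j hij hcij
    obtain ⟨k, hk⟩ : ∃ k, j.1 = i.1 + k := ⟨j.1 - i.1, by
      have : i.1 < j.1 := hij
      omega⟩
    have hk0 : k ≠ 0 := by
      have : i.1 < j.1 := hij
      omega
    have hkp : k < p + 2 := by
      have := j.2
      omega
    have h2 : y ^ i.1 * t * (y ^ i.1)⁻¹ = y ^ j.1 * t * (y ^ j.1)⁻¹ := by
      rw [hc, hc, hcij]
    have h3 : Commute (y ^ k) t := by
      rw [hk, pow_add] at h2
      have h4 : y ^ k * t * (y ^ k)⁻¹ = t := by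
        calc y ^ k * t * (y ^ k)⁻¹ =
            (y ^ i.1)⁻¹ * (y ^ i.1 * y ^ k * t * (y ^ i.1 * y ^ k)⁻¹) * y ^ i.1 := by group
          _ = (y ^ i.1)⁻¹ * (y ^ i.1 * t * (y ^ i.1)⁻¹) * y ^ i.1 := by rw [← h2]
          _ = t := by group
      exact mul_inv_eq_iff_eq_mul.mp h4
    obtain ⟨n, hn1, hn2⟩ := hE y hy
    have h4 : Commute (y ^ Nat.gcd k n) t := by
      have h5 : y ^ Nat.gcd k n = (y ^ k) ^ Nat.gcdA k n := by
        rw [← zpow_natCast, Nat.gcd_eq_gcd_ab, zpow_add, zpow_mul, zpow_mul, zpow_natCast,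
          zpow_natCast, hn2, one_zpow, mul_one]
      rw [h5]
      exact h3.zpow_left _
    have h5 : Nat.Coprime (Nat.gcd k n) p := Nat.Coprime.coprime_dvd_left (Nat.gcd_dvd_right k n)
      hn1
    have h6 : Nat.gcd k n ∣ k := Nat.gcd_dvd_left k n
    have h7 : Nat.gcd k n ≤ k := Nat.le_of_dvd (Nat.pos_of_ne_zero hk0) h6
    have h8 : Nat.gcd k n ∣ (5 - p) ^ 2 := by
      rcases hp with rfl | rfl
      · exact dv2 ⟨k, hkp⟩ hk0 ⟨Nat.gcd k n, by omega⟩ h6 h5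
      · exact dv3 ⟨k, hkp⟩ hk0 ⟨Nat.gcd k n, by omega⟩ h6 h5
    obtain ⟨m, hm⟩ := h8
    rw [hm, pow_mul]
    exact (h4.pow_left m).eq
  rcases lt_or_gt_of_ne hij with h2 | h2
  · exact key i j h2 hcij
  · exact key j i h2 hcij.symm

end orb

section fin8

/-- the four candidates -/
def Cs (p : ℕ) (α β γ δ κ l s : ZMod p) : Prop :=
    ((γ * α = s ∧ γ * β = 0 ∧ δ * α = 0 ∧ δ * β = 0) ∨
      (γ * α = 0 ∧ γ * β = 0 ∧ δ * α = 0 ∧ δ * β = s) ∨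
      (γ * α = s ∧ γ * β = s * l ∧ δ * α = -(s * κ) ∧ δ * β = s) ∨
      (γ * α = s ∧ γ * β = -(s * l) ∧ δ * α = s * κ ∧ δ * β = s))

instance dC (p : ℕ) (α β γ δ κ l s : ZMod p) : Decidable (Cs p α β γ δ κ l s) := by
  unfold Cs
  infer_instance

theorem cd2 : ∀ α β γ δ κ l : ZMod 2, κ * l = -1 → γ * β * κ + δ * α * l = 0 →
    ¬ (α = 0 ∧ β = 0) → ¬ (γ = 0 ∧ δ = 0) → (Cs 2 α β γ δ κ l 1 ∨ Cs 2 α β γ δ κ l (-1)) := by
  decide

theorem cd3 : ∀ α β γ δ κ l : ZMod 3, κ * l = -1 → γ * β * κ + δ * α * l = 0 →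
    ¬ (α = 0 ∧ β = 0) → ¬ (γ = 0 ∧ δ = 0) → (Cs 3 α β γ δ κ l 1 ∨ Cs 3 α β γ δ κ l (-1)) := by
  decide

theorem cds {p : ℕ} (hp : p = 2 ∨ p = 3) (α β γ δ κ l : ZMod p) (h1 : κ * l = -1)
    (h2 : γ * β * κ + δ * α * l = 0) (h3 : ¬ (α = 0 ∧ β = 0)) (h4 : ¬ (γ = 0 ∧ δ = 0)) :
    Cs p α β γ δ κ l 1 ∨ Cs p α β γ δ κ l (-1) := by
  rcases hp with rfl | rfl
  · exact cd2 _ _ _ _ _ _ h1 h2 h3 h4
  · exact cd3 _ _ _ _ _ _ h1 h2 h3 h4

theorem dt2 : ∀ a b k m : ZMod 2, k * m = -1 → a ≠ 0 →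
    -a * (-(a * m) + 2 * b) - b * (-a - b * k) ≠ 0 := by decide

theorem dt3 : ∀ a b k m : ZMod 3, k * m = -1 → a ≠ 0 →
    -a * (-(a * m) + 2 * b) - b * (-a - b * k) ≠ 0 := by decide

theorem dts {p : ℕ} (hp : p = 2 ∨ p = 3) (a b k m : ZMod p) (h1 : k * m = -1) (ha : a ≠ 0) :
    -a * (-(a * m) + 2 * b) - b * (-a - b * k) ≠ 0 := by
  rcases hp with rfl | rfl
  · exact dt2 _ _ _ _ h1 ha
  · exact dt3 _ _ _ _ h1 ha

end fin8

section two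
variable {U : Type*} [AddCommGroup U] {p : ℕ} [Fact p.Prime] [Module (ZMod p) U]

/-- the plane spanned by two centres -/
def Pl (e1 e2 w : U) (p : ℕ) [Module (ZMod p) U] : Prop := ∃ a b : ZMod p, w = a • e1 + b • e2

theorem Pl.add {e1 e2 w w' : U} (h : Pl e1 e2 w p) (h' : Pl e1 e2 w' p) :
    Pl e1 e2 (w + w') p := by
  obtain ⟨a, b, rfl⟩ := h
  obtain ⟨a', b', rfl⟩ := h'
  exact ⟨a + a', b + b', by module⟩

theorem Pl.smul {e1 e2 w : U} (h : Pl e1 e2 w p) (c : ZMod p) :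
    Pl e1 e2 (c • w) p := by
  obtain ⟨a, b, rfl⟩ := h
  exact ⟨c * a, c * b, by module⟩

theorem Pl.sub {e1 e2 w w' : U} (h : Pl e1 e2 w p) (h' : Pl e1 e2 w' p) :
    Pl e1 e2 (w - w') p := by
  obtain ⟨a, b, rfl⟩ := h
  obtain ⟨a', b', rfl⟩ := h'
  exact ⟨a - a', b - b', by module⟩

/-- the elements of `E` preserve the plane and the dual plane -/
theorem plane (hp : p = 2 ∨ p = 3) {E : Subgroup (AddMonoid.End U)ˣ} (hE : Co p E)
    {t : (AddMonoid.End U)ˣ} {e : U} {f : U →+ ZMod p} (h : TV t e f) (hn : NE t E)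
    {x y : (AddMonoid.End U)ˣ} (hx : x ∈ E) (hxt : t ≠ x * t * x⁻¹) (hy : y ∈ E) :
    Pl e ((x : AddMonoid.End U) e) ((y : AddMonoid.End U) e) p ∧
    ∃ a b : ZMod p, ∀ v, f (((y⁻¹ : (AddMonoid.End U)ˣ) : AddMonoid.End U) v) =
      a * f v + b * f (((x⁻¹ : (AddMonoid.End U)ˣ) : AddMonoid.End U) v) := by
  obtain ⟨e2, he2⟩ : ∃ e2, e2 = (x : AddMonoid.End U) e := ⟨_, rfl⟩
  obtain ⟨f2, hf2⟩ : ∃ f2 : U →+ ZMod p,
      f2 = f.comp ((x⁻¹ : (AddMonoid.End U)ˣ) : AddMonoid.End U) := ⟨_, rfl⟩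
  have hf2' : ∀ v, f (((x⁻¹ : (AddMonoid.End U)ˣ) : AddMonoid.End U) v) = f2 v := by
    intro v
    rw [hf2]
    rfl
  have H2 := h.conj x
  have H3 := h.conj y
  rw [← he2, ← hf2] at H2
  rw [← he2]
  have fin : ∀ {t' : (AddMonoid.End U)ˣ} {e' : U} {f' : U →+ ZMod p}, TV t' e' f' →
      y * t * y⁻¹ = t' → Pl e e2 e' p → (∃ a b : ZMod p, ∀ v, f' v = a * f v + b * f2 v) →
      Pl e e2 ((y : AddMonoid.End U) e) p ∧
    ∃ a b : ZMod p, ∀ v, f (((y⁻¹ : (AddMonoid.End U)ˣ) : AddMonoid.End U) v) =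
      a * f v + b * f2 v := by
    intro t' e' f' h' heq hpl ⟨a, b, hab⟩
    rw [heq] at H3
    obtain ⟨c, hc, h1, h2⟩ := h'.uniq H3
    refine ⟨?_, c⁻¹ * a, c⁻¹ * b, ?_⟩
    · rw [h1]
      exact hpl.smul c
    · intro v
      have h3 := h2 v
      rw [hab] at h3
      have h4 : (f.comp ((y⁻¹ : (AddMonoid.End U)ˣ) : AddMonoid.End U)) v =
          f (((y⁻¹ : (AddMonoid.End U)ˣ) : AddMonoid.End U) v) := rfl
      rw [h4] at h3
      have h5 : f (((y⁻¹ : (AddMonoid.End U)ˣ) : AddMonoid.End U) v) =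
          c⁻¹ * (c * f (((y⁻¹ : (AddMonoid.End U)ˣ) : AddMonoid.End U) v)) := by
        rw [← mul_assoc, inv_mul_cancel₀ hc, one_mul]
      rw [h5, ← h3]
      ring
  have hfx : ∀ v, f (((x⁻¹ : (AddMonoid.End U)ˣ) : AddMonoid.End U) v) = f2 v := hf2'
  simp only [hfx]
  rcases orb hp hE h hn hx rfl hxt hy with h1 | h1 | h1 | h1
  · exact fin h h1 ⟨1, 0, by module⟩ ⟨1, 0, fun v => by ring⟩
  · exact fin H2 h1 ⟨0, 1, by module⟩ ⟨0, 1, fun v => by ring⟩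
  · refine fin (h.conj (x * t * x⁻¹)) h1 ⟨1, f2 e, ?_⟩ ⟨1, -f e2, fun v => ?_⟩
    · rw [H2.ap]
      module
    · show f ((((x * t * x⁻¹)⁻¹ : (AddMonoid.End U)ˣ) : AddMonoid.End U) v) = _
      rw [H2.inv.ap, map_add, f_smul, AddMonoidHom.neg_apply]
      ring
  · have h2 := h.conj (x * t * x⁻¹)⁻¹
    rw [inv_inv] at h2
    refine fin h2 h1 ⟨1, -f2 e, ?_⟩ ⟨1, f e2, fun v => ?_⟩
    · rw [H2.inv.ap, AddMonoidHom.neg_apply]
      module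
    · show f ((((x * t * x⁻¹) : (AddMonoid.End U)ˣ) : AddMonoid.End U) v) = _
      rw [H2.ap, map_add, f_smul]
      ring

/-- two transvections which normalise `E` -/
theorem tri0 (hp : p = 2 ∨ p = 3) {E : Subgroup (AddMonoid.End U)ˣ} (hE : Co p E)
    {t s : (AddMonoid.End U)ˣ} {e g1 : U} {f φ1 : U →+ ZMod p} (h : TV t e f)
    (h' : TV s g1 φ1) (hn : NE t E) (hn' : NE s E) {x y : (AddMonoid.End U)ˣ} (hx : x ∈ E)
    (hxt : t ≠ x * t * x⁻¹) (hy : y ∈ E) (hys : s ≠ y * s * y⁻¹) (hne : φ1 e ≠ 0) :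
    s * t⁻¹ ∈ E ∨ s * t ∈ E := by
  have hp' : p.Prime := Fact.out
  obtain ⟨e2, he2⟩ : ∃ e2, e2 = (x : AddMonoid.End U) e := ⟨_, rfl⟩
  obtain ⟨f2, hf2⟩ : ∃ f2 : U →+ ZMod p,
      f2 = f.comp ((x⁻¹ : (AddMonoid.End U)ˣ) : AddMonoid.End U) := ⟨_, rfl⟩
  have hf2' : ∀ v, f (((x⁻¹ : (AddMonoid.End U)ˣ) : AddMonoid.End U) v) = f2 v := by
    intro v
    rw [hf2]
    rfl
  obtain ⟨t2, ht2⟩ : ∃ t2, t2 = x * t * x⁻¹ := ⟨_, rfl⟩
  have H2 := h.conj x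
  rw [← he2, ← hf2, ← ht2] at H2
  obtain ⟨g2, hg2⟩ : ∃ g2, g2 = (y : AddMonoid.End U) g1 := ⟨_, rfl⟩
  obtain ⟨φ2, hφ2⟩ : ∃ φ2 : U →+ ZMod p,
      φ2 = φ1.comp ((y⁻¹ : (AddMonoid.End U)ˣ) : AddMonoid.End U) := ⟨_, rfl⟩
  obtain ⟨s2, hs2⟩ : ∃ s2, s2 = y * s * y⁻¹ := ⟨_, rfl⟩
  have K2 := h'.conj y
  rw [← hg2, ← hφ2, ← hs2] at K2
  have key : ∀ {t t2 x : (AddMonoid.End U)ˣ}, x ∈ E → NE t E → t2 = x * t * x⁻¹ →
      ∃ n, Nat.Coprime n p ∧ (t * t2⁻¹) ^ n = 1 := by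
    intro t t2 x hx hn ht2
    refine hE _ ?_
    have e1 : t * t2⁻¹ = (t * x * t⁻¹) * x⁻¹ := by
      rw [ht2]
      group
    rw [e1]
    exact E.mul_mem (hn.a _ hx) (E.inv_mem hx)
  obtain ⟨n1, hn1, hn1'⟩ := key hx hn ht2
  obtain ⟨n2, hn2, hn2'⟩ := key hy hn' hs2
  have hκl : f e2 * f2 e = -1 := pair hp h H2 (by rw [ht2]; exact hxt) hn1 hn1'
  have hkm : φ1 g2 * φ2 g1 = -1 := pair hp h' K2 (by rw [hs2]; exact hys) hn2 hn2'
  have h10 : (1 : ZMod p) ≠ 0 := one_ne_zero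
  have hκ : f e2 ≠ 0 := by
    intro h0
    rw [h0, zero_mul] at hκl
    exact neg_ne_zero.mpr h10 hκl.symm
  have hl : f2 e ≠ 0 := by
    intro h0
    rw [h0, mul_zero] at hκl
    exact neg_ne_zero.mpr h10 hκl.symm
  have hk : φ1 g2 ≠ 0 := by
    intro h0
    rw [h0, zero_mul] at hkm
    exact neg_ne_zero.mpr h10 hkm.symm
  obtain ⟨z, hz⟩ : ∃ z, z = s2 * s⁻¹ := ⟨_, rfl⟩
  have hzE : z ∈ E := by
    rw [hz, hs2]
    exact hn'.c hy
  have hzv : ∀ v, (z : AddMonoid.End U) v =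
      v - φ1 v • g1 + (φ2 v - φ1 v * φ2 g1) • g2 := by
    intro v
    rw [hz, mul_ap, h'.inv.ap, K2.ap, map_add, f_smul, AddMonoidHom.neg_apply]
    module
  -- the plane is preserved
  have hpe : ∀ w ∈ E, Pl e e2 ((w : AddMonoid.End U) e) p := by
    intro w hw
    rw [he2]
    exact (plane hp hE h hn hx hxt hw).1
  have hpp : ∀ w ∈ E, ∀ v, Pl e e2 v p → Pl e e2 ((w : AddMonoid.End U) v) p := by
    rintro w hw v ⟨a, b, rfl⟩
    rw [map_add, smul_map, smul_map]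
    refine Pl.add ((hpe w hw).smul a) (Pl.smul ?_ b)
    have h1 := hpe (w * x) (E.mul_mem hw hx)
    rw [mul_ap, ← he2] at h1
    exact h1
  have hfp : ∀ w ∈ E, ∀ v, f v = 0 → f2 v = 0 → f ((w : AddMonoid.End U) v) = 0 ∧
      f2 ((w : AddMonoid.End U) v) = 0 := by
    intro w hw v h1 h2
    constructor
    · obtain ⟨a, b, hab⟩ := (plane hp hE h hn hx hxt (E.inv_mem hw)).2
      have h3 := hab v
      rw [inv_inv, hf2', h1, h2, mul_zero, mul_zero, add_zero] at h3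
      exact h3
    · obtain ⟨a, b, hab⟩ := (plane hp hE h hn hx hxt (E.mul_mem (E.inv_mem hw) hx)).2
      have h3 := hab v
      rw [hf2', h1, h2, mul_zero, mul_zero, add_zero, mul_inv_rev, inv_inv, mul_ap, hf2'] at h3
      exact h3
  -- the centres
  obtain ⟨A, hA⟩ : ∃ A, A = φ1 e := ⟨_, rfl⟩
  obtain ⟨m, hm⟩ : ∃ m, m = φ2 g1 := ⟨_, rfl⟩
  obtain ⟨k, hk'⟩ : ∃ k, k = φ1 g2 := ⟨_, rfl⟩
  obtain ⟨b, hb⟩ : ∃ b, b = φ2 e - A * m := ⟨_, rfl⟩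
  rw [← hk', ← hm] at hkm
  rw [← hk'] at hk
  rw [← hA] at hne
  have hu0 : (z : AddMonoid.End U) e - e = (-A) • g1 + b • g2 := by
    rw [hzv, ← hA, ← hm, ← hb]
    module
  have hu0P : Pl e e2 ((-A) • g1 + b • g2) p := by
    rw [← hu0]
    exact (hpe z hzE).sub ⟨1, 0, by module⟩
  have hzg1 : (z : AddMonoid.End U) g1 = g1 + m • g2 := by
    rw [hzv, h'.fe, ← hm]
    module
  have hzg2 : (z : AddMonoid.End U) g2 = (-k) • g1 + (2 : ZMod p) • g2 := by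
    have h2 : φ2 g2 - φ1 g2 * φ2 g1 = 1 := by
      rw [K2.fe, ← hk', ← hm, hkm]
      ring
    rw [hzv, h2, ← hk']
    module
  have hu1 : (z : AddMonoid.End U) ((-A) • g1 + b • g2) =
      (-A - b * k) • g1 + (-(A * m) + 2 * b) • g2 := by
    rw [map_add, smul_map, smul_map, hzg1, hzg2]
    module
  have hu1P : Pl e e2 ((-A - b * k) • g1 + (-(A * m) + 2 * b) • g2) p := by
    rw [← hu1]
    exact hpp z hzE _ hu0P
  obtain ⟨D, hD⟩ : ∃ D, D = -A * (-(A * m) + 2 * b) - b * (-A - b * k) := ⟨_, rfl⟩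
  have hD0 : D ≠ 0 := by
    rw [hD]
    exact dts hp A b k m hkm hne
  have hg1P : Pl e e2 g1 p := by
    have h1 := ((hu0P.smul (-(A * m) + 2 * b)).sub (hu1P.smul b)).smul D⁻¹
    have h2 : D⁻¹ • ((-(A * m) + 2 * b) • ((-A) • g1 + b • g2) -
        b • ((-A - b * k) • g1 + (-(A * m) + 2 * b) • g2)) = g1 := by
      have h3 : (-(A * m) + 2 * b) • ((-A) • g1 + b • g2) -
        b • ((-A - b * k) • g1 + (-(A * m) + 2 * b) • g2) = D • g1 := by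
        rw [hD]
        module
      rw [h3, smul_smul, inv_mul_cancel₀ hD0, one_smul]
    rw [h2] at h1
    exact h1
  have hg2P : Pl e e2 g2 p := by
    have h1 := ((hu0P.smul (-A - b * k)).sub (hu1P.smul (-A))).smul (-D)⁻¹
    have h2 : (-D)⁻¹ • ((-A - b * k) • ((-A) • g1 + b • g2) -
        (-A) • ((-A - b * k) • g1 + (-(A * m) + 2 * b) • g2)) = g2 := by
      have h3 : (-A - b * k) • ((-A) • g1 + b • g2) -
        (-A) • ((-A - b * k) • g1 + (-(A * m) + 2 * b) • g2) = (-D) • g2 := by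
        rw [hD]
        module
      rw [h3, smul_smul, inv_mul_cancel₀ (neg_ne_zero.mpr hD0), one_smul]
    rw [h2] at h1
    exact h1
  have hf2e2 : f2 e2 = 0 := H2.fe
  -- the functional vanishes on the complement
  have hvan : ∀ v, f v = 0 → f2 v = 0 → φ1 v = 0 := by
    intro v h1 h2
    obtain ⟨w, hw⟩ : ∃ w, w = (z : AddMonoid.End U) v - v := ⟨_, rfl⟩
    have hw1 : w = (-(φ1 v)) • g1 + (φ2 v - φ1 v * m) • g2 := by
      rw [hw, hzv, ← hm]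
      module
    have hwP : Pl e e2 w p := by
      rw [hw1]
      exact (hg1P.smul _).add (hg2P.smul _)
    obtain ⟨h3, h4⟩ := hfp z hzE v h1 h2
    have h5 : f w = 0 := by
      rw [hw, map_sub, h3, h1, sub_zero]
    have h6 : f2 w = 0 := by
      rw [hw, map_sub, h4, h2, sub_zero]
    have hw0 : w = 0 := by
      obtain ⟨a, c, hac⟩ := hwP
      rw [hac, map_add, f_smul, f_smul, h.fe, mul_zero, zero_add] at h5
      rw [hac, map_add, f_smul, f_smul, hf2e2, mul_zero, add_zero] at h6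
      have ha : a = 0 := (mul_eq_zero.mp h6).resolve_right hl
      have hc : c = 0 := (mul_eq_zero.mp h5).resolve_right hκ
      rw [hac, ha, hc]
      module
    have h7 : (φ2 v - φ1 v * m) * k = 0 := by
      have h8 : φ1 w = 0 := by
        rw [hw0, map_zero]
      rw [hw1, map_add, f_smul, f_smul, h'.fe, mul_zero, zero_add, ← hk'] at h8
      exact h8
    have h8 := (mul_eq_zero.mp h7).resolve_right hk
    rw [hw0, h8, zero_smul, add_zero] at hw1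
    rcases smul_eq_zero.mp hw1.symm with h9 | h9
    · exact neg_eq_zero.mp h9
    · exact absurd h9 h'.e0
  obtain ⟨γ, hγ⟩ : ∃ γ, γ = (f e2)⁻¹ * φ1 e2 := ⟨_, rfl⟩
  obtain ⟨δ, hδ⟩ : ∃ δ, δ = (f2 e)⁻¹ * φ1 e := ⟨_, rfl⟩
  have hφ : ∀ v, φ1 v = γ * f v + δ * f2 v := by
    intro v
    have h1 := hvan (v - ((f e2)⁻¹ * f v) • e2 - ((f2 e)⁻¹ * f2 v) • e) (by
      rw [map_sub, map_sub, f_smul, f_smul, h.fe]
      field_simp
      ring) (by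
      rw [map_sub, map_sub, f_smul, f_smul, hf2e2]
      field_simp
      ring)
    rw [map_sub, map_sub, f_smul, f_smul] at h1
    rw [hγ, hδ]
    have h2 : φ1 v = (φ1 v - (f e2)⁻¹ * f v * φ1 e2 - (f2 e)⁻¹ * f2 v * φ1 e) +
      (f e2)⁻¹ * f v * φ1 e2 + (f2 e)⁻¹ * f2 v * φ1 e := by ring
    rw [h2, h1]
    ring
  obtain ⟨α, β, hαβ⟩ := hg1P
  obtain ⟨κ, hκ'⟩ : ∃ κ, κ = f e2 := ⟨_, rfl⟩
  obtain ⟨l, hl'⟩ : ∃ l, l = f2 e := ⟨_, rfl⟩
  rw [← hκ', ← hl'] at hκl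
  have hrel : γ * β * κ + δ * α * l = 0 := by
    have h1 := h'.fe
    rw [hφ, hαβ, map_add, map_add, f_smul, f_smul, f_smul, f_smul, h.fe, hf2e2, ← hκ', ← hl'] at h1
    rw [← h1]
    ring
  have hne1 : ¬ (α = 0 ∧ β = 0) := by
    rintro ⟨rfl, rfl⟩
    apply h'.e0
    rw [hαβ]
    module
  have hne2 : ¬ (γ = 0 ∧ δ = 0) := by
    rintro ⟨h1, h2⟩
    obtain ⟨v, hv⟩ := h'.f0
    apply hv
    rw [hφ, h1, h2]
    ring
  have hval : ∀ v, φ1 v • g1 = (γ * α * f v + δ * α * f2 v) • e +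
      (γ * β * f v + δ * β * f2 v) • e2 := by
    intro v
    rw [hφ, hαβ]
    module
  -- comparison with the candidates
  have hcand : ∀ {c : (AddMonoid.End U)ˣ} {ec : U} {fc : U →+ ZMod p}, TV c ec fc → c * t⁻¹ ∈ E →
      (∀ v, φ1 v • g1 = fc v • ec) ∨ (∀ v, φ1 v • g1 = -(fc v • ec)) →
      s * t⁻¹ ∈ E ∨ s * t ∈ E := by
    intro c ec fc hc hcE hor
    rcases hor with h1 | h1
    · left
      rw [h'.ext hc h1]
      exact hcE
    · right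
      rw [h'.ext hc.inv (fun v => by
        rw [h1, AddMonoidHom.neg_apply, neg_smul])]
      have e1 : c⁻¹ * t = (t⁻¹ * (c * t⁻¹) * t)⁻¹ := by group
      rw [e1]
      exact E.inv_mem (hn.b _ hcE)
  have hx0 : x * t * x⁻¹ * t⁻¹ ∈ E := hn.c hx
  have ht2E : t2 * t⁻¹ ∈ E := by
    rw [ht2]
    exact hx0
  have c1 : t * t⁻¹ ∈ E := by
    rw [mul_inv_cancel]
    exact E.one_mem
  have c3 : t2 * t * t2⁻¹ * t⁻¹ ∈ E := by
    have e1 : t2 * t * t2⁻¹ * t⁻¹ = (t2 * t⁻¹) * (t * (t2 * t⁻¹)⁻¹ * t⁻¹) := by group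
    rw [e1]
    exact E.mul_mem ht2E (hn.a _ (E.inv_mem ht2E))
  have c4 : t2⁻¹ * t * t2 * t⁻¹ ∈ E := by
    have e1 : t2⁻¹ * t * t2 * t⁻¹ = (t⁻¹ * (t2 * t⁻¹)⁻¹ * t) * (t2 * t⁻¹) := by group
    rw [e1]
    exact E.mul_mem (hn.b _ (E.inv_mem ht2E)) ht2E
  have T3 := h.conj t2
  have T4 := h.conj t2⁻¹
  rw [inv_inv] at T4
  have hfin : ∀ sg : ZMod p, (sg = 1 ∨ sg = -1) → Cs p α β γ δ κ l sg →
      s * t⁻¹ ∈ E ∨ s * t ∈ E := by
    intro sg hsg hcs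
    have hor : ∀ {ec : U} {fc : U →+ ZMod p}, (∀ v, φ1 v • g1 = sg • (fc v • ec)) →
        (∀ v, φ1 v • g1 = fc v • ec) ∨ (∀ v, φ1 v • g1 = -(fc v • ec)) := by
      intro ec fc h1
      rcases hsg with h2 | h2
      · left
        intro v
        rw [h1, h2, one_smul]
      · right
        intro v
        rw [h1, h2, neg_smul, one_smul]
    rcases hcs with ⟨q1, q2, q3, q4⟩ | ⟨q1, q2, q3, q4⟩ | ⟨q1, q2, q3, q4⟩ | ⟨q1, q2, q3, q4⟩
    · refine hcand h c1 (hor (fun v => ?_))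
      rw [hval, q1, q2, q3, q4]
      module
    · refine hcand H2 ht2E (hor (fun v => ?_))
      rw [hval, q1, q2, q3, q4]
      module
    · refine hcand T3 c3 (hor (fun v => ?_))
      have e1 : (t2 : AddMonoid.End U) e = e + l • e2 := by
        rw [H2.ap, hl']
      have e3 : (f.comp ((t2⁻¹ : (AddMonoid.End U)ˣ) : AddMonoid.End U)) v =
          f v - f2 v * κ := by
        show f (((t2⁻¹ : (AddMonoid.End U)ˣ) : AddMonoid.End U) v) = _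
        rw [H2.inv.ap, map_add, f_smul, AddMonoidHom.neg_apply, hκ']
        ring
      rw [hval, q1, q2, q3, q4, e1, e3]
      have e4 : sg * f2 v = -(κ * l) * (sg * f2 v) := by
        rw [hκl]
        ring
      rw [e4]
      module
    · refine hcand T4 c4 (hor (fun v => ?_))
      have e1 : ((t2⁻¹ : (AddMonoid.End U)ˣ) : AddMonoid.End U) e = e - l • e2 := by
        rw [H2.inv.ap, AddMonoidHom.neg_apply, hl']
        module
      have e3 : (f.comp (t2 : AddMonoid.End U)) v = f v + f2 v * κ := by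
        show f ((t2 : AddMonoid.End U) v) = _
        rw [H2.ap, map_add, f_smul, hκ']
      rw [hval, q1, q2, q3, q4, e1, e3]
      have e4 : sg * f2 v = -(κ * l) * (sg * f2 v) := by
        rw [hκl]
        ring
      rw [e4]
      module
  rcases cds hp α β γ δ κ l hκl hrel hne1 hne2 with h1 | h1
  · exact hfin 1 (Or.inl rfl) h1
  · exact hfin (-1) (Or.inr rfl) h1

/-- two transvections which normalise and do not centralise `E` commute modulo `E` -/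
theorem tri (hp : p = 2 ∨ p = 3) {E : Subgroup (AddMonoid.End U)ˣ} (hE : Co p E)
    {t s : (AddMonoid.End U)ˣ} {e g1 : U} {f φ1 : U →+ ZMod p} (h : TV t e f)
    (h' : TV s g1 φ1) (hn : NE t E) (hn' : NE s E) (ht : ¬ ∀ x ∈ E, t * x = x * t)
    (hs : ¬ ∀ x ∈ E, s * x = x * s) : s * t * s⁻¹ * t⁻¹ ∈ E := by
  have hex : ∀ {t : (AddMonoid.End U)ˣ}, (¬ ∀ x ∈ E, t * x = x * t) →
      ∃ x ∈ E, t ≠ x * t * x⁻¹ := by
    intro t ht
    push Not at ht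
    obtain ⟨x, hx, hne⟩ := ht
    refine ⟨x, hx, fun hcon => hne ?_⟩
    rw [eq_mul_inv_iff_mul_eq] at hcon
    exact hcon
  obtain ⟨x, hx, hxt⟩ := hex ht
  obtain ⟨y, hy, hys⟩ := hex hs
  have hfin : s * t⁻¹ ∈ E ∨ s * t ∈ E → s * t * s⁻¹ * t⁻¹ ∈ E := by
    rintro (h1 | h1)
    · have e1 : s * t * s⁻¹ * t⁻¹ = (s * t⁻¹) * (t * (s * t⁻¹)⁻¹ * t⁻¹) := by group
      rw [e1]
      exact E.mul_mem h1 (hn.a _ (E.inv_mem h1))
    · have e1 : s * t * s⁻¹ * t⁻¹ = (s * t) * (t * (s * t)⁻¹ * t⁻¹) := by group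
      rw [e1]
      exact E.mul_mem h1 (hn.a _ (E.inv_mem h1))
  by_cases h1 : φ1 e = 0
  · by_cases h2 : f g1 = 0
    · have h3 : s * t = t * s := by
        apply Units.ext
        refine AddMonoidHom.ext (fun v => ?_)
        show (s : AddMonoid.End U) ((t : AddMonoid.End U) v) =
          (t : AddMonoid.End U) ((s : AddMonoid.End U) v)
        rw [h.ap, h.ap, h'.ap, h'.ap, map_add, map_add, f_smul, f_smul, h1, h2, mul_zero,
          mul_zero, add_zero, add_zero]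
        abel
      rw [h3, mul_inv_cancel_right, mul_inv_cancel]
      exact E.one_mem
    · apply hfin
      rcases tri0 hp hE h' h hn' hn hy hys hx hxt h2 with h3 | h3
      · left
        have e1 : s * t⁻¹ = (t * s⁻¹)⁻¹ := by group
        rw [e1]
        exact E.inv_mem h3
      · right
        have e1 : s * t = t⁻¹ * (t * s) * t := by group
        rw [e1]
        exact hn.b _ h3
  · exact hfin (tri0 hp hE h h' hn hn' hx hxt hy hys h1)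

end two

end Pool.Agent.Work.MP_6d7bb4.helper94.Tv
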