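import Pool.Agent.Work.MP_6d7bb4_helper94.Mod3

/-! # MP_6d7bb4: quadratic offenders contain transvections (helper94) -/

set_option autoImplicit false
set_option linter.unusedSectionVars false

namespace Pool.Agent.Work.MP_6d7bb4.helper94.Tv

open Qd Ff

theorem pp_card {U : Type*} [AddCommGroup U] [Finite U] {p : ℕ} (hp : p.Prime)
    (h : ∀ u : U, p • u = 0) : ∃ k, Nat.card U = p ^ k := by
  have : Fact p.Prime := ⟨hp⟩
  have h1 : IsPGroup p (Multiplicative U) := by
    intro g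
    refine ⟨1, ?_⟩
    rw [pow_one]
    exact h g.toAdd
  obtain ⟨k, hk⟩ := IsPGroup.iff_card.mp h1
  exact ⟨k, hk⟩

section ff
variable {U : Type*} [AddCommGroup U]

/-- quadratic offenders in characteristic two and three contain transvections -/
theorem exists_tv [Finite U] {p : ℕ} (hp23 : p = 2 ∨ p = 3) (hU : ∀ u : U, p • u = 0)
    {Y Z : Subgroup (AddMonoid.End U)ˣ} (hfin : Finite Y) (hYZ : Y ≤ Z) (hYn : Nm Z Y)
    (hps : PSol p Y)
    (hN : ∀ N : Subgroup (AddMonoid.End U)ˣ, N ≤ Y → Nm Z N → IsPGroup p N → N = ⊥)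
    {A : Subgroup (AddMonoid.End U)ˣ} (hA : A ≤ Y) (hA1 : A ≠ ⊥)
    (hq : ∀ a ∈ A, ∀ b ∈ A, ∀ u : U, (a : AddMonoid.End U) ((b : AddMonoid.End U) u - u) =
      (b : AddMonoid.End U) u - u)
    (hoff : Nat.card U ≤ Nat.card A * Nat.card (FxU A)) :
    ∃ t ∈ A, t ≠ 1 ∧
      ((t : AddMonoid.End U) - 1) * ((t : AddMonoid.End U) - 1) = 0 ∧
      Nat.card U ≤ p * Nat.card ((t : AddMonoid.End U) - 1 : AddMonoid.End U).ker := by
  have hp : p.Prime := by
    rcases hp23 with rfl | rfl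
    · exact Nat.prime_two
    · exact Nat.prime_three
  have : Fact p.Prime := ⟨hp⟩
  have h20 : (p : AddMonoid.End U) = 0 := by
    ext w
    rw [AddMonoid.End.natCast_apply, hU]
    rfl
  have hfle : ∀ {K : Subgroup (AddMonoid.End U)ˣ}, K ≤ Y → Finite K := fun hK =>
    Finite.of_injective _ (Subgroup.inclusion_injective hK)
  have hfb : {B : Subgroup (AddMonoid.End U)ˣ | B ≤ A ∧ B ≠ ⊥ ∧
      Nat.card U ≤ Nat.card B * Nat.card (FxU B)}.Finite :=
    (finite_Iic Y).subset (fun B h => h.1.trans hA)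
  obtain ⟨B, hB⟩ := hfb.exists_minimal ⟨A, le_refl A, hA1, hoff⟩
  obtain ⟨⟨hBA, hBne, hBoff⟩, hBmin⟩ := hB
  have hBY := hBA.trans hA
  have hqB : ∀ a ∈ B, ∀ b ∈ B, ∀ u : U, (a : AddMonoid.End U) ((b : AddMonoid.End U) u - u) =
      (b : AddMonoid.End U) u - u := fun a ha b hb => hq a (hBA ha) b (hBA hb)
  -- `B` is elementary abelian
  have hdec : ∀ a : (AddMonoid.End U)ˣ, (a : AddMonoid.End U) =
      1 + ((a : AddMonoid.End U) - 1) := fun a => by abel
  have huv : ∀ a ∈ B, ∀ b ∈ B,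
      ((a : AddMonoid.End U) - 1) * ((b : AddMonoid.End U) - 1) = 0 := by
    intro a ha b hb
    refine AddMonoidHom.ext (fun u => ?_)
    show (a : AddMonoid.End U) ((b : AddMonoid.End U) u - u) -
      ((b : AddMonoid.End U) u - u) = 0
    rw [hqB a ha b hb u, sub_self]
  have hab : ∀ a ∈ B, ∀ b ∈ B, a * b = b * a := by
    intro a ha b hb
    apply Units.ext
    rw [Units.val_mul, Units.val_mul]
    have e1 := huv a ha b hb
    have e2 := huv b hb a ha
    have e3 : (a : AddMonoid.End U) * b =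
      ((a : AddMonoid.End U) - 1) * ((b : AddMonoid.End U) - 1) + a + b - 1 := by noncomm_ring
    have e4 : (b : AddMonoid.End U) * a =
      ((b : AddMonoid.End U) - 1) * ((a : AddMonoid.End U) - 1) + b + a - 1 := by noncomm_ring
    rw [e3, e4, e1, e2]
    abel
  have hpw : ∀ a ∈ B, a ^ p = 1 := by
    intro a ha
    exact pow_p (Λ := AddMonoid.End U) (hdec a) (huv a ha a ha) h20
  have hBp : IsPGroup p B := by
    intro a
    refine ⟨1, Subtype.ext ?_⟩
    rw [pow_one]
    exact hpw a.1 a.2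
  -- an invariant `r`-group
  obtain ⟨r, hr, hrp, S, hSY, hSr, hSn, hSc⟩ : ∃ r : ℕ, r.Prime ∧ r ≠ p ∧
      ∃ S : Subgroup (AddMonoid.End U)ˣ, S ≤ Y ∧ IsPGroup r S ∧ Nm B S ∧
        ¬ ∀ a ∈ B, ∀ s ∈ S, a * s = s * a := by
    by_contra hcon
    push Not at hcon
    exact hBne (hhB hp hfin hYZ hYn hps hN hBY hBp
      (fun r hr hr2 S hS hSr hSn => hcon r hr hr2 S hS hSr hSn))
  have hfr : {R : Subgroup (AddMonoid.End U)ˣ | R ≤ S ∧ Nm B R ∧
      ¬ ∀ a ∈ B, ∀ s ∈ R, a * s = s * a}.Finite :=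
    (finite_Iic Y).subset (fun R h => h.1.trans hSY)
  obtain ⟨R, hR⟩ := hfr.exists_minimal ⟨S, le_refl S, hSn, hSc⟩
  obtain ⟨⟨hRS, hRn, hRc⟩, hRmin⟩ := hR
  have hRr : IsPGroup r R := hSr.to_le hRS
  have hRf : Finite R := hfle (hRS.trans hSY)
  have hmin : ∀ D, D ≤ R → D ≠ R → Nm B D → ∀ b ∈ B, ∀ s ∈ D, b * s = s * b := by
    intro D hD hne hDn
    by_contra hcon
    exact hne (le_antisymm hD (hRmin ⟨hD.trans hRS, hDn, hcon⟩ hD))
  obtain ⟨a0, ha0, hna0⟩ : ∃ a ∈ B, ¬ ∀ s ∈ R, a * s = s * a := by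
    by_contra hcon
    push Not at hcon
    exact hRc hcon
  obtain ⟨B0, hB0⟩ : ∃ B0 : Subgroup (AddMonoid.End U)ˣ, ∀ b, b ∈ B0 ↔ b ∈ B ∧
      ∀ s ∈ R, b * s = s * b :=
    ⟨B ⊓ Subgroup.centralizer (R : Set (AddMonoid.End U)ˣ), fun b => by
      rw [Subgroup.mem_inf, Subgroup.mem_centralizer_iff]
      exact and_congr_right (fun _ => forall₂_congr (fun s _ => eq_comm))⟩
  have hB0B : B0 ≤ B := fun b hb => ((hB0 b).mp hb).1
  have ha0B0 : a0 ∉ B0 := fun h => hna0 ((hB0 a0).mp h).2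
  have hor : ∀ b ∈ B, ∃ i : Fin p, a0 ^ i.1 * b ∈ B0 := by
    intro b hb
    by_cases h1 : ∀ s ∈ R, b * s = s * b
    · refine ⟨⟨0, hp.pos⟩, ?_⟩
      rw [pow_zero, one_mul]
      exact (hB0 b).mpr ⟨hb, h1⟩
    · rcases hp23 with rfl | rfl
      · refine ⟨1, ?_⟩
        show a0 ^ 1 * b ∈ B0
        rw [pow_one]
        refine (hB0 _).mpr ⟨B.mul_mem ha0 hb, ?_⟩
        exact mod2 hr hrp hRf hRr hab (fun a ha => by rw [← pow_two, hpw a ha]) hRn hmin ha0
          hna0 hb h1
      · have hcu : ∀ a ∈ B, a * a * a = 1 := by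
          intro a ha
          have h2 := hpw a ha
          rw [← h2]
          simp only [pow_succ, pow_zero, one_mul]
        have hr2 : r = 2 := by
          by_contra hr2
          apply hna0
          have hSf := hfle hSY
          intro s hs
          exact lemR (Λ := AddMonoid.End U) (hdec a0) (huv a0 ha0 a0 ha0) hp h20 (by norm_num)
            hr hrp (fun h => absurd h hr2) hSf hSr (fun s hs => hSn a0 ha0 s hs) s (hRS hs)
        rw [hr2] at hRr
        rcases mod3 hRf hRr hab hcu hRn hmin ha0 hna0 hb h1 with h2 | h2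
        · refine ⟨1, ?_⟩
          show a0 ^ 1 * b ∈ B0
          rw [pow_one]
          exact (hB0 _).mpr ⟨B.mul_mem ha0 hb, h2⟩
        · refine ⟨2, ?_⟩
          show a0 ^ 2 * b ∈ B0
          have h3 : a0 * b * b ∈ B0 :=
            (hB0 _).mpr ⟨B.mul_mem (B.mul_mem ha0 hb) hb, h2⟩
          have h4 : a0 ^ 2 * b = (a0 * b * b)⁻¹ := by
            rw [eq_inv_iff_mul_eq_one]
            have e1 := hab a0 ha0 b hb
            have e2 : Commute a0 b := e1
            calc a0 ^ 2 * b * (a0 * b * b) = a0 ^ 2 * (b * a0) * (b * b) := by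
                  simp only [mul_assoc]
              _ = a0 ^ 2 * (a0 * b) * (b * b) := by rw [← e1]
              _ = a0 ^ 3 * (b * b * b) := by
                simp only [pow_succ, pow_zero, one_mul, mul_assoc]
              _ = 1 := by rw [hpw a0 ha0, hcu b hb, one_mul]
          rw [h4]
          exact B0.inv_mem h3
  have hBf : Finite B := hfle hBY
  have hB0f : Finite B0 := hfle (hB0B.trans hBY)
  have hcard : Nat.card B ≤ p * Nat.card B0 := by
    have h1 : ∀ b : B, ∃ z : Fin p × B0, b.1 = (a0 ^ z.1.1)⁻¹ * z.2.1 := by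
      intro b
      obtain ⟨i, hi⟩ := hor b.1 b.2
      exact ⟨(i, ⟨_, hi⟩), by rw [inv_mul_cancel_left]⟩
    choose f hf using h1
    have h2 : Function.Injective f := by
      intro b b' h
      apply Subtype.ext
      rw [hf b, hf b', h]
    have h4 := Nat.card_le_card_of_injective f h2
    have h5 : Nat.card (Fin p) = p := by
      rw [Nat.card_eq_fintype_card, Fintype.card_fin]
    rwa [Nat.card_prod, h5] at h4
  have ha01 : a0 ≠ 1 := by
    rintro rfl
    apply hna0
    intro s _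
    rw [one_mul, mul_one]
  refine ⟨a0, hBA ha0, ha01, huv a0 ha0 a0 ha0, ?_⟩
  by_cases hB0ne : B0 = ⊥
  · rw [hB0ne, Subgroup.card_bot, mul_one] at hcard
    have hker : Nat.card (FxU B) ≤ Nat.card ((a0 : AddMonoid.End U) - 1 : AddMonoid.End U).ker := by
      refine Nat.card_le_card_of_injective (fun z : FxU B =>
        (⟨z.1, ?_⟩ : ((a0 : AddMonoid.End U) - 1 : AddMonoid.End U).ker)) ?_
      · show (a0 : AddMonoid.End U) z.1 - z.1 = 0
        rw [z.2 a0 ha0, sub_self]
      · intro z z' h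
        have h1 := congrArg (fun y : ((a0 : AddMonoid.End U) - 1 : AddMonoid.End U).ker =>
          y.1) h
        exact Subtype.ext h1
    exact hBoff.trans (Nat.mul_le_mul hcard hker)
  · -- reduction
    exfalso
    have hnoff : ¬ Nat.card U ≤ Nat.card B0 * Nat.card (FxU B0) := by
      intro h
      have h1 := hBmin ⟨hB0B.trans hBA, hB0ne, h⟩ hB0B
      exact ha0B0 (h1 ha0)
    obtain ⟨k1, hk1⟩ := pp_card hp hU
    obtain ⟨k2, hk2⟩ := IsPGroup.iff_card.mp (hBp.to_le hB0B)
    obtain ⟨k3, hk3⟩ := pp_card hp (U := FxU B0) (fun z => Subtype.ext (hU z.1))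
    have h2 : p * (Nat.card B0 * Nat.card (FxU B0)) ≤ Nat.card U := by
      rw [hk1, hk2, hk3, ← pow_add] at hnoff
      rw [hk1, hk2, hk3, ← pow_add]
      have h4 : k2 + k3 < k1 := by
        by_contra hcon
        exact hnoff (Nat.pow_le_pow_right hp.pos (by omega))
      calc p * p ^ (k2 + k3) = p ^ (k2 + k3 + 1) := by rw [pow_succ, mul_comm]
        _ ≤ p ^ k1 := Nat.pow_le_pow_right hp.pos h4
    have h4 : Nat.card (FxU B0) ≤ Nat.card (FxU B) := by
      have h5 : 0 < Nat.card B0 := Nat.card_pos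
      have h6 : (p * Nat.card B0) * Nat.card (FxU B0) ≤
          (p * Nat.card B0) * Nat.card (FxU B) := by
        calc (p * Nat.card B0) * Nat.card (FxU B0) =
            p * (Nat.card B0 * Nat.card (FxU B0)) := by ring
          _ ≤ Nat.card U := h2
          _ ≤ Nat.card B * Nat.card (FxU B) := hBoff
          _ ≤ _ := Nat.mul_le_mul_right _ hcard
      exact Nat.le_of_mul_le_mul_left h6 (Nat.mul_pos hp.pos h5)
    have h5 : FxU B = FxU B0 := by
      refine AddSubgroup.eq_of_le_of_card_ge (FxU_anti hB0B) h4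
    apply hna0
    intro x hx
    have hxB0 : ∀ b ∈ B0, b * x = x * b := fun b hb => ((hB0 b).mp hb).2 x hx
    obtain ⟨y, hy⟩ : ∃ y, y = a0 * x * a0⁻¹ * x⁻¹ := ⟨_, rfl⟩
    have hyR : y ∈ R := by
      rw [hy]
      exact R.mul_mem (hRn a0 ha0 x hx) (R.inv_mem hx)
    have hxf : ∀ z : (AddMonoid.End U)ˣ, (∀ b ∈ B0, b * z = z * b) → ∀ w ∈ FxU B0,
        (z : AddMonoid.End U) w ∈ FxU B0 := by
      intro z hz w hw b hb
      have h6 : (b : AddMonoid.End U) * z = z * b := by
        rw [← Units.val_mul, hz b hb, Units.val_mul]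
      calc (b : AddMonoid.End U) ((z : AddMonoid.End U) w) =
          ((b : AddMonoid.End U) * z) w := rfl
        _ = (z : AddMonoid.End U) ((b : AddMonoid.End U) w) := by rw [h6]; rfl
        _ = (z : AddMonoid.End U) w := by rw [hw b hb]
    have hxi : ∀ b ∈ B0, b * x⁻¹ = x⁻¹ * b := by
      intro b hb
      rw [mul_inv_eq_iff_eq_mul, mul_assoc, hxB0 b hb, inv_mul_cancel_left]
    have hyf : ∀ w ∈ FxU B0, (y : AddMonoid.End U) w = w := by
      intro w hw
      have h6 := hxf x⁻¹ hxi w hw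
      have h7 : ((a0⁻¹ : (AddMonoid.End U)ˣ) : AddMonoid.End U)
          (((x⁻¹ : (AddMonoid.End U)ˣ) : AddMonoid.End U) w) =
          ((x⁻¹ : (AddMonoid.End U)ˣ) : AddMonoid.End U) w := by
        rw [← h5] at h6
        exact h6 a0⁻¹ (B.inv_mem ha0)
      have h8 : (x : AddMonoid.End U) (((x⁻¹ : (AddMonoid.End U)ˣ) : AddMonoid.End U) w) = w := by
        have : ((x : AddMonoid.End U) * ((x⁻¹ : (AddMonoid.End U)ˣ) : AddMonoid.End U)) w = w := by
          rw [Units.mul_inv]
          rfl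
        exact this
      rw [hy, Units.val_mul, Units.val_mul, Units.val_mul]
      show (a0 : AddMonoid.End U) ((x : AddMonoid.End U)
        (((a0⁻¹ : (AddMonoid.End U)ˣ) : AddMonoid.End U)
          (((x⁻¹ : (AddMonoid.End U)ˣ) : AddMonoid.End U) w))) = w
      rw [h7, h8]
      rw [← h5] at hw
      exact hw a0 ha0
    have hyB0 : ∀ b ∈ B0, b * y = y * b := by
      intro b hb
      have e1 := hab b (hB0B hb) a0 ha0
      have e2 := hab b (hB0B hb) a0⁻¹ (B.inv_mem ha0)
      have e3 := hxB0 b hb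
      have e4 := hxi b hb
      calc b * y = (b * a0) * x * a0⁻¹ * x⁻¹ := by rw [hy]; group
        _ = a0 * (b * x) * a0⁻¹ * x⁻¹ := by rw [e1]; group
        _ = a0 * x * (b * a0⁻¹) * x⁻¹ := by rw [e3]; group
        _ = a0 * x * a0⁻¹ * (b * x⁻¹) := by rw [e2]; group
        _ = y * b := by rw [e4, hy]; group
    have hyy : ((y : AddMonoid.End U) - 1) * ((y : AddMonoid.End U) - 1) = 0 := by
      refine AddMonoidHom.ext (fun w => ?_)
      show (y : AddMonoid.End U) ((y : AddMonoid.End U) w - w) -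
        ((y : AddMonoid.End U) w - w) = 0
      rw [sub_eq_zero]
      refine hyf _ ?_
      intro b hb
      have h6 : (b : AddMonoid.End U) w - w ∈ FxU B0 := fun c hc =>
        hqB c (hB0B hc) b (hB0B hb) w
      have h7 := hyf _ h6
      have h8 : (b : AddMonoid.End U) ((y : AddMonoid.End U) w) =
          (y : AddMonoid.End U) ((b : AddMonoid.End U) w) := by
        have h9 : (b : AddMonoid.End U) * y = y * b := by
          rw [← Units.val_mul, hyB0 b hb, Units.val_mul]
        have h10 : ((b : AddMonoid.End U) * y) w = ((y : AddMonoid.End U) * b) w := by rw [h9]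
        exact h10
      rw [map_sub] at h7
      rw [map_sub, h8]
      rw [sub_eq_iff_eq_add] at h7
      rw [h7]
      abel
    have h6 : y ^ p = 1 := pow_p (Λ := AddMonoid.End U) (hdec y) hyy h20
    obtain ⟨k, hk⟩ := hRr ⟨y, hyR⟩
    have hk' : y ^ r ^ k = 1 := congrArg Subtype.val hk
    have h7 : y = 1 := one_of_coprime h6 hk'
      (Nat.Coprime.pow_right k ((Nat.coprime_primes hp hr).mpr (fun h => hrp h.symm)))
    rw [hy] at h7
    have h8 := mul_inv_eq_one.mp h7
    exact mul_inv_eq_iff_eq_mul.mp h8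

end ff

end Pool.Agent.Work.MP_6d7bb4.helper94.Tv
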